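import Pool.Agent.MP_0c1703_gt.H59.Kit

/-! A path with distinct ends contains an arc with the same ends. -/

namespace Pool.Agent.MP_0c1703_gt.H59

open Set Filter Topology

namespace ArcA

variable {Y : Type} [MetricSpace Y]

/-- closed sets of parameters whose gaps are loops -/
structure Good (γ : ℝ → Y) (s t : ℝ) (E : Set ℝ) : Prop where
  cl : IsClosed E
  sub : E ⊆ Icc s t
  left : s ∈ E
  right : t ∈ E
  gap : ∀ u ∈ E, ∀ v ∈ E, u < v → (∀ z ∈ E, z ∉ Ioo u v) → γ u = γ v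

theorem exists_left {E : Set ℝ} (hE : IsClosed E) {a r : ℝ} (ha : a ∈ E) (har : a ≤ r) :
    ∃ u ∈ E, a ≤ u ∧ u ≤ r ∧ ∀ z ∈ E, z ≤ r → z ≤ u := by
  obtain ⟨u, hu, hg⟩ := (isCompact_Icc.inter_left hE : IsCompact (E ∩ Icc a r)).exists_isGreatest
    ⟨a, ha, le_rfl, har⟩
  refine ⟨u, hu.1, hu.2.1, hu.2.2, fun z hz hzr => ?_⟩
  rcases le_total a z with h | h
  · exact hg ⟨hz, h, hzr⟩
  · exact h.trans hu.2.1

theorem exists_right {E : Set ℝ} (hE : IsClosed E) {b r : ℝ} (hb : b ∈ E) (hrb : r ≤ b) :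
    ∃ v ∈ E, r ≤ v ∧ v ≤ b ∧ ∀ z ∈ E, r ≤ z → v ≤ z := by
  obtain ⟨v, hv, hg⟩ := (isCompact_Icc.inter_left hE : IsCompact (E ∩ Icc r b)).exists_isLeast
    ⟨b, hb, hrb, le_rfl⟩
  refine ⟨v, hv.1, hv.2.1, hv.2.2, fun z hz hzr => ?_⟩
  rcases le_total z b with h | h
  · exact hg ⟨hz, hzr, h⟩
  · exact hv.2.2.trans h

theorem unif {γ : ℝ → Y} {s t : ℝ} (hγ : ContinuousOn γ (Icc s t)) {ε : ℝ} (hε : 0 < ε) :
    ∃ δ > 0, ∀ x ∈ Icc s t, ∀ y ∈ Icc s t, |x - y| < δ → dist (γ x) (γ y) < ε := by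
  obtain ⟨δ, hδ, H⟩ := Metric.uniformContinuousOn_iff.1
    (isCompact_Icc.uniformContinuousOn_of_continuous hγ) ε hε
  exact ⟨δ, hδ, fun x hx y hy h => H x hx y hy (by rwa [Real.dist_eq])⟩

theorem good_Icc (γ : ℝ → Y) {s t : ℝ} (hst : s ≤ t) : Good γ s t (Icc s t) := by
  refine ⟨isClosed_Icc, subset_rfl, ⟨le_rfl, hst⟩, ⟨hst, le_rfl⟩, fun u hu v hv huv h => ?_⟩
  exact absurd ⟨by linarith, by linarith⟩
    (h ((u + v) / 2) ⟨by linarith [hu.1], by linarith [hv.2]⟩)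

theorem good_chain {γ : ℝ → Y} {s t : ℝ} (hγ : ContinuousOn γ (Icc s t)) {C : Set (Set ℝ)}
    (hC : ∀ E ∈ C, Good γ s t E) (hch : IsChain (· ⊆ ·) C) (hne : C.Nonempty) :
    Good γ s t (⋂₀ C) := by
  obtain ⟨E₀, hE₀⟩ := hne
  have hsub : ⋂₀ C ⊆ Icc s t := (sInter_subset_of_mem hE₀).trans (hC E₀ hE₀).sub
  refine ⟨isClosed_sInter fun E hE => (hC E hE).cl, hsub, fun E hE => (hC E hE).left,
    fun E hE => (hC E hE).right, fun u hu v hv huv hg => ?_⟩
  refine eq_of_forall_dist_le fun ε hε => ?_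
  obtain ⟨δ, hδ, H⟩ := unif hγ (half_pos hε)
  set η := min (δ / 2) ((v - u) / 3) with hη
  have η0 : 0 < η := lt_min (by linarith) (by linarith)
  have η1 : η ≤ δ / 2 := min_le_left _ _
  have η2 : η ≤ (v - u) / 3 := min_le_right _ _
  have : Nonempty C := ⟨⟨E₀, hE₀⟩⟩
  obtain ⟨⟨A, hA⟩, hAe⟩ := (isCompact_Icc (a := u + η) (b := v - η)).elim_directed_family_closed
    (fun A : C => (A : Set ℝ)) (fun A => (hC A A.2).cl)
    (by
      rw [eq_empty_iff_forall_notMem]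
      rintro z ⟨hz, hz'⟩
      refine hg z (fun A hA => mem_iInter.1 hz' ⟨A, hA⟩) ⟨by linarith [hz.1], by linarith [hz.2]⟩)
    (by
      rintro ⟨A, hA⟩ ⟨B, hB⟩
      rcases hch.total hA hB with h | h
      · exact ⟨⟨A, hA⟩, subset_rfl, h⟩
      · exact ⟨⟨B, hB⟩, h, subset_rfl⟩)
  have gA := hC A hA
  obtain ⟨u', hu', u1, u2, u3⟩ := exists_left gA.cl (hu A hA) (show u ≤ u + η by linarith)
  obtain ⟨v', hv', v1, v2, v3⟩ := exists_right gA.cl (hv A hA) (show v - η ≤ v by linarith)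
  have e : γ u' = γ v' := by
    refine gA.gap u' hu' v' hv' (by linarith) fun z hz hz' => ?_
    rcases le_total z (u + η) with h | h
    · exact absurd (u3 z hz h) (not_le.2 hz'.1)
    rcases le_total (v - η) z with h' | h'
    · exact absurd (v3 z hz h') (not_le.2 hz'.2)
    have : z ∈ Icc (u + η) (v - η) ∩ A := ⟨⟨h, h'⟩, hz⟩
    rw [show Icc (u + η) (v - η) ∩ A = ∅ from hAe] at this
    exact this
  have d1 := H u (hsub hu) u' (gA.sub hu') (abs_lt.2 ⟨by linarith, by linarith⟩)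
  have d2 := H v' (gA.sub hv') v (hsub hv) (abs_lt.2 ⟨by linarith, by linarith⟩)
  have := dist_triangle (γ u) (γ u') (γ v)
  rw [← e] at d2
  linarith

theorem good_remove {γ : ℝ → Y} {s t : ℝ} {E : Set ℝ} (h : Good γ s t E) {u v : ℝ} (hu : u ∈ E)
    (hv : v ∈ E) (huv : u < v) (e : γ u = γ v) : Good γ s t (E \ Ioo u v) := by
  refine ⟨h.cl.sdiff isOpen_Ioo, sdiff_subset.trans h.sub,
    ⟨h.left, fun k => absurd k.1 (not_lt.2 (h.sub hu).1)⟩,
    ⟨h.right, fun k => absurd k.2 (not_lt.2 (h.sub hv).2)⟩, fun u' hu' v' hv' huv' hg => ?_⟩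
  by_cases hw : ∃ w ∈ Ioo u v, w ∈ Ioo u' v'
  · obtain ⟨w, w1, w2⟩ := hw
    have a1 : u' ≤ u := not_lt.1 fun k => hu'.2 ⟨k, w2.1.trans w1.2⟩
    have a2 : v ≤ v' := not_lt.1 fun k => hv'.2 ⟨w1.1.trans w2.2, k⟩
    have b1 : u ≤ u' := not_lt.1 fun k =>
      hg u ⟨hu, fun k' => lt_irrefl _ k'.1⟩ ⟨k, huv.trans_le a2⟩
    have b2 : v' ≤ v := not_lt.1 fun k =>
      hg v ⟨hv, fun k' => lt_irrefl _ k'.2⟩ ⟨a1.trans_lt huv, k⟩
    rw [le_antisymm a1 b1, le_antisymm b2 a2]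
    exact e
  · refine h.gap u' hu'.1 v' hv'.1 huv' fun z hz hz' => ?_
    exact hg z ⟨hz, fun k => hw ⟨z, k, hz'⟩⟩ hz'

theorem exists_min {γ : ℝ → Y} {s t : ℝ} (hst : s ≤ t) (hγ : ContinuousOn γ (Icc s t)) :
    ∃ E, Good γ s t E ∧ ∀ u ∈ E, ∀ v ∈ E, γ u = γ v → ∀ z ∈ E, z ∉ Ioo u v := by
  obtain ⟨E, -, hE⟩ := zorn_superset_nonempty {E | Good γ s t E}
    (fun C hC hch hne => ⟨⋂₀ C, good_chain hγ hC hch hne, fun A hA => sInter_subset_of_mem hA⟩)
    (Icc s t) (good_Icc γ hst)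
  have g : Good γ s t E := hE.1
  refine ⟨E, g, fun u hu v hv e z hz hz' => ?_⟩
  have h1 : E ⊆ E \ Ioo u v :=
    hE.2 (good_remove g hu hv (hz'.1.trans hz'.2) e) sdiff_subset
  exact (h1 hz).2 hz'

/-- the part of the image up to time r -/
def KK (γ : ℝ → Y) (E : Set ℝ) (r : ℝ) : Set Y := γ '' (E ∩ Iic r)

/-- the clock -/
noncomputable def mm (γ : ℝ → Y) (s t : ℝ) (E : Set ℝ) (r : ℝ) : ℝ :=
  -∫ x in s..t, Metric.infDist (γ x) (KK γ E r)

section clock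

variable {γ : ℝ → Y} {s t : ℝ} {E : Set ℝ}

theorem KK_nonempty (g : Good γ s t E) {r : ℝ} (hr : s ≤ r) : (KK γ E r).Nonempty :=
  ⟨γ s, s, ⟨g.left, hr⟩, rfl⟩

theorem KK_mono {r r' : ℝ} (h : r ≤ r') : KK γ E r ⊆ KK γ E r' :=
  image_mono fun _ hz => ⟨hz.1, hz.2.trans h⟩

theorem KK_closed (hγ : ContinuousOn γ (Icc s t)) (g : Good γ s t E) (r : ℝ) :
    IsClosed (KK γ E r) := by
  have h1 : IsCompact (E ∩ Iic r) :=
    isCompact_Icc.of_isClosed_subset (g.cl.inter isClosed_Iic) (inter_subset_left.trans g.sub)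
  exact (h1.image_of_continuousOn (hγ.mono (inter_subset_left.trans g.sub))).isClosed

theorem cont_inf (hγ : ContinuousOn γ (Icc s t)) (K : Set Y) :
    ContinuousOn (fun x => Metric.infDist (γ x) K) (Icc s t) :=
  (Metric.continuous_infDist_pt K).comp_continuousOn hγ

theorem mm_mono (hst : s ≤ t) (hγ : ContinuousOn γ (Icc s t)) (g : Good γ s t E) {r r' : ℝ}
    (hr : s ≤ r) (h : r ≤ r') : mm γ s t E r ≤ mm γ s t E r' := by
  unfold mm
  rw [neg_le_neg_iff]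
  exact intervalIntegral.integral_mono_on hst ((cont_inf hγ _).intervalIntegrable_of_Icc hst)
    ((cont_inf hγ _).intervalIntegrable_of_Icc hst)
    fun x _ => Metric.infDist_le_infDist_of_subset (KK_mono h) (KK_nonempty g hr)

theorem mm_lt (hst : s < t) (hγ : ContinuousOn γ (Icc s t)) (g : Good γ s t E) {r v : ℝ}
    (hr : s ≤ r) (h : r ≤ v) (hv : v ∈ E) (hn : γ v ∉ KK γ E r) :
    mm γ s t E r < mm γ s t E v := by
  unfold mm
  rw [neg_lt_neg_iff]
  refine intervalIntegral.integral_lt_integral_of_continuousOn_of_le_of_exists_lt hst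
    (cont_inf hγ _) (cont_inf hγ _)
    (fun x _ => Metric.infDist_le_infDist_of_subset (KK_mono h) (KK_nonempty g hr))
    ⟨v, g.sub hv, ?_⟩
  rw [Metric.infDist_zero_of_mem (show γ v ∈ KK γ E v from ⟨v, ⟨hv, self_mem_Iic⟩, rfl⟩)]
  exact ((KK_closed hγ g r).notMem_iff_infDist_pos (KK_nonempty g hr)).1 hn

theorem near (g : Good γ s t E) {ε δ : ℝ}
    (H : ∀ x ∈ Icc s t, ∀ y ∈ Icc s t, |x - y| < δ → dist (γ x) (γ y) < ε) (hε : 0 < ε)
    {r r' : ℝ} (hr : r ∈ Icc s t) (h : r' - r < δ) {y : Y} (hy : y ∈ KK γ E r') :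
    ∃ y' ∈ KK γ E r, dist y y' < ε := by
  obtain ⟨z, ⟨hz, hzr⟩, rfl⟩ := hy
  have hzr' : z ≤ r' := hzr
  rcases le_total z r with k | k
  · exact ⟨γ z, ⟨z, ⟨hz, k⟩, rfl⟩, by simpa using hε⟩
  obtain ⟨u, hu, -, u2, u3⟩ := exists_left g.cl g.left hr.1
  obtain ⟨v, hv, v1, -, v3⟩ := exists_right g.cl g.right hr.2
  have e : γ u = γ v := by
    rcases (u2.trans v1).eq_or_lt with k' | k'
    · rw [k']
    refine g.gap u hu v hv k' fun w hw hw' => ?_
    rcases le_total w r with k'' | k''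
    · exact absurd (u3 w hw k'') (not_le.2 hw'.1)
    · exact absurd (v3 w hw k'') (not_le.2 hw'.2)
  have hvz := v3 z hz k
  refine ⟨γ u, ⟨u, ⟨hu, u2⟩, rfl⟩, ?_⟩
  rw [e]
  exact H z (g.sub hz) v (g.sub hv) (abs_lt.2 ⟨by linarith, by linarith⟩)

theorem mm_le (hst : s ≤ t) (hγ : ContinuousOn γ (Icc s t)) (g : Good γ s t E) {ε δ : ℝ}
    (H : ∀ x ∈ Icc s t, ∀ y ∈ Icc s t, |x - y| < δ → dist (γ x) (γ y) < ε) (hε : 0 < ε)
    {r r' : ℝ} (hr : r ∈ Icc s t) (hr' : s ≤ r') (h : r' - r < δ) :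
    mm γ s t E r' ≤ mm γ s t E r + (t - s) * ε := by
  have i1 := (cont_inf hγ (KK γ E r)).intervalIntegrable_of_Icc (μ := MeasureTheory.volume) hst
  have i2 := (cont_inf hγ (KK γ E r')).intervalIntegrable_of_Icc (μ := MeasureTheory.volume) hst
  have h1 : (∫ x in s..t, Metric.infDist (γ x) (KK γ E r)) ≤
      ∫ x in s..t, (Metric.infDist (γ x) (KK γ E r') + ε) := by
    refine intervalIntegral.integral_mono_on hst i1 (i2.add intervalIntegrable_const) fun x _ => ?_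
    rw [← sub_le_iff_le_add, Metric.le_infDist (KK_nonempty g hr')]
    intro y hy
    obtain ⟨y', hy', d⟩ := near g H hε hr h hy
    have a := Metric.infDist_le_dist_of_mem (x := γ x) hy'
    have b := dist_triangle (γ x) y y'
    linarith
  rw [intervalIntegral.integral_add i2 intervalIntegrable_const, intervalIntegral.integral_const,
    smul_eq_mul] at h1
  unfold mm
  linarith

theorem mm_cont (hst : s < t) (hγ : ContinuousOn γ (Icc s t)) (g : Good γ s t E) :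
    ContinuousOn (mm γ s t E) (Icc s t) := by
  rw [Metric.continuousOn_iff]
  intro r hr ε hε
  have hts : 0 < t - s := by linarith
  have hε' : 0 < ε / (2 * (t - s)) := by positivity
  obtain ⟨δ, hδ, H⟩ := unif hγ hε'
  refine ⟨δ, hδ, fun r' hr' d => ?_⟩
  rw [Real.dist_eq, abs_lt] at d ⊢
  have a := mm_le hst.le hγ g H hε' hr hr'.1 d.2
  have b := mm_le hst.le hγ g H hε' hr' hr.1 (by linarith [d.1])
  have e : (t - s) * (ε / (2 * (t - s))) = ε / 2 := by field_simp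
  rw [e] at a b
  constructor <;> linarith

theorem mm_image (hst : s < t) (hγ : ContinuousOn γ (Icc s t)) (g : Good γ s t E) :
    mm γ s t E '' E = Icc (mm γ s t E s) (mm γ s t E t) := by
  apply Subset.antisymm
  · rintro _ ⟨r, hr, rfl⟩
    exact ⟨mm_mono hst.le hγ g le_rfl (g.sub hr).1, mm_mono hst.le hγ g (g.sub hr).1 (g.sub hr).2⟩
  · intro ξ hξ
    obtain ⟨r, hr, rfl⟩ := intermediate_value_Icc hst.le (mm_cont hst hγ g) hξ
    obtain ⟨u, hu, -, u2, u3⟩ := exists_left g.cl g.left hr.1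
    refine ⟨u, hu, ?_⟩
    have : KK γ E u = KK γ E r :=
      (KK_mono u2).antisymm (image_mono fun z hz => ⟨hz.1, u3 z hz.1 hz.2⟩)
    unfold mm
    rw [this]

theorem mm_iff_le (hst : s < t) (hγ : ContinuousOn γ (Icc s t)) (g : Good γ s t E)
    (hm : ∀ u ∈ E, ∀ v ∈ E, γ u = γ v → ∀ z ∈ E, z ∉ Ioo u v) {u v : ℝ} (hu : u ∈ E) (hv : v ∈ E)
    (huv : u ≤ v) : mm γ s t E u = mm γ s t E v ↔ γ u = γ v := by
  constructor
  · intro e
    have h1 : γ v ∈ KK γ E u := by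
      by_contra hn
      exact (mm_lt hst hγ g (g.sub hu).1 huv hv hn).ne e
    obtain ⟨w, ⟨hw, hwu⟩, ew⟩ := h1
    have hwu' : w ≤ u := hwu
    rcases hwu'.eq_or_lt with k | k
    · rw [← k]; exact ew
    rcases huv.eq_or_lt with k' | k'
    · rw [k']
    exact absurd ⟨k, k'⟩ (hm w hw v hv ew u hu)
  · intro e
    have : KK γ E u = KK γ E v := by
      refine (KK_mono huv).antisymm ?_
      rintro _ ⟨z, ⟨hz, hzv⟩, rfl⟩
      have hzv' : z ≤ v := hzv
      rcases le_or_gt z u with k | k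
      · exact ⟨z, ⟨hz, k⟩, rfl⟩
      rcases hzv'.eq_or_lt with k' | k'
      · exact ⟨u, ⟨hu, self_mem_Iic⟩, by rw [k']; exact e⟩
      exact absurd ⟨k, k'⟩ (hm u hu v hv e z hz)
    unfold mm
    rw [this]

theorem mm_iff (hst : s < t) (hγ : ContinuousOn γ (Icc s t)) (g : Good γ s t E)
    (hm : ∀ u ∈ E, ∀ v ∈ E, γ u = γ v → ∀ z ∈ E, z ∉ Ioo u v) {u v : ℝ} (hu : u ∈ E)
    (hv : v ∈ E) : mm γ s t E u = mm γ s t E v ↔ γ u = γ v := by
  rcases le_total u v with h | h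
  · exact mm_iff_le hst hγ g hm hu hv h
  · rw [eq_comm, mm_iff_le hst hγ g hm hv hu h, eq_comm]

end clock

end ArcA

open ArcA in
theorem sArc : SArc := by
  intro Y _ γ s t hst hγ hne
  have hlt : s < t := hst.lt_of_ne fun e => hne (by rw [e])
  obtain ⟨E, g, hm⟩ := exists_min hst hγ
  set m := mm γ s t E with hmdef
  have him : m '' E = Icc (m s) (m t) := mm_image hlt hγ g
  have hiff : ∀ u ∈ E, ∀ v ∈ E, m u = m v ↔ γ u = γ v := fun u hu v hv =>
    mm_iff hlt hγ g hm hu hv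
  have hmst : m s < m t :=
    (mm_mono hst hγ g le_rfl hst).lt_of_ne fun e => hne ((hiff s g.left t g.right).1 e)
  let f : ℝ → Y := fun ξ => γ (Function.invFunOn m E ξ)
  have hf : ∀ a ∈ E, f (m a) = γ a := fun a ha =>
    (hiff _ (Function.invFunOn_mem ⟨a, ha, rfl⟩) a ha).1 (Function.invFunOn_eq ⟨a, ha, rfl⟩)
  have hE : IsCompact E := isCompact_Icc.of_isClosed_subset g.cl g.sub
  have fc : ContinuousOn f (Icc (m s) (m t)) := by
    rw [← him]
    exact quot hE ((mm_cont hlt hγ g).mono g.sub) ((hγ.mono g.sub).congr hf)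
  have hp : MapsTo (fun ξ : ℝ => m s + ξ * (m t - m s)) (Icc 0 1) (Icc (m s) (m t)) :=
    fun ξ hξ => ⟨by nlinarith [hξ.1], by nlinarith [hξ.2]⟩
  refine ⟨fun ξ => f (m s + ξ * (m t - m s)), ⟨⟨zero_le_one, fc.comp (by fun_prop) hp,
    fun ξ hξ => ?_⟩, fun ξ hξ ξ' hξ' e => ?_⟩, ?_, ?_⟩
  · have := hp hξ
    rw [← him] at this
    obtain ⟨a, ha, ea⟩ := this
    exact ⟨a, g.sub ha, by rw [← hf a ha, ea]⟩
  · have h1 := hp hξ
    have h2 := hp hξ'
    rw [← him] at h1 h2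
    obtain ⟨a, ha, ea⟩ := h1
    obtain ⟨b, hb, eb⟩ := h2
    have e' : γ a = γ b := by
      rw [← hf a ha, ← hf b hb, ea, eb]; exact e
    have e'' := (hiff a ha b hb).2 e'
    rw [ea, eb] at e''
    have : (ξ - ξ') * (m t - m s) = 0 := by
      have := e''
      simp only at this
      linarith
    rcases mul_eq_zero.1 this with k | k
    · linarith
    · linarith
  · simp only [zero_mul, add_zero]
    exact hf s g.left
  · simp only [one_mul, add_sub_cancel]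
    exact hf t g.right

end Pool.Agent.MP_0c1703_gt.H59
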