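import Pool.Agent.MP_0c1703_gt.H59.Kit

/-! Uniqueness, position and invariance of the balance point. -/

namespace Pool.Agent.MP_0c1703_gt.H59

open Set Filter Topology
open scoped Real

namespace Bal1A

theorem top_lt {f g θ : ℝ → ℝ} {a b : ℝ} (hab : a ≤ b) (hf : ContinuousOn f (Icc a b))
    (hg : ContinuousOn g (Icc a b)) (hθ : ContinuousOn θ (Icc a b))
    (h : ∀ t ∈ Icc a b, f t < g t) : Top f θ a b < Top g θ a b := by
  have hp : ContinuousOn (fun t => 12 / π * |θ t - π / 2|) (Icc a b) :=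
    continuousOn_const.mul (hθ.sub continuousOn_const).abs
  obtain ⟨t, ht, e⟩ := isCompact_Icc.exists_sSup_image_eq (nonempty_Icc.2 hab) (hf.sub hp)
  refine (e.trans_lt (sub_lt_sub_right (h t ht) _)).trans_le ?_
  exact le_csSup (isCompact_Icc.image_of_continuousOn (hg.sub hp)).bddAbove ⟨t, ht, rfl⟩

theorem top_congr {f g θ : ℝ → ℝ} {a b : ℝ} (h : ∀ t ∈ Icc a b, f t = g t) :
    Top f θ a b = Top g θ a b :=
  congrArg sSup (image_congr fun t ht => by rw [h t ht])

end Bal1A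

open Bal1A in
theorem sBal1 : SUni → SBal1 := by
  intro hU Y _ δ c x θ a b hδ hc hab hx hθ
  have hd : ∀ ξ, ContinuousOn (fun t => δ c ξ (x t)) (Icc a b) := fun ξ =>
    ((hδ.cont Unit (fun w => c w.2) (hc.cont.comp continuous_snd)).comp
      (f := fun z : ℝ => ((), ξ, z)) (by fun_prop)).comp_continuousOn hx
  have h0 : ∀ ξ, δ c ξ ξ = 0 := fun ξ => by linarith [hδ.anti c ξ ξ]
  have hI := isPreconnected_Icc.image x hx
  refine ⟨fun ξ ξ' h h' => ?_, fun ξ h => ?_, fun c' x' hc' hx' he t₁ ht₁ h => ?_⟩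
  · have key : ∀ ξ ξ', Bal δ c x θ a b ξ → Bal δ c x θ a b ξ' → ¬ ξ < ξ' := fun ξ ξ' h h' hlt => by
      have h1 : ∀ z, δ c ξ' z < δ c ξ z := fun z => by
        rw [hδ.anti c ξ', hδ.anti c ξ]
        exact neg_lt_neg (hδ.mono c hc z hlt)
      have h2 := top_lt hab (hd ξ') (hd ξ) hθ fun t _ => h1 _
      have h3 := top_lt hab (hd ξ).neg (hd ξ').neg hθ fun t _ => neg_lt_neg (h1 _)
      exact lt_irrefl _ ((h2.trans_eq h).trans (h3.trans_eq h'.symm))
    exact le_antisymm (not_lt.1 (key _ _ h' h)) (not_lt.1 (key _ _ h h'))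
  · have h1 : ∃ t ∈ Icc a b, x t ≤ ξ := by
      by_contra! hn
      refine (top_lt hab (hd ξ).neg (hd ξ) hθ fun t ht => ?_).ne' h
      have := hδ.mono c hc ξ (hn t ht)
      rw [h0] at this
      exact (neg_lt_zero.2 this).trans this
    have h2 : ∃ t ∈ Icc a b, ξ ≤ x t := by
      by_contra! hn
      refine (top_lt hab (hd ξ) (hd ξ).neg hθ fun t ht => ?_).ne h
      have := hδ.mono c hc ξ (hn t ht)
      rw [h0] at this
      exact this.trans (neg_pos.2 this)
    obtain ⟨s, hs, h1⟩ := h1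
    obtain ⟨t, ht, h2⟩ := h2
    obtain ⟨u, hu, e⟩ := hI.Icc_subset ⟨s, hs, rfl⟩ ⟨t, ht, rfl⟩ ⟨h1, h2⟩
    exact ⟨u, hu, e.symm⟩
  · obtain ⟨φ, hφ, hm, hφx⟩ := hU Y c c' x x' a b hc hc' hx hx' he
    have h1 : ∀ u ∈ x '' Icc a b, c' (φ u) = c u := by
      rintro _ ⟨t, ht, rfl⟩
      rw [hφx t ht, he t ht]
    have hS := fun s (hs : s ∈ Icc a b) t (ht : t ∈ Icc a b) =>
      hI.Icc_subset (mem_image_of_mem x hs) (mem_image_of_mem x ht)
    rcases hm with hm | hm
    · have h2 : ∀ s ∈ Icc a b, ∀ t ∈ Icc a b, x s ≤ x t → δ c' (x' s) (x' t) = δ c (x s) (x t) :=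
        fun s hs t ht hle => by
          rw [← hφx s hs, ← hφx t ht]
          exact hδ.invp c c' φ _ _ hle (hφ.mono (hS s hs t ht)) (hm.monotoneOn.mono (hS s hs t ht))
            fun u hu => h1 u (hS s hs t ht hu)
      have h3 : ∀ t ∈ Icc a b, δ c' (x' t₁) (x' t) = δ c (x t₁) (x t) := fun t ht => by
        rcases le_total (x t₁) (x t) with hle | hle
        · exact h2 _ ht₁ _ ht hle
        · rw [hδ.anti c', hδ.anti c, h2 _ ht _ ht₁ hle]
      exact (top_congr h3).trans (h.trans (top_congr fun t ht => by rw [h3 t ht]))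
    · have h2 : ∀ s ∈ Icc a b, ∀ t ∈ Icc a b, x s ≤ x t → δ c' (x' s) (x' t) = -δ c (x s) (x t) :=
        fun s hs t ht hle => by
          rw [← hφx s hs, ← hφx t ht]
          exact hδ.invm c c' φ _ _ hle (hφ.mono (hS s hs t ht)) (hm.antitoneOn.mono (hS s hs t ht))
            fun u hu => h1 u (hS s hs t ht hu)
      have h3 : ∀ t ∈ Icc a b, δ c' (x' t₁) (x' t) = -δ c (x t₁) (x t) := fun t ht => by
        rcases le_total (x t₁) (x t) with hle | hle
        · exact h2 _ ht₁ _ ht hle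
        · rw [hδ.anti c', hδ.anti c (x t₁), h2 _ ht _ ht₁ hle]
      exact (top_congr h3).trans (h.symm.trans (top_congr fun t ht => by rw [h3 t ht, neg_neg]))

end Pool.Agent.MP_0c1703_gt.H59
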