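import Pool.Agent.MP_0c1703_gt.H59.Kit

/-! The balance point depends continuously on parameters. -/

namespace Pool.Agent.MP_0c1703_gt.H59

open Set Filter Topology
open scoped Real

namespace Bal2A

theorem supOn {X : Type} [TopologicalSpace X] {S : Set X} {F : X × ℝ → ℝ} {a b : ℝ} (hab : a ≤ b)
    (hF : ContinuousOn F (S ×ˢ Icc a b)) :
    ContinuousOn (fun x => sSup ((fun t => F (x, t)) '' Icc a b)) S := by
  rw [continuousOn_iff_continuous_domRestrict]
  have h1 : Continuous fun w : S × ℝ => F (w.1, projIcc a b hab w.2) :=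
    hF.comp_continuous ((continuous_subtype_val.comp continuous_fst).prodMk
      (continuous_subtype_val.comp (continuous_projIcc.comp continuous_snd)))
      fun w => ⟨w.1.2, (projIcc a b hab w.2).2⟩
  refine (isCompact_Icc.continuous_sSup (K := Icc a b)
    (f := fun (x : S) (t : ℝ) => F (x, projIcc a b hab t)) h1).congr fun x => ?_
  exact congrArg sSup (image_congr fun t ht => by rw [projIcc_of_mem hab ht])

theorem top_ex {f θ : ℝ → ℝ} {a b : ℝ} (hab : a ≤ b) (hf : ContinuousOn f (Icc a b))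
    (hθ : ContinuousOn θ (Icc a b)) : ∃ t ∈ Icc a b, Top f θ a b = f t - 12 / π * |θ t - π / 2| ∧
      ∀ s ∈ Icc a b, f s - 12 / π * |θ s - π / 2| ≤ Top f θ a b := by
  obtain ⟨t, ht, e, h⟩ := isCompact_Icc.exists_sSup_image_eq_and_ge (nonempty_Icc.2 hab)
    (f := fun t => f t - 12 / π * |θ t - π / 2|) (by fun_prop)
  exact ⟨t, ht, e, fun s hs => (h s hs).trans e.ge⟩

end Bal2A

open Bal2A

theorem sBal2 : SImp → SBal2 := by
  intro hI Y C P _ _ _ δ h N p₀ κ x Θ a b hδ hh hl hab hN hp₀ hκ hx hΘ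
  have sl : ∀ {F : P × ℝ → ℝ}, ContinuousOn F (N ×ˢ Icc a b) → ∀ p ∈ N,
      ContinuousOn (fun t => F (p, t)) (Icc a b) := fun hF p hp =>
    hF.comp (by fun_prop) fun t ht => ⟨hp, ht⟩
  have h1 := supOn hab hx.abs
  obtain ⟨R, hR⟩ : ∃ R, R = sSup ((fun t => |x (p₀, t)|) '' Icc a b) + 1 := ⟨_, rfl⟩
  have oN := h1.isOpen_inter_preimage hN (isOpen_Iio (a := R))
  have m₀ : p₀ ∈ N ∩ (fun p => sSup ((fun t => |x (p, t)|) '' Icc a b)) ⁻¹' Iio R :=
    ⟨hp₀, by simp [hR]⟩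
  have hb : ∀ p ∈ N ∩ (fun p => sSup ((fun t => |x (p, t)|) '' Icc a b)) ⁻¹' Iio R,
      ∀ t ∈ Icc a b, |x (p, t)| ≤ R := fun p hp t ht =>
    (le_csSup (isCompact_Icc.image_of_continuousOn (sl hx.abs p hp.1)).bddAbove
      (mem_image_of_mem _ ht)).trans hp.2.le
  have sub : N ∩ (fun p => sSup ((fun t => |x (p, t)|) '' Icc a b)) ⁻¹' Iio R ⊆ N :=
    inter_subset_left
  generalize N ∩ (fun p => sSup ((fun t => |x (p, t)|) '' Icc a b)) ⁻¹' Iio R = N' at oN m₀ hb sub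
  have R0 : 0 ≤ R := (abs_nonneg _).trans (hb p₀ m₀ a ⟨le_rfl, hab⟩)
  have dc := hδ.cont C h hh
  have m1 : MapsTo (fun w : (P × ℝ) × ℝ => (w.1.1, w.2)) ((N' ×ˢ Icc (-R) R) ×ˢ Icc a b)
      (N ×ˢ Icc a b) := fun w hw => ⟨sub hw.1.1, hw.2⟩
  have c1 : ContinuousOn (fun w : (P × ℝ) × ℝ => δ (fun u => h (κ w.1.1, u)) w.1.2 (x (w.1.1, w.2)))
      ((N' ×ˢ Icc (-R) R) ×ˢ Icc a b) :=
    dc.comp_continuousOn (f := fun w : (P × ℝ) × ℝ => (κ w.1.1, w.1.2, x (w.1.1, w.2)))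
      ((hκ.comp (by fun_prop) fun w hw => sub hw.1.1).prodMk
        (ContinuousOn.prodMk (by fun_prop) (hx.comp (by fun_prop) m1)))
  have c2 : ContinuousOn (fun w : (P × ℝ) × ℝ => 12 / π * |Θ (w.1.1, w.2) - π / 2|)
      ((N' ×ˢ Icc (-R) R) ×ˢ Icc a b) :=
    continuousOn_const.mul ((hΘ.comp (by fun_prop) m1).sub continuousOn_const).abs
  have c3 : ∀ p ∈ N', ∀ z, ContinuousOn (fun t => δ (fun u => h (κ p, u)) z (x (p, t))) (Icc a b) :=
    fun p hp z => dc.comp_continuousOn (f := fun t => (κ p, z, x (p, t)))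
      (continuousOn_const.prodMk (continuousOn_const.prodMk (sl hx p (sub hp))))
  have Tp := fun p hp z => top_ex hab (c3 p hp z) (sl hΘ p (sub hp))
  have Tm := fun p hp z => top_ex hab (c3 p hp z).neg (sl hΘ p (sub hp))
  have d0 : ∀ c z, δ c z z = 0 := fun c z => by linarith [hδ.anti c z z]
  obtain ⟨g, hg, e⟩ := hI P N' (fun w =>
    Top (fun t => -δ (fun u => h (κ w.1, u)) w.2 (x (w.1, t))) (fun t => Θ (w.1, t)) a b -
      Top (fun t => δ (fun u => h (κ w.1, u)) w.2 (x (w.1, t))) (fun t => Θ (w.1, t)) a b) (-R) R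
    (by linarith) ((supOn hab (c1.neg.sub c2)).sub (supOn hab (c1.sub c2)))
    (fun p hp z _ z' _ hz => by
      obtain ⟨t, ht, e1, -⟩ := Tm p hp z
      obtain ⟨t', ht', e2, -⟩ := Tp p hp z'
      have k1 := (Tm p hp z').choose_spec.2.2 t ht
      have k2 := (Tp p hp z).choose_spec.2.2 t' ht'
      have k3 := hδ.mono _ (hl (κ p)) (x (p, t)) hz
      have k4 := hδ.mono _ (hl (κ p)) (x (p, t')) hz
      rw [hδ.anti _ _ z, hδ.anti _ _ z'] at k3 k4
      simp only [Pi.neg_def] at e1 k1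
      simp only
      linarith)
    fun p hp => by
      obtain ⟨t, ht, e1, -⟩ := Tm p hp (-R)
      obtain ⟨t', ht', e2, -⟩ := Tp p hp R
      have k1 := (Tp p hp (-R)).choose_spec.2.2 t ht
      have k2 := (Tm p hp R).choose_spec.2.2 t' ht'
      have k3 := (hδ.mono _ (hl (κ p)) (-R)).monotone (abs_le.1 (hb p hp t ht)).1
      have k4 := (hδ.mono _ (hl (κ p)) R).monotone (abs_le.1 (hb p hp t' ht')).2
      rw [d0] at k3 k4
      simp only [Pi.neg_def] at e1 k2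
      simp only
      constructor <;> linarith
  exact ⟨N', g, oN, m₀, sub, hg, fun p hp => (sub_eq_zero.1 (e p hp).2).symm⟩

end Pool.Agent.MP_0c1703_gt.H59
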