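import Pool.Agent.MP_0c1703_gt.H59.Kit

/-! Row Box: a continuous family of oriented plaques gives a flow box. -/

namespace Pool.Agent.MP_0c1703_gt.H59

open Set Filter Topology

namespace BoxA

theorem ex_phi {d : ℝ} (hd : 0 < d) : ∃ φ : ℝ → ℝ, IsEmbedding φ ∧ range φ = Ioo (-d) d := by
  refine ⟨fun u => d * (orderIsoIooNegOneOne ℝ u : ℝ), (Homeomorph.mulLeft₀ d hd.ne').isEmbedding.comp
    (IsEmbedding.subtypeVal.comp (orderIsoIooNegOneOne ℝ).toHomeomorph.isEmbedding), ?_⟩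
  ext x
  constructor
  · rintro ⟨u, rfl⟩
    obtain ⟨h1, h2⟩ := (orderIsoIooNegOneOne ℝ u).2
    constructor <;> nlinarith
  · rintro ⟨h1, h2⟩
    obtain ⟨u, hu⟩ := (orderIsoIooNegOneOne ℝ).surjective ⟨x / d,
      by rw [lt_div_iff₀ hd]; linarith, by rw [div_lt_iff₀ hd]; linarith⟩
    refine ⟨u, ?_⟩
    simp only [hu]
    field_simp

variable {Y : Type} [MetricSpace Y] {N : Set Y} {h : Y → ℝ → Y} {m : ℝ} {y₀ : Y}

theorem ex_min {F : Y × ℝ → ℝ} (hm : 0 ≤ m) (hF : ContinuousOn F (N ×ˢ Icc 0 m)) :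
    ∃ s : Y → ℝ, ContinuousOn s N ∧ ∀ y ∈ N, (∀ ξ ∈ Icc 0 m, s y ≤ F (y, ξ)) ∧
      ∃ ξ ∈ Icc 0 m, s y = F (y, ξ) := by
  have hc : Continuous fun w : N × Icc (0 : ℝ) m => F (w.1, w.2) :=
    hF.comp_continuous (by fun_prop) fun w => ⟨w.1.2, w.2.2⟩
  refine ⟨fun y => sInf ((fun ξ : Icc (0 : ℝ) m => F (y, ξ)) '' univ), ?_, fun y hy => ?_⟩
  · rw [continuousOn_iff_continuous_domRestrict]
    exact isCompact_univ.continuous_sInf (f := fun (y : N) (ξ : Icc (0 : ℝ) m) => F (y, ξ)) hc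
  · have h1 : Continuous fun ξ : Icc (0 : ℝ) m => F (y, ξ) :=
      hc.comp (f := fun ξ => ((⟨y, hy⟩ : N), ξ)) (by fun_prop)
    obtain ⟨ξ, -, e, hξ⟩ := isCompact_univ.exists_sInf_image_eq_and_le
      ⟨⟨0, le_rfl, hm⟩, mem_univ _⟩ h1.continuousOn
    exact ⟨fun ζ hζ => e.trans_le (hξ ⟨ζ, hζ⟩ (mem_univ _)), ξ, ξ.2, e⟩

theorem near (P : Plaq N h m) (hy : y₀ ∈ N) {U : Set Y} (hU : U ∈ 𝓝 y₀) {d : ℝ} (hd : 0 < d) :
    ∃ V d', IsOpen V ∧ y₀ ∈ V ∧ V ⊆ N ∧ 0 < d' ∧ d' ≤ d ∧ d' ≤ m ∧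
      ∀ y ∈ V, ∀ ξ ∈ Icc (-d') d', h y ξ ∈ U := by
  have hm := P.pos
  have h1 : ContinuousAt (fun w : Y × ℝ => h w.1 w.2) (y₀, 0) :=
    P.cont.continuousAt (prod_mem_nhds (P.op.mem_nhds hy) (Icc_mem_nhds (by linarith) hm))
  have h2 := h1.preimage_mem_nhds (t := U) (by simpa only [P.zero y₀ hy] using hU)
  obtain ⟨A, hA, B, hB, hAB⟩ := mem_nhds_prod_iff.1 h2
  obtain ⟨V, hV, hVo, hV0⟩ := mem_nhds_iff.1 (inter_mem hA (P.op.mem_nhds hy))
  obtain ⟨ε, hε, hb⟩ := Metric.nhds_basis_closedBall.mem_iff.1 hB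
  refine ⟨V, min ε (min d m), hVo, hV0, fun y hy => (hV hy).2, by positivity,
    (min_le_right _ _).trans (min_le_left _ _), (min_le_right _ _).trans (min_le_right _ _),
    fun y hy ξ hξ => hAB (mk_mem_prod (hV hy).1 (hb ?_))⟩
  rw [Real.closedBall_eq_Icc]
  have := min_le_left ε (min d m)
  exact ⟨by linarith [hξ.1], by linarith [hξ.2]⟩

/-- a function increasing along the plaques -/
theorem ex_time (P : Plaq N h m) (hy : y₀ ∈ N) : ∃ (s : Y → ℝ) (U : Set Y), ContinuousOn s N ∧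
    IsOpen U ∧ y₀ ∈ U ∧ U ⊆ N ∧ ∀ y ∈ U, ∀ z ∈ Ioc 0 m, h y z ∈ U → s y < s (h y z) := by
  have hm := P.pos
  have hm2 : -(m / 2) ∈ Icc (-m) m := ⟨by linarith, by linarith⟩
  set e := h y₀ (-(m / 2)) with he
  have hd : 0 < dist y₀ e := by
    obtain ⟨δ, hδ, H⟩ := P.uf (m / 2) (by linarith)
    refine dist_nonneg.lt_of_ne fun h0 => ?_
    have := H y₀ hy _ hm2 (h0 ▸ hδ)
    rw [abs_neg, abs_of_pos (by linarith)] at this
    exact lt_irrefl _ this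
  set d := dist y₀ e with hdd
  have hK : 0 < 4 * m / d := by positivity
  have hKd : 4 * m / d * d = 4 * m := by field_simp
  set K := 4 * m / d
  have hc : ContinuousOn (fun w : Y × ℝ => h w.1 (-w.2)) (N ×ˢ Icc 0 m) :=
    P.cont.comp (f := fun w : Y × ℝ => (w.1, -w.2)) (by fun_prop) fun w hw =>
      ⟨hw.1, by linarith [hw.2.2], by linarith [hw.2.1]⟩
  obtain ⟨s, hs, hs'⟩ := ex_min (F := fun w => w.2 + K * dist (h w.1 (-w.2)) e) hm.le
    (continuousOn_snd.add (continuousOn_const.mul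
      ((continuous_id.dist continuous_const).comp_continuousOn hc)))
  obtain ⟨V, d', hVo, hV0, hVN, hd', -, -, hV⟩ :=
    near P hy (Metric.ball_mem_nhds y₀ (half_pos hd)) hm
  obtain ⟨δ, hδ, H⟩ := P.uf d' hd'
  have h1 : ContinuousAt (fun y => h y (-(m / 2))) y₀ :=
    (P.cont.comp (f := fun y : Y => (y, -(m / 2))) (s := N) (by fun_prop)
      fun y hy => ⟨hy, hm2⟩).continuousAt (P.op.mem_nhds hy)
  obtain ⟨U, hU, hUo, hU0⟩ := mem_nhds_iff.1 (inter_mem (inter_mem (hVo.mem_nhds hV0)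
    (Metric.ball_mem_nhds y₀ (half_pos hδ)))
    (h1.preimage_mem_nhds (Metric.ball_mem_nhds e (show 0 < d / 4 by positivity))))
  refine ⟨s, U, hs, hUo, hU0, fun y hy => hVN (hU hy).1.1, fun y hy z hz hz' => ?_⟩
  have hyN := hVN (hU hy).1.1
  have hzN := hVN (hU hz').1.1
  obtain ⟨ξ, hξ, e1⟩ := (hs' _ hzN).2
  rcases le_or_gt z ξ with hl | hl
  · obtain ⟨ζ, hζ, e2⟩ := P.behind y hyN z ξ hz.1 hl hξ.2 hzN
    have := (hs' y hyN).1 ζ ⟨hζ.1, hζ.2.le.trans hξ.2⟩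
    simp only [e2] at this e1
    linarith [hζ.2]
  · have k1 : |z| < d' := H y hyN z ⟨by linarith [hz.1], hz.2⟩ (by
      have := dist_triangle_right y (h y z) y₀
      linarith [Metric.mem_ball.1 (hU hy).1.2, Metric.mem_ball.1 (hU hz').1.2])
    have k2 := Metric.mem_ball.1 (hV _ (hU hz').1.1 (-ξ)
      ⟨by linarith [le_abs_self z], by linarith [hξ.1]⟩)
    have k3 := dist_triangle_left y₀ e (h (h y z) (-ξ))
    have k4 := (hs' y hyN).1 (m / 2) ⟨by linarith, by linarith⟩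
    have k5 : dist (h y (-(m / 2))) e < d / 4 := Metric.mem_ball.1 (hU hy).2
    have k6 := mul_le_mul_of_nonneg_left k5.le hK.le
    have k7 := mul_le_mul_of_nonneg_left
      (show d / 2 ≤ dist (h (h y z) (-ξ)) e by linarith) hK.le
    simp only at k4 e1
    linarith [hξ.1]

end BoxA

open BoxA in
theorem sBox : SImp → SBox := by
  intro hImp Y _ N h m y₀ P hy
  have hm := P.pos
  obtain ⟨s, U, hs, hUo, hU0, hUN, hlt⟩ := ex_time P hy
  obtain ⟨V, d, hVo, hV0, hVN, hd, -, hdm, hV⟩ := near P hy (hUo.mem_nhds hU0) hm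
  have hsub : Icc (-d) d ⊆ Icc (-m) m := Icc_subset_Icc (by linarith) hdm
  have hmono : ∀ y ∈ V, StrictMonoOn (fun ξ => s (h y ξ) - s y₀) (Icc (-d) d) :=
    fun y hy a ha b hb hab => by
      obtain ⟨ζ, hζ, e⟩ := P.ahead y (hVN hy) a b (hsub ha).1 hab (hsub hb).2 (hUN (hV y hy a ha))
        (hUN (hV y hy b hb))
      have := hlt _ (hV y hy a ha) ζ hζ (e ▸ hV y hy b hb)
      rw [e] at this
      exact sub_lt_sub_right this _
  have hc : ContinuousOn (fun w : Y × ℝ => s (h w.1 w.2) - s y₀) (V ×ˢ Icc (-d) d) :=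
    (hs.comp (P.cont.mono (prod_mono hVN hsub)) fun w hw => hUN (hV _ hw.1 _ hw.2)).sub
      continuousOn_const
  have m0 : (0 : ℝ) ∈ Icc (-d) d := ⟨by linarith, hd.le⟩
  have m1 : -d ∈ Icc (-d) d := ⟨le_rfl, by linarith⟩
  have m2 : d ∈ Icc (-d) d := ⟨by linarith, le_rfl⟩
  have hca : ∀ ξ ∈ Icc (-d) d, ContinuousAt (fun y => s (h y ξ) - s y₀) y₀ := fun ξ hξ =>
    (hc.comp (f := fun y : Y => (y, ξ)) (s := V) (by fun_prop)
      fun y hy => ⟨hy, hξ⟩).continuousAt (hVo.mem_nhds hV0)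
  have l1 := hmono y₀ hV0 m1 m0 (by linarith)
  have l2 := hmono y₀ hV0 m0 m2 hd
  simp only [P.zero y₀ hy, sub_self] at l1 l2
  obtain ⟨W, hW, hWo, hW0⟩ := mem_nhds_iff.1 (inter_mem (hVo.mem_nhds hV0) (inter_mem
    ((hca _ m1).preimage_mem_nhds (Iio_mem_nhds l1))
    ((hca _ m2).preimage_mem_nhds (Ioi_mem_nhds l2))))
  have hWV : W ⊆ V := fun y hy => (hW hy).1
  obtain ⟨x, hx, hx'⟩ := hImp Y W (fun w => s (h w.1 w.2) - s y₀) (-d) d (by linarith)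
    (hc.mono (prod_mono hWV Subset.rfl)) (fun y hy => hmono y (hWV hy))
    fun y hy => ⟨le_of_lt (hW hy).2.1, le_of_lt (hW hy).2.2⟩
  obtain ⟨Z, d', hZo, hZ0, hZN, hd', hdd, -, hZ⟩ := near P hy (hWo.mem_nhds hW0) hd
  have hZU : Z ⊆ U := fun y hy => by
    have k1 := hZ y hy 0 ⟨by linarith, hd'.le⟩
    rw [P.zero y (hZN hy)] at k1
    have k2 := hV y (hWV k1) 0 m0
    rwa [P.zero y (hZN hy)] at k2
  obtain ⟨φ, hφ, hr⟩ := ex_phi hd'
  have hφm : ∀ u, φ u ∈ Ioo (-d') d' := fun u => hr ▸ mem_range_self u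
  have hφd : ∀ u, φ u ∈ Icc (-d) d := fun u =>
    ⟨by linarith [(hφm u).1], by linarith [(hφm u).2]⟩
  let C : Set Y := {k | k ∈ Z ∧ s k = s y₀}
  let H : C × ℝ → Y := fun w => h w.1 (φ w.2)
  have hHW : ∀ w, H w ∈ W := fun w => hZ _ w.1.2.1 _ (Ioo_subset_Icc_self (hφm w.2))
  have hHc : Continuous H :=
    P.cont.comp_continuous (f := fun w : C × ℝ => ((w.1 : Y), φ w.2))
      ((continuous_subtype_val.comp continuous_fst).prodMk (hφ.continuous.comp continuous_snd))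
      fun w => ⟨hZN w.1.2.1, hsub (hφd w.2)⟩
  have hback : ∀ w, h (H w) (-φ w.2) = w.1 := fun w =>
    P.back _ (hZN w.1.2.1) _ (hsub (hφd w.2)) (hVN (hWV (hHW w)))
  have hxH : ∀ w, x (H w) = -φ w.2 := fun w => by
    refine (hmono _ (hWV (hHW w))).injOn (hx' _ (hHW w)).1
      ⟨by linarith [(hφd w.2).2], by linarith [(hφd w.2).1]⟩ ?_
    simp only [hback w, w.1.2.2, sub_self]
    exact (hx' _ (hHW w)).2
  have hG : ContinuousOn (fun y => (h y (x y), -x y)) W :=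
    (P.cont.comp (f := fun y => (y, x y)) (continuousOn_id.prodMk hx)
      fun y hy => ⟨hVN (hWV hy), hsub (hx' y hy).1⟩).prodMk hx.neg
  have hemb : IsEmbedding H := by
    refine IsEmbedding.subtypeVal.comp (f := fun w => (⟨H w, hHW w⟩ : W))
      (IsEmbedding.of_comp (hHc.subtype_mk _) (continuousOn_iff_continuous_domRestrict.1 hG) ?_)
    have e : (W.domRestrict fun y => (h y (x y), -x y)) ∘ (fun w => (⟨H w, hHW w⟩ : W)) =
        Prod.map Subtype.val φ := by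
      funext w
      change (h (H w) (x (H w)), -x (H w)) = _
      rw [hxH, hback, neg_neg]
      rfl
    rw [e]
    exact IsEmbedding.subtypeVal.prodMap hφ
  have hrange : range H = W ∩ (fun y => (h y (x y), -x y)) ⁻¹' (Z ×ˢ Ioo (-d') d') := by
    ext y
    constructor
    · rintro ⟨w, rfl⟩
      refine ⟨hHW w, ?_⟩
      change (h (H w) (x (H w)), -x (H w)) ∈ Z ×ˢ Ioo (-d') d'
      rw [hxH, hback, neg_neg]
      exact ⟨w.1.2.1, hφm w.2⟩
    · rintro ⟨hyW, k1, k2⟩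
      obtain ⟨u, hu⟩ : -x y ∈ range φ := hr ▸ k2
      refine ⟨(⟨h y (x y), k1, sub_eq_zero.1 (hx' y hyW).2⟩, u), ?_⟩
      change h (h y (x y)) (φ u) = y
      rw [hu]
      exact P.back y (hVN (hWV hyW)) _ (hsub (hx' y hyW).1) (hZN k1)
  refine ⟨C, inferInstance, H, ⟨IsOpenEmbedding.isLocalHomeomorph ⟨hemb, ?_⟩,
    fun f a b hab hf => ?_⟩, ?_⟩
  · rw [hrange]
    exact hG.isOpen_inter_preimage hWo (hZo.prod isOpen_Ioo)
  · have hp : PathIn N (fun t => (f t : Y)) a b :=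
      ⟨hab, continuous_subtype_val.comp_continuousOn hf, fun t _ => hZN (f t).2.1⟩
    obtain ⟨ξ, hξ, e⟩ := P.loc _ (hZN (f a).2.1) _
      (hp.joined (left_mem_Icc.2 hab) (right_mem_Icc.2 hab))
    rcases lt_trichotomy ξ 0 with h0 | rfl | h0
    · have e' := P.back _ (hZN (f a).2.1) ξ hξ (e ▸ hZN (f b).2.1)
      rw [← e] at e'
      have := hlt _ (hZU (f b).2.1) (-ξ) ⟨by linarith, by linarith [hξ.1]⟩
        (e'.symm ▸ hZU (f a).2.1)
      rw [e', (f a).2.2, (f b).2.2] at this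
      exact absurd this (lt_irrefl _)
    · rw [P.zero _ (hZN (f a).2.1)] at e
      exact (Subtype.ext e).symm
    · have := hlt _ (hZU (f a).2.1) ξ ⟨h0, hξ.2⟩ (e ▸ hZU (f b).2.1)
      rw [← e, (f a).2.2, (f b).2.2] at this
      exact absurd this (lt_irrefl _)
  · obtain ⟨u, hu⟩ : (0 : ℝ) ∈ range φ := hr ▸ ⟨by linarith, hd'⟩
    refine ⟨(⟨y₀, hZ0, rfl⟩, u), ?_⟩
    change h y₀ (φ u) = y₀
    rw [hu, P.zero y₀ hy]

end Pool.Agent.MP_0c1703_gt.H59
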