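import Pool.Agent.MP_0c1703_gt.H59.Kit

/-! The chain estimate along an arc. -/

namespace Pool.Agent.MP_0c1703_gt.H59

open Set

theorem sChain : SChain := by
  intro Y _ β P P' s ρ κ e d N hs hP hlt h0 hlow he hd hκ hN
  by_contra hc
  push Not at hc
  have e0 : 0 ≤ e := dist_nonneg.trans (he 0 ⟨le_rfl, hs⟩)
  have key : ∀ j : ℕ, j ≤ N → ∃ τ ∈ Icc 0 s, j * κ ≤ τ ∧ P τ ≤ P s ∧
      dist (β (P 0)) (β (P τ)) ≤ j * e := by
    intro j
    induction j with
    | zero => exact fun _ => ⟨0, ⟨le_rfl, hs⟩, by simp, h0, by simp⟩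
    | succ j ih =>
      intro hj
      obtain ⟨τ, hτ, h1, h2, h3⟩ := ih (by omega)
      have jN : (j : ℝ) * e ≤ N * e :=
        mul_le_mul_of_nonneg_right (by exact_mod_cast (by omega : j ≤ N)) e0
      have h4 : P' τ ≤ P s := by
        by_contra h4
        push Not at h4
        have := hd τ hτ (P s) ⟨h2, h4.le⟩
        linarith [dist_triangle (β (P 0)) (β (P τ)) (β (P s))]
      obtain ⟨τ', ⟨a1, a2⟩, a3⟩ := intermediate_value_Icc hτ.2
        (hP.mono (Icc_subset_Icc_left hτ.1)) ⟨(hlt τ hτ).le, h4⟩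
      have sub : Icc τ τ' ⊆ Icc 0 s := Icc_subset_Icc hτ.1 a2
      obtain ⟨u, hu, v, hv, huv⟩ := hlow τ hτ
      rw [← a3] at hu hv
      obtain ⟨r, hr, rfl⟩ := intermediate_value_Icc a1 (hP.mono sub) hu
      obtain ⟨r', hr', rfl⟩ := intermediate_value_Icc a1 (hP.mono sub) hv
      have b1 : κ ≤ |r - r'| := not_lt.1 fun h => (hκ r (sub hr) r' (sub hr') h).not_ge huv
      have b2 : |r - r'| ≤ τ' - τ :=
        abs_le.2 ⟨by linarith [hr.1, hr'.2], by linarith [hr.2, hr'.1]⟩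
      refine ⟨τ', ⟨hτ.1.trans a1, a2⟩, by push_cast; linarith, a3 ▸ h4, ?_⟩
      have := he τ hτ
      rw [← a3] at this
      push_cast
      linarith [dist_triangle (β (P 0)) (β (P τ)) (β (P τ'))]
  obtain ⟨τ, hτ, h1, -⟩ := key N le_rfl
  linarith [hτ.2]

end Pool.Agent.MP_0c1703_gt.H59
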