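import Pool.Agent.MP_0c1703_gt.H59.Kit

/-! A compact space with flow boxes that is locally path connected at a point is covered by one
leaf (row Circ1, helper79). -/

namespace Pool.Agent.MP_0c1703_gt.H59

open Set Filter Topology Pool.Agent.MP_0c1703_gt.H58

namespace Circ1A

variable {Y : Type} [MetricSpace Y]

theorem joined_of_cont {c : ℝ → Y} (hc : Continuous c) (u v : ℝ) : Joined (c u) (c v) :=
  ⟨(Path.segment u v).map hc⟩

theorem all_joined (hL : SLeaf) {E : Set Y} {y₀ : Y} (hB : ∀ y : Y, HasBox y) (hE : E.Finite)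
    (hJ : ∀ y ∉ E, Joined y₀ y) (y : Y) : Joined y₀ y := by
  obtain ⟨C, _, h, hb, ⟨k, ξ⟩, rfl⟩ := hB y
  have hl := (hL Y).1 C h hb k
  obtain ⟨ε, hε, hi⟩ := hl.inj ξ
  have h1 : ((fun ξ => h (k, ξ)) '' Ioo (ξ - ε) (ξ + ε)).Infinite :=
    (Ioo_infinite (by linarith)).image hi
  obtain ⟨_, ⟨u, _, rfl⟩, hu⟩ := h1.exists_notMem_finite hE
  exact (hJ _ hu).trans (joined_of_cont hl.cont u ξ)

theorem open_pt {C : Type} [TopologicalSpace C] {h : C × ℝ → Y} (hb : Box h) {k : C} {x : ℝ}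
    (hU : ∀ U ∈ 𝓝 (h (k, x)), ∃ U' ∈ 𝓝 (h (k, x)), ∀ y ∈ U', JoinedIn U (h (k, x)) y) :
    IsOpen ({k} : Set C) := by
  obtain ⟨e, he, hh⟩ := hb.loc (k, x)
  have h0 : h (k, x) ∈ e.target := by
    rw [hh]
    exact e.map_source he
  obtain ⟨U', hU', hj⟩ := hU e.target (e.open_target.mem_nhds h0)
  have key : ∀ z ∈ e.source, h z ∈ U' → z.1 = k := by
    intro z hz hz'
    obtain ⟨γ, hγ, e0, e1⟩ := exists_pathIn (hj _ hz')
    have h1 := hb.tpd (fun t => (e.symm (γ t)).1) 0 1 zero_le_one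
      (continuous_fst.comp_continuousOn (e.continuousOn_symm.comp hγ.cont hγ.mem))
    simp only [e0, e1] at h1
    rw [hh, e.left_inv he, e.left_inv hz] at h1
    exact h1.symm
  have h2 : e.source ∩ h ⁻¹' U' ∈ 𝓝 (k, x) :=
    inter_mem (e.open_source.mem_nhds he) (hb.loc.continuous.continuousAt hU')
  have h3 : Continuous fun k' : C => (k', x) := by fun_prop
  rw [isOpen_singleton_iff_nhds_eq_pure]
  refine le_antisymm (le_pure_iff.2 ?_) (pure_le_nhds k)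
  exact mem_of_superset (h3.continuousAt h2) fun k' hk' => key _ hk'.1 hk'.2

theorem loc_leaf {C : Type} [TopologicalSpace C] {h : C × ℝ → Y} (hb : Box h) {k : C}
    (hk : IsOpen ({k} : Set C)) : IsLocalHomeomorph fun ξ : ℝ => h (k, ξ) := by
  have h1 : IsOpenEmbedding fun ξ : ℝ => ((k, ξ) : C × ℝ) := by
    refine IsOpenEmbedding.of_continuous_injective_isOpenMap (by fun_prop)
      (fun a b e => (Prod.ext_iff.1 e).2) fun V hV => ?_
    have h2 : (fun ξ : ℝ => ((k, ξ) : C × ℝ)) '' V = {k} ×ˢ V := singleton_prod.symm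
    rw [h2]
    exact hk.prod hV
  exact hb.loc.comp h1.isLocalHomeomorph

theorem cover (hLB : SLB) {y₀ : Y} (hB : ∀ y : Y, HasBox y)
    (hU : ∀ U ∈ 𝓝 y₀, ∃ U' ∈ 𝓝 y₀, ∀ y ∈ U', JoinedIn U y₀ y) {y : Y} (p : Path y₀ y) :
    ∃ (c : ℝ → Y) (R : ℝ), IsLocalHomeomorph c ∧ range p ⊆ c '' Ioo (-R) R := by
  obtain ⟨C, _, h, N, κ, x, hb, -, hN, -, hx, hp⟩ := hLB Y Unit (fun w => p.extend w.2) () 0 1
    zero_le_one (p.continuous_extend.comp continuous_snd).continuousOn fun t _ => hB _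
  have h0 := hp () hN 0 (left_mem_Icc.2 zero_le_one)
  simp only [Path.extend_zero] at h0
  have hk : IsOpen ({κ ()} : Set C) := open_pt hb (x := x ((), 0)) (by rw [← h0]; exact hU)
  have hc : ContinuousOn (fun t : ℝ => x ((), t)) (Icc 0 1) :=
    hx.comp (by fun_prop) fun t ht => ⟨hN, ht⟩
  obtain ⟨R, hR⟩ := isCompact_Icc.exists_bound_of_continuousOn hc
  refine ⟨_, R + 1, loc_leaf hb hk, ?_⟩
  rintro _ ⟨t, rfl⟩
  have h1 := abs_le.1 (hR t t.2)
  refine ⟨x ((), t), ⟨by linarith [h1.1], by linarith [h1.2]⟩, ?_⟩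
  have h2 := hp () hN t t.2
  simp only [Path.extend_extends'] at h2
  exact h2.symm

theorem loop {y₀ : Y} (hJ : ∀ y, Joined y₀ y) {c : ℝ → Y} (hc : Continuous c) (R : ℝ) :
    ∃ p : Path y₀ y₀, c '' Ioo (-R) R ⊆ range p := by
  obtain ⟨p⟩ := hJ (c (-R))
  obtain ⟨q⟩ := (hJ (c R)).symm
  refine ⟨(p.trans ((Path.segment (-R) R).map hc)).trans q, ?_⟩
  rintro _ ⟨u, hu, rfl⟩
  rw [Path.trans_range, Path.trans_range]
  refine Or.inl (Or.inr ?_)
  have h1 : u ∈ range (Path.segment (-R) R) := by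
    rw [Path.range_segment, segment_eq_Icc (hu.1.trans hu.2).le]
    exact Ioo_subset_Icc_self hu
  obtain ⟨t, rfl⟩ := h1
  exact ⟨t, rfl⟩

end Circ1A

open Circ1A

theorem sCirc1 : SLeaf → SLB → SCirc1 := by
  intro hL hLB Y _ _ E y₀ hB hE hJ hU
  have hJ' := all_joined hL hB hE hJ
  have h1 : ∃ p : Path y₀ y₀, univ ⊆ range p := by
    refine isCompact_univ.induction_on (p := fun S => ∃ p : Path y₀ y₀, S ⊆ range p)
      ⟨Path.refl y₀, empty_subset _⟩ (fun S T hST ⟨p, hp⟩ => ⟨p, hST.trans hp⟩)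
      (fun S T ⟨p, hp⟩ ⟨q, hq⟩ => ⟨p.trans q, ?_⟩) fun y _ => ?_
    · rw [Path.trans_range]
      exact union_subset_union hp hq
    · obtain ⟨p⟩ := hJ' y
      obtain ⟨c, R, hc, hp⟩ := cover hLB hB hU p
      exact ⟨_, mem_nhdsWithin_of_mem_nhds ((hc.isOpenMap _ isOpen_Ioo).mem_nhds
        (hp p.target_mem_range)), loop hJ' hc.continuous R⟩
  obtain ⟨p, hp⟩ := h1
  obtain ⟨c, R, hc, h2⟩ := cover hLB hB hU p
  exact ⟨c, -R, R, hc,
    eq_univ_of_univ_subset ((hp.trans h2).trans (image_mono Ioo_subset_Icc_self))⟩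

end Pool.Agent.MP_0c1703_gt.H59
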