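import Pool.Agent.MP_0c1703_gt.H59.Kit

/-! A compact space covered by a locally homeomorphic curve is a circle. -/

namespace Pool.Agent.MP_0c1703_gt.H59

open Set Filter Topology Pool.Agent.MP_0c1703_gt.H58
open scoped Real

namespace Circ2A

variable {Y : Type} [MetricSpace Y] {c : ℝ → Y}

theorem loop (hc : IsLocalHomeomorph c) {α β : ℝ} (hs : c '' Icc α β = univ) :
    ∃ x₁ x₂, x₁ < x₂ ∧ c x₁ = c x₂ ∧
      ∀ u v, x₁ ≤ u → u < v → v ≤ x₂ → c u = c v → u = x₁ ∧ v = x₂ := by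
  choose U hU hx hi using hc.isLocallyInjective
  have hcl : IsClosed {p : ℝ × ℝ | c p.1 = c p.2 ∧ p.1 < p.2} := by
    have e : {p : ℝ × ℝ | c p.1 = c p.2 ∧ p.1 < p.2} =
        {p : ℝ × ℝ | c p.1 = c p.2} ∩ {p | p.1 ≤ p.2} ∩ (⋃ x, U x ×ˢ U x)ᶜ := by
      ext p
      constructor
      · rintro ⟨h1, h2⟩
        refine ⟨⟨h1, h2.le⟩, fun h => ?_⟩
        obtain ⟨x, h3, h4⟩ := mem_iUnion.1 h
        exact h2.ne (hi x h3 h4 h1)
      · rintro ⟨⟨h1, h2⟩, h3⟩
        refine ⟨h1, lt_of_le_of_ne h2 fun e => h3 (mem_iUnion.2 ⟨p.1, hx _, ?_⟩)⟩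
        rw [← e]
        exact hx _
    rw [e]
    exact ((isClosed_eq (hc.continuous.comp continuous_fst) (hc.continuous.comp continuous_snd)).inter
      (isClosed_le continuous_fst continuous_snd)).inter
      (isOpen_iUnion fun x => (hU x).prod (hU x)).isClosed_compl
  obtain ⟨y, hy, ey⟩ : c (β + 1) ∈ c '' Icc α β := hs ▸ mem_univ _
  have hK := (isCompact_Icc (a := α) (b := β + 1)).prod (isCompact_Icc (a := α) (b := β + 1))
  obtain ⟨p, ⟨hp, e, hlt⟩, hmin⟩ := (hK.inter_right hcl).exists_isMinOn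
    ⟨(y, β + 1), ⟨⟨hy.1, by linarith [hy.2]⟩, ⟨by linarith [hy.1, hy.2], le_rfl⟩⟩, ey,
      by linarith [hy.2]⟩ (f := fun p => p.2 - p.1) (by fun_prop)
  refine ⟨p.1, p.2, hlt, e, fun u v h1 h2 h3 h4 => ?_⟩
  have : p.2 - p.1 ≤ v - u := hmin (a := (u, v)) ⟨⟨⟨hp.1.1.trans h1, by linarith [hp.2.2]⟩,
    ⟨by linarith [hp.1.1], h3.trans hp.2.2⟩⟩, h4, h2⟩
  constructor <;> linarith

theorem cover (hc : IsLocalHomeomorph c) {α β : ℝ} (hs : c '' Icc α β = univ) {x₁ x₂ : ℝ}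
    (hlt : x₁ < x₂) (he : c x₁ = c x₂)
    (hi : ∀ u v, x₁ ≤ u → u < v → v ≤ x₂ → c u = c v → u = x₁ ∧ v = x₂) :
    c '' Icc x₁ x₂ = univ := by
  have : PreconnectedSpace Y :=
    ⟨hs ▸ isPreconnected_Icc.image c hc.continuous.continuousOn⟩
  refine IsClopen.eq_univ ⟨(isCompact_Icc.image hc.continuous).isClosed, ?_⟩
    ⟨_, x₁, ⟨le_rfl, hlt.le⟩, rfl⟩
  have key : c '' Icc x₁ x₂ ∈ 𝓝 (c x₁) := by
    obtain ⟨e, hx, rfl⟩ := hc x₁
    obtain ⟨ε, ε0, hε⟩ := Metric.mem_nhds_iff.1 (inter_mem (e.open_source.mem_nhds hx)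
      (Iio_mem_nhds (show x₁ < (x₁ + x₂) / 2 by linarith)))
    have hN : e '' Metric.ball x₁ ε ∈ 𝓝 (e x₂) :=
      he ▸ hc.isOpenMap.image_mem_nhds (Metric.ball_mem_nhds x₁ ε0)
    obtain ⟨z, hz, hI⟩ := mem_nhdsLE_iff_exists_Icc_subset.1 (mem_nhdsWithin_of_mem_nhds
      (inter_mem (hc.continuous.continuousAt hN)
        (Ioi_mem_nhds (show (x₁ + x₂) / 2 < x₂ by linarith))))
    have hT : MapsTo e (Icc z x₂) e.target := fun w hw => by
      obtain ⟨u, hu, eu⟩ := (hI hw).1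
      exact eu ▸ e.map_source (hε hu).1
    have h1 : e.symm (e z) < x₁ := by
      obtain ⟨⟨u, hu, eu⟩, hz'⟩ := hI ⟨le_rfl, hz.le⟩
      rw [← eu, e.left_inv (hε hu).1]
      by_contra hn
      exact hz.ne (hi u z (not_lt.1 hn) (lt_trans (hε hu).2 hz') hz.le eu).2
    have h2 : e.symm (e x₂) = x₁ := by rw [← he, e.left_inv hx]
    have h3 := intermediate_value_Icc hz.le
      (e.continuousOn_symm.comp hc.continuous.continuousOn hT)
    refine mem_of_superset (hc.isOpenMap.image_mem_nhds (Ioo_mem_nhds h1 hlt)) ?_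
    rintro _ ⟨u, hu, rfl⟩
    rcases le_total x₁ u with h | h
    · exact ⟨u, ⟨h, hu.2.le⟩, rfl⟩
    · obtain ⟨w, hw, ew⟩ := h3 (show u ∈ Icc _ _ from ⟨hu.1.le, h.trans h2.ge⟩)
      refine ⟨w, ⟨?_, hw.2⟩, ?_⟩
      · have : (x₁ + x₂) / 2 < w := (hI hw).2
        linarith
      · rw [← ew]
        exact (e.right_inv (hT hw)).symm
  refine isOpen_iff_mem_nhds.2 ?_
  rintro _ ⟨u, hu, rfl⟩
  rcases hu.1.eq_or_lt with rfl | h1
  · exact key
  rcases hu.2.eq_or_lt with rfl | h2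
  · exact he ▸ key
  exact hc.isOpenMap.image_mem_nhds (Icc_mem_nhds h1 h2)

end Circ2A

open Circ2A in
theorem sCirc2 : SCirc2 := by
  intro Y _ c α β hc hs
  obtain ⟨x₁, x₂, hlt, he, hi⟩ := loop hc hs
  have hcov := cover hc hs hlt he hi
  obtain ⟨k, hk⟩ : ∃ k, k = (x₂ - x₁) / (2 * π) := ⟨_, rfl⟩
  have pi0 := Real.pi_pos
  have k0 : 0 < k := hk ▸ div_pos (sub_pos.2 hlt) (by positivity)
  have ek : x₂ = x₁ + 2 * (k * π) := by
    rw [hk]
    field_simp
    ring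
  have kp : 0 < k * π := mul_pos k0 pi0
  have hinj : ∀ u v, x₁ < u → u < x₂ → x₁ ≤ v → v ≤ x₂ → c u = c v → u = v := by
    intro u v h1 h2 h3 h4 h5
    rcases lt_trichotomy u v with h | h | h
    · exact absurd (hi u v h1.le h h4 h5).1 h1.ne'
    · exact h
    · exact absurd (hi v u h3 h h2.le h5.symm).2 h2.ne
  refine ⟨c x₁, c (x₁ + k * π), fun w => c (if w.1 then x₁ + k * w.2 else x₂ - k * w.2),
    hc.continuous.comp (continuous_prod_of_discrete_left.2 fun b => ?_), fun b => ?_, fun b => ?_,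
    fun h => ?_, fun b θ b' θ' hθ hθ' h => ?_, fun z => ?_⟩
  · cases b
    · exact continuous_const.sub (continuous_const.mul continuous_id)
    · exact continuous_const.add (continuous_const.mul continuous_id)
  · cases b <;> simp [he]
  · cases b
    · exact congrArg c (by simp only [Bool.false_eq_true, if_false]; linarith)
    · rfl
  · have := hinj _ _ (by linarith) (by linarith) le_rfl hlt.le h.symm
    linarith
  · have a1 := mul_pos k0 hθ.1
    have a2 := mul_lt_mul_of_pos_left hθ.2 k0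
    have a3 := mul_nonneg k0.le hθ'.1
    have a4 := mul_le_mul_of_nonneg_left hθ'.2 k0.le
    cases b <;> cases b' <;> simp only [Bool.false_eq_true, if_false, if_true] at h <;>
      have := hinj _ _ (by linarith) (by linarith) (by linarith) (by linarith) h
    · exact ⟨rfl, mul_left_cancel₀ k0.ne' (by linarith)⟩
    · linarith
    · linarith
    · exact ⟨rfl, mul_left_cancel₀ k0.ne' (by linarith)⟩
  · obtain ⟨u, hu, rfl⟩ : z ∈ c '' Icc x₁ x₂ := hcov ▸ mem_univ _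
    rcases hu.1.eq_or_lt with rfl | h1
    · exact Or.inl rfl
    rcases hu.2.eq_or_lt with rfl | h2
    · exact Or.inl he.symm
    right
    rcases lt_trichotomy u (x₁ + k * π) with h | h | h
    · refine Or.inr ⟨true, (u - x₁) / k, ⟨div_pos (sub_pos.2 h1) k0,
        (div_lt_iff₀' k0).2 (by linarith)⟩, congrArg c ?_⟩
      simp only [if_true]
      rw [mul_div_cancel₀ _ k0.ne', add_sub_cancel]
    · exact Or.inl (congrArg c h)
    · refine Or.inr ⟨false, (x₂ - u) / k, ⟨div_pos (sub_pos.2 h2) k0,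
        (div_lt_iff₀' k0).2 (by linarith)⟩, congrArg c ?_⟩
      simp only [Bool.false_eq_true, if_false]
      rw [mul_div_cancel₀ _ k0.ne', sub_sub_cancel]

end Pool.Agent.MP_0c1703_gt.H59
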