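import Pool.Agent.MP_0c1703_gt.H59.Kit

/-! Row Col: two arcs that start in the same direction are nested. -/

namespace Pool.Agent.MP_0c1703_gt.H59

open Set Filter Topology Pool.Agent.MP_0c1703_gt.H58

theorem sCol : SCol := by
  intro Y _ B c c' a b a' b' hB h h' e hj
  by_contra hn
  rw [not_or] at hn
  obtain ⟨n1, n2⟩ := hn
  have hab := h.path.le
  have hab' := h'.path.le
  have hT : IsCompact (Icc a b ∩ c ⁻¹' (c' '' Icc a' b')) :=
    isCompact_Icc.of_isClosed_subset (h.path.cont.preimage_isClosed_of_isClosed isClosed_Icc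
      h'.path.isCompact.isClosed) inter_subset_left
  obtain ⟨x, ⟨hx, y, hy, exy⟩, hmax⟩ := hT.exists_isGreatest
    ⟨a, ⟨le_rfl, hab⟩, a', ⟨le_rfl, hab'⟩, e.symm⟩
  have harc := (h.sub hx.1 hx.2 le_rfl).cat (h'.sub hy.1 hy.2 le_rfl) exy.symm
    fun u hu v hv euv => le_antisymm
      (hmax ⟨⟨hx.1.trans hu.1, hu.2⟩, v, ⟨hy.1.trans hv.1, hv.2⟩, euv.symm⟩) hu.1
  have k3 := hB.tree.not_joined harc (ξ := 0) ⟨by linarith [hx.2], by linarith [hy.2]⟩
  rw [cat_of_nonpos le_rfl, cat_of_nonpos (by linarith [hx.2]),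
    cat_of_nonneg exy.symm (by linarith [hy.2]), sub_zero, sub_sub_cancel, add_sub_cancel] at k3
  have k1 := hB.tree.not_joined h hx
  have k2 := hB.tree.not_joined h' hy
  rw [exy, ← e] at k2
  have d0 : c a ≠ c x := fun e' => k3 (e' ▸ hj)
  have d1 : c b ≠ c x := fun e' => n2 ⟨y, hy, exy.trans e'.symm⟩
  have d2 : c' b' ≠ c x := fun e' => n1 ⟨x, hx, e'.symm⟩
  have j2 : JoinedIn B (c x) (c' b') := exy ▸ h'.path.joined hy ⟨hab', le_rfl⟩
  refine hB.three (c x) (h.path.mem hx) ⟨![c a, c b, c' b'], fun i => ?_, fun i j hij => ?_⟩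
  · fin_cases i
    · exact ⟨h.path.joined hx ⟨le_rfl, hab⟩, d0⟩
    · exact ⟨h.path.joined hx ⟨hab, le_rfl⟩, d1⟩
    · exact ⟨j2, d2⟩
  · fin_cases i <;> fin_cases j
    · exact absurd rfl hij
    · exact k1
    · exact k2
    · exact fun k => k1 k.symm
    · exact absurd rfl hij
    · exact k3
    · exact fun k => k2 k.symm
    · exact fun k => k3 k.symm
    · exact absurd rfl hij

end Pool.Agent.MP_0c1703_gt.H59
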