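import Pool.Agent.MP_0c1703_gt.H59.Kit

/-! Extension of nonvanishing functions in covering dimension at most one. -/

namespace Pool.Agent.MP_0c1703_gt.H59

open Set Filter Topology

namespace DimA

theorem pt (z : ℂ) {ε : ℝ} (hε : 0 < ε) (T : Finset ℝ) :
    ∃ x σ : ℝ, x ≠ 0 ∧ σ ∉ T ∧ ‖(⟨x, σ * x⟩ : ℂ) - z‖ < ε := by
  classical
  obtain ⟨x, hx, h0⟩ := (Ioo_infinite (show z.re - ε / 2 < z.re + ε / 2 by linarith)).exists_notMem_finset
    {0}
  have x0 : x ≠ 0 := by simpa using h0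
  obtain ⟨y, hy, h1⟩ := (Ioo_infinite (show z.im - ε / 2 < z.im + ε / 2 by linarith)).exists_notMem_finset
    (T.image (· * x))
  have e : y / x * x = y := div_mul_cancel₀ y x0
  refine ⟨x, y / x, x0, fun h => h1 (Finset.mem_image.2 ⟨_, h, e⟩), ?_⟩
  refine (Complex.norm_le_abs_re_add_abs_im _).trans_lt ?_
  have a1 : |x - z.re| < ε / 2 := abs_lt.2 ⟨by linarith [hx.1], by linarith [hx.2]⟩
  have a2 : |y - z.im| < ε / 2 := abs_lt.2 ⟨by linarith [hy.1], by linarith [hy.2]⟩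
  simp only [Complex.sub_re, Complex.sub_im, e]
  linarith

theorem gen {ι : Type} (z : ι → ℂ) {ε : ℝ} (hε : 0 < ε) (s : Finset ι) :
    ∃ x σ : ι → ℝ, (∀ i ∈ s, x i ≠ 0 ∧ ‖(⟨x i, σ i * x i⟩ : ℂ) - z i‖ < ε) ∧ InjOn σ s := by
  classical
  induction s using Finset.induction_on with
  | empty => exact ⟨0, 0, by simp, by simp⟩
  | insert a s ha ih =>
    obtain ⟨x, σ, h1, h2⟩ := ih
    obtain ⟨x₀, σ₀, k1, k2, k3⟩ := pt (z a) hε (s.image σ)
    have ne : ∀ i ∈ s, i ≠ a := fun i hi e => ha (e ▸ hi)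
    refine ⟨Function.update x a x₀, Function.update σ a σ₀, fun i hi => ?_, ?_⟩
    · rcases Finset.mem_insert.1 hi with rfl | hi
      · simpa using ⟨k1, k3⟩
      · simpa [ne i hi] using h1 i hi
    · rw [Finset.coe_insert, injOn_insert (by simpa using ha)]
      refine ⟨h2.congr fun i hi => (Function.update_of_ne (ne i hi) _ _).symm, ?_⟩
      rintro ⟨i, hi, e⟩
      rw [Function.update_of_ne (ne i hi), Function.update_self] at e
      exact k2 (Finset.mem_image.2 ⟨i, hi, e⟩)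

theorem comb {ι : Type} (x σ a : ι → ℝ) (hx : ∀ i, x i ≠ 0) (hσ : Function.Injective σ)
    (S : Finset ι) (hS : S.card ≤ 2) (ha : ∑ i ∈ S, a i = 1) :
    ∑ i ∈ S, (a i : ℂ) * ⟨x i, σ i * x i⟩ ≠ 0 := by
  classical
  intro h
  have h1 := congrArg Complex.re h
  have h2 := congrArg Complex.im h
  simp only [Complex.re_sum, Complex.im_sum, Complex.re_ofReal_mul, Complex.im_ofReal_mul,
    Complex.zero_re, Complex.zero_im] at h1 h2
  obtain h0 | h0 | h0 : S.card = 0 ∨ S.card = 1 ∨ S.card = 2 := by omega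
  · simp [Finset.card_eq_zero.1 h0] at ha
  · obtain ⟨i, rfl⟩ := Finset.card_eq_one.1 h0
    rw [Finset.sum_singleton] at ha h1
    rw [ha, one_mul] at h1
    exact hx i h1
  · obtain ⟨i, j, hij, rfl⟩ := Finset.card_eq_two.1 h0
    rw [Finset.sum_pair hij] at ha h1 h2
    have e1 : a i * x i * (σ i - σ j) = 0 := by linear_combination h2 - σ j * h1
    have e2 : a j * x j * (σ i - σ j) = 0 := by linear_combination σ i * h1 - h2
    have n := sub_ne_zero.2 (hσ.ne hij)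
    simp only [mul_eq_zero, hx, n, or_false] at e1 e2
    rw [e1, e2] at ha
    simp at ha

end DimA

open DimA in
theorem sDim : SDim := by
  classical
  intro Y _ _ hD A u hA hu h0
  rcases A.eq_empty_or_nonempty with rfl | hne
  · exact ⟨fun _ => 1, continuous_const, fun _ => one_ne_zero, fun y hy => hy.elim⟩
  obtain ⟨y₀, hy₀, hm⟩ := hA.isCompact.exists_isMinOn hne hu.norm
  have m0 : 0 < ‖u y₀‖ := norm_pos_iff.2 (h0 y₀ hy₀)
  set m := ‖u y₀‖
  obtain ⟨g, hg⟩ := ContinuousMap.exists_restrict_eq hA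
    (⟨fun y : A => u y, continuousOn_iff_continuous_domRestrict.1 hu⟩ : C(A, ℂ))
  have hg' : ∀ y ∈ A, g y = u y := fun y hy => DFunLike.congr_fun hg ⟨y, hy⟩
  obtain ⟨t, ht⟩ := isCompact_univ.elim_finite_subcover
    (fun y : Y => g ⁻¹' Metric.ball (g y) (m / 4))
    (fun y => Metric.isOpen_ball.preimage g.continuous)
    (fun y _ => mem_iUnion.2 ⟨y, Metric.mem_ball_self (by positivity)⟩)
  obtain ⟨𝒱, f1, f2, f3, f4, f5⟩ := hD ((fun y : Y => g ⁻¹' Metric.ball (g y) (m / 4)) '' t)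
    (t.finite_toSet.image _)
    (by rintro _ ⟨y, -, rfl⟩; exact Metric.isOpen_ball.preimage g.continuous)
    (by rw [sUnion_image]; exact univ_subset_iff.1 ht)
  have := f1.fintype
  have hz : ∀ V : 𝒱, ∃ z : ℂ, ∀ y ∈ V.1, ‖g y - z‖ < m / 4 := fun V => by
    obtain ⟨_, ⟨y, -, rfl⟩, h⟩ := f4 V.1 V.2
    exact ⟨g y, fun w hw => mem_ball_iff_norm.1 (h hw)⟩
  choose z hz using hz
  obtain ⟨x, σ, h1, h2⟩ := gen z (show 0 < m / 4 by positivity) Finset.univ
  obtain ⟨ρ, hρ⟩ := PartitionOfUnity.exists_isSubordinate isClosed_univ (fun V : 𝒱 => V.1)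
    (fun V => f2 V.1 V.2) (by rw [← sUnion_eq_iUnion, f3])
  have r1 : ∀ y, ∑ V, ρ V y = 1 := fun y => by
    rw [← finsum_eq_sum_of_fintype]; exact ρ.sum_eq_one (mem_univ y)
  have r2 : ∀ V y, ρ V y ≠ 0 → y ∈ V.1 := fun V y h => hρ V (subset_tsupport _ h)
  refine ⟨fun y => ∑ V, (ρ V y : ℂ) * ⟨x V, σ V * x V⟩, by fun_prop, fun y => ?_, fun y hy => ?_⟩
  · have hc : (Finset.univ.filter fun V => ρ V y ≠ 0).card ≤ 2 := by
      rw [← ncard_coe_finset]
      refine le_trans (ncard_le_ncard_of_injOn Subtype.val (fun V hV => ?_)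
        Subtype.val_injective.injOn (f1.subset (sep_subset _ _))) (f5 y)
      exact ⟨V.2, r2 V y (by simpa using hV)⟩
    have := comb x σ (fun V => ρ V y) (fun V => (h1 V (Finset.mem_univ _)).1)
      (fun a b e => h2 (by simp) (by simp) e) _ hc (by rw [Finset.sum_filter_ne_zero, r1])
    rwa [Finset.sum_filter_of_ne (p := fun V => ρ V y ≠ 0) fun V _ h e => h (by simp [e])] at this
  · have e : ∑ V, (ρ V y : ℂ) * ⟨x V, σ V * x V⟩ - u y =
        ∑ V, (ρ V y : ℂ) * (⟨x V, σ V * x V⟩ - g y) := by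
      simp only [mul_sub, Finset.sum_sub_distrib, ← Finset.sum_mul]
      rw [← Complex.ofReal_sum, r1, hg' y hy]
      simp
    have hle : m ≤ ‖u y‖ := hm hy
    refine lt_of_le_of_lt (b := ∑ V, ρ V y * (m / 2)) ?_ ?_
    · rw [e]
      refine (norm_sum_le _ _).trans (Finset.sum_le_sum fun V _ => ?_)
      rw [norm_mul, Complex.norm_real, Real.norm_of_nonneg (ρ.nonneg V y)]
      by_cases h : ρ V y = 0
      · simp [h]
      refine mul_le_mul_of_nonneg_left ?_ (ρ.nonneg V y)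
      have a1 := (h1 V (Finset.mem_univ _)).2
      have a2 := hz V y (r2 V y h)
      have a3 := norm_sub_le_norm_sub_add_norm_sub (⟨x V, σ V * x V⟩ : ℂ) (z V) (g y)
      rw [norm_sub_rev] at a2
      linarith
    · rw [← Finset.sum_mul, r1]
      linarith

end Pool.Agent.MP_0c1703_gt.H59
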