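import Pool.Agent.MP_0c1703_gt.H59.Kit

/-! Row Ext: extension of a box to the right by an embedded box. -/

namespace Pool.Agent.MP_0c1703_gt.H59

open Set Filter Topology

namespace ExtA

theorem loc_of {X Y : Type} [TopologicalSpace X] [TopologicalSpace Y] [Nonempty X] {f : X → Y}
    {O : Set X} (hO : IsOpen O) (hc : ContinuousOn f O) (hi : InjOn f O)
    (ho : ∀ x ∈ O, ∀ N ∈ 𝓝 x, f '' N ∈ 𝓝 (f x)) : IsLocalHomeomorphOn f O := by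
  intro x hx
  refine ⟨OpenPartialHomeomorph.ofContinuousOpenRestrict (hi.toPartialEquiv f O) hc
    (IsOpenMap.of_nhds_le fun a => ?_) hO, hx, rfl⟩
  intro s hs
  have h1 := ho a.1 a.2 _ (hO.isOpenEmbedding_subtypeVal.isOpenMap.image_mem_nhds hs)
  refine mem_of_superset h1 ?_
  rintro _ ⟨_, ⟨b, hb, rfl⟩, rfl⟩
  exact hb

variable {Y C C₂ : Type} [MetricSpace Y] [TopologicalSpace C] [TopologicalSpace C₂]
  {h : C × ℝ → Y} {C₀ : Set C} {h₂ : C₂ × ℝ → Y} {inv : Y → C₂ × ℝ}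

theorem cont_leaf (hb : BoxOn h C₀) {κ : C} (hκ : κ ∈ C₀) : Continuous fun ξ : ℝ => h (κ, ξ) :=
  hb.loc.continuousOn.comp_continuous (by fun_prop) fun _ => ⟨hκ, trivial⟩

theorem fst_const (hb : BoxOn h C₀) (ht : TPD C₂) (hi : ContinuousOn inv (range h₂)) {κ : C}
    (hκ : κ ∈ C₀) {a b : ℝ} (hr : ∀ ξ ∈ Icc a b, h (κ, ξ) ∈ range h₂) {u v : ℝ} (hu : u ∈ Icc a b)
    (hv : v ∈ Icc a b) : (inv (h (κ, u))).1 = (inv (h (κ, v))).1 := by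
  have hc : ContinuousOn (fun ξ => (inv (h (κ, ξ))).1) (Icc a b) :=
    (hi.comp (cont_leaf hb hκ).continuousOn hr).fst
  exact (ht _ a u hu.1 (hc.mono (Icc_subset_Icc_right hu.2))).symm.trans
    (ht _ a v hv.1 (hc.mono (Icc_subset_Icc_right hv.2)))

theorem mono_leaf (hb : BoxOn h C₀) (ht : TPD C₂) (hi : ContinuousOn inv (range h₂))
    (h1 : ∀ w, inv (h₂ w) = w) {κ₀ : C} (hκ : κ₀ ∈ C₀) {κ₂ : C₂} {ξ₀ η₀ : ℝ}
    (e0 : h (κ₀, ξ₀) = h₂ (κ₂, η₀))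
    (hs : ∃ ε > 0, ∀ ξ ∈ Ioo ξ₀ (ξ₀ + ε), ∃ η > η₀, h (κ₀, ξ) = h₂ (κ₂, η)) {b : ℝ} (hb0 : ξ₀ < b)
    (hr : ∀ ξ ∈ Icc ξ₀ b, h (κ₀, ξ) ∈ range h₂) :
    StrictMonoOn (fun ξ => (inv (h (κ₀, ξ))).2) (Icc ξ₀ b) := by
  have hc : ContinuousOn (fun ξ => (inv (h (κ₀, ξ))).2) (Icc ξ₀ b) :=
    (hi.comp (cont_leaf hb hκ).continuousOn hr).snd
  have hinj : InjOn (fun ξ => (inv (h (κ₀, ξ))).2) (Icc ξ₀ b) := by
    refine injOn_of_loc hc fun x hx => ?_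
    obtain ⟨e, he, rfl⟩ := hb.loc (κ₀, x) ⟨hκ, trivial⟩
    have hn : (fun ξ : ℝ => (κ₀, ξ)) ⁻¹' e.source ∩ Ioo ξ₀ b ∈ 𝓝 x :=
      inter_mem ((Continuous.prodMk_right κ₀).continuousAt.preimage_mem_nhds
        (e.open_source.mem_nhds he)) (isOpen_Ioo.mem_nhds hx)
    obtain ⟨ε, hε, hs⟩ := Metric.mem_nhds_iff.1 hn
    rw [Real.ball_eq_Ioo] at hs
    refine ⟨ε, hε, fun u hu v hv e2 => ?_⟩
    have hu' := Ioo_subset_Icc_self (hs hu).2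
    have hv' := Ioo_subset_Icc_self (hs hv).2
    have e3 : inv (e (κ₀, u)) = inv (e (κ₀, v)) := Prod.ext (fst_const hb ht hi hκ hr hu' hv') e2
    obtain ⟨w, hw⟩ := hr u hu'
    obtain ⟨w', hw'⟩ := hr v hv'
    rw [← hw, ← hw', h1, h1] at e3
    have e4 : e (κ₀, u) = e (κ₀, v) := by rw [← hw, ← hw', e3]
    exact congrArg Prod.snd (e.injOn (hs hu).1 (hs hv).1 e4)
  refine (hc.strictMonoOn_of_injOn_Icc' hb0.le hinj).resolve_right fun ha => ?_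
  obtain ⟨ε, hε, hs⟩ := hs
  obtain ⟨ξ, hξ1, hξ2⟩ := exists_between (lt_min hb0 (lt_add_of_pos_right ξ₀ hε))
  obtain ⟨η, hη, e⟩ := hs ξ ⟨hξ1, hξ2.trans_le (min_le_right _ _)⟩
  have := ha ⟨le_rfl, hb0.le⟩ ⟨hξ1.le, hξ2.le.trans (min_le_left _ _)⟩ hξ1
  simp only [e, e0, h1] at this
  exact lt_asymm this hη

theorem stay (hb : BoxOn h C₀) (ho : IsOpenEmbedding h₂) (ht : TPD C₂)
    (hi : ContinuousOn inv (range h₂))
    (h1 : ∀ w, inv (h₂ w) = w) {κ₀ : C} (hκ : κ₀ ∈ C₀) {κ₂ : C₂} {ξ₀ η₀ ηp : ℝ}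
    (e0 : h (κ₀, ξ₀) = h₂ (κ₂, η₀))
    (hs : ∃ ε > 0, ∀ ξ ∈ Ioo ξ₀ (ξ₀ + ε), ∃ η > η₀, h (κ₀, ξ) = h₂ (κ₂, η))
    (hn : ∀ b, ξ₀ < b → (∀ ξ ∈ Icc ξ₀ b, h (κ₀, ξ) ∈ range h₂) → (inv (h (κ₀, b))).2 ≤ ηp)
    {x : ℝ} (hx : ξ₀ ≤ x) : h (κ₀, x) ∈ range h₂ := by
  by_contra hx'
  have hc := cont_leaf hb hκ
  set T := Ici ξ₀ ∩ (fun ξ => h (κ₀, ξ)) ⁻¹' (range h₂)ᶜ with hT
  have hTc : IsClosed T := isClosed_Ici.inter (ho.isOpen_range.isClosed_compl.preimage hc)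
  have hbd : BddBelow T := ⟨ξ₀, fun _ h => h.1⟩
  have hm := hTc.csInf_mem ⟨x, hx, hx'⟩ hbd
  set b := sInf T
  have hb0 : ξ₀ < b := lt_of_le_of_ne hm.1 fun e => hm.2 (by
    show h (κ₀, b) ∈ range h₂
    rw [← e, e0]; exact mem_range_self _)
  have hr : ∀ v < b, ∀ ξ ∈ Icc ξ₀ v, h (κ₀, ξ) ∈ range h₂ := fun v hv ξ hξ => by
    by_contra hξ'
    exact absurd (csInf_le hbd ⟨hξ.1, hξ'⟩) (not_le.2 (hξ.2.trans_lt hv))
  have hmono : MonotoneOn (fun ξ => (inv (h (κ₀, ξ))).2) (Ioo ξ₀ b) := fun u hu v hv huv =>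
    (mono_leaf hb ht hi h1 hκ e0 hs hv.1 (hr v hv.2)).monotoneOn ⟨hu.1.le, huv⟩
      ⟨hv.1.le, le_rfl⟩ huv
  have hl := hmono.tendsto_nhdsWithin_Ioo_left (nonempty_Ioo.2 hb0)
    ⟨ηp, by rintro _ ⟨v, hv, rfl⟩; exact hn v hv.1 (hr v hv.2)⟩
  have hl2 := (ho.continuous.tendsto _).comp ((tendsto_const_nhds (x := κ₂)).prodMk_nhds hl)
  have hl3 : Tendsto (fun ξ => h (κ₀, ξ)) (𝓝[<] b) (𝓝 (h (κ₀, b))) :=
    (hc.tendsto b).mono_left nhdsWithin_le_nhds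
  refine hm.2 ⟨_, tendsto_nhds_unique (hl2.congr' ?_) hl3⟩
  filter_upwards [Ioo_mem_nhdsLT hb0] with v hv
  have e1 := fst_const hb ht hi hκ (hr v hv.2) ⟨le_rfl, hv.1.le⟩ ⟨hv.1.le, le_rfl⟩
  rw [e0, h1] at e1
  obtain ⟨w, hw⟩ := hr v hv.2 v ⟨hv.1.le, le_rfl⟩
  simp only [Function.comp, ← hw, h1] at e1 ⊢
  rw [e1]

/-- the shear of a family of increasing functions over an open injective map -/
theorem shear {C' : Set C} (hC : IsOpen C') {k : C → C₂} {G : C × ℝ → ℝ} {a : ℝ}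
    (hk : ContinuousOn k C') (hki : InjOn k C') (hko : ∀ V ⊆ C', IsOpen V → IsOpen (k '' V))
    (hG : ContinuousOn G (C' ×ˢ Ioi a)) (hm : ∀ κ ∈ C', StrictMonoOn (fun ξ => G (κ, ξ)) (Ioi a)) :
    ContinuousOn (fun w : C × ℝ => (k w.1, G w)) (C' ×ˢ Ioi a) ∧
    InjOn (fun w : C × ℝ => (k w.1, G w)) (C' ×ˢ Ioi a) ∧
    ∀ x ∈ C' ×ˢ Ioi a, ∀ N ∈ 𝓝 x, (fun w : C × ℝ => (k w.1, G w)) '' N ∈ 𝓝 (k x.1, G x) := by
  refine ⟨(hk.comp continuousOn_fst fun w hw => hw.1).prodMk hG, ?_, ?_⟩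
  · rintro ⟨κ, u⟩ hu ⟨κ', v⟩ hv e
    obtain rfl : κ = κ' := hki hu.1 hv.1 (congrArg Prod.fst e)
    exact Prod.ext rfl ((hm κ hu.1).injOn hu.2 hv.2 (congrArg Prod.snd e))
  · rintro ⟨κ, ξ⟩ hx N hN
    obtain ⟨V, hV, I, hI, hVI⟩ := mem_nhds_prod_iff.1 hN
    obtain ⟨ε, hε, hs⟩ := Metric.nhds_basis_closedBall.mem_iff.1
      (inter_mem hI (isOpen_Ioi.mem_nhds hx.2))
    rw [Real.closedBall_eq_Icc] at hs
    have m1 : ξ - ε ∈ Icc (ξ - ε) (ξ + ε) := ⟨le_rfl, by linarith⟩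
    have m2 : ξ + ε ∈ Icc (ξ - ε) (ξ + ε) := ⟨by linarith, le_rfl⟩
    obtain ⟨v₁, l1, l2⟩ := exists_between (hm κ hx.1 (hs m1).2 hx.2 (by linarith))
    obtain ⟨v₂, l3, l4⟩ := exists_between (hm κ hx.1 hx.2 (hs m2).2 (by linarith))
    have ca : ∀ u ∈ Ioi a, ContinuousAt (fun κ' => G (κ', u)) κ := fun u hu =>
      ContinuousAt.comp (f := fun κ' : C => (κ', u))
        (hG.continuousAt ((hC.prod isOpen_Ioi).mem_nhds ⟨hx.1, hu⟩)) (by fun_prop)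
    have hV' : V ∩ C' ∩ ({κ' | G (κ', ξ - ε) < v₁} ∩ {κ' | v₂ < G (κ', ξ + ε)}) ∈ 𝓝 κ :=
      inter_mem (inter_mem hV (hC.mem_nhds hx.1))
        (inter_mem ((ca _ (hs m1).2).eventually (gt_mem_nhds l1))
          ((ca _ (hs m2).2).eventually (lt_mem_nhds l4)))
    obtain ⟨V', hV1, hV2, hV3⟩ := mem_nhds_iff.1 hV'
    refine mem_of_superset (prod_mem_nhds
      ((hko V' (fun _ h => (hV1 h).1.2) hV2).mem_nhds (mem_image_of_mem k hV3))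
      (Ioo_mem_nhds l2 l3)) ?_
    rintro ⟨_, v⟩ ⟨⟨κ', hκ', rfl⟩, hv⟩
    obtain ⟨⟨p1, p2⟩, p3, p4⟩ := hV1 hκ'
    have hc : ContinuousOn (fun u => G (κ', u)) (Icc (ξ - ε) (ξ + ε)) :=
      hG.comp (by fun_prop) fun u hu => ⟨p2, (hs hu).2⟩
    obtain ⟨u, hu, e⟩ := intermediate_value_Icc (by linarith) hc
      ⟨(lt_trans p3 hv.1).le, (lt_trans hv.2 p4).le⟩
    exact ⟨(κ', u), hVI ⟨p1, (hs hu).1⟩, Prod.ext rfl e⟩

end ExtA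

open ExtA

theorem sExt : SExt := by
  intro Y C C₂ _ _ _ h C₀ h₂ κ₀ κ₂ ξ₀ η₀ ξp ηp hb hκ ho ht e0 hs
  have : Nonempty (C₂ × ℝ) := ⟨(κ₂, η₀)⟩
  have : Nonempty (C × ℝ) := ⟨(κ₀, ξ₀)⟩
  obtain ⟨inv, h1⟩ : ∃ inv : Y → C₂ × ℝ, ∀ w, inv (h₂ w) = w :=
    ⟨_, Function.leftInverse_invFun ho.injective⟩
  have h2 : ∀ y ∈ range h₂, h₂ (inv y) = y := by rintro _ ⟨w, rfl⟩; rw [h1]
  have hi : ContinuousOn inv (range h₂) :=
    ho.isInducing.continuousOn_iff.2 (continuousOn_id.congr h2)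
  have hfst : ∀ b, ξ₀ ≤ b → (∀ ξ ∈ Icc ξ₀ b, h (κ₀, ξ) ∈ range h₂) → (inv (h (κ₀, b))).1 = κ₂ :=
    fun b hb0 hr => by
      rw [← fst_const hb ht hi hκ hr ⟨le_rfl, hb0⟩ ⟨hb0, le_rfl⟩, e0, h1]
  by_cases hc : ∃ b, ξ₀ < b ∧ (∀ ξ ∈ Icc ξ₀ b, h (κ₀, ξ) ∈ range h₂) ∧ ηp < (inv (h (κ₀, b))).2
  · obtain ⟨b, hb0, hr, hp⟩ := hc
    refine ⟨h, C₀, b, hb, hκ, Subset.rfl, fun _ _ _ => rfl, hb0, hr, _, hp, ?_⟩
    rw [← hfst b hb0.le hr]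
    exact (h2 _ (hr b ⟨hb0.le, le_rfl⟩)).symm
  have hr : ∀ x, ξ₀ ≤ x → h (κ₀, x) ∈ range h₂ := fun x hx =>
    stay hb ho ht hi h1 hκ e0 hs (ηp := ηp) (fun b hb0 hr => not_lt.1 fun hp => hc ⟨b, hb0, hr, hp⟩) hx
  obtain ⟨xc, hx0, hxp⟩ : ∃ xc, ξ₀ + 1 ≤ xc ∧ max ξ₀ ξp ≤ xc :=
    ⟨max ξ₀ ξp + 1, by linarith [le_max_left ξ₀ ξp], by linarith⟩
  have hm := mono_leaf hb ht hi h1 hκ e0 hs (b := xc + 1) (by linarith) fun ξ hξ => hr ξ hξ.1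
  obtain ⟨e, he, rfl⟩ := hb.loc (κ₀, xc) ⟨hκ, trivial⟩
  have hW : IsOpen (e.source ∩ e ⁻¹' range h₂) := e.isOpen_inter_preimage ho.isOpen_range
  set W := e.source ∩ e ⁻¹' range h₂
  obtain ⟨U, hU, I, hI, hUI⟩ := mem_nhds_prod_iff.1 (hW.mem_nhds ⟨he, hr xc (by linarith)⟩)
  obtain ⟨ε, hε, hε2⟩ := Metric.nhds_basis_closedBall.mem_iff.1
    (inter_mem hI (Icc_mem_nhds (show ξ₀ < xc by linarith) (lt_add_one xc)))
  rw [Real.closedBall_eq_Icc] at hε2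
  have m0 : xc ∈ Icc (xc - ε) (xc + ε) := ⟨by linarith, by linarith⟩
  have m1 : xc - ε ∈ Icc (xc - ε) (xc + ε) := ⟨le_rfl, by linarith⟩
  have m2 : xc + ε ∈ Icc (xc - ε) (xc + ε) := ⟨by linarith, le_rfl⟩
  have hG : ContinuousOn (fun w => inv (e w)) W :=
    hi.comp (e.continuousOn.mono inter_subset_left) fun _ hw => hw.2
  have ca : ∀ u ∈ Icc (xc - ε) (xc + ε), ContinuousAt (fun κ => (inv (e (κ, u))).2) κ₀ :=
    fun u hu => (ContinuousAt.comp (f := fun κ : C => (κ, u))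
      (hG.continuousAt (hW.mem_nhds (hUI ⟨mem_of_mem_nhds hU, (hε2 hu).1⟩))) (by fun_prop)).snd
  set g0 := (inv (e (κ₀, xc))).2 with hg0
  have hV : U ∩ C₀ ∩ ({κ | (inv (e (κ, xc - ε))).2 < g0} ∩ {κ | g0 < (inv (e (κ, xc + ε))).2})
      ∈ 𝓝 κ₀ :=
    inter_mem (inter_mem hU (hb.op.mem_nhds hκ))
      (inter_mem ((ca _ m1).eventually (gt_mem_nhds (hm (hε2 m1).2 (hε2 m0).2 (by linarith))))
        ((ca _ m2).eventually (lt_mem_nhds (hm (hε2 m0).2 (hε2 m2).2 (by linarith)))))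
  obtain ⟨C', hC1, hC2, hC3⟩ := mem_nhds_iff.1 hV
  have hin : ∀ κ ∈ C', ∀ u ∈ Icc (xc - ε) (xc + ε), (κ, u) ∈ W := fun κ hκ' u hu =>
    hUI ⟨(hC1 hκ').1.1, (hε2 hu).1⟩
  have hk : ∀ κ ∈ C', ∀ u ∈ Icc (xc - ε) (xc + ε),
      e (κ, u) = h₂ ((inv (e (κ, xc))).1, (inv (e (κ, u))).2) := fun κ hκ' u hu => by
    rw [fst_const hb ht hi (hC1 hκ').1.2 (fun v hv => (hin κ hκ' v hv).2) m0 hu]
    exact (h2 _ (hin κ hκ' u hu).2).symm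
  have hcl : ∀ κ ∈ C', ContinuousOn (fun u => (inv (e (κ, u))).2) (Icc (xc - ε) (xc + ε)) :=
    fun κ hκ' => (hG.comp (f := fun u : ℝ => (κ, u)) (by fun_prop) (hin κ hκ')).snd
  have hsm : ∀ κ ∈ C', StrictMonoOn (fun u => (inv (e (κ, u))).2) (Icc (xc - ε) (xc + ε)) :=
    fun κ hκ' => (hcl κ hκ').strictMonoOn_of_injOn_Icc (by linarith)
      (lt_trans (hC1 hκ').2.1 (hC1 hκ').2.2).le fun u hu v hv e1 => by
        have e2 : e (κ, u) = e (κ, v) := by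
          rw [hk κ hκ' u hu, hk κ hκ' v hv]; exact congrArg (fun r => h₂ (_, r)) e1
        exact congrArg Prod.snd (e.injOn (hin κ hκ' u hu).1 (hin κ hκ' v hv).1 e2)
  have hmin : ∀ ξ ∈ Ioi (xc - ε), min ξ xc ∈ Icc (xc - ε) (xc + ε) := fun ξ hξ =>
    ⟨le_min (le_of_lt hξ) m0.1, (min_le_right _ _).trans m0.2⟩
  obtain ⟨s1, s2, s3⟩ := shear hC2 (k := fun κ => (inv (e (κ, xc))).1)
    (G := fun w => (inv (e (w.1, min w.2 xc))).2 + max (w.2 - xc) 0) (a := xc - ε)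
    (hG.comp (f := fun κ : C => (κ, xc)) (by fun_prop) fun κ hκ' => hin κ hκ' xc m0).fst
    (fun κ hκ1 κ' hκ2 e1 => by
      obtain ⟨u, hu, eu⟩ := intermediate_value_Icc (by linarith) (hcl κ hκ1)
        ⟨(hC1 hκ1).2.1.le, (hC1 hκ1).2.2.le⟩
      obtain ⟨v, hv, ev⟩ := intermediate_value_Icc (by linarith) (hcl κ' hκ2)
        ⟨(hC1 hκ2).2.1.le, (hC1 hκ2).2.2.le⟩
      have e2 : e (κ, u) = e (κ', v) := by
        rw [hk κ hκ1 u hu, hk κ' hκ2 v hv]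
        exact congrArg h₂ (Prod.ext e1 (eu.trans ev.symm))
      exact congrArg Prod.fst (e.injOn (hin κ hκ1 u hu).1 (hin κ' hκ2 v hv).1 e2))
    (fun V hV hVo => by
      have o1 : IsOpen (e '' (V ×ˢ Ioo (xc - ε) (xc + ε))) :=
        e.isOpen_image_of_subset_source (hVo.prod isOpen_Ioo) fun w hw =>
          (hin w.1 (hV hw.1) w.2 (Ioo_subset_Icc_self hw.2)).1
      have o2 := isOpenMap_fst _ (o1.preimage ho.continuous)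
      refine (congrArg IsOpen (Subset.antisymm ?_ ?_)).mp o2
      · rintro _ ⟨w, ⟨z, hz, ez⟩, rfl⟩
        refine ⟨z.1, hz.1, ?_⟩
        rw [show z = (z.1, z.2) from rfl, hk z.1 (hV hz.1) z.2 (Ioo_subset_Icc_self hz.2)] at ez
        have e5 := congrArg Prod.fst (ho.injective ez)
        exact e5
      · rintro _ ⟨κ, hκ', rfl⟩
        exact ⟨inv (e (κ, xc)), ⟨(κ, xc), ⟨hκ', by linarith, by linarith⟩,
          (h2 _ (hin κ (hV hκ') xc m0).2).symm⟩, rfl⟩)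
    ((hG.comp (f := fun w : C × ℝ => (w.1, min w.2 xc)) (by fun_prop)
      fun w hw => hin w.1 hw.1 _ (hmin _ hw.2)).snd.add (by fun_prop))
    (fun κ hκ' u hu v hv huv => by
      rcases lt_or_ge u xc with h3 | h3
      · exact add_lt_add_of_lt_of_le (hsm κ hκ' (hmin u hu) (hmin v hv)
          (by rw [min_eq_left h3.le]; exact lt_min huv h3))
          (max_le_max (by linarith) le_rfl)
      · simp only [min_eq_right h3, min_eq_right (h3.trans huv.le),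
          max_eq_left (sub_nonneg.2 h3), max_eq_left (sub_nonneg.2 (h3.trans huv.le))]
        linarith)
  set h₃ : C × ℝ → Y := fun w => if w.2 ≤ xc then e w else
    h₂ ((inv (e (w.1, xc))).1, (inv (e (w.1, xc))).2 + (w.2 - xc)) with hh₃
  have hle : ∀ κ ξ, ξ ≤ xc → h₃ (κ, ξ) = e (κ, ξ) := fun κ ξ hξ => if_pos hξ
  have hgt : ∀ κ ξ, xc < ξ →
      h₃ (κ, ξ) = h₂ ((inv (e (κ, xc))).1, (inv (e (κ, xc))).2 + (ξ - xc)) :=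
    fun κ ξ hξ => if_neg (not_le.2 hξ)
  have heq : EqOn h₃ (fun w => h₂ ((inv (e (w.1, xc))).1,
      (inv (e (w.1, min w.2 xc))).2 + max (w.2 - xc) 0)) (C' ×ˢ Ioi (xc - ε)) := by
    rintro ⟨κ, ξ⟩ hw
    rcases le_or_gt ξ xc with h3 | h3
    · simp only [hle κ ξ h3, min_eq_left h3, max_eq_right (sub_nonpos.2 h3), add_zero]
      exact hk κ hw.1 ξ ⟨le_of_lt hw.2, h3.trans m0.2⟩
    · simp only [hgt κ ξ h3, min_eq_right h3.le, max_eq_left (sub_nonneg.2 h3.le)]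
  have hloc := loc_of (hC2.prod isOpen_Ioi) (ho.continuous.comp_continuousOn s1)
    (ho.injective.comp_injOn s2) fun x hx N hN => by
      rw [image_comp]
      exact ho.isOpenMap.image_mem_nhds (s3 x hx N hN)
  refine ⟨h₃, C', xc + max 1 (ηp - g0 + 1), ⟨hC2, IsLocalHomeomorphOn.mk _ _ ?_, hb.tpd⟩, hC3,
    fun κ hκ' => (hC1 hκ').1.2, fun κ ξ hξ => hle κ ξ (hξ.trans hxp),
    by linarith [le_max_left 1 (ηp - g0 + 1)], fun ξ hξ => ?_, g0 + max 1 (ηp - g0 + 1),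
    by linarith [le_max_right 1 (ηp - g0 + 1)], ?_⟩
  · rintro ⟨κ, ξ⟩ hw
    rcases lt_or_ge ξ xc with h3 | h3
    · obtain ⟨e', he', e1⟩ := hb.loc (κ, ξ) ⟨(hC1 hw.1).1.2, trivial⟩
      refine ⟨e'.restrOpen (univ ×ˢ Iio xc) (isOpen_univ.prod isOpen_Iio),
        ⟨he', trivial, h3⟩, fun z hz => ?_⟩
      exact (hle z.1 z.2 (le_of_lt hz.2.2)).trans (congrFun e1 z)
    · have hz : (κ, ξ) ∈ C' ×ˢ Ioi (xc - ε) := ⟨hw.1, show xc - ε < ξ by linarith⟩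
      obtain ⟨e', he', e1⟩ := hloc _ hz
      refine ⟨e'.restrOpen _ (hC2.prod (isOpen_Ioi (a := xc - ε))), ⟨he', hz⟩, fun z hz => ?_⟩
      exact (heq hz.2).trans (congrFun e1 z)
  · rcases le_or_gt ξ xc with h3 | h3
    · rw [hle _ _ h3]; exact hr ξ hξ.1
    · rw [hgt _ _ h3]; exact mem_range_self _
  · rw [hgt _ _ (by linarith [le_max_left 1 (ηp - g0 + 1)]),
      hfst xc (by linarith) fun ξ hξ => hr ξ hξ.1, add_sub_cancel_left]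

end Pool.Agent.MP_0c1703_gt.H59
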