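import Pool.Agent.MP_0c1703_gt.H59.Kit

namespace Pool.Agent.MP_0c1703_gt.H59

open Set Filter Topology Pool.Agent.MP_0c1703_gt.H58
open scoped Real

namespace FinA

theorem smap {Z Z' V : Type} [TopologicalSpace Z] [TopologicalSpace Z'] [TopologicalSpace V]
    {n p : Z} {q : V × ℝ → Z} (h : Susp Z V n p q) (e : Z ≃ₜ Z') :
    Susp Z' V (e n) (e p) (fun w => e (q w)) where
  cont := e.continuous.comp h.cont
  zero v := by rw [h.zero]
  pi v := by rw [h.pi]
  ne := fun a => h.ne (e.injective a)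
  inj v θ v' θ' h1 h2 a := h.inj v θ v' θ' h1 h2 (e.injective a)
  surj z := by
    rcases h.surj (e.symm z) with a | a | ⟨v, θ, hθ, a⟩
    · exact Or.inl (by rw [← a, e.apply_symm_apply])
    · exact Or.inr (Or.inl (by rw [← a, e.apply_symm_apply]))
    · exact Or.inr (Or.inr ⟨v, θ, hθ, by rw [a, e.apply_symm_apply]⟩)

theorem stab {X G : Type} [MetricSpace X] [Group G] (ρ : G →* X ≃ᵢ X) (n : Bd X)
    (hρ : Geometric ρ) (hn : (range fun g => act (ρ g) n).Finite) :
    ∃ (H : Type) (_ : Group H) (σ : H →* X ≃ᵢ X), Geometric σ ∧ ∀ h, act (σ h) n = n := by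
  let H : Subgroup G :=
    { carrier := {g | act (ρ g) n = n}
      mul_mem' := fun {a b} ha hb => by
        simp only [mem_setOf_eq] at ha hb ⊢
        rw [map_mul, act_mul, hb, ha]
      one_mem' := by simp only [mem_setOf_eq, map_one, act_one]
      inv_mem' := fun {a} ha => by
        simp only [mem_setOf_eq] at ha ⊢
        have := act_inv (ρ a) n
        rw [ha] at this
        rwa [map_inv] }
  refine ⟨H, inferInstance, ρ.comp H.subtype, ⟨fun K hK => ?_, ?_⟩, fun h => h.2⟩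
  · exact Set.Finite.preimage (f := fun h : H => (h : G)) Subtype.val_injective.injOn (hρ.1 K hK)
  · obtain ⟨K, hK, hx⟩ := hρ.2
    have := hn.to_subtype
    have hc : ∀ w : range fun g => act (ρ g) n, ∃ g, act (ρ g) n = w := fun w => w.2
    choose c hc using hc
    refine ⟨⋃ w, ρ (c w)⁻¹ '' K, isCompact_iUnion fun w => hK.image (ρ (c w)⁻¹).continuous,
      fun x => ?_⟩
    obtain ⟨g, hg⟩ := hx x
    let w : range fun g => act (ρ g) n := ⟨act (ρ g) n, g, rfl⟩
    refine ⟨⟨(c w)⁻¹ * g, ?_⟩, mem_iUnion.2 ⟨w, ρ g x, hg, ?_⟩⟩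
    · change act (ρ ((c w)⁻¹ * g)) n = n
      have e : act (ρ g) n = act (ρ (c w)) n := (hc w).symm
      rw [map_mul, act_mul, e, map_inv, act_inv]
    · simp

end FinA

theorem sFin : SCore → SFix → SFin := by
  intro hCore hFix X Y _ _ E ⟨hP, hC, G, _, ρ, hρ⟩ ⟨e⟩ hE ⟨y₀, hy₀⟩ hf
  have hn : (range fun g => act (ρ g) (e.symm y₀)).Finite := by
    refine (hE.image e.symm).subset ?_
    rintro _ ⟨g, rfl⟩
    exact ⟨_, hf (e.symm.trans ((actH (ρ g)).trans e)) y₀ hy₀, by simp [actH]⟩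
  obtain ⟨H, _, σ, hσ, hfix⟩ := FinA.stab ρ _ hρ hn
  obtain ⟨X', _, p, q, ⟨hP', hC', -⟩, hS, -⟩ := hFix X H σ _ hC hσ hfix
  exact ⟨Bd X', inferInstance, (hCore X' hC').c2.cpt, _, _, _, FinA.smap hS e⟩

end Pool.Agent.MP_0c1703_gt.H59
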