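import Pool.Agent.MP_0c1703_gt.H59.Kit

/-! The local flow along the fibres of a second suspension structure. -/

namespace Pool.Agent.MP_0c1703_gt.H59

open Set Filter Topology Pool.Agent.MP_0c1703_gt.H58
open scoped Real

namespace FlowA

theorem isOpen_dom {X : Type} [TopologicalSpace X] {G : Set (X × ℝ)} (hG : IsOpen G) :
    IsOpen {x : X × ℝ | ∀ r ∈ uIcc 0 x.2, (x.1, r) ∈ G} := by
  have e : {x : X × ℝ | ∀ r ∈ uIcc 0 x.2, (x.1, r) ∈ G} =
      {x : X × ℝ | ∀ l ∈ Icc (0 : ℝ) 1, (x.1, l * x.2) ∈ G} := by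
    ext x
    simp only [mem_ofPred_eq, ← segment_eq_uIcc, segment_eq_image, forall_mem_image, smul_eq_mul,
      mul_zero, zero_add]
  rw [e, isOpen_iff_mem_nhds]
  intro x hx
  refine isCompact_Icc.eventually_forall_of_forall_eventually
    (P := fun (x : X × ℝ) (l : ℝ) => (x.1, l * x.2) ∈ G) fun l hl => ?_
  have hc : Continuous fun z : (X × ℝ) × ℝ => (z.1.1, z.2 * z.1.2) := by fun_prop
  exact hc.continuousAt.preimage_mem_nhds (hG.mem_nhds (hx l hl))

theorem add_mem {r s u : ℝ} (h : u ∈ uIcc 0 (s - r)) : r + u ∈ uIcc r s := by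
  rw [mem_uIcc] at h ⊢
  rcases h with h | h
  · exact Or.inl ⟨by linarith [h.1], by linarith [h.2]⟩
  · exact Or.inr ⟨by linarith [h.1], by linarith [h.2]⟩

end FlowA

open FlowA in
theorem sFlow : SCoord → SImm → SFlow := by
  intro hC hI Z Y V _ _ _ _ _ _ n p n' p' q q' h h' v t t' y y' θ θ' hu hθ hθ' e e' hne
  have : Nonempty Y := ⟨y⟩
  have : Nonempty V := ⟨v⟩
  obtain ⟨-, -, pr, th, c1, c2, a1, a2, a3, a4⟩ := hC Z Y n p q h
  obtain ⟨-, -, pr', th', d1, d2, b1, b2, b3, b4⟩ := hC Z V n' p' q' h'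
  have hq := h.cont
  have hq' := h'.cont
  obtain ⟨z, hz⟩ : ∃ z : (Y × ℝ) × ℝ → Z, ∀ x, z x = q' (pr' (q x.1), th' (q x.1) + x.2) :=
    ⟨_, fun _ => rfl⟩
  let A : Set ((Y × ℝ) × ℝ) :=
    {x | x.1.2 ∈ Ioo 0 π} ∩ {x | th' (q x.1) ∈ Ioo 0 π} ∩ {x | th' (q x.1) + x.2 ∈ Ioo 0 π}
  have hA : IsOpen A := ((isOpen_Ioo.preimage (by fun_prop)).inter
    (isOpen_Ioo.preimage (by fun_prop))).inter (isOpen_Ioo.preimage (by fun_prop))
  have hzc : ContinuousOn z A := by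
    rw [show z = fun x => q' (pr' (q x.1), th' (q x.1) + x.2) from funext hz]
    refine hq'.comp_continuousOn (ContinuousOn.prodMk ?_ (by fun_prop))
    exact d2.comp (hq.comp continuous_fst).continuousOn fun x hx => (b4 _).2 hx.1.2
  let G : Set ((Y × ℝ) × ℝ) := A ∩ z ⁻¹' (th ⁻¹' Ioo 0 π)
  have hG : IsOpen G := hzc.isOpen_inter_preimage hA (isOpen_Ioo.preimage c1)
  have key : ∀ w r, (w, r) ∈ G → th' (q (pr (z (w, r)), th (z (w, r)))) = th' (q w) + r ∧
      ∀ u, z ((pr (z (w, r)), th (z (w, r))), u) = z (w, r + u) := by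
    intro w r hw
    have h1 : th' (q w) + r ∈ Ioo 0 π := hw.1.2
    have h2 : th' (z (w, r)) = th' (q w) + r := by
      rw [hz]
      exact b1 _ _ (Ioo_subset_Icc_self h1)
    have h3 : pr' (z (w, r)) = pr' (q w) := by
      rw [hz]
      exact b2 _ _ h1
    refine ⟨by rw [(a3 _).2, h2], fun u => ?_⟩
    rw [hz (_, u), hz (w, r + u)]
    simp only [(a3 _).2, h2, h3, add_assoc]
  have hF : LFlow {x : (Y × ℝ) × ℝ | ∀ r ∈ uIcc 0 x.2, (x.1, r) ∈ G}
      fun w s => (pr (z (w, s)), th (z (w, s))) := by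
    refine ⟨isOpen_dom hG, ?_, fun w s hw => ?_, fun w s hw r hr r' hr' => ?_,
      fun w s r hs hr => ⟨fun u hu => ?_, ?_⟩⟩
    · have h1 : ContinuousOn (fun x => (pr (z x), th (z x))) G :=
        (c2.comp (hzc.mono inter_subset_left) fun x hx => (a4 _).2 hx.2).prodMk
          (c1.comp_continuousOn (hzc.mono inter_subset_left))
      exact h1.mono fun x hx => hx x.2 right_mem_uIcc
    · have h1 : w.2 ∈ Ioo 0 π := (hw 0 left_mem_uIcc).1.1.1
      have h2 : z (w, 0) = q w := by rw [hz, add_zero, (b3 _).2]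
      rw [h2]
      exact Prod.ext (a2 w.1 w.2 h1) (a1 w.1 w.2 (Ioo_subset_Icc_self h1))
    · exact hw r' (uIcc_subset_uIcc left_mem_uIcc hr hr')
    · have g1 : (w, r) ∈ G := hr r right_mem_uIcc
      have g2 : (w, r + u) ∈ G := by
        rcases uIcc_subset_uIcc_union_uIcc (b := 0) (add_mem hu) with h1 | h1
        · exact hr _ (uIcc_comm r 0 ▸ h1)
        · exact hs _ h1
      obtain ⟨k1, k2⟩ := key w r g1
      refine ⟨⟨⟨g1.2, ?_⟩, ?_⟩, ?_⟩
      · show th' (q (pr (z (w, r)), th (z (w, r)))) ∈ Ioo 0 π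
        rw [k1]
        exact g1.1.2
      · show th' (q (pr (z (w, r)), th (z (w, r)))) + u ∈ Ioo 0 π
        rw [k1, add_assoc]
        exact g2.1.2
      · show th (z ((pr (z (w, r)), th (z (w, r))), u)) ∈ Ioo 0 π
        rw [k2]
        exact g2.2
    · rw [(key w r (hr r right_mem_uIcc)).2, add_sub_cancel]
  have ht := (hu t left_mem_uIcc).1
  have f1 : th' (q (y, θ)) = t := by
    rw [← e]
    exact b1 _ _ (Ioo_subset_Icc_self ht)
  have f2 : ∀ r, z ((y, θ), r) = q' (v, t + r) := fun r => by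
    rw [hz, f1, ← e, b2 _ _ ht]
  refine (hI Y).1 _ _ y θ (t' - t) hF (fun r hr => ?_) ?_
  · obtain ⟨g1, g2, g3⟩ := hu _ (add_mem hr)
    refine ⟨⟨⟨hθ, ?_⟩, ?_⟩, ?_⟩
    · show th' (q (y, θ)) ∈ Ioo 0 π
      rwa [f1]
    · show th' (q (y, θ)) + r ∈ Ioo 0 π
      rwa [f1]
    · show th (z ((y, θ), r)) ∈ Ioo 0 π
      rw [f2, ← a4]
      simp [g2, g3]
  · show pr (z ((y, θ), t' - t)) ≠ y
    rwa [f2, add_sub_cancel, e', a2 _ _ hθ']

end Pool.Agent.MP_0c1703_gt.H59
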