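import Pool.Agent.MP_0c1703_gt.H59.Kit

/-! Gluing a family of lifted curves across an embedded box. -/

namespace Pool.Agent.MP_0c1703_gt.H59

open Set Filter Topology

namespace GlueA

/-- the tube lemma -/
theorem tube {P Z : Type} [TopologicalSpace P] [TopologicalSpace Z] {N : Set P} {p₀ : P}
    {F : P × ℝ → Z} {a b : ℝ} {W : Set Z} (hN : IsOpen N) (hp : p₀ ∈ N)
    (hF : ContinuousOn F (N ×ˢ Icc a b)) (hW : IsOpen W) (h0 : ∀ t ∈ Icc a b, F (p₀, t) ∈ W) :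
    ∀ᶠ p in 𝓝 p₀, ∀ t ∈ Icc a b, F (p, t) ∈ W := by
  have key : ∀ᶠ p in 𝓝 p₀, ∀ t ∈ Icc a b, t ∈ Icc a b → F (p, t) ∈ W := by
    refine isCompact_Icc.eventually_forall_of_forall_eventually
      (P := fun p t => t ∈ Icc a b → F (p, t) ∈ W) fun t ht => ?_
    have h1 : ∀ᶠ z in 𝓝[N ×ˢ Icc a b] (p₀, t), F z ∈ W :=
      hF (p₀, t) ⟨hp, ht⟩ (hW.mem_nhds (h0 t ht))
    have h2 : ∀ᶠ z : P × ℝ in 𝓝 (p₀, t), z.1 ∈ N :=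
      continuous_fst.continuousAt.eventually (hN.mem_nhds hp)
    filter_upwards [eventually_nhdsWithin_iff.1 h1, h2] with z hz hz' hz2
    exact hz ⟨hz', hz2⟩
  filter_upwards [key] with p hp t ht using hp t ht ht

theorem bdd {f : ℝ → ℝ} {a b : ℝ} (hf : ContinuousOn f (Icc a b)) :
    ∃ R > 0, ∀ t ∈ Icc a b, f t ∈ Ioo (-R) R := by
  obtain ⟨R, hR⟩ := isCompact_Icc.exists_bound_of_continuousOn hf
  refine ⟨|R| + 1, by positivity, fun t ht => ?_⟩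
  have h1 := hR t ht
  rw [Real.norm_eq_abs] at h1
  exact abs_lt.1 (by linarith [le_abs_self R])

variable {Y C C₂ : Type} [MetricSpace Y] [TopologicalSpace C] [TopologicalSpace C₂]
  {h : C × ℝ → Y} {C₀ : Set C} {h₂ : C₂ × ℝ → Y} {j : Y → C₂ × ℝ}

/-- reversal of the second coordinate -/
def ng (C : Type) [TopologicalSpace C] : C × ℝ ≃ₜ C × ℝ :=
  (Homeomorph.refl C).prodCongr (Homeomorph.neg ℝ)

theorem box_flip (hb : BoxOn h C₀) : BoxOn (fun w => h (w.1, -w.2)) C₀ :=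
  ⟨hb.op, hb.loc.comp (ng C).isLocalHomeomorph.isLocalHomeomorphOn fun _ hw => ⟨hw.1, trivial⟩,
    hb.tpd⟩

theorem emb_flip (he : IsOpenEmbedding h₂) : IsOpenEmbedding fun w : C₂ × ℝ => h₂ (w.1, -w.2) :=
  he.comp (ng C₂).isOpenEmbedding

omit [MetricSpace Y] [TopologicalSpace C₂] in
theorem range_flip (h₂ : C₂ × ℝ → Y) : range (fun w : C₂ × ℝ => h₂ (w.1, -w.2)) = range h₂ := by
  ext y
  constructor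
  · rintro ⟨w, rfl⟩
    exact ⟨_, rfl⟩
  · rintro ⟨w, rfl⟩
    exact ⟨(w.1, -w.2), by simp⟩

theorem exists_inv (he : IsOpenEmbedding h₂) (w₀ : C₂ × ℝ) :
    ∃ j : Y → C₂ × ℝ, ContinuousOn j (range h₂) ∧ ∀ w, j (h₂ w) = w := by
  have : Nonempty (C₂ × ℝ) := ⟨w₀⟩
  refine ⟨(he.toOpenPartialHomeomorph h₂).symm, ?_, fun w => ?_⟩
  · simpa using (he.toOpenPartialHomeomorph h₂).continuousOn_symm
  · exact he.toOpenPartialHomeomorph_left_inv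

omit [MetricSpace Y] [TopologicalSpace C₂] in
theorem eq_of_inv (hj : ∀ w, j (h₂ w) = w) {y : Y} (hy : y ∈ range h₂) :
    y = h₂ ((j y).1, (j y).2) := by
  obtain ⟨w, rfl⟩ := hy
  rw [hj]

theorem fst_const (hc : ContinuousOn j (range h₂)) (hT : TPD C₂) {γ : ℝ → Y} {a b : ℝ}
    (hγ : ContinuousOn γ (Icc a b)) (hm : ∀ t ∈ Icc a b, γ t ∈ range h₂) {u v : ℝ}
    (hu : u ∈ Icc a b) (hv : v ∈ Icc a b) : (j (γ u)).1 = (j (γ v)).1 := by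
  have hf : ContinuousOn (fun t => (j (γ t)).1) (Icc a b) :=
    continuous_fst.comp_continuousOn (hc.comp hγ hm)
  have key : ∀ t ∈ Icc a b, (j (γ a)).1 = (j (γ t)).1 := fun t ht =>
    hT _ a t ht.1 (hf.mono (Icc_subset_Icc_right ht.2))
  rw [← key u hu, key v hv]

theorem leaf_cont (hb : BoxOn h C₀) {κ : C} (hκ : κ ∈ C₀) : Continuous fun ξ => h (κ, ξ) :=
  hb.loc.continuousOn.comp_continuous (by fun_prop) fun _ => ⟨hκ, trivial⟩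

theorem leaf_inj (hb : BoxOn h C₀) {κ : C} (hκ : κ ∈ C₀) (ξ : ℝ) :
    ∃ ε > 0, InjOn (fun ξ => h (κ, ξ)) (Ioo (ξ - ε) (ξ + ε)) := by
  obtain ⟨e, he, rfl⟩ := hb.loc (κ, ξ) ⟨hκ, trivial⟩
  have h1 : (fun ξ : ℝ => (κ, ξ)) ⁻¹' e.source ∈ 𝓝 ξ :=
    (e.open_source.preimage (by fun_prop)).mem_nhds he
  obtain ⟨ε, hε, h2⟩ := Metric.mem_nhds_iff.1 h1
  rw [Real.ball_eq_Ioo] at h2
  exact ⟨ε, hε, fun u hu v hv huv => (Prod.ext_iff.1 (e.injOn (h2 hu) (h2 hv) huv)).2⟩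

theorem snd_cont (hb : BoxOn h C₀) (hc : ContinuousOn j (range h₂)) {κ : C} (hκ : κ ∈ C₀)
    {a b : ℝ} (hm : ∀ ξ ∈ Icc a b, h (κ, ξ) ∈ range h₂) :
    ContinuousOn (fun ξ => (j (h (κ, ξ))).2) (Icc a b) :=
  continuous_snd.comp_continuousOn (hc.comp (leaf_cont hb hκ).continuousOn hm)

theorem snd_inj (hb : BoxOn h C₀) (hc : ContinuousOn j (range h₂)) (hj : ∀ w, j (h₂ w) = w)
    (hT : TPD C₂) {κ : C} (hκ : κ ∈ C₀) {a b : ℝ} (hm : ∀ ξ ∈ Icc a b, h (κ, ξ) ∈ range h₂) :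
    InjOn (fun ξ => (j (h (κ, ξ))).2) (Icc a b) := by
  refine injOn_of_loc (snd_cont hb hc hκ hm) fun ξ hξ => ?_
  obtain ⟨ε, hε, hi⟩ := leaf_inj hb hκ ξ
  set ρ := min ε (min (ξ - a) (b - ξ)) with hρ
  have ρ1 : ρ ≤ ε := min_le_left _ _
  have ρ2 : ρ ≤ ξ - a := (min_le_right _ _).trans (min_le_left _ _)
  have ρ3 : ρ ≤ b - ξ := (min_le_right _ _).trans (min_le_right _ _)
  have s1 : Ioo (ξ - ρ) (ξ + ρ) ⊆ Icc a b := fun u hu => ⟨by linarith [hu.1], by linarith [hu.2]⟩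
  have s2 : Ioo (ξ - ρ) (ξ + ρ) ⊆ Ioo (ξ - ε) (ξ + ε) := Ioo_subset_Ioo (by linarith) (by linarith)
  refine ⟨ρ, lt_min hε (lt_min (by linarith [hξ.1]) (by linarith [hξ.2])), fun u hu v hv e => ?_⟩
  refine hi (s2 hu) (s2 hv) ?_
  have e1 := fst_const hc hT (leaf_cont hb hκ).continuousOn hm (s1 hu) (s1 hv)
  simp only [] at e ⊢
  rw [eq_of_inv hj (hm u (s1 hu)), eq_of_inv hj (hm v (s1 hv)), e1, e]

/-- the leaf through a point crosses the embedded box upwards -/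
def Up (h : C × ℝ → Y) (h₂ : C₂ × ℝ → Y) (κ₀ : C) (κ₂ : C₂) (ξ₀ η₀ : ℝ) : Prop :=
  h (κ₀, ξ₀) = h₂ (κ₂, η₀) ∧ ∃ ε > 0, (∀ ξ ∈ Ioo ξ₀ (ξ₀ + ε), ∃ η > η₀, h (κ₀, ξ) = h₂ (κ₂, η)) ∧
    ∀ ξ ∈ Ioo (ξ₀ - ε) ξ₀, ∃ η < η₀, h (κ₀, ξ) = h₂ (κ₂, η)

theorem up_or (hb : BoxOn h C₀) (he : IsOpenEmbedding h₂) (hT : TPD C₂) {κ₀ : C} (hκ : κ₀ ∈ C₀)
    {ξ₀ : ℝ} (h0 : h (κ₀, ξ₀) ∈ range h₂) :
    (∃ κ₂ η₀, Up h h₂ κ₀ κ₂ ξ₀ η₀) ∨ ∃ κ₂ η₀, Up h (fun w => h₂ (w.1, -w.2)) κ₀ κ₂ ξ₀ η₀ := by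
  obtain ⟨j, hc, hj⟩ := exists_inv he h0.choose
  have h1 : (fun ξ : ℝ => h (κ₀, ξ)) ⁻¹' range h₂ ∈ 𝓝 ξ₀ :=
    (he.isOpen_range.preimage (leaf_cont hb hκ)).mem_nhds h0
  obtain ⟨ε, hε, h2⟩ := Metric.nhds_basis_closedBall.mem_iff.1 h1
  rw [Real.closedBall_eq_Icc] at h2
  have m0 : ξ₀ ∈ Icc (ξ₀ - ε) (ξ₀ + ε) := ⟨by linarith, by linarith⟩
  have m1 : Ioo ξ₀ (ξ₀ + ε) ⊆ Icc (ξ₀ - ε) (ξ₀ + ε) := fun u hu => ⟨by linarith [hu.1], hu.2.le⟩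
  have m2 : Ioo (ξ₀ - ε) ξ₀ ⊆ Icc (ξ₀ - ε) (ξ₀ + ε) := fun u hu => ⟨hu.1.le, by linarith [hu.2]⟩
  have e : ∀ ξ ∈ Icc (ξ₀ - ε) (ξ₀ + ε),
      h (κ₀, ξ) = h₂ ((j (h (κ₀, ξ₀))).1, (j (h (κ₀, ξ))).2) := fun ξ hξ => by
    rw [← fst_const hc hT (leaf_cont hb hκ).continuousOn h2 hξ m0]
    exact eq_of_inv hj (h2 hξ)
  rcases (snd_cont hb hc hκ h2).strictMonoOn_of_injOn_Icc' (by linarith)
    (snd_inj hb hc hj hT hκ h2) with hm | hm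
  · exact Or.inl ⟨_, _, e _ m0, ε, hε, fun ξ hξ => ⟨_, hm m0 (m1 hξ) hξ.1, e _ (m1 hξ)⟩,
      fun ξ hξ => ⟨_, hm (m2 hξ) m0 hξ.2, e _ (m2 hξ)⟩⟩
  · refine Or.inr ⟨(j (h (κ₀, ξ₀))).1, -(j (h (κ₀, ξ₀))).2, by simpa using e _ m0, ε, hε,
      fun ξ hξ => ⟨-(j (h (κ₀, ξ))).2, neg_lt_neg (hm m0 (m1 hξ) hξ.1), by simpa using e _ (m1 hξ)⟩,
      fun ξ hξ => ⟨-(j (h (κ₀, ξ))).2, neg_lt_neg (hm (m2 hξ) m0 hξ.2), by simpa using e _ (m2 hξ)⟩⟩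

/-- extension of a box in both directions -/
theorem ext2 (hE : SExt) (hb : BoxOn h C₀) (he : IsOpenEmbedding h₂) (hT : TPD C₂) {κ₀ : C}
    (hκ : κ₀ ∈ C₀) {κ₂ : C₂} {ξ₀ η₀ : ℝ} (hu : Up h h₂ κ₀ κ₂ ξ₀ η₀) (S R : ℝ)
    (hS : ξ₀ ∈ Icc (-S) S) :
    ∃ (h₄ : C × ℝ → Y) (C' : Set C) (ξL ξR : ℝ), BoxOn h₄ C' ∧ κ₀ ∈ C' ∧
      (∀ κ, ∀ ξ ∈ Icc (-S) S, h₄ (κ, ξ) = h (κ, ξ)) ∧ ξL < ξ₀ ∧ ξ₀ < ξR ∧
      (∀ ξ ∈ Icc ξL ξR, h₄ (κ₀, ξ) ∈ range h₂) ∧ h₄ (κ₀, ξL) ∈ h₂ '' (univ ×ˢ Iio (-R)) ∧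
      h₄ (κ₀, ξR) ∈ h₂ '' (univ ×ˢ Ioi R) := by
  obtain ⟨e0, ε, hε, u1, u2⟩ := hu
  obtain ⟨h₃, C₃, ξR, b3, k3, -, a3, l3, r3, η3, g3, e3⟩ :=
    hE Y C C₂ h C₀ h₂ κ₀ κ₂ ξ₀ η₀ S R hb hκ he hT e0 ⟨ε, hε, u1⟩
  obtain ⟨h₅, C₅, ξ5, b5, k5, -, a5, l5, r5, η5, g5, e5⟩ :=
    hE Y C C₂ (fun w => h₃ (w.1, -w.2)) C₃ (fun w => h₂ (w.1, -w.2)) κ₀ κ₂ (-ξ₀) (-η₀) S R
      (box_flip b3) k3 (emb_flip he) hT (by simp only [neg_neg]; rw [a3 _ _ (le_max_left _ _), e0])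
      ⟨ε, hε, fun ξ hξ => by
        obtain ⟨η, g, e⟩ := u2 (-ξ) ⟨by linarith [hξ.2], by linarith [hξ.1]⟩
        refine ⟨-η, neg_lt_neg g, ?_⟩
        simp only [neg_neg]
        rw [a3 _ _ (le_max_of_le_left (by linarith [hξ.1])), e]⟩
  have a4 : ∀ κ ξ, -S ≤ ξ → h₅ (κ, -ξ) = h₃ (κ, ξ) := fun κ ξ hξ => by
    rw [a5 _ _ (le_max_of_le_right (by linarith))]
    simp only [neg_neg]
  refine ⟨fun w => h₅ (w.1, -w.2), C₅, -ξ5, ξR, box_flip b5, k5, fun κ ξ hξ => ?_, by linarith, l3,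
    fun ξ hξ => ?_, ⟨(κ₂, -η5), ⟨trivial, neg_lt_neg g5⟩, by simpa using e5.symm⟩,
    ⟨(κ₂, η3), ⟨trivial, g3⟩, ?_⟩⟩
  · simp only []
    rw [a4 _ _ hξ.1, a3 _ _ (le_max_of_le_right hξ.2)]
  · simp only []
    rcases le_total ξ ξ₀ with h1 | h1
    · rw [← range_flip h₂]
      exact r5 _ ⟨by linarith, by linarith [hξ.1]⟩
    · rw [a4 _ _ (hS.1.trans h1)]
      exact r3 _ ⟨h1, hξ.2⟩
  · simp only []
    rw [a4 _ _ (hS.1.trans l3.le), e3]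

theorem glue (hE : SExt) (hI : SImp) {P : Type} [TopologicalSpace P] {Γ : P × ℝ → Y} {N : Set P}
    {p₀ : P} {κ : P → C} {x : P × ℝ → ℝ} {a t₀ t₁ : ℝ} (hb : BoxOn h C₀) (he : IsOpenEmbedding h₂)
    (hT : TPD C₂) (hN : IsOpen N) (hp : p₀ ∈ N) (h01 : a ≤ t₀) (h12 : t₀ ≤ t₁)
    (cκ : ContinuousOn κ N) (mκ : MapsTo κ N C₀) (cx : ContinuousOn x (N ×ˢ Icc a t₀))
    (cΓ : ContinuousOn Γ (N ×ˢ Icc a t₁))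
    (hl : ∀ p ∈ N, ∀ t ∈ Icc a t₀, Γ (p, t) = h (κ p, x (p, t)))
    (hr : ∀ t ∈ Icc t₀ t₁, Γ (p₀, t) ∈ range h₂) {κ₂ : C₂} {η₀ : ℝ}
    (hu : Up h h₂ (κ p₀) κ₂ (x (p₀, t₀)) η₀) :
    ∃ (h₃ : C × ℝ → Y) (C' : Set C) (N' : Set P) (x' : P × ℝ → ℝ), BoxOn h₃ C' ∧ IsOpen N' ∧
      p₀ ∈ N' ∧ N' ⊆ N ∧ MapsTo κ N' C' ∧ ContinuousOn x' (N' ×ˢ Icc a t₁) ∧
      ∀ p ∈ N', ∀ t ∈ Icc a t₁, Γ (p, t) = h₃ (κ p, x' (p, t)) := by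
  obtain ⟨j, hc, hj⟩ := exists_inv he (κ₂, η₀)
  have m0 : t₀ ∈ Icc a t₀ := ⟨h01, le_rfl⟩
  have m1 : t₀ ∈ Icc t₀ t₁ := ⟨le_rfl, h12⟩
  have cΓ' : ContinuousOn Γ (N ×ˢ Icc t₀ t₁) := cΓ.mono (prod_mono_right (Icc_subset_Icc_left h01))
  have cΓp : ∀ p ∈ N, ContinuousOn (fun t => Γ (p, t)) (Icc t₀ t₁) := fun p hp =>
    cΓ'.comp (by fun_prop) fun t ht => ⟨hp, ht⟩
  obtain ⟨S, -, hS⟩ := bdd (f := fun t => x (p₀, t)) (a := a) (b := t₀)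
    (cx.comp (by fun_prop) fun t ht => ⟨hp, ht⟩)
  obtain ⟨R, hR0, hR⟩ := bdd (f := fun t => (j (Γ (p₀, t))).2) (a := t₀) (b := t₁)
    (continuous_snd.comp_continuousOn (hc.comp (cΓp p₀ hp) hr))
  obtain ⟨h₄, C', ξL, ξR, b4, k4, a4, l4, l4', r4, eL, eR⟩ :=
    ext2 hE hb he hT (mκ hp) hu S R (Ioo_subset_Icc_self (hS t₀ m0))
  have hN₁ : IsOpen (N ∩ κ ⁻¹' C') := cκ.isOpen_inter_preimage hN b4.op
  have hp₁ : p₀ ∈ N ∩ κ ⁻¹' C' := ⟨hp, k4⟩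
  have cF : ∀ T : Set ℝ, ContinuousOn (fun w : P × ℝ => h₄ (κ w.1, w.2)) ((N ∩ κ ⁻¹' C') ×ˢ T) :=
    fun T => b4.loc.continuousOn.comp
      ((cκ.comp continuousOn_fst fun w hw => hw.1.1).prodMk continuousOn_snd)
      fun w hw => ⟨hw.1.2, trivial⟩
  have op : ∀ T : Set ℝ, IsOpen T → IsOpen (h₂ '' (univ ×ˢ T)) := fun T hT =>
    he.isOpenMap _ (isOpen_univ.prod hT)
  have snd : ∀ (T : Set ℝ) (y : Y), y ∈ h₂ '' (univ ×ˢ T) → (j y).2 ∈ T := by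
    rintro T _ ⟨w, hw, rfl⟩
    rw [hj]
    exact hw.2
  have v1 := tube hN hp cx isOpen_Ioo hS
  have v2 := tube hN hp cΓ' (op _ (isOpen_Ioo (a := -R) (b := R))) fun t ht =>
    ⟨_, ⟨trivial, hR t ht⟩, (eq_of_inv hj (hr t ht)).symm⟩
  have v3 := tube hN hp (cx.mono (prod_mono_right (Icc_subset_Icc_left h01)))
    (isOpen_Ioo (a := ξL) (b := ξR)) fun t ht => by
      rw [le_antisymm ht.2 ht.1]
      exact ⟨l4, l4'⟩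
  have v4 := tube hN₁ hp₁ (cF (Icc ξL ξR)) he.isOpen_range r4
  have v5 := tube hN₁ hp₁ (cF (Icc ξL ξL)) (op _ (isOpen_Iio (a := -R))) fun t ht => by
    rw [le_antisymm ht.2 ht.1]
    exact eL
  have v6 := tube hN₁ hp₁ (cF (Icc ξR ξR)) (op _ (isOpen_Ioi (a := R))) fun t ht => by
    rw [le_antisymm ht.2 ht.1]
    exact eR
  have v0 : ∀ᶠ p in 𝓝 p₀, p ∈ N ∩ κ ⁻¹' C' := hN₁.mem_nhds hp₁
  obtain ⟨N', hN', oN', pN'⟩ :=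
    eventually_nhds_iff.1 (v0.and (v1.and (v2.and (v3.and (v4.and (v5.and v6))))))
  have w0 : ∀ p ∈ N', p ∈ N ∩ κ ⁻¹' C' := fun p hp => (hN' p hp).1
  have w1 : ∀ p ∈ N', ∀ t ∈ Icc a t₀, Γ (p, t) = h₄ (κ p, x (p, t)) := fun p hp t ht => by
    rw [a4 _ _ (Ioo_subset_Icc_self ((hN' p hp).2.1 t ht)), hl p (w0 p hp).1 t ht]
  have w2 : ∀ p ∈ N', ∀ t ∈ Icc t₀ t₁, Γ (p, t) ∈ range h₂ := fun p hp t ht =>
    image_subset_range _ _ ((hN' p hp).2.2.1 t ht)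
  have w2' : ∀ p ∈ N', ∀ t ∈ Icc t₀ t₁, (j (Γ (p, t))).2 ∈ Ioo (-R) R := fun p hp t ht =>
    snd _ _ ((hN' p hp).2.2.1 t ht)
  have w3 : ∀ p ∈ N', x (p, t₀) ∈ Icc ξL ξR := fun p hp =>
    Ioo_subset_Icc_self ((hN' p hp).2.2.2.1 t₀ ⟨le_rfl, le_rfl⟩)
  have w4 : ∀ p ∈ N', ∀ ξ ∈ Icc ξL ξR, h₄ (κ p, ξ) ∈ range h₂ := fun p hp => (hN' p hp).2.2.2.2.1
  have w5 : ∀ p ∈ N', (j (h₄ (κ p, ξL))).2 < -R := fun p hp =>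
    snd _ _ ((hN' p hp).2.2.2.2.2.1 ξL ⟨le_rfl, le_rfl⟩)
  have w6 : ∀ p ∈ N', R < (j (h₄ (κ p, ξR))).2 := fun p hp =>
    snd _ _ ((hN' p hp).2.2.2.2.2.2 ξR ⟨le_rfl, le_rfl⟩)
  have hLR : ξL ≤ ξR := (l4.trans l4').le
  have mono : ∀ p ∈ N', StrictMonoOn (fun ξ => (j (h₄ (κ p, ξ))).2) (Icc ξL ξR) := fun p hp =>
    (snd_cont b4 hc (w0 p hp).2 (w4 p hp)).strictMonoOn_of_injOn_Icc hLR
      (by linarith [w5 p hp, w6 p hp]) (snd_inj b4 hc hj hT (w0 p hp).2 (w4 p hp))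
  obtain ⟨r, cr, hr'⟩ := hI (P × ℝ) (N' ×ˢ Icc t₀ t₁)
    (fun z => (j (h₄ (κ z.1.1, z.2))).2 - (j (Γ z.1)).2) ξL ξR hLR
    ((continuous_snd.comp_continuousOn (hc.comp ((cF univ).comp
        (f := fun z : (P × ℝ) × ℝ => (z.1.1, z.2)) (by fun_prop)
        fun z hz => ⟨w0 _ hz.1.1, trivial⟩) fun z hz => w4 _ hz.1.1 _ hz.2)).sub
      (continuous_snd.comp_continuousOn (hc.comp (cΓ'.comp continuousOn_fst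
        fun z hz => ⟨(w0 _ hz.1.1).1, hz.1.2⟩) fun z hz => w2 _ hz.1.1 _ hz.1.2)))
    (fun z hz u hu v hv huv => sub_lt_sub_right (mono _ hz.1 hu hv huv) _)
    fun z hz => ⟨by linarith [w5 _ hz.1, (w2' _ hz.1 _ hz.2).1],
      by linarith [w6 _ hz.1, (w2' _ hz.1 _ hz.2).2]⟩
  have r1 : ∀ p ∈ N', ∀ t ∈ Icc t₀ t₁, (j (h₄ (κ p, r (p, t)))).2 = (j (Γ (p, t))).2 :=
    fun p hp t ht => sub_eq_zero.1 (hr' (p, t) ⟨hp, ht⟩).2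
  have r2 : ∀ p ∈ N', r (p, t₀) = x (p, t₀) := fun p hp =>
    (mono p hp).injOn (hr' (p, t₀) ⟨hp, m1⟩).1 (w3 p hp) (by
      rw [r1 p hp t₀ m1, w1 p hp t₀ m0])
  have r3 : ∀ p ∈ N', ∀ t ∈ Icc t₀ t₁, Γ (p, t) = h₄ (κ p, r (p, t)) := fun p hp t ht => by
    have hm := (hr' (p, t) ⟨hp, ht⟩).1
    have e1 := fst_const hc hT (leaf_cont b4 (w0 p hp).2).continuousOn (w4 p hp) hm (w3 p hp)
    have e2 := fst_const hc hT (cΓp p (w0 p hp).1) (w2 p hp) ht m1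
    rw [eq_of_inv hj (w2 p hp t ht), eq_of_inv hj (w4 p hp _ hm), r1 p hp t ht, e1, e2,
      w1 p hp t₀ m0]
  refine ⟨h₄, C', N', fun w => x (w.1, min w.2 t₀) + r (w.1, max w.2 t₀) - x (w.1, t₀), b4, oN',
    pN', fun p hp => (w0 p hp).1, fun p hp => (w0 p hp).2, ?_, fun p hp t ht => ?_⟩
  · refine ((cx.comp (f := fun w : P × ℝ => (w.1, min w.2 t₀)) (by fun_prop) fun w hw =>
      ⟨(w0 _ hw.1).1, le_min hw.2.1 h01, min_le_right _ _⟩).add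
      (cr.comp (f := fun w : P × ℝ => (w.1, max w.2 t₀)) (by fun_prop) fun w hw =>
      ⟨hw.1, le_max_right _ _, max_le hw.2.2 h12⟩)).sub
      (cx.comp (f := fun w : P × ℝ => (w.1, t₀)) (by fun_prop) fun w hw => ⟨(w0 _ hw.1).1, m0⟩)
  · simp only []
    rcases le_total t t₀ with h1 | h1
    · rw [min_eq_left h1, max_eq_right h1, r2 p hp, add_sub_cancel_right]
      exact w1 p hp t ⟨ht.1, h1⟩
    · rw [min_eq_right h1, max_eq_left h1, add_sub_cancel_left]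
      exact r3 p hp t ⟨h1, ht.2⟩

end GlueA

open GlueA in
theorem sGlue : SExt → SImp → SGlue := by
  intro hE hI Y C C₂ P _ _ _ _ h C₀ h₂ Γ N p₀ κ x a t₀ t₁ hb he hT hN hp h01 h12 cκ mκ cx cΓ hl hr
  have h0 : h (κ p₀, x (p₀, t₀)) ∈ range h₂ := by
    rw [← hl p₀ hp t₀ ⟨h01, le_rfl⟩]
    exact hr t₀ ⟨le_rfl, h12⟩
  rcases up_or hb he hT (mκ hp) h0 with ⟨κ₂, η₀, hu⟩ | ⟨κ₂, η₀, hu⟩
  · exact glue hE hI hb he hT hN hp h01 h12 cκ mκ cx cΓ hl hr hu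
  · exact glue hE hI hb (emb_flip he) hT hN hp h01 h12 cκ mκ cx cΓ hl
      (by rw [range_flip]; exact hr) hu

end Pool.Agent.MP_0c1703_gt.H59
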