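import Pool.Agent.MP_0c1703_gt.H59.Kit

/-! Logarithms on a punctured product of a tree with an interval. -/

namespace Pool.Agent.MP_0c1703_gt.H59

open Set Filter Topology
open scoped Real

namespace HA

variable {Y : Type} [MetricSpace Y] {B : Set Y} {G : ℝ × ℝ → Y} {R : Set (ℝ × ℝ)} {x : Y}

theorem seg_mem (hR : Convex ℝ R) {w w' : ℝ × ℝ} (hw : w ∈ R) (hw' : w' ∈ R) :
    MapsTo (fun t : ℝ => w + t • (w' - w)) (Icc 0 1) R := fun _ ht =>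
  hR.add_smul_sub_mem hw hw' ht

theorem seg_path (hR : Convex ℝ R) (hG : ContinuousOn G R) {w w' : ℝ × ℝ} (hw : w ∈ R)
    (hw' : w' ∈ R) : PathIn (G '' R) (fun t => G (w + t • (w' - w))) 0 1 :=
  ⟨zero_le_one, hG.comp (by fun_prop) (seg_mem hR hw hw'),
    fun _ ht => mem_image_of_mem _ (seg_mem hR hw hw' ht)⟩

theorem logK (hR : Convex ℝ R) (hc : IsCompact R) (hG : ContinuousOn G R) (hB : G '' R ⊆ B)
    (hL : LF B) {v : Y → ℂ} (hv : ContinuousOn v (G '' R)) (h0 : ∀ y ∈ G '' R, v y ≠ 0) :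
    HasLog v (G '' R) := by
  obtain ⟨L, hLc, hLe⟩ := hasLog_convex hR (u := fun w => v (G w))
    (hv.comp hG (mapsTo_image _ _)) fun w hw => h0 _ (mem_image_of_mem _ hw)
  have key : ∀ w ∈ R, ∀ w' ∈ R, G w = G w' → L w = L w' := by
    intro w hw w' hw' e
    have hp := seg_path hR hG hw hw'
    have := hL _ 0 1 v (fun t => L (w + t • (w' - w))) (hp.mono hB) (by simpa using e)
      (hv.mono hp.image_subset) (hLc.comp (by fun_prop) (seg_mem hR hw hw'))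
      fun r hr => hLe _ (seg_mem hR hw hw' hr)
    simpa using this
  have e : ∀ w ∈ R, L (Function.invFunOn G R (G w)) = L w := fun w hw =>
    key _ (Function.invFunOn_mem ⟨w, hw, rfl⟩) _ hw (Function.invFunOn_eq ⟨w, hw, rfl⟩)
  refine ⟨fun y => L (Function.invFunOn G R y), quot hc hG (hLc.congr e), ?_⟩
  rintro _ ⟨w, hw, rfl⟩
  exact (congrArg Complex.exp (e w hw)).trans (hLe w hw)

theorem conn (hArc : SArc) (hT : Tree B) (hR : Convex ℝ R) (hG : ContinuousOn G R) (hB : G '' R ⊆ B)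
    {S : Set Y} (hS : S ⊆ G '' R) (h1 : ∀ y ∈ S, ∀ y' ∈ S, JoinedIn (B \ {x}) y y')
    (h2 : ∀ y ∈ S, ∀ z ∈ G '' R, JoinedIn (B \ {x}) y z → z ∈ S) : IsPreconnected S := by
  refine isPreconnected_of_forall_pair fun y hy y' hy' => ?_
  by_cases e : y = y'
  · exact ⟨{y}, by simpa using hy, rfl, e.symm, isPreconnected_singleton⟩
  obtain ⟨w, hw, rfl⟩ := hS hy
  obtain ⟨w', hw', rfl⟩ := hS hy'
  have hp := seg_path hR hG hw hw'
  obtain ⟨c, hc, c0, c1⟩ := hArc Y _ 0 1 zero_le_one hp.cont (by simpa using e)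
  simp only [zero_smul, add_zero, one_smul, add_sub_cancel] at c0 c1
  have hc' := hc.mono hp.image_subset
  obtain ⟨γ, hγ, g0, g1⟩ := exists_pathIn (h1 _ hy _ hy')
  have hsub : c '' Icc 0 1 ⊆ B \ {x} :=
    (hT c 0 1 γ 0 1 (hc'.mono hB) (hγ.mono sdiff_subset) (g0.trans c0.symm) (g1.trans c1.symm)).trans
      hγ.image_subset
  have hq : PathIn (B \ {x}) c 0 1 := hc.path.image.mono hsub
  refine ⟨c '' Icc 0 1, ?_, ⟨0, left_mem_Icc.2 zero_le_one, c0⟩, ⟨1, right_mem_Icc.2 zero_le_one, c1⟩,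
    isPreconnected_Icc.image _ hc.path.cont⟩
  rintro _ ⟨r, hr, rfl⟩
  exact h2 _ hy _ (hc'.path.mem hr) (c0 ▸ hq.joined (left_mem_Icc.2 zero_le_one) hr)

theorem locj (hR : Convex ℝ R) (hG : ContinuousOn G R) (hB : G '' R ⊆ B) {w : ℝ × ℝ} (hw : w ∈ R)
    (hx : G w ≠ x) : ∀ᶠ w' in 𝓝 w, w' ∈ R → JoinedIn (B \ {x}) (G w) (G w') := by
  have h1 : ∀ᶠ w' in 𝓝[R] w, G w' ≠ x := (hG w hw).eventually_ne hx
  obtain ⟨ε, hε, h2⟩ := Metric.eventually_nhds_iff_ball.1 (eventually_nhdsWithin_iff.1 h1)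
  have hcv : Convex ℝ (R ∩ Metric.ball w ε) := hR.inter (convex_ball w ε)
  have hm : w ∈ R ∩ Metric.ball w ε := ⟨hw, Metric.mem_ball_self hε⟩
  filter_upwards [Metric.ball_mem_nhds w hε] with w' hb hw'
  refine (((hcv.isPathConnected ⟨w, hm⟩).image' (hG.mono inter_subset_left)).joinedIn _
    (mem_image_of_mem _ hm) _ (mem_image_of_mem _ ⟨hw', hb⟩)).mono ?_
  rintro _ ⟨v, hv, rfl⟩
  exact ⟨hB (mem_image_of_mem _ hv.1), h2 v hv.2 hv.1⟩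

theorem closedP (hR : Convex ℝ R) (hc : IsCompact R) (hG : ContinuousOn G R) (hB : G '' R ⊆ B)
    {P : Y → Prop} (hP : ∀ y y', JoinedIn (B \ {x}) y y' → P y' → P y) :
    IsClosed {y ∈ G '' R | y = x ∨ P y} := by
  have h1 : IsClosed {w ∈ R | G w = x ∨ P (G w)} := by
    refine isClosed_of_closure_subset fun w hw => ?_
    have hwR : w ∈ R := hc.isClosed.closure_subset (closure_mono (sep_subset _ _) hw)
    refine ⟨hwR, ?_⟩
    by_contra hn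
    push Not at hn
    obtain ⟨w', h2, h3⟩ :=
      ((mem_closure_iff_frequently.1 hw).and_eventually (locj hR hG hB hwR hn.1)).exists
    have hj := h3 h2.1
    rcases h2.2 with e | e
    · exact hj.target_mem.2 e
    · exact hn.2 (hP _ _ hj e)
  have h2 : {y ∈ G '' R | y = x ∨ P y} = G '' {w ∈ R | G w = x ∨ P (G w)} := by
    ext y
    constructor
    · rintro ⟨⟨w, hw, rfl⟩, h⟩; exact ⟨w, ⟨hw, h⟩, rfl⟩
    · rintro ⟨w, ⟨hw, h⟩, rfl⟩; exact ⟨mem_image_of_mem _ hw, h⟩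
  rw [h2]
  exact ((hc.of_isClosed_subset h1 (sep_subset _ _)).image_of_continuousOn
    (hG.mono (sep_subset _ _))).isClosed

theorem glue {A Z : Type} [TopologicalSpace A] [TopologicalSpace Z] {E C₁ C₂ : Set A} {f : A → Z}
    (h₁ : IsClosed C₁) (h₂ : IsClosed C₂) (hE : E ⊆ C₁ ∪ C₂) (f₁ : ContinuousOn f (E ∩ C₁))
    (f₂ : ContinuousOn f (E ∩ C₂)) : ContinuousOn f E := by
  have key : ∀ C : Set A, IsClosed C → ContinuousOn f (E ∩ C) → ∀ w ∈ E,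
      ContinuousWithinAt f (E ∩ C) w := by
    intro C hC hf w hw
    by_cases h : w ∈ C
    · exact hf w ⟨hw, h⟩
    · exact continuousWithinAt_of_notMem_closure fun h' =>
        h (hC.closure_subset (closure_mono inter_subset_right h'))
  intro w hw
  refine ((key C₁ h₁ f₁ w hw).union (key C₂ h₂ f₂ w hw)).mono fun v hv => ?_
  rcases hE hv with h | h
  · exact Or.inl ⟨hv, h⟩
  · exact Or.inr ⟨hv, h⟩

theorem HasLog.mono' {A : Type} [TopologicalSpace A] {u : A → ℂ} {E E' : Set A} (h : HasLog u E)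
    (hs : E' ⊆ E) : HasLog u E' :=
  let ⟨l, h1, h2⟩ := h
  ⟨l, h1.mono hs, fun w hw => h2 w (hs hw)⟩

end HA

open HA in
theorem sH : SArc → STree → SH1 → SH := by
  intro hArc hTree hH1 Y _ B K G a b a' b' x p₁ p₂ θ ρ u₁ u₂ hρ hL hG hK hB hx hu₁ hu₂ h0
  have hT := hTree Y B hL
  have hR : Convex ℝ (Icc a b ×ˢ Icc a' b') := (convex_Icc a b).prod (convex_Icc a' b')
  have hc : IsCompact (Icc a b ×ˢ Icc a' b') := isCompact_Icc.prod isCompact_Icc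
  generalize Icc a b ×ˢ Icc a' b' = R at *
  subst hK
  set J := Icc (θ - ρ) (θ + ρ) with hJ
  have one : ∀ u : Y × ℝ → ℂ, ContinuousOn u ((G '' R) ×ˢ J \ {(x, θ)}) →
      (∀ w ∈ (G '' R) ×ˢ J \ {(x, θ)}, u w ≠ 0) → ∀ K' ⊆ G '' R, IsPreconnected (K' \ {x}) →
      HasLog u (K' ×ˢ J \ {(x, θ)}) := by
    intro u hu hu0 K' hK' hp
    have hs : K' ×ˢ J \ {(x, θ)} ⊆ (G '' R) ×ˢ J \ {(x, θ)} :=
      sdiff_subset_sdiff_left (prod_mono hK' Subset.rfl)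
    have lev : ∀ η ∈ J, η ≠ θ → HasLog (fun y => u (y, η)) K' := by
      intro η hη hne
      have hm : MapsTo (fun y : Y => (y, η)) (G '' R) ((G '' R) ×ˢ J \ {(x, θ)}) := fun y hy =>
        ⟨⟨hy, hη⟩, fun e => hne (congrArg Prod.snd e)⟩
      exact HasLog.mono' (logK hR hc hG hB hL (hu.comp (by fun_prop) hm) fun y hy => hu0 _ (hm hy)) hK'
    exact hH1 Y K' x θ ρ u hρ hp (hu.mono hs) (fun w hw => hu0 w (hs hw))
      (lev _ ⟨by linarith, le_rfl⟩ (by linarith)) (lev _ ⟨le_rfl, by linarith⟩ (by linarith))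
  refine ⟨fun h => one u₁ hu₁ (fun w hw => (h0 w hw).1) _ Subset.rfl ?_, fun h => ?_⟩
  · exact conn hArc hT hR hG hB sdiff_subset
      (fun y hy y' hy' => (h y hy.1 hy.2).trans (h y' hy'.1 hy'.2).symm)
      fun y _ z hz hj => ⟨hz, hj.target_mem.2⟩
  set K₁ := {y ∈ G '' R | y = x ∨ JoinedIn (B \ {x}) y p₁} with hK₁
  set K₂ := {y ∈ G '' R | y = x ∨ ¬ JoinedIn (B \ {x}) y p₁} with hK₂
  have c₁ : IsClosed K₁ := closedP hR hc hG hB fun y y' hj h' => hj.trans h'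
  have c₂ : IsClosed K₂ := closedP hR hc hG hB fun y y' hj h' h'' => h' (hj.symm.trans h'')
  have s₁ : K₁ ⊆ G '' R := sep_subset _ _
  have s₂ : K₂ ⊆ G '' R := sep_subset _ _
  have p1 : IsPreconnected (K₁ \ {x}) :=
    conn hArc hT hR hG hB (sdiff_subset.trans s₁)
      (fun y hy y' hy' => (hy.1.2.resolve_left hy.2).trans (hy'.1.2.resolve_left hy'.2).symm)
      fun y hy z hz hj => ⟨⟨hz, Or.inr (hj.symm.trans (hy.1.2.resolve_left hy.2))⟩, hj.target_mem.2⟩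
  have p2 : IsPreconnected (K₂ \ {x}) :=
    conn hArc hT hR hG hB (sdiff_subset.trans s₂)
      (fun y hy y' hy' => ((h y hy.1.1 hy.2).resolve_left (hy.1.2.resolve_left hy.2)).trans
        ((h y' hy'.1.1 hy'.2).resolve_left (hy'.1.2.resolve_left hy'.2)).symm)
      fun y hy z hz hj => ⟨⟨hz, Or.inr fun h' => (hy.1.2.resolve_left hy.2) (hj.trans h')⟩,
        hj.target_mem.2⟩
  obtain ⟨l₁, cl₁, el₁⟩ := one u₁ hu₁ (fun w hw => (h0 w hw).1) K₁ s₁ p1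
  obtain ⟨l₂, cl₂, el₂⟩ := one u₁ hu₁ (fun w hw => (h0 w hw).1) K₂ s₂ p2
  obtain ⟨g₁, cg₁, eg₁⟩ := one u₂ hu₂ (fun w hw => (h0 w hw).2) K₁ s₁ p1
  obtain ⟨g₂, cg₂, eg₂⟩ := one u₂ hu₂ (fun w hw => (h0 w hw).2) K₂ s₂ p2
  have sub : ∀ I ⊆ J, θ ∉ I → ∀ K' : Set Y, x ∈ K' → ({x} : Set Y) ×ˢ I ⊆ K' ×ˢ J \ {(x, θ)} := by
    rintro I hI hθ K' hx' ⟨y, η⟩ ⟨hy, hη⟩
    obtain rfl : y = x := hy
    exact ⟨⟨hx', hI hη⟩, fun e => hθ (by have e' : η = θ := congrArg Prod.snd e; exact e' ▸ hη)⟩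
  have x₁ : x ∈ K₁ := ⟨hx, Or.inl rfl⟩
  have x₂ : x ∈ K₂ := ⟨hx, Or.inl rfl⟩
  have dif : ∀ I ⊆ J, θ ∉ I → IsPreconnected I → ∃ k k' : ℤ, ∀ w ∈ ({x} : Set Y) ×ˢ I,
      l₁ w = l₂ w + k * (2 * π * Complex.I) ∧ g₁ w = g₂ w + k' * (2 * π * Complex.I) := by
    intro I hI hθ hp
    have t₁ := sub I hI hθ K₁ x₁
    have t₂ := sub I hI hθ K₂ x₂
    have hp' : IsPreconnected (({x} : Set Y) ×ˢ I) := isPreconnected_singleton.prod hp
    obtain ⟨k, hk⟩ := log_unique hp' (cl₁.mono t₁) (cl₂.mono t₂)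
      fun w hw => (el₁ w (t₁ hw)).trans (el₂ w (t₂ hw)).symm
    obtain ⟨k', hk'⟩ := log_unique hp' (cg₁.mono t₁) (cg₂.mono t₂)
      fun w hw => (eg₁ w (t₁ hw)).trans (eg₂ w (t₂ hw)).symm
    exact ⟨k, k', fun w hw => ⟨hk w hw, hk' w hw⟩⟩
  obtain ⟨k₁, k₁', hup⟩ := dif (Ioc θ (θ + ρ)) (fun η hη => ⟨by linarith [hη.1], hη.2⟩)
    (fun h => lt_irrefl _ h.1) isPreconnected_Ioc
  obtain ⟨k₂, k₂', hlo⟩ := dif (Ico (θ - ρ) θ) (fun η hη => ⟨hη.1, by linarith [hη.2]⟩)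
    (fun h => lt_irrefl _ h.2) isPreconnected_Ico
  obtain ⟨m, n, hmn, hk⟩ : ∃ m n : ℤ, ¬ (m = 0 ∧ n = 0) ∧ m * k₁ + n * k₁' = m * k₂ + n * k₂' := by
    by_cases e : k₁ = k₂
    · exact ⟨1, 0, by simp, by simp [e]⟩
    · exact ⟨k₂' - k₁', k₁ - k₂, fun h => e (sub_eq_zero.1 h.2), by ring⟩
  refine ⟨m, n, hmn, ?_⟩
  classical
  let f₁ : Y × ℝ → ℂ := fun w => m * l₁ w + n * g₁ w
  let f₂ : Y × ℝ → ℂ := fun w =>
    m * l₂ w + n * g₂ w + ((m * k₁ + n * k₁' : ℤ) : ℂ) * (2 * π * Complex.I)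
  have agree : ∀ w ∈ K₂ ×ˢ J \ {(x, θ)}, w.1 ∈ K₁ → f₁ w = f₂ w := by
    rintro ⟨y, η⟩ ⟨⟨hy, hη⟩, hne⟩ hy'
    obtain rfl : y = x := by
      by_contra e
      exact (hy.2.resolve_left e) (hy'.2.resolve_left e)
    have hne' : η ≠ θ := fun e => hne (by rw [e]; rfl)
    rcases lt_or_gt_of_ne hne' with h' | h'
    · obtain ⟨e1, e2⟩ := hlo (y, η) ⟨rfl, hη.1, h'⟩
      simp only [f₁, f₂, e1, e2, hk]
      push_cast; ring
    · obtain ⟨e1, e2⟩ := hup (y, η) ⟨rfl, h', hη.2⟩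
      simp only [f₁, f₂, e1, e2]
      push_cast; ring
  have i₁ : ((G '' R) ×ˢ J \ {(x, θ)}) ∩ K₁ ×ˢ univ ⊆ K₁ ×ˢ J \ {(x, θ)} := fun w hw =>
    ⟨⟨hw.2.1, hw.1.1.2⟩, hw.1.2⟩
  have i₂ : ((G '' R) ×ˢ J \ {(x, θ)}) ∩ K₂ ×ˢ univ ⊆ K₂ ×ˢ J \ {(x, θ)} := fun w hw =>
    ⟨⟨hw.2.1, hw.1.1.2⟩, hw.1.2⟩
  have cov : ∀ y ∈ G '' R, y ∉ K₁ → y ∈ K₂ := fun y hy hn =>
    ⟨hy, Or.inr fun hj => hn ⟨hy, Or.inr hj⟩⟩
  refine ⟨fun w => if w.1 ∈ K₁ then f₁ w else f₂ w,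
    glue (c₁.prod isClosed_univ) (c₂.prod isClosed_univ) (fun w hw => ?_) ?_ ?_, fun w hw => ?_⟩
  · by_cases h' : w.1 ∈ K₁
    · exact Or.inl ⟨h', trivial⟩
    · exact Or.inr ⟨cov _ hw.1.1 h', trivial⟩
  · refine ContinuousOn.congr (f := f₁) (((continuousOn_const.mul cl₁).add
      (continuousOn_const.mul cg₁)).mono i₁) fun w hw => if_pos hw.2.1
  · refine ContinuousOn.congr (f := f₂) ((((continuousOn_const.mul cl₂).add
      (continuousOn_const.mul cg₂)).add continuousOn_const).mono i₂) fun w hw => ?_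
    by_cases h' : w.1 ∈ K₁
    · simp only [if_pos h']; exact agree w (i₂ hw) h'
    · exact if_neg h'
  · by_cases h' : w.1 ∈ K₁
    · have hw' := i₁ ⟨hw, h', trivial⟩
      simp only [if_pos h', f₁]
      rw [Complex.exp_add, Complex.exp_int_mul, Complex.exp_int_mul, el₁ w hw', eg₁ w hw']
    · have hw' := i₂ ⟨hw, cov _ hw.1.1 h', trivial⟩
      simp only [if_neg h', f₂]
      rw [Complex.exp_add, Complex.exp_int_mul_two_pi_mul_I, mul_one, Complex.exp_add,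
        Complex.exp_int_mul, Complex.exp_int_mul, el₂ w hw', eg₂ w hw']

end Pool.Agent.MP_0c1703_gt.H59
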