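import Pool.Agent.MP_0c1703_gt.H59.Kit

/-! Row H1: a logarithm on a cylinder with one point removed. -/

namespace Pool.Agent.MP_0c1703_gt.H59

open Set Filter Topology
open scoped Real

namespace H1A

/-- a logarithm on the level η₀ extends along vertical segments -/
theorem vert {Y : Type} [TopologicalSpace Y] {E A : Set (Y × ℝ)} {K : Set Y} {u : Y × ℝ → ℂ}
    (η₀ : ℝ) (hu : ContinuousOn u E) (h0 : ∀ w ∈ E, u w ≠ 0) (hK : ∀ w ∈ A, w.1 ∈ K)
    (hm : ∀ w ∈ A, ∀ r ∈ Icc (0 : ℝ) 1, (w.1, η₀ + r * (w.2 - η₀)) ∈ E)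
    (hl : HasLog (fun y => u (y, η₀)) K) : HasLog u A := by
  classical
  obtain ⟨l, lc, le⟩ := hl
  have hc := Complex.isCoveringMap_exp
  have hm' : ∀ p : unitInterval × A,
      (((p.2 : Y × ℝ).1, η₀ + (p.1 : ℝ) * ((p.2 : Y × ℝ).2 - η₀)) : Y × ℝ) ∈ E := fun p =>
    hm _ p.2.2 _ p.1.2
  let H : C(unitInterval × A, {z : ℂ // z ≠ 0}) :=
    ⟨fun p => ⟨u ((p.2 : Y × ℝ).1, η₀ + (p.1 : ℝ) * ((p.2 : Y × ℝ).2 - η₀)), h0 _ (hm' p)⟩,
      (hu.comp_continuous (by fun_prop) hm').subtype_mk _⟩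
  let f : C(A, ℂ) := ⟨fun a => l (a : Y × ℝ).1,
    lc.comp_continuous (by fun_prop) fun a : A => hK _ a.2⟩
  have H0 : ∀ a : A, H (0, a) = (⟨_, (f a).exp_ne_zero⟩ : {z : ℂ // z ≠ 0}) := fun a =>
    Subtype.ext (by simp [H, f, le _ (hK _ a.2)])
  let L := hc.liftHomotopy H f H0
  have hL := hc.liftHomotopy_lifts H f H0
  refine ⟨fun w => if hw : w ∈ A then L (1, ⟨w, hw⟩) else 0, ?_, fun w hw => ?_⟩
  · rw [continuousOn_iff_continuous_domRestrict]
    have : (A.domRestrict fun w => if hw : w ∈ A then L (1, ⟨w, hw⟩) else 0) =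
        fun a : A => L (1, a) := by
      ext a; exact dif_pos a.2
    rw [this]; fun_prop
  · simp only [dif_pos hw]
    have h1 : Complex.exp (L (1, ⟨w, hw⟩)) =
        u (w.1, η₀ + ((1 : unitInterval) : ℝ) * (w.2 - η₀)) :=
      congrArg Subtype.val (congrFun hL (1, ⟨w, hw⟩))
    simpa using h1

/-- logarithms on two relatively open parts with preconnected intersection glue -/
theorem glue {X : Type} [TopologicalSpace X] {E U V : Set X} {u : X → ℂ} (hU : IsOpen U)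
    (hV : IsOpen V) (hE : E ⊆ U ∪ V) (hc : IsPreconnected (E ∩ U ∩ (E ∩ V)))
    (h1 : HasLog u (E ∩ U)) (h2 : HasLog u (E ∩ V)) : HasLog u E := by
  classical
  obtain ⟨l, lc, le⟩ := h1
  obtain ⟨l', lc', le'⟩ := h2
  obtain ⟨k, hk⟩ := log_unique hc (lc.mono inter_subset_left) (lc'.mono inter_subset_right)
    fun w hw => (le w hw.1).trans (le' w hw.2).symm
  refine ⟨fun w => if w ∈ U then l w else l' w + k * (2 * π * Complex.I), ?_, fun w hw => ?_⟩
  · refine continuousOn_of_locally_continuousOn fun w hw => ?_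
    rcases hE hw with h | h
    · exact ⟨U, hU, h, lc.congr fun z hz => if_pos hz.2⟩
    · refine ⟨V, hV, h, (lc'.add (continuousOn_const (c := k * (2 * π * Complex.I)))).congr fun z hz => ?_⟩
      by_cases hz' : z ∈ U
      · exact (if_pos hz').trans (hk z ⟨⟨hz.1, hz'⟩, hz⟩)
      · exact if_neg hz'
  · by_cases h : w ∈ U
    · simp only [if_pos h]; exact le w ⟨hw, h⟩
    · simp only [if_neg h]
      rw [Complex.exp_add, Complex.exp_int_mul_two_pi_mul_I, mul_one]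
      exact le' w ⟨hw, (hE hw).resolve_left h⟩

end H1A

theorem sH1 : SH1 := by
  intro Y _ K x θ ρ u hρ hK hu h0 hp hm
  have o1 : IsOpen {w : Y × ℝ | w.1 ≠ x} := isOpen_ne_fun continuous_fst continuous_const
  have oU : IsOpen ({w : Y × ℝ | w.1 ≠ x} ∪ {w | θ < w.2}) :=
    o1.union (isOpen_lt continuous_const continuous_snd)
  have oV : IsOpen ({w : Y × ℝ | w.1 ≠ x} ∪ {w | w.2 < θ}) :=
    o1.union (isOpen_lt continuous_snd continuous_const)
  refine H1A.glue oU oV ?_ ?_ ?_ ?_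
  · rintro ⟨y, η⟩ ⟨-, hw⟩
    by_cases hy : y = x
    · have : η ≠ θ := fun e => hw (by rw [hy, e]; rfl)
      rcases lt_or_gt_of_ne this with h | h
      · exact Or.inr (Or.inr h)
      · exact Or.inl (Or.inr h)
    · exact Or.inl (Or.inl hy)
  · have e : (K ×ˢ Icc (θ - ρ) (θ + ρ)) \ {(x, θ)} ∩ ({w : Y × ℝ | w.1 ≠ x} ∪ {w | θ < w.2}) ∩
        ((K ×ˢ Icc (θ - ρ) (θ + ρ)) \ {(x, θ)} ∩ ({w : Y × ℝ | w.1 ≠ x} ∪ {w | w.2 < θ})) =
        (K \ {x}) ×ˢ Icc (θ - ρ) (θ + ρ) := by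
      ext ⟨y, η⟩
      constructor
      · rintro ⟨⟨⟨⟨h1, h2⟩, -⟩, h3⟩, -, h4⟩
        refine ⟨⟨h1, fun e => ?_⟩, h2⟩
        rcases h3 with h3 | h3
        · exact h3 e
        · rcases h4 with h4 | h4
          · exact h4 e
          · exact lt_asymm (show θ < η from h3) (show η < θ from h4)
      · rintro ⟨⟨h1, h3⟩, h2⟩
        have h5 : (y, η) ∈ (K ×ˢ Icc (θ - ρ) (θ + ρ)) \ {(x, θ)} :=
          ⟨⟨h1, h2⟩, fun e => h3 (congrArg Prod.fst e)⟩
        exact ⟨⟨h5, Or.inl h3⟩, h5, Or.inl h3⟩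
    rw [e]
    exact hK.prod isPreconnected_Icc
  · refine H1A.vert (θ + ρ) hu h0 (fun w hw => hw.1.1.1) ?_ hp
    rintro ⟨y, η⟩ ⟨⟨⟨h1, h2, h3⟩, -⟩, h4⟩ r ⟨r0, r1⟩
    dsimp only at h1 h2 h3 ⊢
    refine ⟨⟨h1, ?_, ?_⟩, fun e => ?_⟩
    · dsimp only; nlinarith
    · dsimp only; nlinarith
    · have e1 : y = x := congrArg Prod.fst e
      have e2 : θ + ρ + r * (η - (θ + ρ)) = θ := congrArg Prod.snd e
      rcases h4 with h4 | h4
      · exact h4 e1
      · have h5 : θ < η := h4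
        nlinarith
  · refine H1A.vert (θ - ρ) hu h0 (fun w hw => hw.1.1.1) ?_ hm
    rintro ⟨y, η⟩ ⟨⟨⟨h1, h2, h3⟩, -⟩, h4⟩ r ⟨r0, r1⟩
    dsimp only at h1 h2 h3 ⊢
    refine ⟨⟨h1, ?_, ?_⟩, fun e => ?_⟩
    · dsimp only; nlinarith
    · dsimp only; nlinarith
    · have e1 : y = x := congrArg Prod.fst e
      have e2 : θ - ρ + r * (η - (θ - ρ)) = θ := congrArg Prod.snd e
      rcases h4 with h4 | h4
      · exact h4 e1
      · have h5 : η < θ := h4
        nlinarith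

end Pool.Agent.MP_0c1703_gt.H59
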