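import Pool.Agent.MP_0c1703_gt.H59.Kit

/-! First facts on local flows. -/

namespace Pool.Agent.MP_0c1703_gt.H59

open Set Filter Topology Metric

namespace ImmA

variable {Y : Type} [MetricSpace Y] {D : Set ((Y × ℝ) × ℝ)} {F : Y × ℝ → ℝ → Y × ℝ}

theorem back (h : LFlow D F) {w : Y × ℝ} {r : ℝ} (hp : (w, r) ∈ D) :
    (F w r, -r) ∈ D ∧ F (F w r) (-r) = w := by
  have := h.shift w 0 r (h.sub w r hp 0 left_mem_uIcc) hp
  rwa [zero_sub, h.zero w r hp] at this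

theorem rev (h : LFlow D F) : LFlow {p | (p.1, -p.2) ∈ D} fun w s => F w (-s) := by
  have c : Continuous fun p : (Y × ℝ) × ℝ => (p.1, -p.2) := by fun_prop
  refine ⟨h.op.preimage c, h.cont.comp c.continuousOn fun p hp => hp, fun w s hs => ?_,
    fun w s hs r hr => h.sub w (-s) hs (-r) ?_, fun w s r hs hr => ?_⟩
  · rw [neg_zero]; exact h.zero w _ hs
  · rw [mem_uIcc] at hr ⊢
    rcases hr with hr | hr
    · exact Or.inr ⟨by linarith [hr.2], by linarith [hr.1]⟩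
    · exact Or.inl ⟨by linarith [hr.2], by linarith [hr.1]⟩
  · have := h.shift w (-s) (-r) hs hr
    rwa [show -s - -r = -(s - r) by ring] at this

theorem cont (h : LFlow D F) (r : ℝ) : ContinuousOn (fun w => F w r) {w | (w, r) ∈ D} :=
  h.cont.comp (f := fun w : Y × ℝ => (w, r)) (by fun_prop) fun _ hw => hw

theorem opn (h : LFlow D F) {B : Set Y} (hB : IsOpen B) (r : ℝ) :
    IsOpen {w | (w, r) ∈ D ∧ w.1 ∈ B ∧ (F w r).1 ∈ B} := by
  have h1 : IsOpen {w : Y × ℝ | (w, r) ∈ D} :=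
    h.op.preimage (f := fun w : Y × ℝ => (w, r)) (by fun_prop)
  have h2 := ((cont h r).fst.isOpen_inter_preimage h1 hB).inter (hB.preimage continuous_fst)
  have e : {w | (w, r) ∈ D ∧ w.1 ∈ B ∧ (F w r).1 ∈ B} =
      {w : Y × ℝ | (w, r) ∈ D} ∩ (fun w => (F w r).1) ⁻¹' B ∩ Prod.fst ⁻¹' B :=
    Set.ext fun w => ⟨fun a => ⟨⟨a.1, a.2.2⟩, a.2.1⟩, fun a => ⟨a.1.1, a.2, a.1.2⟩⟩
  rw [e]
  exact h2

theorem slide (h : LFlow D F) {y : Y} {θ s : ℝ} (hs : 0 < s) (hD : ((y, θ), s) ∈ D)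
    (hne : (F (y, θ) s).1 ≠ y) {B : Set Y} (hB : IsOpen B) (hy : y ∈ B) :
    ∃ θ s, Slide B y D F θ s := by
  have m : ∀ r ∈ Icc 0 s, ((y, θ), r) ∈ D := fun r hr => h.sub _ _ hD r (Icc_subset_uIcc hr)
  have c : ContinuousOn (fun r => (F (y, θ) r).1) (Icc 0 s) :=
    (h.cont.comp (f := fun r : ℝ => ((y, θ), r)) (by fun_prop) m).fst
  have hc : IsCompact (Icc 0 s ∩ (fun r => (F (y, θ) r).1) ⁻¹' {y}) :=
    isCompact_Icc.of_isClosed_subset (c.preimage_isClosed_of_isClosed isClosed_Icc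
      isClosed_singleton) inter_subset_left
  obtain ⟨t, ⟨ht, et⟩, hmax⟩ := hc.exists_isGreatest
    ⟨0, ⟨le_rfl, hs.le⟩, by simp [h.zero _ _ hD]⟩
  have et : (F (y, θ) t).1 = y := et
  have ts : t < s := lt_of_le_of_ne ht.2 fun e => hne (e ▸ et)
  obtain ⟨ε, hε, H⟩ := Metric.mem_nhdsWithin_iff.1
    ((c t ht).preimage_mem_nhdsWithin (hB.mem_nhds (by rw [et]; exact hy)))
  obtain ⟨u, u0, u1, u2⟩ : ∃ u > 0, u < ε ∧ t + u ≤ s :=
    ⟨min (ε / 2) (s - t), lt_min (half_pos hε) (by linarith),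
      (min_le_left _ _).trans_lt (half_lt_self hε), by linarith [min_le_right (ε / 2) (s - t)]⟩
  have mr : ∀ r ∈ Icc 0 u, t + r ∈ Icc 0 s := fun r hr =>
    ⟨by linarith [ht.1, hr.1], by linarith [hr.2]⟩
  have sh : ∀ r ∈ Icc 0 u, ((y, (F (y, θ) t).2), r) ∈ D ∧
      F (y, (F (y, θ) t).2) r = F (y, θ) (t + r) := fun r hr => by
    have := h.shift _ _ _ (m _ (mr r hr)) (m t ht)
    rwa [add_sub_cancel_left, show F (y, θ) t = (y, (F (y, θ) t).2) from Prod.ext et rfl] at this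
  have mu : u ∈ Icc 0 u := ⟨u0.le, le_rfl⟩
  refine ⟨(F (y, θ) t).2, u, h, u0, (sh u mu).1, fun r hr => ?_, fun e => ?_⟩
  · rw [(sh r hr).2]
    refine H ⟨?_, mr r hr⟩
    rw [mem_ball, Real.dist_eq, add_sub_cancel_left, abs_of_nonneg hr.1]
    exact hr.2.trans_lt u1
  · rw [(sh u mu).2] at e
    linarith [hmax ⟨mr u mu, e⟩]

end ImmA

open ImmA in
theorem sImm : SImm := by
  intro Y _
  refine ⟨fun D F y θ s h hD hne => ?_, ?_, ?_, fun D F B r h hB => ?_⟩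
  · rcases lt_trichotomy s 0 with hs | rfl | hs
    · exact ⟨_, _, θ, -s, rev h, neg_pos.2 hs, by simpa using hD, by simpa using hne⟩
    · exact absurd (by rw [h.zero _ _ hD]) hne
    · exact ⟨D, F, θ, s, h, hs, hD, hne⟩
  · refine isOpen_iff_mem_nhds.2 ?_
    rintro y ⟨D, F, θ, s, h, hs, hD, hne⟩
    have c0 : Continuous fun z : Y => ((z, θ), s) := by fun_prop
    have c1 : ContinuousAt (fun z : Y => (F (z, θ) s).1) y :=
      (ContinuousAt.comp (f := fun z : Y => ((z, θ), s))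
        (h.cont.continuousAt (h.op.mem_nhds hD)) c0.continuousAt).fst
    filter_upwards [c0.continuousAt.eventually (h.op.mem_nhds hD),
      (c1.dist continuousAt_id).eventually (lt_mem_nhds (dist_pos.2 hne))] with z a b
    exact ⟨D, F, θ, s, h, hs, a, dist_pos.1 b⟩
  · rintro y B ⟨D, F, θ, s, h, hs, hD, hne⟩ hB hy
    exact ⟨D, F, slide h hs hD hne hB hy⟩
  · refine ⟨opn h hB r, opn h hB (-r), fun w hw => hw.2.1, fun w hw => hw.2.1,
      (cont h r).mono fun w hw => hw.1, (cont h (-r)).mono fun w hw => hw.1, fun w hw => ?_,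
      fun w hw => ?_, fun w hw => (back h hw.1).2, fun w hw => ?_⟩
    · exact ⟨(back h hw.1).1, hw.2.2, by rw [(back h hw.1).2]; exact hw.2.1⟩
    · have := back h hw.1
      rw [neg_neg] at this
      exact ⟨this.1, hw.2.2, by rw [this.2]; exact hw.2.1⟩
    · have := back h hw.1
      rw [neg_neg] at this
      exact this.2

end Pool.Agent.MP_0c1703_gt.H59
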