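import Pool.Agent.MP_0c1703_gt.H59.Kit

/-! Continuity of the root of a strictly increasing family. -/

namespace Pool.Agent.MP_0c1703_gt.H59

open Set Filter Topology

theorem sImp : SImp := by
  intro X _ N f a b hab hf hm hs
  have ex : ∀ x ∈ N, ∃ ξ ∈ Icc a b, f (x, ξ) = 0 := fun x hx =>
    intermediate_value_Icc hab (f := fun ξ => f (x, ξ))
      (hf.comp (by fun_prop) fun ξ hξ => ⟨hx, hξ⟩) ⟨(hs x hx).1, (hs x hx).2⟩
  choose! g hg hg0 using ex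
  refine ⟨g, fun x hx => ?_, fun x hx => ⟨hg x hx, hg0 x hx⟩⟩
  refine tendsto_iff_ultrafilter _ _ _ |>.2 fun U hU => ?_
  have hN : ∀ᶠ y in (U : Filter X), y ∈ N := hU self_mem_nhdsWithin
  obtain ⟨ξ, hξ, hl⟩ := isCompact_Icc.ultrafilter_le_nhds (U.map g)
    (le_principal_iff.2 (hN.mono fun y hy => hg y hy))
  have hl' : Tendsto g U (𝓝 ξ) := hl
  have h1 : Tendsto (fun y => (y, g y)) U (𝓝[N ×ˢ Icc a b] (x, ξ)) :=
    tendsto_nhdsWithin_iff.2 ⟨(tendsto_id'.2 (hU.trans nhdsWithin_le_nhds)).prodMk_nhds hl',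
      hN.mono fun y hy => ⟨hy, hg y hy⟩⟩
  have h2 : Tendsto (fun y => f (y, g y)) U (𝓝 (f (x, ξ))) := (hf (x, ξ) ⟨hx, hξ⟩).tendsto.comp h1
  have h3 : Tendsto (fun y => f (y, g y)) U (𝓝 0) :=
    tendsto_const_nhds.congr' (hN.mono fun y hy => (hg0 y hy).symm)
  have h4 : ξ = g x := (hm x hx).injOn hξ (hg x hx) ((tendsto_nhds_unique h2 h3).trans (hg0 x hx).symm)
  exact h4 ▸ hl'

end Pool.Agent.MP_0c1703_gt.H59
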