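import Pool.Agent.MP_0c1703_gt.H59.Kit

/-! Interior points of arcs are carried to points with two directions. -/

namespace Pool.Agent.MP_0c1703_gt.H59

open Set Filter Topology Metric

open Classical in
theorem sInv2 : STree → SH → SNolog → SSide → SInv2 := by
  intro hTree hH hN hS Y _ B O O' T S c a b ξ₀ θ hLF hL hc ha hb hz
  by_contra h2
  set z' := T (c ξ₀, θ) with hz'
  obtain ⟨ε, hε, hεO⟩ := Metric.isOpen_iff.1 hL.op' _ (hL.maps hz)
  set q : ℝ × ℝ → Y × ℝ := fun w => (c (ξ₀ + w.1), θ + w.2) with hq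
  have q0 : q 0 = (c ξ₀, θ) := by simp [hq]
  have hm0 : ξ₀ ∈ Icc a b := ⟨ha.le, hb.le⟩
  have hqc : ContinuousAt q 0 := by
    have h1 : ContinuousAt c (ξ₀ + (0 : ℝ × ℝ).1) := by
      rw [Prod.fst_zero, add_zero]
      exact hc.path.cont.continuousAt (Icc_mem_nhds ha hb)
    exact (h1.comp (f := fun w : ℝ × ℝ => ξ₀ + w.1) (by fun_prop)).prodMk (by fun_prop)
  have hev : ∀ᶠ w in 𝓝 (0 : ℝ × ℝ), q w ∈ O ∧ dist (T (q w)) z' < ε / 2 ∧ ξ₀ + w.1 ∈ Ioo a b := by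
    have h1 : ContinuousAt T (q 0) := by
      rw [q0]
      exact hL.cont.continuousAt (hL.op.mem_nhds hz)
    have h3 : ContinuousAt (fun w : ℝ × ℝ => ξ₀ + w.1) 0 := by fun_prop
    refine (hqc.eventually (hL.op.mem_nhds (by rw [q0]; exact hz))).and (Eventually.and ?_
      (h3.eventually (isOpen_Ioo.mem_nhds (by simpa using ⟨ha, hb⟩))))
    have h4 := (h1.comp hqc).eventually (ball_mem_nhds _ (half_pos hε))
    simp only [Function.comp, q0] at h4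
    exact h4
  obtain ⟨δ, hδ, hev⟩ := Metric.eventually_nhds_iff.1 hev
  set r := δ / 2 with hr
  have r0 : 0 < r := half_pos hδ
  set R : Set (ℝ × ℝ) := Icc (-r) r ×ˢ Icc (-r) r with hR
  have hRp : ∀ w ∈ R, q w ∈ O ∧ dist (T (q w)) z' < ε / 2 ∧ ξ₀ + w.1 ∈ Ioo a b := by
    intro w hw
    refine hev ?_
    rw [Prod.dist_eq, Prod.fst_zero, Prod.snd_zero, Real.dist_eq, Real.dist_eq, sub_zero, sub_zero]
    exact max_lt ((abs_le.2 hw.1).trans_lt (half_lt_self hδ))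
      ((abs_le.2 hw.2).trans_lt (half_lt_self hδ))
  have m0 : (0 : ℝ) ∈ Icc (-r) r := ⟨by linarith, r0.le⟩
  have hI : ∀ ξ ∈ Icc (-r) r, ξ₀ + ξ ∈ Icc a b := fun ξ hξ =>
    Ioo_subset_Icc_self (hRp (ξ, 0) ⟨hξ, m0⟩).2.2
  have hγ : PathIn B (fun ξ => c (ξ₀ + ξ)) (-r) r :=
    ⟨by linarith, hc.path.cont.comp (by fun_prop) hI, fun ξ hξ => hc.path.mem (hI ξ hξ)⟩
  have hqR : ContinuousOn q R :=
    (hγ.cont.comp continuousOn_fst fun w hw => hw.1).prodMk (by fun_prop)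
  have hP : ContinuousOn (fun w => T (q w)) R := hL.cont.comp hqR fun w hw => (hRp w hw).1
  set G : ℝ × ℝ → Y := fun w => (T (q w)).1 with hG
  have hGc : ContinuousOn G R := continuous_fst.comp_continuousOn hP
  have R0 : (0 : ℝ × ℝ) ∈ R := ⟨m0, m0⟩
  have G0 : G 0 = z'.1 := by simp only [hG, q0, hz']
  have hKB : G '' R ⊆ B := by
    rintro _ ⟨w, hw, rfl⟩
    exact hL.sub' _ (hL.maps (hRp w hw).1)
  set J : Set ℝ := Icc (z'.2 - ε / 2) (z'.2 + ε / 2) with hJ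
  have hKJ : ∀ w ∈ (G '' R) ×ˢ J, w ∈ O' := by
    rintro ⟨_, η⟩ ⟨⟨w, hw, rfl⟩, hη⟩
    refine hεO ?_
    rw [mem_ball, Prod.dist_eq]
    refine max_lt ?_ ?_
    · have h1 := (hRp w hw).2.1
      rw [Prod.dist_eq] at h1
      exact ((le_max_left _ _).trans_lt h1).trans (half_lt_self hε)
    · rw [Real.dist_eq]
      exact (abs_le.2 ⟨by linarith [hη.1], by linarith [hη.2]⟩).trans_lt (half_lt_self hε)
  have hSc : ContinuousOn S ((G '' R) ×ˢ J) := hL.cont'.mono hKJ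
  set σ : Y → ℝ := fun y =>
    if JoinedIn (B \ {c ξ₀}) y (c a) then -dist y (c ξ₀) else dist y (c ξ₀) with hσ
  obtain ⟨hσ1, hσ2⟩ := hS Y B (c ξ₀) (c a) σ fun _ => rfl
  have hσc := hσ2 G _ _ _ _ _ _ S hGc hSc fun w hw => hL.sub _ (hL.maps' (hKJ w hw))
  set u : Y × ℝ → ℂ := fun w => (σ (S w).1 : ℂ) + (((S w).2 - θ : ℝ) : ℂ) * Complex.I with hu
  have huc : ContinuousOn u (((G '' R) ×ˢ J) \ {(z'.1, z'.2)}) := by
    refine ContinuousOn.mono ?_ sdiff_subset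
    exact (Complex.continuous_ofReal.comp_continuousOn hσc).add
      ((Complex.continuous_ofReal.comp_continuousOn
        ((continuous_snd.comp_continuousOn hSc).sub continuousOn_const)).mul continuousOn_const)
  have hu0 : ∀ w ∈ ((G '' R) ×ˢ J) \ {(z'.1, z'.2)}, u w ≠ 0 := by
    intro w hw e
    have e1 := congrArg Complex.re e
    have e2 := congrArg Complex.im e
    simp only [hu, Complex.add_re, Complex.ofReal_re, Complex.mul_re, Complex.I_re, mul_zero,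
      Complex.ofReal_im, Complex.I_im, mul_one, sub_self, add_zero, Complex.zero_re,
      Complex.add_im, Complex.mul_im, zero_add, Complex.zero_im] at e1 e2
    have e3 : (S w).1 = c ξ₀ := by
      rw [← dist_eq_zero]
      simp only [hσ] at e1
      split_ifs at e1
      · exact neg_eq_zero.1 e1
      · exact e1
    have e4 : S w = (c ξ₀, θ) := Prod.ext e3 (sub_eq_zero.1 e2)
    exact hw.2 (by rw [← hL.inv' w (hKJ w hw.1), e4]; rfl)
  have hj : ∀ y ∈ G '' R, JoinedIn B z'.1 y := by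
    intro y hy
    have h1 : IsPathConnected R := ((convex_Icc _ _).prod (convex_Icc _ _)).isPathConnected ⟨0, R0⟩
    exact ((h1.image' hGc).joinedIn _ ⟨0, R0, G0⟩ _ hy).mono hKB
  obtain ⟨p, hp⟩ : ∃ p, ∀ y ∈ G '' R, y ≠ z'.1 → JoinedIn (B \ {z'.1}) y p := by
    by_cases h : ∃ p ∈ G '' R, p ≠ z'.1
    · obtain ⟨p, hp, hp'⟩ := h
      refine ⟨p, fun y hy hy' => ?_⟩
      by_contra hn
      exact h2 ⟨y, p, hj y hy, hj p hp, hy', hp', hn⟩
    · exact ⟨z'.1, fun y hy hy' => (h ⟨y, hy, hy'⟩).elim⟩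
  obtain ⟨l, hl, hle⟩ := (hH Y B (G '' R) G _ _ _ _ z'.1 p p z'.2 (ε / 2) u u (half_pos hε) hLF hGc
    rfl hKB ⟨0, R0, G0⟩ huc huc fun w hw => ⟨hu0 w hw, hu0 w hw⟩).1 hp
  have hne : ∀ ξ ∈ Icc (-r) r, c (ξ₀ + ξ) = c ξ₀ → ξ = 0 := fun ξ hξ e => by
    have := hc.inj (hI ξ hξ) hm0 e
    linarith
  have hmap : MapsTo (fun w => T (q w)) (R \ {(0, 0)}) (((G '' R) ×ˢ J) \ {(z'.1, z'.2)}) := by
    intro w hw
    obtain ⟨h1, h3, -⟩ := hRp w hw.1
    refine ⟨⟨⟨w, hw.1, rfl⟩, ?_⟩, fun e => hw.2 ?_⟩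
    · rw [Prod.dist_eq] at h3
      have h4 : dist (T (q w)).2 z'.2 < ε / 2 := (le_max_right _ _).trans_lt h3
      rw [Real.dist_eq, abs_lt] at h4
      exact ⟨by linarith [h4.1], by linarith [h4.2]⟩
    · have e1 : T (q w) = T (c ξ₀, θ) := e
      have e2 : q w = (c ξ₀, θ) := by rw [← hL.inv _ h1, e1, hL.inv _ hz]
      have e3 : θ + w.2 = θ := congrArg Prod.snd e2
      exact Prod.ext (hne _ hw.1.1 (congrArg Prod.fst e2)) (by simpa using e3)
  refine one_ne_zero (hN r (fun ξ => σ (c (ξ₀ + ξ))) 1 r0 (hσ1 _ _ _ hγ) (fun ξ hξ => ?_)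
    ⟨fun w => l (T (q w)), hl.comp (hP.mono sdiff_subset) hmap, fun w hw => ?_⟩)
  · have hd : ξ ≠ 0 → 0 < dist (c (ξ₀ + ξ)) (c ξ₀) := fun h => dist_pos.2 fun e => h (hne ξ hξ e)
    constructor
    · intro h
      have h1 := hc.joined_diff hm0 (hI ξ hξ) ⟨le_rfl, hc.path.le⟩ (Or.inl ⟨by linarith, ha⟩)
      simp only [hσ, if_pos h1]
      exact neg_neg_of_pos (hd h.ne)
    · intro h
      have h1 := (hTree Y B hLF).not_joined
        (hc.sub le_rfl (hI ξ hξ).1 (hI ξ hξ).2) (ξ := ξ₀) ⟨ha.le, by linarith⟩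
      simp only [hσ, if_neg fun h3 : JoinedIn (B \ {c ξ₀}) (c (ξ₀ + ξ)) (c a) => h1 h3.symm]
      exact hd h.ne'
  · rw [hle _ (hmap hw)]
    simp only [zpow_one, hu, hL.inv _ (hRp w hw.1).1]
    simp only [hq, add_sub_cancel_left]

end Pool.Agent.MP_0c1703_gt.H59
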