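import Pool.Agent.MP_0c1703_gt.H59.Kit

/-! Three directions are carried along by a local homeomorphism of the product with a line. -/

namespace Pool.Agent.MP_0c1703_gt.H59

open Set Filter Topology
open scoped Real

namespace Inv3A

variable {Y : Type} [MetricSpace Y] {B : Set Y} {O O' : Set (Y × ℝ)} {T S : Y × ℝ → Y × ℝ}
  {c : Fin 3 → ℝ → Y} {x : Y} {r r' θ : ℝ}

open Classical in
/-- the signed distance -/
noncomputable def sd (B : Set Y) (x p y : Y) : ℝ :=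
  if JoinedIn (B \ {x}) y p then -dist y x else dist y x

/-- the transported coordinate -/
noncomputable def uu (B : Set Y) (x p : Y) (S : Y × ℝ → Y × ℝ) (θ : ℝ) (w : Y × ℝ) : ℂ :=
  (sd B x p (S w).1 : ℂ) + (((S w).2 - θ : ℝ) : ℂ) * Complex.I

theorem eq_of_sd {p y : Y} (h : sd B x p y = 0) : y = x := by
  unfold sd at h
  split_ifs at h
  · exact dist_eq_zero.1 (neg_eq_zero.1 h)
  · exact dist_eq_zero.1 h

theorem eq_of_uu {p : Y} {w : Y × ℝ} (h : uu B x p S θ w = 0) : S w = (x, θ) := by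
  have h1 := congrArg Complex.re h
  have h2 := congrArg Complex.im h
  simp [uu] at h1 h2
  exact Prod.ext (eq_of_sd h1) (by linarith)

theorem leg (hc : ∀ i, ArcIn B (c i) 0 r ∧ c i 0 = x) (i : Fin 3) {ξ : ℝ} (h0 : 0 < ξ)
    (h1 : ξ ≤ r) : JoinedIn (B \ {x}) (c i ξ) (c i r) ∧ 0 < dist (c i ξ) x := by
  have hr : 0 < r := h0.trans_le h1
  have h := (hc i).1.joined_diff (ξ := 0) ⟨le_rfl, hr.le⟩ ⟨h0.le, h1⟩ ⟨hr.le, le_rfl⟩
    (Or.inr ⟨h0, hr⟩)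
  rw [(hc i).2] at h
  exact ⟨h, dist_pos.2 h.source_mem.2⟩

theorem sd_neg (hc : ∀ i, ArcIn B (c i) 0 r ∧ c i 0 = x) (i : Fin 3) {ξ : ℝ} (h0 : 0 < ξ)
    (h1 : ξ ≤ r) : sd B x (c i r) (c i ξ) < 0 := by
  obtain ⟨h, h'⟩ := leg hc i h0 h1
  rw [sd, if_pos h]
  linarith

theorem sd_pos (hc : ∀ i, ArcIn B (c i) 0 r ∧ c i 0 = x)
    (hn : ∀ i j, i ≠ j → ¬ JoinedIn (B \ {x}) (c i r) (c j r)) {i j : Fin 3} (hij : i ≠ j) {ξ : ℝ}
    (h0 : 0 < ξ) (h1 : ξ ≤ r) : 0 < sd B x (c j r) (c i ξ) := by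
  obtain ⟨h, h'⟩ := leg hc i h0 h1
  rw [sd, if_neg fun h2 => hn i j hij (h.symm.trans h2)]
  exact h'

/-- two classes, or three inequivalent points -/
theorem two_or_three {α : Type} (P : Set α) (R : α → α → Prop) (hR : ∀ a b, R a b → R b a)
    (a₀ : α) : (∃ p₁ p₂, ∀ y ∈ P, R y p₁ ∨ R y p₂) ∨
      ∃ z : Fin 3 → α, (∀ i, z i ∈ P) ∧ ∀ i j, i ≠ j → ¬ R (z i) (z j) := by
  by_cases h : ∃ p₁ p₂, ∀ y ∈ P, R y p₁ ∨ R y p₂
  · exact Or.inl h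
  push Not at h
  obtain ⟨y₁, h₁, -, -⟩ := h a₀ a₀
  obtain ⟨y₂, h₂, h21, -⟩ := h y₁ y₁
  obtain ⟨y₃, h₃, h31, h32⟩ := h y₁ y₂
  have h12 : ¬ R y₁ y₂ := fun e => h21 (hR _ _ e)
  have h13 : ¬ R y₁ y₃ := fun e => h31 (hR _ _ e)
  have h23 : ¬ R y₂ y₃ := fun e => h32 (hR _ _ e)
  refine Or.inr ⟨![y₁, y₂, y₃], fun i => ?_, fun i j hij => ?_⟩
  · fin_cases i <;> assumption
  · fin_cases i <;> fin_cases j <;> first | exact absurd rfl hij | assumption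

/-- a path that covers the tripod -/
theorem tripod (hc : ∀ i, PathIn B (c i) 0 r ∧ c i 0 = x) :
    ∃ (τ : ℝ → Y) (a b : ℝ), ContinuousOn τ (Icc a b) ∧
      ∀ y, y ∈ τ '' Icc a b ↔ ∃ i, ∃ ξ ∈ Icc 0 r, c i ξ = y := by
  have hr := (hc 0).1.le
  have e01 : c 0 0 = c 1 0 := (hc 0).2.trans (hc 1).2.symm
  have e12 : c 1 0 = c 2 0 := (hc 1).2.trans (hc 2).2.symm
  have p1 := ((hc 0).1.cat (hc 1).1 e01).rev
  have p2 := (hc 1).1.cat (hc 2).1 e12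
  have e : (fun t => cat (c 0) 0 (c 1) 0 (-t)) (-(r - 0)) = cat (c 1) 0 (c 2) 0 (0 - r) := by
    beta_reduce
    rw [cat_of_nonneg e01 (by linarith), cat_of_nonpos (by linarith)]
    simp
  refine ⟨_, _, _, (p1.cat p2 e).cont, fun y => ?_⟩
  rw [image_cat p1.le p2.le e, image_neg_Icc, image_cat hr hr e01, image_cat hr hr e12]
  constructor
  · rintro ((h | h) | h | h) <;> exact ⟨_, h⟩
  · rintro ⟨i, h⟩
    fin_cases i
    · exact Or.inl (Or.inl h)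
    · exact Or.inl (Or.inr h)
    · exact Or.inr (Or.inr h)

theorem key (hN : SNolog) (hS : SSide) (hH : LocH B O O' T S)
    (hc : ∀ i, ArcIn B (c i) 0 r ∧ c i 0 = x)
    (hn : ∀ i j, i ≠ j → ¬ JoinedIn (B \ {x}) (c i r) (c j r)) (h0 : 0 < r') (h1 : r' ≤ r)
    {E : Set (Y × ℝ)} (hO : ∀ i, ∀ ξ ∈ Icc 0 r', ∀ η ∈ Icc (θ - r') (θ + r'), (c i ξ, η) ∈ O ∧
      ((c i ξ, η) ≠ (x, θ) → T (c i ξ, η) ∈ E))
    {i j k : Fin 3} (hji : j ≠ i) (hik : i ≠ k) (hjk : j ≠ k) {m n : ℤ}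
    (h : HasLog (fun w => uu B x (c i r) S θ w ^ m * uu B x (c k r) S θ w ^ n) E) : m = 0 := by
  have e : c i 0 = c j 0 := (hc i).2.trans (hc j).2.symm
  have hγ := ((hc i).1.path.sub le_rfl h0.le h1).cat ((hc j).1.path.sub le_rfl h0.le h1) e
  rw [zero_sub, sub_zero] at hγ
  set γ := cat (c i) 0 (c j) 0 with hγd
  have g1 : ∀ ξ, ξ ≤ 0 → γ ξ = c i (-ξ) := fun ξ hξ => by rw [hγd, cat_of_nonpos hξ, zero_sub]
  have g2 : ∀ ξ, 0 ≤ ξ → γ ξ = c j ξ := fun ξ hξ => by rw [hγd, cat_of_nonneg e hξ, zero_add]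
  have cf : ∀ p, ContinuousOn (fun ξ => sd B x p (γ ξ)) (Icc (-r') r') := fun p =>
    (hS Y B x p (sd B x p) fun _ => rfl).1 γ _ _ hγ
  have gpos : ∀ ξ ∈ Icc (-r') r', ξ ≠ 0 → 0 < sd B x (c k r) (γ ξ) := by
    intro ξ hξ hne
    rcases lt_or_gt_of_ne hne with hl | hl
    · rw [g1 ξ hl.le]
      exact sd_pos hc hn hik (by linarith) (by linarith [hξ.1])
    · rw [g2 ξ hl.le]
      exact sd_pos hc hn hjk hl (hξ.2.trans h1)
  set Q : Set (ℝ × ℝ) := (Icc (-r') r' ×ˢ Icc (-r') r') \ {(0, 0)} with hQ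
  have hv : ∀ w ∈ Q, (sd B x (c k r) (γ w.1) : ℂ) + (w.2 : ℂ) * Complex.I ∈ Complex.slitPlane := by
    intro w hw
    by_cases h2 : w.1 = 0
    · exact Or.inr (by simpa using fun h3 => hw.2 (Prod.ext h2 h3))
    · exact Or.inl (by simpa using gpos w.1 hw.1.1 h2)
  have hΦ : ∀ w ∈ Q, (γ w.1, θ + w.2) ∈ O ∧ T (γ w.1, θ + w.2) ∈ E := by
    intro w hw
    have hη : θ + w.2 ∈ Icc (θ - r') (θ + r') := ⟨by linarith [hw.1.2.1], by linarith [hw.1.2.2]⟩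
    have hne : (γ w.1, θ + w.2) ≠ (x, θ) := by
      intro h2
      have h3 : w.2 = 0 := by simpa using congrArg Prod.snd h2
      have h4 : γ w.1 = x := congrArg Prod.fst h2
      have h5 : w.1 ≠ 0 := fun h5 => hw.2 (Prod.ext h5 h3)
      have h6 := gpos w.1 hw.1.1 h5
      rw [h4, sd] at h6
      simp at h6
    rcases le_total w.1 0 with h2 | h2
    · rw [g1 _ h2] at hne ⊢
      have := hO i (-w.1) ⟨by linarith, by linarith [hw.1.1.1]⟩ _ hη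
      exact ⟨this.1, this.2 hne⟩
    · rw [g2 _ h2] at hne ⊢
      have := hO j w.1 ⟨h2, hw.1.1.2⟩ _ hη
      exact ⟨this.1, this.2 hne⟩
  have cγ : ContinuousOn (fun w : ℝ × ℝ => γ w.1) Q :=
    hγ.cont.comp continuousOn_fst fun w hw => hw.1.1
  have cΦ : ContinuousOn (fun w : ℝ × ℝ => T (γ w.1, θ + w.2)) Q :=
    hH.cont.comp (cγ.prodMk (by fun_prop)) fun w hw => (hΦ w hw).1
  have cv : ContinuousOn
      (fun w : ℝ × ℝ => (sd B x (c k r) (γ w.1) : ℂ) + (w.2 : ℂ) * Complex.I) Q :=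
    (Complex.continuous_ofReal.comp_continuousOn
      ((cf _).comp continuousOn_fst fun w hw => hw.1.1)).add (by fun_prop)
  obtain ⟨l, hl, el⟩ := h
  refine hN r' (fun ξ => sd B x (c i r) (γ ξ)) m h0 (cf _) (fun ξ hξ => ⟨fun hl => ?_, fun hl => ?_⟩)
    ⟨fun w => l (T (γ w.1, θ + w.2)) -
      n * Complex.log ((sd B x (c k r) (γ w.1) : ℂ) + (w.2 : ℂ) * Complex.I),
      (hl.comp cΦ fun w hw => (hΦ w hw).2).sub (continuousOn_const.mul (cv.clog hv)),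
      fun w hw => ?_⟩
  · rw [g1 ξ hl.le]
    exact sd_neg hc i (by linarith) (by linarith [hξ.1])
  · rw [g2 ξ hl.le]
    exact sd_pos hc hn hji hl (hξ.2.trans h1)
  · have hz := Complex.slitPlane_ne_zero (hv w hw)
    rw [Complex.exp_sub, el _ (hΦ w hw).2, Complex.exp_int_mul, Complex.exp_log hz]
    simp only [uu, hH.inv _ (hΦ w hw).1, add_sub_cancel_left]
    exact mul_div_cancel_right₀ _ (zpow_ne_zero n hz)

/-- a small tripod -/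
theorem small (hc : ∀ i, ArcIn B (c i) 0 r ∧ c i 0 = x) (hr : 0 < r) {U : Set (Y × ℝ)}
    (hU : U ∈ 𝓝 (x, θ)) : ∃ r', 0 < r' ∧ r' ≤ r ∧
      ∀ i, ∀ ξ ∈ Icc 0 r', ∀ η ∈ Icc (θ - r') (θ + r'), (c i ξ, η) ∈ U := by
  obtain ⟨ε, hε, hb⟩ := Metric.mem_nhds_iff.1 hU
  have h1 : ∀ i, ∃ δ > 0, ∀ ξ ∈ Icc 0 r, dist ξ 0 < δ → dist (c i ξ) (c i 0) < ε := fun i =>
    Metric.continuousOn_iff.1 (hc i).1.path.cont 0 ⟨le_rfl, hr.le⟩ ε hε
  choose δ hδ H using h1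
  obtain ⟨i₀, -, hi₀⟩ := Finset.exists_min_image Finset.univ δ Finset.univ_nonempty
  have hd := hδ i₀
  refine ⟨min r (min (ε / 2) (δ i₀ / 2)), by positivity, min_le_left _ _, fun i ξ hξ η hη => hb ?_⟩
  have k1 : min r (min (ε / 2) (δ i₀ / 2)) ≤ ε / 2 := (min_le_right _ _).trans (min_le_left _ _)
  have k2 : min r (min (ε / 2) (δ i₀ / 2)) ≤ δ i₀ / 2 :=
    (min_le_right _ _).trans (min_le_right _ _)
  have k3 := hi₀ i (Finset.mem_univ i)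
  rw [Metric.mem_ball, Prod.dist_eq, max_lt_iff]
  constructor
  · rw [← (hc i).2]
    refine H i ξ ⟨hξ.1, hξ.2.trans (min_le_left _ _)⟩ ?_
    rw [Real.dist_eq, sub_zero, abs_of_nonneg hξ.1]
    linarith [hξ.2]
  · rw [Real.dist_eq, abs_lt]
    constructor <;> linarith [hη.1, hη.2]

end Inv3A

open Inv3A in
theorem sInv3 : SH → SNolog → SSide → SInv3 := by
  intro hSH hN hS Y _ B O O' T S c x r θ hLF hH hr hc hn hx
  obtain ⟨ρ₂, hρ₂, hb⟩ := Metric.isOpen_iff.1 hH.op' _ (hH.maps hx)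
  set ρ := ρ₂ / 2 with hρd
  have hρ : 0 < ρ := by positivity
  have hU : O ∩ T ⁻¹' Metric.ball (T (x, θ)) ρ ∈ 𝓝 (x, θ) :=
    inter_mem (hH.op.mem_nhds hx)
      ((hH.cont.continuousAt (hH.op.mem_nhds hx)).preimage_mem_nhds (Metric.ball_mem_nhds _ hρ))
  obtain ⟨r', h0, h1, hs⟩ := small hc hr hU
  obtain ⟨τ, a, b, cτ, eτ⟩ := tripod (B := B) (c := c) (x := x) (r := r') fun i =>
    ⟨(hc i).1.path.sub le_rfl h0.le h1, (hc i).2⟩
  set G : ℝ × ℝ → Y := fun w => (T (τ w.1, w.2)).1 with hG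
  set K := G '' (Icc a b ×ˢ Icc (θ - r') (θ + r')) with hK
  have eK : ∀ y, y ∈ K ↔
      ∃ i, ∃ ξ ∈ Icc 0 r', ∃ η ∈ Icc (θ - r') (θ + r'), (T (c i ξ, η)).1 = y := by
    intro y
    constructor
    · rintro ⟨w, hw, rfl⟩
      obtain ⟨i, ξ, hξ, e⟩ := (eτ _).1 (mem_image_of_mem τ hw.1)
      exact ⟨i, ξ, hξ, w.2, hw.2, by rw [e]⟩
    · rintro ⟨i, ξ, hξ, η, hη, rfl⟩
      obtain ⟨t, ht, e⟩ := (eτ _).2 ⟨i, ξ, hξ, rfl⟩
      exact ⟨(t, η), ⟨ht, hη⟩, by simp only [hG, e]⟩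
  have cG : ContinuousOn G (Icc a b ×ˢ Icc (θ - r') (θ + r')) := by
    refine continuous_fst.comp_continuousOn (hH.cont.comp
      ((cτ.comp continuousOn_fst fun w hw => hw.1).prodMk continuousOn_snd) fun w hw => ?_)
    obtain ⟨i, ξ, hξ, e⟩ := (eτ _).1 (mem_image_of_mem τ hw.1)
    have := (hs i ξ hξ w.2 hw.2).1
    rwa [e] at this
  set x' := (T (x, θ)).1 with hx'
  set θ' := (T (x, θ)).2 with hθ'
  have hKO : K ×ˢ Icc (θ' - ρ) (θ' + ρ) ⊆ O' := by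
    rintro w ⟨hw, hw'⟩
    obtain ⟨i, ξ, hξ, η, hη, e⟩ := (eK _).1 hw
    have h2 : dist (T (c i ξ, η)) (T (x, θ)) < ρ := (hs i ξ hξ η hη).2
    rw [Prod.dist_eq, max_lt_iff, e] at h2
    refine hb ?_
    rw [Metric.mem_ball, Prod.dist_eq, max_lt_iff, Real.dist_eq, abs_lt]
    refine ⟨by linarith [h2.1], ?_, ?_⟩ <;> linarith [hw'.1, hw'.2]
  have hKB : K ⊆ B := fun y hy =>
    hH.sub' (y, θ') (hKO ⟨hy, by constructor <;> linarith⟩)
  have hθ : θ ∈ Icc (θ - r') (θ + r') := by constructor <;> linarith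
  have hxK : x' ∈ K := (eK _).2 ⟨0, 0, ⟨le_rfl, h0.le⟩, θ, hθ, by rw [(hc 0).2]⟩
  rcases two_or_three (K \ {x'}) (JoinedIn (B \ {x'})) (fun _ _ h => h.symm) x' with
    ⟨p₁, p₂, hp⟩ | ⟨z, hz, hz'⟩
  · exfalso
    have cS := hH.cont'.mono hKO
    have cu : ∀ p, ContinuousOn (uu B x p S θ) ((K ×ˢ Icc (θ' - ρ) (θ' + ρ)) \ {(x', θ')}) := by
      intro p
      have h2 := (hS Y B x p (sd B x p) fun _ => rfl).2 G a b _ _ _ _ S cG cS fun w hw =>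
        hH.sub _ (hH.maps' (hKO hw))
      refine ContinuousOn.mono ?_ sdiff_subset
      exact (Complex.continuous_ofReal.comp_continuousOn h2).add
        ((Complex.continuous_ofReal.comp_continuousOn
          ((continuous_snd.comp_continuousOn cS).sub continuousOn_const)).mul continuousOn_const)
    have nu : ∀ p, ∀ w ∈ (K ×ˢ Icc (θ' - ρ) (θ' + ρ)) \ {(x', θ')}, uu B x p S θ w ≠ 0 := by
      intro p w hw h
      refine hw.2 ?_
      rw [mem_singleton_iff, ← hH.inv' w (hKO hw.1), eq_of_uu h]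
    obtain ⟨m, n, hmn, hl⟩ := (hSH Y B K G a b _ _ x' p₁ p₂ θ' ρ (uu B x (c 0 r) S θ)
      (uu B x (c 2 r) S θ) hρ hLF cG hK hKB hxK (cu _) (cu _)
      fun w hw => ⟨nu _ w hw, nu _ w hw⟩).2 fun y hy hne => hp y ⟨hy, hne⟩
    have hO : ∀ i, ∀ ξ ∈ Icc 0 r', ∀ η ∈ Icc (θ - r') (θ + r'), (c i ξ, η) ∈ O ∧
        ((c i ξ, η) ≠ (x, θ) → T (c i ξ, η) ∈ (K ×ˢ Icc (θ' - ρ) (θ' + ρ)) \ {(x', θ')}) := by
      intro i ξ hξ η hη
      have h2 := hs i ξ hξ η hη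
      refine ⟨h2.1, fun hne => ⟨⟨(eK _).2 ⟨i, ξ, hξ, η, hη, rfl⟩, ?_⟩, fun e => hne ?_⟩⟩
      · have h3 : dist (T (c i ξ, η)) (T (x, θ)) < ρ := h2.2
        rw [Prod.dist_eq, max_lt_iff, Real.dist_eq, abs_lt] at h3
        constructor <;> linarith [h3.2.1, h3.2.2]
      · have e' : T (c i ξ, η) = T (x, θ) := e
        rw [← hH.inv _ h2.1, e', hH.inv _ hx]
    refine hmn ⟨key hN hS hH hc hn h0 h1 hO (j := 1) (by decide) (by decide) (by decide) hl, ?_⟩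
    refine key hN hS hH hc hn h0 h1 hO (i := 2) (j := 1) (k := 0) (n := m) (by decide) (by decide)
      (by decide) ?_
    simpa only [mul_comm] using hl
  · have h2 := fun i => (eK _).1 (hz i).1
    choose k ξ hξ η hη e using h2
    refine ⟨k, ξ, η, fun i => ⟨⟨(hξ i).1, (hξ i).2.trans h1⟩,
      ⟨by linarith [(hη i).1], by linarith [(hη i).2]⟩, (hs _ _ (hξ i) _ (hη i)).1, ?_⟩, ?_⟩
    · rw [e]
      exact (hz i).2
    · intro i j hij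
      rw [e, e]
      exact hz' i j hij

end Pool.Agent.MP_0c1703_gt.H59
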