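import Pool.Agent.MP_0c1703_gt.H59.Kit

/-! Long flow boxes along a compact family of paths. -/

namespace Pool.Agent.MP_0c1703_gt.H59

open Set Filter Topology

theorem sLB : SLeaf → SGlue → SLB := by
  intro hLeaf hGlue Y P _ _ Γ p₀ a b hab hΓ hb
  obtain ⟨C, _, h₁, he, hC, w₁, hw₁⟩ := (hLeaf Y).2.2 _ (hb a (left_mem_Icc.2 hab))
  have : Nonempty (C × ℝ) := ⟨w₁⟩
  let e := he.toOpenPartialHomeomorph h₁
  have et : e.target = range h₁ := he.toOpenPartialHomeomorph_target h₁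
  have ha : Continuous fun p => Γ (p, a) :=
    hΓ.comp_continuous (by fun_prop) fun p => ⟨trivial, left_mem_Icc.2 hab⟩
  let N : Set P := (fun p => Γ (p, a)) ⁻¹' e.target
  have hN : IsOpen N := e.open_target.preimage ha
  have hp₀ : p₀ ∈ N := by
    show Γ (p₀, a) ∈ e.target
    rw [et]; exact ⟨w₁, hw₁⟩
  have hs : ContinuousOn (fun p => e.symm (Γ (p, a))) N :=
    e.continuousOn_symm.comp ha.continuousOn fun p hp => hp
  let κ : P → C := fun p => (e.symm (Γ (p, a))).1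
  have hκ : ContinuousOn κ N := continuous_fst.comp_continuousOn hs
  let S : ℝ → Prop := fun τ => ∃ (h : C × ℝ → Y) (C₀ : Set C) (N' : Set P) (x : P × ℝ → ℝ),
    BoxOn h C₀ ∧ IsOpen N' ∧ p₀ ∈ N' ∧ N' ⊆ N ∧ MapsTo κ N' C₀ ∧
      ContinuousOn x (N' ×ˢ Icc a τ) ∧ ∀ p ∈ N', ∀ t ∈ Icc a τ, Γ (p, t) = h (κ p, x (p, t))
  have Sa : S a := by
    refine ⟨h₁, univ, N, fun w => (e.symm (Γ (w.1, a))).2,
      ⟨isOpen_univ, he.isLocalHomeomorph.isLocalHomeomorphOn, hC⟩, hN, hp₀, Subset.rfl,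
      mapsTo_univ _ _, continuous_snd.comp_continuousOn
        (hs.comp continuous_fst.continuousOn fun w hw => hw.1), fun p hp t ht => ?_⟩
    obtain rfl : t = a := le_antisymm ht.2 ht.1
    exact (e.right_inv hp).symm
  have Sb : S b := by
    let T := {τ ∈ Icc a b | S τ}
    have hT : T.Nonempty := ⟨a, left_mem_Icc.2 hab, Sa⟩
    have hB : BddAbove T := ⟨b, fun τ hτ => hτ.1.2⟩
    have hm : sSup T ∈ Icc a b :=
      ⟨le_csSup hB ⟨left_mem_Icc.2 hab, Sa⟩, csSup_le hT fun τ hτ => hτ.1.2⟩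
    obtain ⟨C₂, _, h₂, he₂, hC₂, hw₂⟩ := (hLeaf Y).2.2 _ (hb _ hm)
    have hc : ContinuousOn (fun t => Γ (p₀, t)) (Icc a b) :=
      hΓ.comp (by fun_prop) fun t ht => ⟨trivial, ht⟩
    obtain ⟨ε, hε, hr⟩ := Metric.eventually_nhds_iff.1 (eventually_nhdsWithin_iff.1
      ((hc _ hm).eventually (he₂.isOpen_range.mem_nhds hw₂)))
    obtain ⟨t₀, ⟨ht₀, h, C₀, N', x, hh, oN, mN, sN, mκ, cx, ex⟩, hlt⟩ :=
      exists_lt_of_lt_csSup hT (show sSup T - ε < sSup T by linarith)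
    have hle : t₀ ≤ sSup T := le_csSup hB ⟨ht₀, h, C₀, N', x, hh, oN, mN, sN, mκ, cx, ex⟩
    have h01 : t₀ ≤ min b (sSup T + ε / 2) := le_min ht₀.2 (by linarith)
    have hsub : Icc a (min b (sSup T + ε / 2)) ⊆ Icc a b := Icc_subset_Icc_right (min_le_left _ _)
    obtain ⟨h₃, C', N'', x', b₃, o₃, m₃, s₃, k₃, c₃, e₃⟩ := hGlue Y C C₂ P h C₀ h₂ Γ N' p₀ κ x a t₀
      (min b (sSup T + ε / 2)) hh he₂ hC₂ oN mN ht₀.1 h01 (hκ.mono sN) mκ cx
      (hΓ.mono (prod_mono (subset_univ _) hsub)) ex fun t ht => by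
        have h2 := ht.2.trans (min_le_right _ _)
        refine hr ?_ (hsub ⟨ht₀.1.trans ht.1, ht.2⟩)
        rw [Real.dist_eq, abs_lt]
        constructor <;> linarith [ht.1]
    have S1 : S (min b (sSup T + ε / 2)) := ⟨h₃, C', N'', x', b₃, o₃, m₃, s₃.trans sN, k₃, c₃, e₃⟩
    have h3 : min b (sSup T + ε / 2) ≤ sSup T :=
      le_csSup hB ⟨⟨ht₀.1.trans h01, min_le_left _ _⟩, S1⟩
    have h4 : min b (sSup T + ε / 2) = b := by
      rcases le_total b (sSup T + ε / 2) with h5 | h5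
      · exact min_eq_left h5
      · rw [min_eq_right h5] at h3; linarith
    rwa [h4] at S1
  obtain ⟨h, C₀, N', x, hh, oN, mN, sN, mκ, cx, ex⟩ := Sb
  classical
  have hv : IsOpenEmbedding (Prod.map (Subtype.val : C₀ → C) (id : ℝ → ℝ)) :=
    hh.op.isOpenEmbedding_subtypeVal.prodMap IsOpenEmbedding.id
  refine ⟨C₀, inferInstance, h ∘ Prod.map Subtype.val id, N',
    fun p => if hp : κ p ∈ C₀ then ⟨κ p, hp⟩ else ⟨κ p₀, mκ mN⟩, x,
    ⟨isLocalHomeomorph_iff_isLocalHomeomorphOn_univ.2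
      (hh.loc.comp hv.isLocalHomeomorph.isLocalHomeomorphOn fun w _ => ⟨w.1.2, trivial⟩),
      fun f u v huv hf => Subtype.ext
        (hh.tpd (fun t => (f t : C)) u v huv (continuous_subtype_val.comp_continuousOn hf))⟩,
    oN, mN, ?_, cx, fun p hp t ht => ?_⟩
  · refine IsInducing.subtypeVal.continuousOn_iff.2 ((hκ.mono sN).congr fun p hp => ?_)
    simp only [Function.comp, dif_pos (mκ hp)]
  · simp only [Function.comp, dif_pos (mκ hp), Prod.map, id]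
    exact ex p hp t ht

end Pool.Agent.MP_0c1703_gt.H59
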