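import Pool.Agent.MP_0c1703_gt.H59.Kit

/-! Near a point that moves, loops do not wind. -/

namespace Pool.Agent.MP_0c1703_gt.H59

open Set Filter Topology Metric Pool.Agent.MP_0c1703_gt.H58
open scoped Real

namespace LFA

/-- the winding of a loop does not change along a homotopy of loops -/
theorem wind {H : ℝ × ℝ → ℂ} {s t s₀ : ℝ} {l₀ l₁ : ℝ → ℂ} (hst : s ≤ t) (hs : 0 ≤ s₀)
    (hH : ContinuousOn H (Icc s t ×ˢ Icc 0 s₀)) (h0 : ∀ w ∈ Icc s t ×ˢ Icc 0 s₀, H w ≠ 0)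
    (hc : ∀ σ ∈ Icc 0 s₀, H (s, σ) = H (t, σ)) (c₀ : ContinuousOn l₀ (Icc s t))
    (c₁ : ContinuousOn l₁ (Icc s t)) (e₀ : ∀ r ∈ Icc s t, Complex.exp (l₀ r) = H (r, 0))
    (e₁ : ∀ r ∈ Icc s t, Complex.exp (l₁ r) = H (r, s₀)) : l₀ t - l₀ s = l₁ t - l₁ s := by
  obtain ⟨L, hL, eL⟩ := hasLog_convex ((convex_Icc s t).prod (convex_Icc 0 s₀)) hH h0
  have ms : s ∈ Icc s t := ⟨le_rfl, hst⟩
  have mt : t ∈ Icc s t := ⟨hst, le_rfl⟩
  have m0 : (0 : ℝ) ∈ Icc 0 s₀ := ⟨le_rfl, hs⟩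
  have m1 : s₀ ∈ Icc 0 s₀ := ⟨hs, le_rfl⟩
  have a : ∀ r ∈ Icc s t, ContinuousOn (fun σ => L (r, σ)) (Icc 0 s₀) := fun r hr =>
    hL.comp (by fun_prop) fun σ hσ => ⟨hr, hσ⟩
  have b : ∀ σ ∈ Icc 0 s₀, ContinuousOn (fun r => L (r, σ)) (Icc s t) := fun σ hσ =>
    hL.comp (by fun_prop) fun r hr => ⟨hr, hσ⟩
  obtain ⟨k, hk⟩ := log_unique isPreconnected_Icc (a t mt) (a s ms) fun σ hσ => by
    rw [eL _ ⟨mt, hσ⟩, eL _ ⟨ms, hσ⟩, hc σ hσ]
  obtain ⟨k₀, h₀⟩ := log_unique isPreconnected_Icc c₀ (b 0 m0) fun r hr => by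
    rw [eL _ ⟨hr, m0⟩, e₀ r hr]
  obtain ⟨k₁, h₁⟩ := log_unique isPreconnected_Icc c₁ (b s₀ m1) fun r hr => by
    rw [eL _ ⟨hr, m1⟩, e₁ r hr]
  rw [h₀ t mt, h₀ s ms, h₁ t mt, h₁ s ms, hk 0 m0, hk s₀ m1]
  ring

theorem slit {a b : ℂ} (h : ‖a - b‖ < ‖b‖) : a / b ∈ Complex.slitPlane := by
  have hb : b ≠ 0 := norm_pos_iff.1 ((norm_nonneg _).trans_lt h)
  have := Complex.mem_slitPlane_of_norm_lt_one (z := (a - b) / b)
    (by rw [norm_div]; exact (div_lt_one (norm_pos_iff.2 hb)).2 h)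
  rwa [show 1 + (a - b) / b = a / b by field_simp; ring] at this

end LFA

open LFA in
theorem sLF : SLF := by
  classical
  intro Y _ hE y ⟨D, F, θ, s₀, hF, hs, hD, hne⟩
  obtain ⟨y₁, hy₁⟩ : ∃ y₁, y₁ = (F (y, θ) s₀).1 := ⟨_, rfl⟩
  have hd : 0 < dist y y₁ := dist_pos.2 (hy₁ ▸ hne.symm)
  have c0 : ContinuousAt (fun y' : Y => ((y', θ), s₀)) y := by fun_prop
  have c1 : ContinuousAt (fun y' : Y => (F (y', θ) s₀).1) y :=
    (ContinuousAt.comp (f := fun y' : Y => ((y', θ), s₀))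
      (hF.cont.continuousAt (hF.op.mem_nhds hD)) c0).fst
  have h1 : ∀ᶠ y' in 𝓝 y, ((y', θ), s₀) ∈ D ∧ (F (y', θ) s₀).1 ∈ closedBall y₁ (dist y y₁ / 2) ∧
      y' ∈ ball y (dist y y₁ / 2) :=
    (c0.eventually (hF.op.mem_nhds hD)).and
      ((c1.eventually (hy₁ ▸ closedBall_mem_nhds y₁ (half_pos hd))).and
        (ball_mem_nhds y (half_pos hd)))
  obtain ⟨B, hB, hBo, hyB⟩ := _root_.eventually_nhds_iff.1 h1
  refine ⟨B, hBo, hyB, fun γ s t u l hγ hst hu hl el => ?_⟩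
  have hK := hγ.isCompact.isClosed
  have hdis : ∀ z ∈ closedBall y₁ (dist y y₁ / 2), z ∉ γ '' Icc s t := fun z hz hz' => by
    have h2 := (hB z (hγ.image_subset hz')).2.2
    have h3 := dist_triangle y z y₁
    rw [mem_ball, dist_comm] at h2
    rw [mem_closedBall] at hz
    linarith
  have hu0 : ∀ z ∈ γ '' Icc s t, u z ≠ 0 := by
    rintro _ ⟨r, hr, rfl⟩
    rw [← el r hr]
    exact Complex.exp_ne_zero _
  obtain ⟨f, hf, f0, hfu⟩ := hE (γ '' Icc s t ∪ closedBall y₁ (dist y y₁ / 2))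
    (fun z => if z ∈ γ '' Icc s t then u z else 1) (hK.union isClosed_closedBall)
    ((hu.congr fun z hz => if_pos hz).union_of_isClosed
      (continuousOn_const.congr fun z hz => if_neg (hdis z hz)) hK isClosed_closedBall)
    (by
      rintro z (hz | hz)
      · rw [if_pos hz]; exact hu0 z hz
      · rw [if_neg (hdis z hz)]; exact one_ne_zero)
  have hDm : ∀ w ∈ Icc s t ×ˢ Icc 0 s₀, ((γ w.1, θ), w.2) ∈ D := fun w hw =>
    hF.sub _ _ (hB _ (hγ.mem hw.1)).1 _ (by rw [uIcc_of_le hs.le]; exact hw.2)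
  have hc : ContinuousOn (fun w : ℝ × ℝ => f (F (γ w.1, θ) w.2).1) (Icc s t ×ˢ Icc 0 s₀) := by
    refine hf.comp_continuousOn (ContinuousOn.fst ?_)
    refine hF.cont.comp (f := fun w : ℝ × ℝ => ((γ w.1, θ), w.2)) ?_ hDm
    exact ((hγ.cont.comp continuousOn_fst fun w hw => hw.1).prodMk continuousOn_const).prodMk
      continuousOn_snd
  have s1 : ∀ r ∈ Icc s t, f (γ r) / u (γ r) ∈ Complex.slitPlane := fun r hr => by
    have := hfu (γ r) (Or.inl (mem_image_of_mem _ hr))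
    rw [if_pos (mem_image_of_mem _ hr)] at this
    exact slit this
  have s2 : ∀ r ∈ Icc s t, f (F (γ r, θ) s₀).1 ∈ Complex.slitPlane := fun r hr => by
    have h2 := (hB _ (hγ.mem hr)).2.1
    have := hfu _ (Or.inr h2)
    rw [if_neg (hdis _ h2)] at this
    simpa using slit this
  have huγ : ContinuousOn (fun r => u (γ r)) (Icc s t) := hu.comp hγ.cont (mapsTo_image _ _)
  have key := wind (l₀ := fun r => l r + Complex.log (f (γ r) / u (γ r)))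
    (l₁ := fun r => Complex.log (f (F (γ r, θ) s₀).1)) hγ.le hs.le hc (fun w _ => f0 _)
    (fun σ _ => by simp only [hst])
    (hl.add (((hf.comp_continuousOn hγ.cont).div huγ
      fun r hr => hu0 _ (mem_image_of_mem _ hr)).clog s1))
    ((hc.comp (f := fun r : ℝ => (r, s₀)) (by fun_prop) fun r hr => ⟨hr, hs.le, le_rfl⟩).clog s2)
    (fun r hr => by
      have h2 := hu0 _ (mem_image_of_mem _ hr)
      rw [Complex.exp_add, el r hr, Complex.exp_log (div_ne_zero (f0 _) h2),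
        hF.zero _ _ (hB _ (hγ.mem hr)).1]
      field_simp)
    fun r _ => Complex.exp_log (f0 _)
  simp only [hst] at key
  linear_combination -key

end Pool.Agent.MP_0c1703_gt.H59
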