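import Pool.Agent.MP_0c1703_gt.H59.Kit

/-! Leaves of flow boxes. -/

namespace Pool.Agent.MP_0c1703_gt.H59

open Set Filter Topology

namespace LeafA

variable {Y : Type} [MetricSpace Y]

theorem leaf {C : Type} [TopologicalSpace C] {h : C × ℝ → Y} (hb : Box h) (κ : C) :
    Leaf fun ξ => h (κ, ξ) := by
  have hc : Continuous fun ξ : ℝ => (κ, ξ) := continuous_const.prodMk continuous_id
  refine ⟨hb.loc.continuous.comp hc, fun ξ => ?_, fun ξ ε hε => ?_⟩
  · obtain ⟨e, he, rfl⟩ := hb.loc (κ, ξ)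
    obtain ⟨ε, hε, hs⟩ := Metric.isOpen_iff.1 (e.open_source.preimage hc) ξ he
    rw [Real.ball_eq_Ioo] at hs
    exact ⟨ε, hε, fun u hu v hv huv => (Prod.ext_iff.1 (e.injOn (hs hu) (hs hv) huv)).2⟩
  · obtain ⟨e, he, rfl⟩ := hb.loc (κ, ξ)
    have hS : IsOpen (e.source ∩ univ ×ˢ Ioo (ξ - ε) (ξ + ε)) :=
      e.open_source.inter (isOpen_univ.prod isOpen_Ioo)
    have hm : (κ, ξ) ∈ e.source ∩ univ ×ˢ Ioo (ξ - ε) (ξ + ε) :=
      ⟨he, mem_univ _, by constructor <;> simp [hε]⟩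
    refine ⟨e '' (e.source ∩ univ ×ˢ Ioo (ξ - ε) (ξ + ε)),
      (e.isOpen_image_of_subset_source hS inter_subset_left).mem_nhds (mem_image_of_mem _ hm),
      fun γ s t hγ h0 => ?_⟩
    have ht : MapsTo γ (Icc s t) e.target := by
      intro u hu
      obtain ⟨w, hw, hw'⟩ := hγ.mem hu
      exact hw' ▸ e.map_source hw.1
    have hl : ContinuousOn (fun u => e.symm (γ u)) (Icc s t) := e.continuousOn_symm.comp hγ.cont ht
    have h1 : e.symm (γ s) = (κ, ξ) := by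
      rw [h0]
      exact e.left_inv he
    refine ⟨fun u => (e.symm (γ u)).2, hl.snd, by simp only [h1], fun u hu => ?_⟩
    have h2 : κ = (e.symm (γ u)).1 := by
      have := hb.tpd (fun u => (e.symm (γ u)).1) s u hu.1
        (hl.fst.mono (Icc_subset_Icc_right hu.2))
      simpa only [h1] using this
    constructor
    · obtain ⟨w, hw, hw'⟩ := hγ.mem hu
      have : e.symm (γ u) = w := by
        rw [← hw']
        exact e.left_inv hw.1
      simp only [this]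
      exact abs_lt.2 ⟨by linarith [hw.2.2.1], by linarith [hw.2.2.2]⟩
    · have : (κ, (e.symm (γ u)).2) = e.symm (γ u) := Prod.ext h2 rfl
      simp only [this]
      exact e.right_inv (ht hu)

theorem uniq {c : ℝ → Y} {x x' : ℝ → ℝ} {a b : ℝ} (hc : Leaf c) (hx : ContinuousOn x (Icc a b))
    (hx' : ContinuousOn x' (Icc a b)) (e : ∀ t ∈ Icc a b, c (x t) = c (x' t)) {t₀ : ℝ}
    (ht : t₀ ∈ Icc a b) (h0 : x t₀ = x' t₀) : ∀ t ∈ Icc a b, x t = x' t := by
  have hi : IsLocallyInjective c := by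
    intro ξ
    obtain ⟨ε, hε, h⟩ := hc.inj ξ
    exact ⟨_, isOpen_Ioo, ⟨by linarith, by linarith⟩, h⟩
  exact (T2Space.isSeparatedMap c).eqOn_of_comp_eqOn hi isPreconnected_Icc hx hx' e ht h0

theorem emb {y : Y} (hy : HasBox y) : ∃ (C : Type) (_ : TopologicalSpace C) (h : C × ℝ → Y),
    IsOpenEmbedding h ∧ TPD C ∧ y ∈ range h := by
  obtain ⟨C, _, h, hb, ⟨κ, ξ⟩, rfl⟩ := hy
  obtain ⟨e, he, hhe⟩ := hb.loc (κ, ξ)
  obtain ⟨C', J, hC', hJ, hκ, hξ, hs⟩ := isOpen_prod_iff.1 e.open_source κ ξ he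
  obtain ⟨ε, hε, hb'⟩ := Metric.isOpen_iff.1 hJ ξ hξ
  let φ : OpenPartialHomeomorph ℝ ℝ := OpenPartialHomeomorph.univBall ξ ε
  have hφ : IsOpenEmbedding φ :=
    φ.isOpenEmbedding (OpenPartialHomeomorph.univBall_source ξ ε)
  have hφJ : ∀ u, φ u ∈ J := fun u => by
    have := φ.map_source (x := u) (by simp [φ])
    rw [OpenPartialHomeomorph.univBall_target ξ hε] at this
    exact hb' this
  have hj : IsOpenEmbedding (Prod.map (Subtype.val : C' → C) φ) :=
    hC'.isOpenEmbedding_subtypeVal.prodMap hφ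
  refine ⟨C', inferInstance, h ∘ Prod.map Subtype.val φ, ?_, ?_, (⟨κ, hκ⟩, 0), ?_⟩
  · refine .of_continuous_injective_isOpenMap (hb.loc.continuous.comp hj.continuous) ?_
      (hb.loc.isOpenMap.comp hj.isOpenMap)
    intro w w' hw
    apply hj.injective
    rw [hhe] at hw
    exact e.injOn (hs ⟨w.1.2, hφJ _⟩) (hs ⟨w'.1.2, hφJ _⟩) hw
  · intro f a b hab hf
    exact Subtype.ext (hb.tpd (fun u => (f u).1) a b hab (continuous_subtype_val.comp_continuousOn hf))
  · simp [φ]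

end LeafA

theorem sLeaf : SLeaf := fun _ _ =>
  ⟨fun _ _ _ hb κ => LeafA.leaf hb κ,
    fun _ _ _ _ _ hc hx hx' e _ ht h0 => LeafA.uniq hc hx hx' e ht h0, fun _ hy => LeafA.emb hy⟩

end Pool.Agent.MP_0c1703_gt.H59
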