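import Pool.Agent.MP_0c1703_gt.H59.Kit

/-! Row Lim: limits of arcs parametrised by size. -/

namespace Pool.Agent.MP_0c1703_gt.H59

open Set Filter Topology

namespace LimA

/-- clamping to [0,m] -/
def cl (m ξ : ℝ) : ℝ := max 0 (min ξ m)

theorem cl_mem {m : ℝ} (hm : 0 ≤ m) (ξ : ℝ) : cl m ξ ∈ Icc 0 m :=
  ⟨le_max_left _ _, max_le hm (min_le_right _ _)⟩

theorem cl_eq {m ξ : ℝ} (h : ξ ∈ Icc 0 m) : cl m ξ = ξ := by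
  rw [cl, min_eq_left h.2, max_eq_right h.1]

theorem cl_mono (m : ℝ) {ξ ξ' : ℝ} (h : ξ ≤ ξ') : cl m ξ ≤ cl m ξ' :=
  max_le_max le_rfl (min_le_min h le_rfl)

theorem cl_le (m : ℝ) {ξ : ℝ} (h : 0 ≤ ξ) : cl m ξ ≤ ξ := max_le h (min_le_left _ _)

theorem cl_lip (m ξ ξ' : ℝ) : |cl m ξ - cl m ξ'| ≤ |ξ - ξ'| := by
  refine (abs_max_sub_max_le_max _ _ _ _).trans (max_le (by simp) ?_)
  exact (abs_min_sub_min_le_max _ _ _ _).trans (max_le le_rfl (by simp))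

theorem cl_tendsto {ι : Type} {F : Filter ι} {m ξ : ι → ℝ} {m₀ ξ₀ : ℝ} (hm : Tendsto m F (𝓝 m₀))
    (hξ : Tendsto ξ F (𝓝 ξ₀)) (h : ξ₀ ∈ Icc 0 m₀) :
    Tendsto (fun i => cl (m i) (ξ i)) F (𝓝 ξ₀) := by
  have := (tendsto_const_nhds (x := (0 : ℝ))).max (hξ.min hm)
  rwa [min_eq_left h.2, max_eq_right h.1] at this

end LimA

open LimA

theorem sLim : SWA → SLim := by
  intro hWA Y _ B K μ ι U g m m₀ hμ hUF hK hKB hg hm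
  have hE := (hWA Y B μ hμ).2.2 hUF
  have hm0 : ∀ᶠ i in (U : Filter ι), 0 ≤ m i := hg.mono fun i hi => hi.1.arc.path.le
  have hm₀ : 0 ≤ m₀ := ge_of_tendsto hm hm0
  have : ∀ ξ, ∃ y ∈ K, Tendsto (fun i => g i (cl (m i) ξ)) U (𝓝 y) := fun ξ =>
    hK.ultrafilter_le_nhds (U.map fun i => g i (cl (m i) ξ)) (le_principal_iff.2
      (hg.mono fun i hi => hi.2 (cl_mem hi.1.arc.path.le ξ)))
  choose g₀ hg₀K hg₀ using this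
  have hL : ∀ (ξ : ι → ℝ) (ξ₀ : ℝ), (∀ᶠ i in (U : Filter ι), ξ i ∈ Icc 0 (m i)) →
      Tendsto ξ U (𝓝 ξ₀) → Tendsto (fun i => g i (ξ i)) U (𝓝 (g₀ ξ₀)) := by
    intro ξ ξ₀ h1 h2
    have h3 : ξ₀ ∈ Icc 0 m₀ := ⟨ge_of_tendsto h2 (h1.mono fun i hi => hi.1),
      le_of_tendsto_of_tendsto h2 hm (h1.mono fun i hi => hi.2)⟩
    refine (hg₀ ξ₀).congr_dist (Metric.tendsto_nhds.2 fun η hη => ?_)
    obtain ⟨κ, hκ, h4⟩ := hE η hη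
    have h5 := ((cl_tendsto hm tendsto_const_nhds h3).sub h2).abs
    rw [sub_self, abs_zero] at h5
    filter_upwards [hg, h1, h5.eventually (gt_mem_nhds hκ)] with i a1 a2 a3
    rw [Real.dist_eq, sub_zero, abs_of_nonneg dist_nonneg]
    exact h4 _ _ a1.1 _ (cl_mem a1.1.arc.path.le _) _ a2 a3
  have hC : Continuous g₀ := by
    refine (Metric.uniformContinuous_iff_le.2 fun η hη => ?_).continuous
    obtain ⟨κ, hκ, h4⟩ := hE η hη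
    refine ⟨κ / 2, half_pos hκ, fun ξ ξ' h => le_of_tendsto ((hg₀ ξ).dist (hg₀ ξ')) ?_⟩
    filter_upwards [hg] with i a1
    exact (h4 _ _ a1.1 _ (cl_mem a1.1.arc.path.le _) _ (cl_mem a1.1.arc.path.le _)
      ((cl_lip _ _ _).trans_lt (h.trans_lt (half_lt_self hκ)))).le
  have hU : ∀ η > 0, ∀ᶠ i in (U : Filter ι), ∀ ξ ∈ Icc 0 m₀,
      dist (g₀ ξ) (g i (cl (m i) ξ)) ≤ η := by
    intro η hη
    by_contra hc
    rw [← Ultrafilter.eventually_not] at hc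
    have : ∀ i, ∃ ξ ∈ Icc 0 m₀, (¬ ∀ ξ ∈ Icc 0 m₀, dist (g₀ ξ) (g i (cl (m i) ξ)) ≤ η) →
        η < dist (g₀ ξ) (g i (cl (m i) ξ)) := by
      intro i
      by_cases h : ∀ ξ ∈ Icc 0 m₀, dist (g₀ ξ) (g i (cl (m i) ξ)) ≤ η
      · exact ⟨0, ⟨le_rfl, hm₀⟩, fun h' => absurd h h'⟩
      · push Not at h
        obtain ⟨ξ, h1, h2⟩ := h
        exact ⟨ξ, h1, fun _ => h2⟩
    choose ξ hξ hξ' using this
    obtain ⟨ξ₀, h1, h2⟩ := (isCompact_Icc (a := 0) (b := m₀)).ultrafilter_le_nhds (U.map ξ)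
      (le_principal_iff.2 (mem_map.2 (Eventually.of_forall hξ)))
    have h2' : Tendsto ξ U (𝓝 ξ₀) := h2
    have h3 := ((hC.tendsto ξ₀).comp h2').dist (hL _ ξ₀ (hm0.mono fun i hi => cl_mem hi (ξ i))
      (cl_tendsto hm h2' h1))
    rw [dist_self] at h3
    exact absurd (ge_of_tendsto h3 (hc.mono fun i hi => (hξ' i hi).le)) (not_le.2 hη)
  have hinj : ∀ ξ ∈ Icc 0 m₀, ∀ ξ' ∈ Icc 0 m₀, ξ ≤ ξ' → g₀ ξ = g₀ ξ' → ξ = ξ' := by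
    intro ξ h1 ξ' h2 h3 h4
    refine eq_of_forall_dist_le fun η hη => ?_
    obtain ⟨δ, hδ, h5⟩ := hUF η hη
    have h6 := (hg₀ ξ).dist (hg₀ ξ')
    rw [h4, dist_self] at h6
    refine le_of_tendsto ((cl_tendsto hm tendsto_const_nhds h1).dist
      (cl_tendsto hm tendsto_const_nhds h2)) ?_
    filter_upwards [hg, h6.eventually (gt_mem_nhds hδ)] with i a1 a2
    have b1 := cl_mem a1.1.arc.path.le ξ
    have b2 := cl_mem a1.1.arc.path.le ξ'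
    have b3 := cl_mono (m i) h3
    have b4 := h5 _ _ _ (a1.1.arc.sub b1.1 b3 b2.2) a2
    rw [Real.dist_eq, ← a1.1.size _ b1, ← a1.1.size _ b2]
    refine hμ.lip _ _ _ ⟨_, 0, ⟨le_rfl, b1.1⟩, rfl⟩ ?_ ?_
    · rintro _ ⟨u, hu, rfl⟩
      exact ⟨_, ⟨u, ⟨hu.1, hu.2.trans b3⟩, rfl⟩, by simpa using hη.le⟩
    · rintro _ ⟨u, hu, rfl⟩
      rcases le_total u (cl (m i) ξ) with h | h
      · exact ⟨_, ⟨u, ⟨hu.1, h⟩, rfl⟩, by simpa using hη.le⟩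
      · exact ⟨_, ⟨_, ⟨b1.1, le_rfl⟩, rfl⟩, (b4 u ⟨h, hu.2⟩).le⟩
  refine ⟨g₀, ⟨⟨⟨hm₀, hC.continuousOn, fun ξ _ => hKB (hg₀K ξ)⟩, fun ξ h1 ξ' h2 h => ?_⟩,
    fun ξ h1 => ?_⟩, hL⟩
  · rcases le_total ξ ξ' with h3 | h3
    · exact hinj ξ h1 ξ' h2 h3 h
    · exact (hinj ξ' h2 ξ h1 h3 h.symm).symm
  · refine eq_of_forall_dist_le fun η hη => ?_
    refine le_of_tendsto (tendsto_const_nhds.dist (cl_tendsto hm tendsto_const_nhds h1)) ?_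
    filter_upwards [hg, hU η hη] with i a1 a2
    have b1 := cl_mem a1.1.arc.path.le ξ
    rw [Real.dist_eq, ← a1.1.size _ b1]
    refine hμ.lip _ _ _ ⟨_, 0, ⟨le_rfl, h1.1⟩, rfl⟩ ?_ ?_
    · rintro _ ⟨u, hu, rfl⟩
      exact ⟨_, ⟨_, ⟨(cl_mem a1.1.arc.path.le u).1, cl_mono _ hu.2⟩, rfl⟩,
        a2 u ⟨hu.1, hu.2.trans h1.2⟩⟩
    · rintro _ ⟨u, hu, rfl⟩
      have b2 : u ≤ ξ := hu.2.trans (cl_le _ h1.1)
      have b3 := a2 u ⟨hu.1, b2.trans h1.2⟩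
      rw [cl_eq ⟨hu.1, hu.2.trans b1.2⟩] at b3
      exact ⟨_, ⟨u, ⟨hu.1, b2⟩, rfl⟩, b3⟩

end Pool.Agent.MP_0c1703_gt.H59
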