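import Pool.Agent.MP_0c1703_gt.H59.Kit

/-! Row Mu: a signed length of curves. -/

namespace Pool.Agent.MP_0c1703_gt.H59

open Set Filter Topology

namespace MuA

variable {Y : Type} [MetricSpace Y]

/-- lower bounds of the jumps of monotone chains -/
def S (k : ℕ) (c : ℝ → Y) (u v : ℝ) : Set ℝ :=
  {r | r ≤ 1 ∧ ∃ x : ℕ → ℝ, Monotone x ∧ (∀ i, x i ∈ Icc u v) ∧
    ∀ i, i ≤ k → r ≤ dist (c (x i)) (c (x (i + 1)))}

noncomputable def mk (k : ℕ) (c : ℝ → Y) (u v : ℝ) : ℝ := sSup (S k c u v)

noncomputable def M (c : ℝ → Y) (u v : ℝ) : ℝ := ∑' k, mk k c u v / 2 / 2 ^ k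

variable {c c' : ℝ → Y} {u v u' v' : ℝ} {k : ℕ}

theorem bdd : BddAbove (S k c u v) := ⟨1, fun _ h => h.1⟩

theorem zero_mem (h : u ≤ v) : (0 : ℝ) ∈ S k c u v :=
  ⟨zero_le_one, fun _ => u, monotone_const, fun _ => ⟨le_rfl, h⟩, fun _ _ => dist_nonneg⟩

theorem le_mk {r : ℝ} (h : r ∈ S k c u v) : r ≤ mk k c u v := le_csSup bdd h

theorem mk_le {a : ℝ} (ha : 0 ≤ a) (h : ∀ r ∈ S k c u v, r ≤ a) : mk k c u v ≤ a :=
  Real.sSup_le h ha

theorem mk_le_one : mk k c u v ≤ 1 := mk_le zero_le_one fun _ h => h.1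

theorem mk_zero (h : v ≤ u) : mk k c u v = 0 := by
  have h1 : mk k c u v ≤ 0 := mk_le le_rfl fun r hr => by
    obtain ⟨-, x, -, hx, hd⟩ := hr
    have e : x 0 = x 1 := by
      have h0 := hx 0
      have h1 := hx 1
      linarith [h0.1, h0.2, h1.1, h1.2]
    have := hd 0 (Nat.zero_le _)
    rwa [zero_add, e, dist_self] at this
  rcases h.eq_or_lt with rfl | h
  · exact le_antisymm h1 (le_mk (zero_mem le_rfl))
  · have : S k c u v = ∅ := by
      ext r
      refine ⟨fun hr => ?_, fun hr => hr.elim⟩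
      obtain ⟨-, x, -, hx, -⟩ := hr
      have := hx 0
      exact absurd (this.1.trans this.2) (not_le.2 h)
    rw [mk, this, Real.sSup_empty]

theorem mk_nonneg : 0 ≤ mk k c u v := by
  rcases le_total u v with h | h
  · exact le_mk (zero_mem h)
  · rw [mk_zero h]

theorem summable (c : ℝ → Y) (u v : ℝ) : Summable fun k => mk k c u v / 2 / 2 ^ k := by
  refine Summable.of_nonneg_of_le (fun k => ?_) (fun k => ?_) (hasSum_geometric_two' 1).summable
  · have := mk_nonneg (k := k) (c := c) (u := u) (v := v)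
    positivity
  · have := mk_le_one (k := k) (c := c) (u := u) (v := v)
    gcongr

theorem M_le {ε : ℝ} (h : ∀ k, mk k c u v ≤ mk k c' u' v' + ε) : M c u v ≤ M c' u' v' + ε := by
  refine hasSum_le (fun k => ?_) (summable c u v).hasSum
    ((summable c' u' v').hasSum.add (hasSum_geometric_two' ε))
  have := h k
  rw [← add_div, ← add_div]
  gcongr

theorem M_nonneg : 0 ≤ M c u v :=
  tsum_nonneg fun k => by
    have := mk_nonneg (k := k) (c := c) (u := u) (v := v)
    positivity

theorem M_zero (h : v ≤ u) : M c u v = 0 := by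
  simp [M, mk_zero h]

theorem M_le_one : M c u v ≤ 1 := by
  have h := M_le (c := c) (u := u) (v := v) (c' := c) (u' := u) (v' := u) (ε := 1) fun k => by
    rw [mk_zero le_rfl, zero_add]
    exact mk_le_one
  rwa [M_zero le_rfl, zero_add] at h

theorem M_congr (h : ∀ k, S k c u v = S k c' u' v') : M c u v = M c' u' v' := by
  simp only [M, mk, h]

theorem S_inv (φ : ℝ → ℝ) (huv : u ≤ v) (hc : ContinuousOn φ (Icc u v))
    (hm : MonotoneOn φ (Icc u v)) (e : ∀ t ∈ Icc u v, c' (φ t) = c t) :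
    S k c' (φ u) (φ v) = S k c u v := by
  have hu : u ∈ Icc u v := ⟨le_rfl, huv⟩
  have hv : v ∈ Icc u v := ⟨huv, le_rfl⟩
  ext r
  constructor
  · rintro ⟨h1, y, hy, hyI, hd⟩
    have hs : ∀ z ∈ Icc (φ u) (φ v), ∃ t ∈ Icc u v, φ t = z := fun z hz =>
      intermediate_value_Icc huv hc hz
    choose! ψ hψ hψ' using hs
    refine ⟨h1, fun i => ψ (y i), fun i j hij => ?_, fun i => hψ _ (hyI i), fun i hi => ?_⟩
    · rcases (hy hij).eq_or_lt with h | h
      · exact le_of_eq (congrArg ψ h)
      · by_contra hn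
        have := hm (hψ _ (hyI j)) (hψ _ (hyI i)) (not_le.1 hn).le
        rw [hψ' _ (hyI i), hψ' _ (hyI j)] at this
        exact absurd h (not_lt.2 this)
    · rw [← e _ (hψ _ (hyI i)), ← e _ (hψ _ (hyI (i + 1))), hψ' _ (hyI i), hψ' _ (hyI (i + 1))]
      exact hd i hi
  · rintro ⟨h1, x, hx, hxI, hd⟩
    refine ⟨h1, fun i => φ (x i), fun i j hij => hm (hxI i) (hxI j) (hx hij),
      fun i => ⟨hm hu (hxI i) (hxI i).1, hm (hxI i) hv (hxI i).2⟩, fun i hi => ?_⟩
    rw [e _ (hxI i), e _ (hxI (i + 1))]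
    exact hd i hi

theorem M_inv (φ : ℝ → ℝ) (huv : u ≤ v) (hc : ContinuousOn φ (Icc u v))
    (hm : MonotoneOn φ (Icc u v)) (e : ∀ t ∈ Icc u v, c' (φ t) = c t) :
    M c' (φ u) (φ v) = M c u v :=
  M_congr fun _ => S_inv φ huv hc hm e

theorem S_neg_sub : S k c u v ⊆ S k (fun t => c (-t)) (-v) (-u) := by
  rintro r ⟨h1, x, hx, hxI, hd⟩
  refine ⟨h1, fun i => -x (k + 1 - i), fun i j hij => neg_le_neg (hx (by omega)),
    fun i => ⟨neg_le_neg (hxI _).2, neg_le_neg (hxI _).1⟩, fun i hi => ?_⟩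
  have e1 : k + 1 - i = k - i + 1 := by omega
  have e2 : k + 1 - (i + 1) = k - i := by omega
  simp only [neg_neg]
  rw [e1, e2, dist_comm]
  exact hd _ (by omega)

theorem M_neg : M (fun t => c (-t)) (-v) (-u) = M c u v := by
  refine M_congr fun k => Subset.antisymm ?_ S_neg_sub
  have h := S_neg_sub (k := k) (c := fun t => c (-t)) (u := -v) (v := -u)
  simpa only [neg_neg] using h

theorem M_close {ε : ℝ} (hε : 0 ≤ ε) (h : ∀ t ∈ Icc u v, dist (c t) (c' t) ≤ ε) :
    M c u v ≤ M c' u v + 2 * ε := by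
  refine M_le fun k => mk_le (add_nonneg mk_nonneg (by linarith)) fun r hr => ?_
  obtain ⟨h1, x, hx, hxI, hd⟩ := hr
  have : r - 2 * ε ∈ S k c' u v := by
    refine ⟨by linarith, x, hx, hxI, fun i hi => ?_⟩
    have a1 := h _ (hxI i)
    have a2 := h _ (hxI (i + 1))
    have a3 := dist_triangle4 (c (x i)) (c' (x i)) (c' (x (i + 1))) (c (x (i + 1)))
    rw [dist_comm (c' (x (i + 1)))] at a3
    linarith [hd i hi]
  linarith [le_mk this]

theorem cont01 {W : Type} [TopologicalSpace W] (F : W × ℝ → Y) (hF : Continuous F) :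
    Continuous fun w => M (fun t => F (w, t)) 0 1 := by
  rw [continuous_iff_continuousAt]
  intro w₀
  rw [Metric.continuousAt_iff']
  intro ε hε
  have h : ∀ᶠ w in 𝓝 w₀, ∀ t ∈ Icc (0 : ℝ) 1, dist (F (w, t)) (F (w₀, t)) < ε / 4 := by
    refine isCompact_Icc.eventually_forall_of_forall_eventually fun t _ => ?_
    have hc : Continuous fun z : W × ℝ => dist (F (z.1, z.2)) (F (w₀, z.2)) := by fun_prop
    refine hc.continuousAt.eventually_lt continuousAt_const ?_
    simpa using hε
  filter_upwards [h] with w hw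
  have h1 := M_close (c := fun t => F (w, t)) (c' := fun t => F (w₀, t)) (ε := ε / 4)
    (by positivity) fun t ht => (hw t ht).le
  have h2 := M_close (c := fun t => F (w₀, t)) (c' := fun t => F (w, t)) (ε := ε / 4)
    (by positivity) fun t ht => by rw [dist_comm]; exact (hw t ht).le
  rw [Real.dist_eq, abs_lt]
  constructor <;> linarith

theorem M_eq01 (c : ℝ → Y) (u v : ℝ) :
    M c u v = M (fun t => c (u + t * (max u v - u))) 0 1 := by
  have h0 : 0 ≤ max u v - u := sub_nonneg.2 (le_max_left _ _)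
  have h := M_inv (c' := c) (c := fun t => c (u + t * (max u v - u)))
    (fun t => u + t * (max u v - u)) zero_le_one (by fun_prop)
    (fun a _ b _ hab => by
      have := mul_le_mul_of_nonneg_right hab h0
      simp only
      linarith) fun _ _ => rfl
  simp only [zero_mul, add_zero, one_mul, add_sub_cancel] at h
  rw [← h]
  rcases le_total u v with huv | huv
  · rw [max_eq_right huv]
  · rw [max_eq_left huv, M_zero huv, M_zero le_rfl]

theorem small (hc : Continuous c) (u v : ℝ) {D : ℝ} (hD : 0 < D) : ∃ k, mk k c u v < D := by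
  obtain ⟨η, hη, H⟩ := Metric.uniformContinuousOn_iff.1
    ((isCompact_Icc (a := u) (b := v)).uniformContinuousOn_of_continuous hc.continuousOn) (D / 2)
    (by positivity)
  obtain ⟨k, hk⟩ := exists_nat_gt ((v - u) / η)
  rw [div_lt_iff₀ hη] at hk
  refine ⟨k, lt_of_le_of_lt (mk_le (a := D / 2) (by positivity) fun r hr => ?_) (by linarith)⟩
  obtain ⟨-, x, hx, hxI, hd⟩ := hr
  by_contra hn
  have step : ∀ i, i ≤ k → x i + η ≤ x (i + 1) := by
    intro i hi
    by_contra h
    have h1 : dist (x i) (x (i + 1)) < η := by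
      have := hx (Nat.le_succ i)
      rw [Real.dist_eq, abs_lt]
      constructor <;> linarith
    have := H _ (hxI i) _ (hxI (i + 1)) h1
    linarith [hd i hi]
  have tot : ∀ i, i ≤ k → x 0 + i * η ≤ x i := by
    intro i hi
    induction i with
    | zero => simp
    | succ i ih =>
      have := ih (by omega)
      have := step i (by omega)
      push_cast
      linarith
  have := tot k le_rfl
  linarith [(hxI 0).1, (hxI k).2]

theorem mk_mono (h : v ≤ v') : mk k c u v ≤ mk k c u v' :=
  mk_le mk_nonneg fun r hr => by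
    obtain ⟨h1, x, hx, hxI, hd⟩ := hr
    exact le_mk ⟨h1, x, hx, fun i => ⟨(hxI i).1, (hxI i).2.trans h⟩, hd⟩

theorem snoc {r p : ℝ} {x : ℕ → ℝ} (h1 : r ≤ 1) (hx : Monotone x) (hxI : ∀ i, x i ∈ Icc u v)
    (hd : ∀ i, i ≤ k → r ≤ dist (c (x i)) (c (x (i + 1)))) (hp : v ≤ p) (hp' : p ≤ v')
    (hr : r ≤ dist (c (x (k + 1))) (c p)) : r ∈ S (k + 1) c u v' := by
  refine ⟨h1, fun i => if i ≤ k + 1 then x i else p, fun i j hij => ?_, fun i => ?_,
    fun i hi => ?_⟩
  · by_cases hj : j ≤ k + 1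
    · simp only [if_pos hj, if_pos (hij.trans hj)]
      exact hx hij
    · by_cases hi : i ≤ k + 1
      · simp only [if_pos hi, if_neg hj]
        exact (hxI i).2.trans hp
      · simp only [if_neg hi, if_neg hj, le_refl]
  · by_cases hi : i ≤ k + 1
    · simp only [if_pos hi]
      exact ⟨(hxI i).1, (hxI i).2.trans (hp.trans hp')⟩
    · simp only [if_neg hi]
      exact ⟨((hxI 0).1.trans (hxI 0).2).trans hp, hp'⟩
  · rcases hi.eq_or_lt with rfl | hi'
    · simp only [le_refl, if_true, if_neg (show ¬ k + 1 + 1 ≤ k + 1 by omega)]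
      exact hr
    · simp only [if_pos hi, if_pos (show i + 1 ≤ k + 1 by omega)]
      exact hd i (by omega)

theorem M_lt (hc : Continuous c) (huv : u ≤ v) {s : ℝ} (hs : v ≤ s) (hs' : s ≤ v')
    (hne : c v ≠ c s) : M c u v < M c u v' := by
  have hv : v ≤ v' := hs.trans hs'
  have hex : ∃ k, mk k c u v < mk k c u v' := by
    by_contra hn
    have heq : ∀ k, mk k c u v' ≤ mk k c u v := fun k => not_lt.1 fun h => hn ⟨k, h⟩
    obtain ⟨D, hD⟩ : ∃ D, D = min 1 (dist (c v) (c s) / 2) := ⟨_, rfl⟩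
    have hd : 0 < dist (c v) (c s) := dist_pos.2 hne
    have hD0 : 0 < D := by rw [hD]; exact lt_min one_pos (by positivity)
    have hD1 : D ≤ 1 := by rw [hD]; exact min_le_left _ _
    have hD2 : D ≤ dist (c v) (c s) / 2 := by rw [hD]; exact min_le_right _ _
    have all : ∀ k, D ≤ mk k c u v := by
      intro k
      induction k with
      | zero =>
        refine le_trans (le_mk ⟨hD1, fun i => if i = 0 then v else s, fun i j hij => ?_,
          fun i => ?_, fun i hi => ?_⟩) (heq 0)
        · by_cases hi : i = 0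
          · by_cases hj : j = 0
            · simp only [if_pos hi, if_pos hj, le_refl]
            · simp only [if_pos hi, if_neg hj, hs]
          · simp only [if_neg hi, if_neg (show ¬ j = 0 by omega), le_refl]
        · by_cases hi : i = 0
          · simp only [if_pos hi]
            exact ⟨huv, hv⟩
          · simp only [if_neg hi]
            exact ⟨huv.trans hs, hs'⟩
        · obtain rfl : i = 0 := by omega
          simp only [if_true, zero_add, one_ne_zero, if_false]
          linarith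
      | succ k ih =>
        refine le_trans ?_ (heq (k + 1))
        refine le_of_forall_lt fun a ha => ?_
        obtain ⟨b, hab, hbD⟩ := exists_between ha
        obtain ⟨r, ⟨h1, x, hx, hxI, hxd⟩, hr⟩ :=
          exists_lt_of_lt_csSup ⟨0, zero_mem huv⟩ (hbD.trans_le ih)
        have hb : ∀ i, i ≤ k → b ≤ dist (c (x i)) (c (x (i + 1))) := fun i hi =>
          hr.le.trans (hxd i hi)
        have tri := dist_triangle_left (c v) (c s) (c (x (k + 1)))
        refine hab.trans_le (le_mk ?_)
        by_cases h : b ≤ dist (c (x (k + 1))) (c v)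
        · exact snoc (by linarith) hx hxI hb le_rfl hv h
        · exact snoc (by linarith) hx hxI hb hs hs' (by linarith)
    obtain ⟨k, hk⟩ := small hc u v hD0
    exact absurd (all k) (not_le.2 hk)
  obtain ⟨k, hk⟩ := hex
  refine (summable c u v).tsum_lt_tsum (i := k) (fun j => ?_) ?_ (summable c u v')
  · have := mk_mono (k := j) (c := c) (u := u) hv
    simp only
    gcongr
  · gcongr

theorem right (hc : Leaf c) (huv : u ≤ v) (h : v < v') : M c u v < M c u v' := by
  obtain ⟨ε, hε, hi⟩ := hc.inj v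
  have h1 : v < min v' (v + ε / 2) := lt_min h (by linarith)
  have h2 := min_le_right v' (v + ε / 2)
  refine M_lt hc.cont huv h1.le (min_le_left _ _) fun e => h1.ne (hi ?_ ?_ e)
  · constructor <;> linarith
  · constructor <;> linarith

theorem left (hc : Leaf c) (huv : u ≤ v) (h : u' < u) : M c u v < M c u' v := by
  obtain ⟨ε, hε, hi⟩ := hc.inj u
  have h1 : max u' (u - ε / 2) < u := max_lt h (by linarith)
  have h2 := le_max_right u' (u - ε / 2)
  rw [← M_neg (c := c) (u := u), ← M_neg (c := c) (u := u')]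
  refine M_lt (s := -max u' (u - ε / 2)) (hc.cont.comp continuous_neg) (neg_le_neg huv)
    (neg_le_neg h1.le) (neg_le_neg (le_max_left _ _)) fun e => h1.ne' (hi ?_ ?_ ?_)
  · constructor <;> linarith
  · constructor <;> linarith
  · simpa only [neg_neg] using e

end MuA

open MuA in
theorem sMu : SMu := by
  intro Y _
  refine ⟨fun c u v => M c u v - M c v u, fun c u v => ?_, fun c u v => by ring,
    fun c hc ξ v v' h => ?_, fun C _ h hh => ?_, fun c c' φ u v huv hc hm e => ?_,
    fun c c' φ u v huv hc hm e => ?_⟩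
  · have h1 := M_nonneg (c := c) (u := u) (v := v)
    have h2 := M_nonneg (c := c) (u := v) (v := u)
    have h3 := M_le_one (c := c) (u := u) (v := v)
    have h4 := M_le_one (c := c) (u := v) (v := u)
    rw [abs_le]
    constructor <;> linarith
  · rcases le_or_gt ξ v with h1 | h1
    · rw [M_zero h1, M_zero (h1.trans h.le)]
      linarith [right hc h1 h]
    · rcases le_or_gt v' ξ with h2 | h2
      · rw [M_zero h1.le, M_zero h2]
        linarith [left hc h2 h]
      · rw [M_zero h1.le, M_zero h2.le]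
        have h3 := right hc le_rfl h2
        rw [M_zero le_rfl] at h3
        linarith [M_nonneg (c := c) (u := v) (v := ξ)]
  · have h1 := cont01 (W := C × ℝ × ℝ) (fun z => h (z.1.1, z.1.2.1 + z.2 *
      (max z.1.2.1 z.1.2.2 - z.1.2.1))) (by fun_prop)
    have h2 := cont01 (W := C × ℝ × ℝ) (fun z => h (z.1.1, z.1.2.2 + z.2 *
      (max z.1.2.2 z.1.2.1 - z.1.2.2))) (by fun_prop)
    refine (h1.sub h2).congr fun w => ?_
    rw [M_eq01 (fun ξ => h (w.1, ξ)) w.2.1, M_eq01 (fun ξ => h (w.1, ξ)) w.2.2]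
    rfl
  · have h1 : φ u ≤ φ v := hm ⟨le_rfl, huv⟩ ⟨huv, le_rfl⟩ huv
    rw [M_inv φ huv hc hm e, M_zero h1, M_zero huv]
  · have h1 : φ v ≤ φ u := hm ⟨le_rfl, huv⟩ ⟨huv, le_rfl⟩ huv
    have h2 := M_inv (c' := fun t => c' (-t)) (c := c) (fun t => -φ t) huv hc.neg hm.neg
      fun t ht => by simpa only [neg_neg] using e t ht
    rw [M_neg] at h2
    rw [h2, M_zero h1, M_zero huv]
    ring

end Pool.Agent.MP_0c1703_gt.H59
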