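import Pool.Agent.MP_0c1703_gt.H59.Kit

/-! Near a moving point arcs with close ends are small. -/

namespace Pool.Agent.MP_0c1703_gt.H59

open Set Filter Topology Metric

namespace NFA

variable {Y : Type} [MetricSpace Y]

theorem key1 (hC : SChain) {β : ℝ → Y} {P P' : ℝ → ℝ} {s ρ κ e d : ℝ} {N : ℕ} (hs : 0 ≤ s)
    (cP : ContinuousOn P (Icc 0 s)) (cP' : ContinuousOn P' (Icc 0 s))
    (lt : ∀ r ∈ Icc 0 s, P r < P' r)
    (low : ∀ r ∈ Icc 0 s, ∃ u ∈ uIcc (P r) (P' r), ∃ v ∈ uIcc (P r) (P' r), ρ ≤ dist (β u) (β v))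
    (he : ∀ r ∈ Icc 0 s, dist (β (P r)) (β (P' r)) ≤ e)
    (up : ∀ r ∈ Icc 0 s, ∀ u ∈ uIcc (P r) (P' r), ∀ v ∈ uIcc (P r) (P' r), dist (β u) (β v) ≤ d)
    (uP : ∀ r ∈ Icc 0 s, ∀ r' ∈ Icc 0 s, |r - r'| < κ → dist (β (P r)) (β (P r')) < ρ)
    (uP' : ∀ r ∈ Icc 0 s, ∀ r' ∈ Icc 0 s, |r - r'| < κ → dist (β (P' r)) (β (P' r')) < ρ)
    (hN : s < N * κ)
    (far : ∀ u ∈ uIcc (P 0) (P' 0), ∀ v ∈ uIcc (P s) (P' s), N * e + d < dist (β u) (β v)) :
    False := by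
  have m0 : (0 : ℝ) ∈ Icc 0 s := ⟨le_rfl, hs⟩
  have ms : s ∈ Icc 0 s := ⟨hs, le_rfl⟩
  by_cases h1 : P 0 ≤ P s
  · refine absurd (hC Y β P P' s ρ κ e d N hs cP lt h1 (fun r hr => ?_) he (fun r hr u hu => ?_)
      uP hN) (not_le.2 (far _ left_mem_uIcc _ left_mem_uIcc))
    · simpa only [uIcc_of_le (lt r hr).le] using low r hr
    · exact up r hr _ left_mem_uIcc _ (Icc_subset_uIcc hu)
  by_cases h2 : P' s ≤ P' 0
  · have := hC Y (fun u => β (-u)) (fun r => -P' r) (fun r => -P r) s ρ κ e d N hs cP'.neg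
      (fun r hr => neg_lt_neg (lt r hr)) (neg_le_neg h2) (fun r hr => ?_)
      (fun r hr => by simpa [dist_comm] using he r hr) (fun r hr u hu => ?_)
      (by simpa using uP') hN
    · simp only [neg_neg] at this
      exact absurd this (not_le.2 (far _ right_mem_uIcc _ right_mem_uIcc))
    · obtain ⟨u, hu, v, hv, h⟩ := low r hr
      rw [uIcc_of_le (lt r hr).le] at hu hv
      exact ⟨-u, ⟨neg_le_neg hu.2, neg_le_neg hu.1⟩, -v, ⟨neg_le_neg hv.2, neg_le_neg hv.1⟩,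
        by simpa using h⟩
    · simp only [neg_neg]
      exact up r hr _ right_mem_uIcc _
        (Icc_subset_uIcc ⟨by linarith [hu.2], by linarith [hu.1]⟩)
  · have h3 := far _ left_mem_uIcc (P 0)
      (Icc_subset_uIcc ⟨(not_le.1 h1).le, by linarith [lt 0 m0, not_le.1 h2]⟩)
    have h4 := dist_nonneg.trans (he 0 m0)
    have h5 := dist_nonneg.trans (up 0 m0 _ left_mem_uIcc _ left_mem_uIcc)
    have h6 : 0 ≤ (N : ℝ) * e := by positivity
    rw [dist_self] at h3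
    linarith

theorem key (hC : SChain) {β : ℝ → Y} {P P' : ℝ → ℝ} {s ρ κ e d : ℝ} {N : ℕ} (hs : 0 ≤ s)
    (cP : ContinuousOn P (Icc 0 s)) (cP' : ContinuousOn P' (Icc 0 s)) (hρ : 0 < ρ)
    (low : ∀ r ∈ Icc 0 s, ∃ u ∈ uIcc (P r) (P' r), ∃ v ∈ uIcc (P r) (P' r), ρ ≤ dist (β u) (β v))
    (he : ∀ r ∈ Icc 0 s, dist (β (P r)) (β (P' r)) ≤ e)
    (up : ∀ r ∈ Icc 0 s, ∀ u ∈ uIcc (P r) (P' r), ∀ v ∈ uIcc (P r) (P' r), dist (β u) (β v) ≤ d)
    (uP : ∀ r ∈ Icc 0 s, ∀ r' ∈ Icc 0 s, |r - r'| < κ → dist (β (P r)) (β (P r')) < ρ)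
    (uP' : ∀ r ∈ Icc 0 s, ∀ r' ∈ Icc 0 s, |r - r'| < κ → dist (β (P' r)) (β (P' r')) < ρ)
    (hN : s < N * κ)
    (far : ∀ u ∈ uIcc (P 0) (P' 0), ∀ v ∈ uIcc (P s) (P' s), N * e + d < dist (β u) (β v)) :
    False := by
  have m0 : (0 : ℝ) ∈ Icc 0 s := ⟨le_rfl, hs⟩
  have ne : ∀ r ∈ Icc 0 s, P r ≠ P' r := fun r hr h => by
    obtain ⟨u, hu, v, hv, h'⟩ := low r hr
    rw [h, uIcc_self, mem_singleton_iff] at hu hv
    rw [hu, hv, dist_self] at h'
    linarith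
  rcases le_total (P 0) (P' 0) with h | h
  · refine key1 hC hs cP cP' (fun r hr => not_le.1 fun h' => ?_) low he up uP uP' hN far
    obtain ⟨x, hx, e⟩ := isPreconnected_Icc.intermediate_value₂ m0 hr cP cP' h h'
    exact ne x hx e
  · refine key1 hC hs cP' cP (fun r hr => not_le.1 fun h' => ?_)
      (fun r hr => by rw [uIcc_comm]; exact low r hr)
      (fun r hr => by rw [dist_comm]; exact he r hr)
      (fun r hr => by rw [uIcc_comm]; exact up r hr) uP' uP hN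
      (by rw [uIcc_comm, uIcc_comm (P' s)]; exact far)
    obtain ⟨x, hx, e⟩ := isPreconnected_Icc.intermediate_value₂ m0 hr cP' cP h h'
    exact ne x hx e.symm

variable {D : Set ((Y × ℝ) × ℝ)} {F : Y × ℝ → ℝ → Y × ℝ}

theorem cAt (h : LFlow D F) {p : (Y × ℝ) × ℝ} (hp : p ∈ D) :
    ContinuousAt (fun p : (Y × ℝ) × ℝ => F p.1 p.2) p := h.cont.continuousAt (h.op.mem_nhds hp)

theorem back (h : LFlow D F) {w : Y × ℝ} {r : ℝ} (hp : (w, r) ∈ D) :
    (F w r, -r) ∈ D ∧ F (F w r) (-r) = w := by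
  have := h.shift w 0 r (h.sub w r hp 0 left_mem_uIcc) hp
  rwa [zero_sub, h.zero w r hp] at this

theorem tube {B : Set Y} {y : Y} {θ s : ℝ} (h : Slide B y D F θ s) (hB : IsOpen B) (hy : y ∈ B)
    {d : ℝ} (hd : 0 < d) : ∃ ε > 0, closedBall y (2 * ε) ⊆ B ∧ ∀ z ∈ closedBall y ε,
      ∀ r ∈ Icc 0 s, ((z, θ), r) ∈ D ∧ (F (z, θ) r).1 ∈ B ∧
        dist (F (z, θ) r).1 (F (y, θ) r).1 < d := by
  have h1 : ∀ᶠ z in 𝓝 y, ∀ r ∈ Icc 0 s, ((z, θ), r) ∈ D ∧ (F (z, θ) r).1 ∈ B ∧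
      dist (F (z, θ) r).1 (F (y, θ) r).1 < d := by
    refine isCompact_Icc.eventually_forall_of_forall_eventually fun r hr => ?_
    have hD : ((y, θ), r) ∈ D := h.flow.sub _ _ h.dom r (Icc_subset_uIcc hr)
    have c0 : Continuous fun p : Y × ℝ => ((p.1, θ), p.2) := by fun_prop
    have c1 : ContinuousAt (fun p : Y × ℝ => (F (p.1, θ) p.2).1) (y, r) :=
      (ContinuousAt.comp (f := fun p : Y × ℝ => ((p.1, θ), p.2)) (cAt h.flow hD)
        c0.continuousAt).fst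
    have c2 : ContinuousAt (fun p : Y × ℝ => (F (y, θ) p.2).1) (y, r) :=
      (ContinuousAt.comp (f := fun p : Y × ℝ => ((y, θ), p.2)) (cAt h.flow hD)
        (by fun_prop)).fst
    refine (c0.continuousAt.eventually (h.flow.op.mem_nhds hD)).and
      ((c1.eventually (hB.mem_nhds (h.mem r hr))).and ?_)
    exact (c1.dist c2).eventually (gt_mem_nhds (by simpa using hd))
  obtain ⟨ε, hε, H⟩ := nhds_basis_closedBall.mem_iff.1 (h1.and (hB.mem_nhds hy))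
  exact ⟨ε / 2, half_pos hε, fun z hz => (H (by simpa [mul_div_cancel₀] using hz)).2,
    fun z hz => (H (closedBall_subset_closedBall (half_le_self hε.le) hz)).1⟩

theorem near (h : LFlow D F) {K : Set Y} (hK : IsCompact K) {θ s : ℝ}
    (hD : ∀ z ∈ K, ∀ r ∈ Icc 0 s, ((z, θ), r) ∈ D) {η : ℝ} (hη : 0 < η) :
    ∃ ρ > 0, ∀ z ∈ K, ∀ r ∈ Icc 0 s, ∀ w, dist (F (z, θ) r) w < ρ →
      (w, -r) ∈ D ∧ dist z (F w (-r)).1 < η := by
  have c1 : ContinuousOn (fun p : Y × ℝ => (F (p.1, θ) p.2, -p.2)) (K ×ˢ Icc 0 s) :=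
    (h.cont.comp (f := fun p : Y × ℝ => ((p.1, θ), p.2)) (by fun_prop)
      fun p hp => hD _ hp.1 _ hp.2).prodMk (by fun_prop)
  have hc := (hK.prod isCompact_Icc).image_of_continuousOn c1
  have hs : (fun p : Y × ℝ => (F (p.1, θ) p.2, -p.2)) '' (K ×ˢ Icc 0 s) ⊆ D := by
    rintro _ ⟨p, hp, rfl⟩
    exact (back h (hD _ hp.1 _ hp.2)).1
  obtain ⟨ρ₁, h1, H1⟩ := hc.exists_thickening_subset_open h.op hs
  obtain ⟨ρ₂, h2, H2⟩ := Metric.mem_uniformity_dist.1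
    (hc.uniformContinuousAt_of_continuousAt (fun p : (Y × ℝ) × ℝ => (F p.1 p.2).1)
      (fun p hp => (cAt h (hs hp)).fst) (dist_mem_uniformity hη))
  refine ⟨min ρ₁ ρ₂, lt_min h1 h2, fun z hz r hr w hw => ?_⟩
  have m : (F (z, θ) r, -r) ∈ (fun p : Y × ℝ => (F (p.1, θ) p.2, -p.2)) '' (K ×ˢ Icc 0 s) :=
    ⟨(z, r), ⟨hz, hr⟩, rfl⟩
  have e : dist (F (z, θ) r, -r) (w, -r) = dist (F (z, θ) r) w := by simp
  refine ⟨H1 (mem_thickening_iff.2 ⟨_, m, ?_⟩), ?_⟩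
  · rw [dist_comm, e]; exact hw.trans_le (min_le_left _ _)
  · have := H2 (a := (F (z, θ) r, -r)) (b := (w, -r)) (e ▸ hw.trans_le (min_le_right _ _)) m
    simpa [(back h (hD z hz r hr)).2] using this

end NFA

open _root_.Pool.Agent.MP_0c1703_gt.H59.NFA in
theorem sNF : SImm → SRect → SChain → SNF := by
  intro hI hR hC Y _ _ B hL y hy hm
  obtain ⟨D, F, θ, s, h⟩ := (hI Y).2.2.1 y B hm hL.op hy
  have hf := h.flow
  have hs := h.pos.le
  obtain ⟨d, hd⟩ : ∃ d, dist y (F (y, θ) s).1 = 16 * d := ⟨_ / 16, by ring⟩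
  have d0 : 0 < d := by have := dist_pos.2 h.ne.symm; linarith
  obtain ⟨ε, hε, hB, T⟩ := tube h hL.op hy d0
  refine ⟨ball y ε, isOpen_ball, mem_ball_self hε,
    fun z hz => hB (ball_subset_closedBall.trans (closedBall_subset_closedBall (by linarith)) hz),
    fun η hη => ?_⟩
  have hK : IsCompact (closedBall y ε) := isClosed_closedBall.isCompact
  obtain ⟨ρ, hρ, Hρ⟩ := near hf hK (fun z hz r hr => (T z hz r hr).1) (lt_min hη hε)
  have c1 : ContinuousOn (fun p : Y × ℝ => F (p.1, θ) p.2) (closedBall y ε ×ˢ Icc 0 s) :=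
    hf.cont.comp (f := fun p : Y × ℝ => ((p.1, θ), p.2)) (by fun_prop)
      fun p hp => (T _ hp.1 _ hp.2).1
  have u1 := Metric.uniformContinuousOn_iff.1
    ((hK.prod isCompact_Icc).uniformContinuousOn_of_continuous c1)
  obtain ⟨κ, hκ, Hκ⟩ := u1 ρ hρ
  obtain ⟨N, hN⟩ := exists_nat_gt (s / κ)
  rw [div_lt_iff₀ hκ] at hN
  obtain ⟨e, e0, e1, e2⟩ : ∃ e > 0, e ≤ ρ ∧ (N : ℝ) * e ≤ d := by
    refine ⟨min ρ (d / (N + 1)), lt_min hρ (by positivity), min_le_left _ _, ?_⟩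
    calc (N : ℝ) * min ρ (d / (N + 1)) ≤ (N + 1) * (d / (N + 1)) :=
          mul_le_mul (by linarith) (min_le_right _ _) (lt_min hρ (by positivity)).le
            (by positivity)
      _ = d := by field_simp
  obtain ⟨δ, hδ, Hδ⟩ := u1 e e0
  refine ⟨δ, hδ, fun c a b hc hab ξ hξ => ?_⟩
  by_contra hn
  have ab := hc.path.le
  have ma : a ∈ Icc a b := ⟨le_rfl, ab⟩
  have mb : b ∈ Icc a b := ⟨ab, le_rfl⟩
  have mc : ∀ x ∈ Icc a b, c x ∈ closedBall y ε := fun x hx =>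
    ball_subset_closedBall (hc.path.mem hx)
  have hcB : ArcIn B c a b := hc.mono fun z hz =>
    hB (ball_subset_closedBall.trans (closedBall_subset_closedBall (by linarith)) hz)
  obtain ⟨β, α₀, α₁, l, hβ, cl, hl⟩ := hR Y B (fun p => (F (c p.1, θ) p.2).1) a b 0 s hL ab hs
    (c1.comp (f := fun p : ℝ × ℝ => (c p.1, p.2))
      ((hc.path.cont.comp continuousOn_fst fun p hp => hp.1).prodMk continuousOn_snd)
      fun p hp => ⟨mc _ hp.1, hp.2⟩).fst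
    fun p hp => (T _ (mc _ hp.1) _ hp.2).2.1
  have bl : ∀ x ∈ Icc a b, ∀ r ∈ Icc 0 s, β (l (x, r)) = (F (c x, θ) r).1 := fun x hx r hr =>
    (hl (x, r) ⟨hx, hr⟩).2
  have cr : ∀ x ∈ Icc a b, ContinuousOn (fun r => l (x, r)) (Icc 0 s) := fun x hx =>
    cl.comp (by fun_prop) fun r hr => ⟨hx, hr⟩
  have nr : ∀ r ∈ Icc 0 s, ∀ u ∈ uIcc (l (a, r)) (l (b, r)), dist (β u) (F (y, θ) r).1 < d := by
    intro r hr u hu
    have c2 : ContinuousOn (fun x => l (x, r)) (uIcc a b) := by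
      rw [uIcc_of_le ab]
      exact cl.comp (by fun_prop) fun x hx => ⟨hx, hr⟩
    obtain ⟨x, hx, rfl⟩ := intermediate_value_uIcc c2 hu
    rw [uIcc_of_le ab] at hx
    rw [bl x hx r hr]
    exact (T _ (mc x hx) r hr).2.2
  have cl2 : ∀ r ∈ Icc 0 s, dist (F (c a, θ) r) (F (c b, θ) r) < e := fun r hr =>
    Hδ (c a, r) ⟨mc a ma, hr⟩ (c b, r) ⟨mc b mb, hr⟩ (by simpa using hab)
  have un : ∀ x ∈ Icc a b, ∀ r ∈ Icc 0 s, ∀ r' ∈ Icc 0 s, |r - r'| < κ →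
      dist (β (l (x, r))) (β (l (x, r'))) < ρ := fun x hx r hr r' hr' hh => by
    rw [bl x hx r hr, bl x hx r' hr']
    exact (le_max_left _ _).trans_lt
      (Hκ (c x, r) ⟨mc x hx, hr⟩ (c x, r') ⟨mc x hx, hr'⟩ (by simpa [Real.dist_eq] using hh))
  refine key (β := β) (e := e) (d := 2 * d) hC hs (cr a ma) (cr b mb) hρ (fun r hr => ?_)
    (fun r hr => ?_) (fun r hr u hu v hv => ?_) (un a ma) (un b mb) hN fun u hu v hv => ?_
  · by_contra hlow
    push Not at hlow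
    let w : ℝ → Y × ℝ := fun t => (β (AffineMap.lineMap (l (a, r)) (l (b, r)) t),
      AffineMap.lineMap (F (c a, θ) r).2 (F (c b, θ) r).2 t)
    have m1 : ∀ t ∈ Icc (0 : ℝ) 1, AffineMap.lineMap (l (a, r)) (l (b, r)) t ∈
        uIcc (l (a, r)) (l (b, r)) := fun t ht => by
      rw [← segment_eq_uIcc, segment_eq_image_lineMap]; exact mem_image_of_mem _ ht
    have cw : ContinuousOn w (Icc 0 1) :=
      (hβ.path.cont.comp AffineMap.lineMap_continuous.continuousOn fun t ht =>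
        uIcc_subset_Icc (hl (a, r) ⟨ma, hr⟩).1 (hl (b, r) ⟨mb, hr⟩).1 (m1 t ht)).prodMk
        AffineMap.lineMap_continuous.continuousOn
    have dw : ∀ t ∈ Icc (0 : ℝ) 1, dist (F (c a, θ) r) (w t) < ρ := fun t ht => by
      refine max_lt ?_ ?_
      · rw [← bl a ma r hr]; exact hlow _ left_mem_uIcc _ (m1 t ht)
      · rw [dist_left_lineMap, Real.norm_of_nonneg ht.1]
        have h1 : dist (F (c a, θ) r).2 (F (c b, θ) r).2 < e :=
          (le_max_right _ _).trans_lt (cl2 r hr)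
        exact (mul_le_of_le_one_left dist_nonneg ht.2).trans_lt (h1.trans_le e1)
    have hw := fun t ht => Hρ _ (mc a ma) r hr _ (dw t ht)
    have hγ : PathIn B (fun t => (F (w t) (-r)).1) 0 1 := by
      refine ⟨zero_le_one, (hf.cont.comp (f := fun t => (w t, -r)) (cw.prodMk continuousOn_const)
        fun t ht => (hw t ht).1).fst, fun t ht => hB ?_⟩
      have h1 := (hw t ht).2.trans_le (min_le_right _ _)
      have h2 : dist (c a) y ≤ ε := mc a ma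
      rw [mem_closedBall]
      linarith [dist_triangle_left (F (w t) (-r)).1 y (c a)]
    have w0 : w 0 = F (c a, θ) r := by simp [w, bl a ma r hr]
    have w1 : w 1 = F (c b, θ) r := by simp [w, bl b mb r hr]
    obtain ⟨t, ht, et⟩ := hL.tree c a b _ 0 1 hcB hγ
      (by simp only [w0, (back hf (T _ (mc a ma) r hr).1).2])
      (by simp only [w1, (back hf (T _ (mc b mb) r hr).1).2]) (mem_image_of_mem _ hξ)
    exact hn (et ▸ (hw t ht).2.trans_le (min_le_left _ _))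
  · rw [bl a ma r hr, bl b mb r hr]
    exact ((le_max_left _ _).trans_lt (cl2 r hr)).le
  · linarith [nr r hr u hu, nr r hr v hv, dist_triangle_right (β u) (β v) (F (y, θ) r).1]
  · have h1 := nr 0 ⟨le_rfl, hs⟩ u hu
    have h2 := nr s ⟨hs, le_rfl⟩ v hv
    rw [hf.zero _ _ h.dom] at h1
    have h3 := dist_triangle4 y (β u) (β v) (F (y, θ) s).1
    rw [dist_comm y (β u)] at h3
    linarith

end Pool.Agent.MP_0c1703_gt.H59
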