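import Pool.Agent.MP_0c1703_gt.H59.Kit

/-! No point of a nice set has three directions. -/

namespace Pool.Agent.MP_0c1703_gt.H59

open Set Filter Topology Pool.Agent.MP_0c1703_gt.H58
open scoped Real

namespace NoTriA

variable {Y : Type} [MetricSpace Y] {B : Set Y}

/-- a path to p meets one of p, q first -/
theorem first_hit {e p q : Y} (h : JoinedIn B e p) (hpq : p ≠ q) :
    JoinedIn (B \ {q}) e p ∨ JoinedIn (B \ {p}) e q := by
  obtain ⟨γ, hγ, e0, e1⟩ := exists_pathIn h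
  have hc : IsCompact (Icc (0 : ℝ) 1 ∩ γ ⁻¹' {p, q}) :=
    isCompact_Icc.of_isClosed_subset (hγ.cont.preimage_isClosed_of_isClosed isClosed_Icc
      (toFinite _).isClosed) inter_subset_left
  obtain ⟨t, ⟨ht, htp⟩, hmin⟩ := hc.exists_isLeast ⟨1, ⟨zero_le_one, le_rfl⟩, Or.inl e1⟩
  have key : ∀ x, x = p ∨ x = q → γ t ≠ x → JoinedIn (B \ {x}) e (γ t) := by
    intro x hx hne
    have hp : PathIn (B \ {x}) γ 0 t := by
      refine ⟨ht.1, hγ.cont.mono (Icc_subset_Icc le_rfl ht.2), fun r hr =>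
        ⟨hγ.mem ⟨hr.1, hr.2.trans ht.2⟩, fun er => ?_⟩⟩
      have er : γ r = x := er
      have : t ≤ r := hmin ⟨⟨hr.1, hr.2.trans ht.2⟩, by
        change γ r = p ∨ γ r = q
        rwa [er]⟩
      exact hne (by rw [← er, le_antisymm this hr.2])
    rw [← e0]
    exact hp.joined ⟨le_rfl, ht.1⟩ ⟨ht.1, le_rfl⟩
  rcases htp with e2 | e2
  · have := key q (Or.inr rfl) (by rw [e2]; exact hpq)
    rw [e2] at this
    exact Or.inl this
  · have e2 : γ t = q := e2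
    have := key p (Or.inl rfl) (by rw [e2]; exact hpq.symm)
    rw [e2] at this
    exact Or.inr this

theorem joined_convex {E : Type} [NormedAddCommGroup E] [NormedSpace ℝ E] {A : Set E}
    (hA : Convex ℝ A) {G : E → Y} (hG : ContinuousOn G A) (hB : MapsTo G A B) {a a' : E}
    (ha : a ∈ A) (ha' : a' ∈ A) : JoinedIn B (G a) (G a') :=
  (((hA.isPathConnected ⟨a, ha⟩).image' hG).joinedIn _ (mem_image_of_mem _ ha) _
    (mem_image_of_mem _ ha')).mono hB.image_subset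

/-- countably many points of an arc carry a branch inside the image of a convex set -/
theorem countable_branch {A : Set (ℝ × ℝ × ℝ)} (hA : Convex ℝ A) {G : ℝ × ℝ × ℝ → Y}
    (hG : ContinuousOn G A) (hB : MapsTo G A B) {α : ℝ → Y} (hα : ArcIn B α 0 1)
    {a₀ : ℝ × ℝ × ℝ} (h₀ : a₀ ∈ A) (e₀ : G a₀ = α 0) :
    {ξ ∈ Ioo (0 : ℝ) 1 | ∃ a ∈ A, G a ≠ α ξ ∧ ¬ JoinedIn (B \ {α ξ}) (G a) (α 0) ∧
      ¬ JoinedIn (B \ {α ξ}) (G a) (α 1)}.Countable := by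
  have z0 : (0 : ℝ) ∈ Icc (0 : ℝ) 1 := ⟨le_rfl, zero_le_one⟩
  have z1 : (1 : ℝ) ∈ Icc (0 : ℝ) 1 := ⟨zero_le_one, le_rfl⟩
  have dis : ∀ ξ ∈ Ioo (0 : ℝ) 1, ∀ ξ' ∈ Ioo (0 : ℝ) 1, ξ < ξ' → ∀ a ∈ A,
      ¬ JoinedIn (B \ {α ξ}) (G a) (α 1) → ¬ JoinedIn (B \ {α ξ'}) (G a) (α 0) → False := by
    intro ξ hξ ξ' hξ' hlt a ha n1 n0
    have m := Ioo_subset_Icc_self hξ
    have m' := Ioo_subset_Icc_self hξ'
    have j : JoinedIn B (G a) (α ξ) :=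
      (joined_convex hA hG hB ha h₀).trans (e₀ ▸ hα.path.joined z0 m)
    rcases first_hit (q := α ξ') j (fun e => hlt.ne (hα.inj m m' e)) with h | h
    · exact n0 (h.trans (hα.joined_diff m' m z0 (Or.inl ⟨hlt, hξ'.1⟩)))
    · exact n1 (h.trans (hα.joined_diff m m' z1 (Or.inr ⟨hlt, hξ.2⟩)))
  refine PairwiseDisjoint.countable_of_isOpen (α := A) (s := fun ξ => {a : A | G a ≠ α ξ ∧
    ¬ JoinedIn (B \ {α ξ}) (G a) (α 0) ∧ ¬ JoinedIn (B \ {α ξ}) (G a) (α 1)})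
    (fun ξ hξ ξ' hξ' hne => ?_) (fun ξ _ => ?_) fun ξ hξ => ?_
  · refine disjoint_left.2 fun a h h' => ?_
    rcases lt_or_gt_of_ne hne with l | l
    · exact dis ξ hξ.1 ξ' hξ'.1 l a a.2 h.2.2 h'.2.1
    · exact dis ξ' hξ'.1 ξ hξ.1 l a a.2 h'.2.2 h.2.1
  · refine Metric.isOpen_iff.2 fun a ha => ?_
    obtain ⟨δ, hδ, hd⟩ := Metric.continuousOn_iff.1 hG a a.2 _ (dist_pos.2 ha.1)
    have hne : ∀ b ∈ A ∩ Metric.ball a.1 δ, G b ≠ α ξ := fun b hb e => by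
      have := hd b hb.1 hb.2
      rw [e, dist_comm] at this
      exact lt_irrefl _ this
    refine ⟨δ, hδ, fun b hb => ?_⟩
    have j : JoinedIn (B \ {α ξ}) (G a) (G b) :=
      joined_convex (hA.inter (convex_ball a.1 δ)) (hG.mono inter_subset_left)
        (B := B \ {α ξ}) (fun x hx => ⟨hB hx.1, hne x hx⟩)
        ⟨a.2, Metric.mem_ball_self hδ⟩ ⟨b.2, hb⟩
    exact ⟨hne b ⟨b.2, hb⟩, fun h => ha.2.1 (j.trans h), fun h => ha.2.2 (j.trans h)⟩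
  · obtain ⟨a, ha, h⟩ := hξ.2
    exact ⟨⟨a, ha⟩, h⟩

theorem one_free {C : Set Y} {e : Fin 3 → Y} (h : ∀ i j, i ≠ j → ¬ JoinedIn C (e i) (e j))
    (p q : Y) : ∃ i, ¬ JoinedIn C (e i) p ∧ ¬ JoinedIn C (e i) q := by
  by_contra c
  have k : ∀ i, JoinedIn C (e i) p ∨ JoinedIn C (e i) q := fun i => by
    by_contra d
    exact c ⟨i, fun a => d (Or.inl a), fun a => d (Or.inr a)⟩
  rcases k 0 with a | a <;> rcases k 1 with b | b <;> rcases k 2 with d | d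
  all_goals first
    | exact h 0 1 (by decide) (a.trans b.symm)
    | exact h 0 2 (by decide) (a.trans d.symm)
    | exact h 1 2 (by decide) (b.trans d.symm)

end NoTriA

open NoTriA in
theorem sNoTri : SImm → SArc → SInv3 → SNoTri := by
  intro hI hA h3 Y _ B hB y hy ⟨z, hz, hzz⟩
  obtain ⟨-, -, hS, hL⟩ := hI Y
  have z0 : (0 : ℝ) ∈ Icc (0 : ℝ) 1 := ⟨le_rfl, zero_le_one⟩
  have z1 : (1 : ℝ) ∈ Icc (0 : ℝ) 1 := ⟨zero_le_one, le_rfl⟩
  have arcs : ∀ i, ∃ c : ℝ → Y, ArcIn B c 0 1 ∧ c 0 = y ∧ c 1 = z i := fun i => by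
    obtain ⟨γ, hγ, e0, e1⟩ := exists_pathIn (hz i).1
    obtain ⟨c, h1, h2, h3⟩ := hA Y γ 0 1 zero_le_one hγ.cont (by rw [e0, e1]; exact (hz i).2.symm)
    exact ⟨c, h1.mono hγ.image_subset, h2.trans e0, h3.trans e1⟩
  choose c hc c0 c1 using arcs
  obtain ⟨D, F, θ, s, hs⟩ := hS y B (hB.mov y hy) hB.op hy
  have dom : ∀ r ∈ Icc 0 s, ((y, θ), r) ∈ D := fun r hr =>
    hs.flow.sub _ _ hs.dom r (by rwa [uIcc_of_le hs.pos.le])
  have hW : IsOpen (D ∩ (fun p : (Y × ℝ) × ℝ => (F p.1 p.2).1) ⁻¹' B) :=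
    (continuous_fst.comp_continuousOn hs.flow.cont).isOpen_inter_preimage hs.flow.op hB.op
  obtain ⟨u, v, hu, -, su, sv, huv⟩ := generalized_tube_lemma (isCompact_singleton (x := (y, θ)))
    (isCompact_Icc (a := 0) (b := s)) hW (by
      rintro ⟨w, r⟩ ⟨hw, hr⟩
      obtain rfl : w = (y, θ) := hw
      exact ⟨dom r hr, hs.mem r hr⟩)
  obtain ⟨ε, hε, hball⟩ := Metric.isOpen_iff.1 hu (y, θ) (su rfl)
  have near : ∀ i, ∃ δ > 0, ∀ ξ ∈ Icc (0 : ℝ) 1, dist ξ 0 < δ → dist (c i ξ) y < ε := fun i => by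
    have := Metric.continuousOn_iff.1 (hc i).path.cont 0 z0 ε hε
    rwa [c0] at this
  choose δ hδ hd using near
  obtain ⟨r₀, r0, r1, r2, r3⟩ : ∃ r₀ : ℝ, 0 < r₀ ∧ r₀ ≤ 1 ∧ r₀ < ε ∧ ∀ i, r₀ < δ i := by
    have e1 : ∀ᶠ r : ℝ in 𝓝[>] 0, r ≤ 1 ∧ r < ε ∧ ∀ i, r < δ i :=
      nhdsWithin_le_nhds ((eventually_le_nhds one_pos).and ((eventually_lt_nhds hε).and
        (eventually_all.2 fun i => eventually_lt_nhds (hδ i))))
    obtain ⟨r, h1, h2⟩ := (e1.and self_mem_nhdsWithin).exists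
    exact ⟨r, h2, h1⟩
  obtain ⟨A, hAd⟩ : ∃ A : Set (ℝ × ℝ × ℝ), A = Icc 0 r₀ ×ˢ Icc (θ - r₀) (θ + r₀) ×ˢ Icc 0 s :=
    ⟨_, rfl⟩
  have cA : Convex ℝ A := hAd ▸ (convex_Icc _ _).prod ((convex_Icc _ _).prod (convex_Icc _ _))
  have inW : ∀ i, ∀ a ∈ A, ((c i a.1, a.2.1), a.2.2) ∈ D ∧ (F (c i a.1, a.2.1) a.2.2).1 ∈ B := by
    intro i a ha
    rw [hAd] at ha
    obtain ⟨a1, a2, a3⟩ := ha
    refine huv (a := ((c i a.1, a.2.1), a.2.2)) ⟨hball ?_, sv a3⟩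
    rw [Metric.mem_ball, Prod.dist_eq, max_lt_iff]
    refine ⟨hd i _ ⟨a1.1, a1.2.trans r1⟩ ?_, ?_⟩
    · rw [Real.dist_eq, sub_zero, abs_of_nonneg a1.1]
      exact a1.2.trans_lt (r3 i)
    · rw [Real.dist_eq, abs_lt]
      constructor <;> linarith [a2.1, a2.2]
  have cG : ∀ i, ContinuousOn (fun a : ℝ × ℝ × ℝ => (F (c i a.1, a.2.1) a.2.2).1) A := fun i => by
    have h1 : ContinuousOn (fun a : ℝ × ℝ × ℝ => c i a.1) A :=
      (hc i).path.cont.comp continuous_fst.continuousOn fun a ha => by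
        rw [hAd] at ha
        exact ⟨ha.1.1, ha.1.2.trans r1⟩
    have h2 : ContinuousOn (fun a : ℝ × ℝ × ℝ => ((c i a.1, a.2.1), a.2.2)) A :=
      (h1.prodMk (by fun_prop)).prodMk (by fun_prop)
    exact continuous_fst.comp_continuousOn (hs.flow.cont.comp h2 fun a ha => (inW i a ha).1)
  have F0 : F (y, θ) 0 = (y, θ) := hs.flow.zero _ _ hs.dom
  have cγ : ContinuousOn (fun r => (F (y, θ) r).1) (Icc 0 s) :=
    continuous_fst.comp_continuousOn (hs.flow.cont.comp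
      (f := fun r : ℝ => (((y, θ), r) : (Y × ℝ) × ℝ)) (by fun_prop) dom)
  obtain ⟨α, hα, α0, -⟩ := hA Y (fun r => (F (y, θ) r).1) 0 s hs.pos.le cγ (by
    rw [F0]; exact hs.ne.symm)
  have hα' : ArcIn B α 0 1 := hα.mono (by rintro _ ⟨r, hr, rfl⟩; exact hs.mem r hr)
  have a0 : ((0, θ, 0) : ℝ × ℝ × ℝ) ∈ A := by
    rw [hAd]
    exact ⟨⟨le_rfl, r0.le⟩, ⟨by linarith, by linarith⟩, le_rfl, hs.pos.le⟩
  have cnt := countable_iUnion fun i => countable_branch cA (cG i) (fun a ha => (inW i a ha).2)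
    hα' a0 (by rw [α0, c0])
  have cnt' : (Ioo (0 : ℝ) 1).Countable := by
    refine cnt.mono fun ξ hξ => ?_
    obtain ⟨r, hr, er⟩ := hα.path.mem (Ioo_subset_Icc_self hξ)
    have er : (F (y, θ) r).1 = α ξ := er
    obtain ⟨k, ξ', η, h1, h2⟩ := h3 Y B _ _ _ _ c y r₀ θ hB.lf (hL D F B r hs.flow hB.op) r0
      (fun i => ⟨(hc i).sub le_rfl r0.le r1, c0 i⟩) (fun i j hij h => by
        have k : ∀ i, JoinedIn (B \ {y}) (c i r₀) (z i) := fun i => by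
          have := (hc i).joined_diff z0 ⟨r0.le, r1⟩ z1 (Or.inr ⟨r0, one_pos⟩)
          rwa [c0, c1] at this
        exact hzz i j hij (((k i).symm.trans h).trans (k j))) ⟨dom r hr, hy, hs.mem r hr⟩
    simp only [er] at h1 h2
    obtain ⟨i, hi⟩ := one_free h2 (α 0) (α 1)
    refine mem_iUnion.2 ⟨k i, hξ, (ξ' i, η i, r), ?_, (h1 i).2.2.2, hi⟩
    rw [hAd]
    exact ⟨(h1 i).1, (h1 i).2.1, hr⟩
  have := cnt'.measure_zero MeasureTheory.volume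
  simp at this

end Pool.Agent.MP_0c1703_gt.H59
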