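import Pool.Agent.MP_0c1703_gt.H59.Kit

/-! A function that winds once around the origin has no logarithm of a nonzero power. -/

namespace Pool.Agent.MP_0c1703_gt.H59

open Set Filter Topology
open scoped Real

theorem sNolog : SNolog := by
  rintro r f m hr hf hs ⟨l, hl, he⟩
  have hI : ∀ x ∈ Icc (-1 : ℝ) 1, r * x ∈ Icc (-r) r := fun x hx =>
    ⟨by nlinarith [hx.1], by nlinarith [hx.2]⟩
  have hc : ∀ t, r * Real.cos t ∈ Icc (-r) r := fun t => hI _ (Real.cos_mem_Icc t)
  let w : ℝ → ℝ × ℝ := fun t => (r * Real.cos t, r * Real.sin t)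
  have hw : ∀ t, w t ∈ (Icc (-r) r ×ˢ Icc (-r) r) \ {(0, 0)} := fun t =>
    ⟨⟨hc t, hI _ (Real.sin_mem_Icc t)⟩, fun h => by
      have h1 := (mul_eq_zero.1 (congrArg Prod.fst h)).resolve_left hr.ne'
      have h2 := (mul_eq_zero.1 (congrArg Prod.snd h)).resolve_left hr.ne'
      have := Real.sin_sq_add_cos_sq t
      rw [h1, h2] at this
      norm_num at this⟩
  let g : ℝ → ℂ := fun t =>
    ((f (w t).1 : ℂ) + ((w t).2 : ℂ) * Complex.I) * Complex.exp (-(t * Complex.I))
  have hfc : Continuous fun t => f (w t).1 := hf.comp_continuous (by fun_prop) hc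
  have hg : ∀ t, g t ∈ Complex.slitPlane := fun t => Or.inl (by
    have h1 : (g t).re = f (r * Real.cos t) * Real.cos t + r * Real.sin t ^ 2 := by
      simp only [g, w, Complex.mul_re, Complex.add_re, Complex.add_im, Complex.mul_im,
        Complex.ofReal_re, Complex.ofReal_im, Complex.I_re, Complex.I_im, Complex.exp_re,
        Complex.exp_im, Complex.neg_re, Complex.neg_im]
      simp
      ring
    have h2 := mul_nonneg hr.le (sq_nonneg (Real.sin t))
    rw [h1]
    rcases lt_trichotomy (Real.cos t) 0 with h | h | h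
    · have := mul_pos_of_neg_of_neg ((hs _ (hc t)).1 (mul_neg_of_pos_of_neg hr h)) h
      linarith
    · have := Real.sin_sq_add_cos_sq t
      rw [h] at this ⊢
      nlinarith
    · have := mul_pos ((hs _ (hc t)).2 (mul_pos hr h)) h
      linarith)
  have hgc : Continuous g :=
    ((Complex.continuous_ofReal.comp hfc).add (by fun_prop)).mul (by fun_prop)
  obtain ⟨k, hk⟩ := log_unique (E := univ) isPreconnected_univ (l := fun t => l (w t))
    (l' := fun t => m * (Complex.log (g t) + t * Complex.I))
    (hl.comp_continuous (by fun_prop) hw).continuousOn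
    (continuous_const.mul ((hgc.clog hg).add (by fun_prop))).continuousOn fun t _ => by
      rw [he _ (hw t), Complex.exp_int_mul, Complex.exp_add,
        Complex.exp_log (Complex.slitPlane_ne_zero (hg t))]
      simp only [g, mul_assoc, ← Complex.exp_add, neg_add_cancel, Complex.exp_zero, mul_one]
  have h1 := hk 0 trivial
  have h2 := hk (2 * π) trivial
  have h3 : w (2 * π) = w 0 := by simp [w]
  have h4 : g (2 * π) = g 0 := by
    simp only [g, h3]
    simp [Complex.exp_neg]
  rw [h3, h4, h1] at h2
  have h5 : (m : ℂ) * (2 * π * Complex.I) = 0 := by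
    push_cast at h2
    linear_combination -h2
  exact_mod_cast (mul_eq_zero.1 h5).resolve_right Complex.two_pi_I_ne_zero

end Pool.Agent.MP_0c1703_gt.H59
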