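import Pool.Agent.MP_0c1703_gt.H59.Kit
import Pool.Agent.MP_6aeaf9_an.H53.Miranda

/-! Two disjoint curves crossing a strip lie one to the left of the other. -/

namespace Pool.Agent.MP_0c1703_gt.H59

open Set Filter Topology

namespace Ord0A

/-- the sign of f on the zero set of g is carried from the bottom to the top -/
theorem key {f g : ℝ × ℝ → ℝ} (hf : Continuous f) (hg : Continuous g) {x0 x1 y0 y1 : ℝ}
    (hx : x0 ≤ x1) (hy : y0 ≤ y1) (hL : ∀ y ∈ Icc y0 y1, 0 ≤ g (x0, y))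
    (hR : ∀ y ∈ Icc y0 y1, g (x1, y) ≤ 0)
    (hne : ∀ x ∈ Icc x0 x1, ∀ y ∈ Icc y0 y1, g (x, y) = 0 → f (x, y) ≠ 0)
    (hB : ∀ x ∈ Icc x0 x1, g (x, y0) = 0 → f (x, y0) < 0) :
    ∃ x ∈ Icc x0 x1, g (x, y1) = 0 ∧ f (x, y1) < 0 := by
  obtain ⟨x, hx', y, hy', h1, h2⟩ := Pool.Agent.MP_6aeaf9_an.H53.miranda (w1 := g)
    (w2 := fun z : ℝ × ℝ => max (f z) 0 * (z.2 - y0) + min (f z) 0 * (y1 - z.2)) hg
    (by fun_prop) hx hy hL hR
    (fun x _ => by
      have := mul_nonpos_of_nonpos_of_nonneg (min_le_right (f (x, y0)) 0) (sub_nonneg.2 hy)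
      simpa using this)
    (fun x _ => by
      have := mul_nonneg (le_max_right (f (x, y1)) 0) (sub_nonneg.2 hy)
      simpa using this)
  rcases lt_or_gt_of_ne (hne x hx' y hy' h1) with h | h
  · rw [max_eq_right h.le, min_eq_left h.le, zero_mul, zero_add] at h2
    have e : y1 = y := by
      rcases mul_eq_zero.1 h2 with h3 | h3
      · exact absurd h3 h.ne
      · exact sub_eq_zero.1 h3
    rw [e]
    exact ⟨x, hx', h1, h⟩
  · rw [max_eq_left h.le, min_eq_right h.le, zero_mul, add_zero] at h2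
    have e : y = y0 := by
      rcases mul_eq_zero.1 h2 with h3 | h3
      · exact absurd h3 h.ne'
      · exact sub_eq_zero.1 h3
    rw [e] at h1 h
    exact absurd (hB x hx' h1) (not_lt.2 h.le)

/-- extension of a curve to the whole line, going straight down below s -/
theorem ext {x θ : ℝ → ℝ} {s t : ℝ} (hst : s ≤ t) (hx : ContinuousOn x (Icc s t))
    (hθ : ContinuousOn θ (Icc s t)) :
    ∃ X Θ : ℝ → ℝ, Continuous X ∧ Continuous Θ ∧ (∀ u ∈ Icc s t, X u = x u ∧ Θ u = θ u) ∧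
      ∀ u ≤ s, X u = x s ∧ Θ u = θ s + (u - s) := by
  have hm : ∀ u : ℝ, max s (min u t) ∈ Icc s t := fun u =>
    ⟨le_max_left _ _, max_le hst (min_le_right _ _)⟩
  have hc : Continuous fun u : ℝ => max s (min u t) := by fun_prop
  refine ⟨fun u => x (max s (min u t)), fun u => θ (max s (min u t)) + min (u - s) 0,
    hx.comp_continuous hc hm, (hθ.comp_continuous hc hm).add (by fun_prop), fun u hu => ?_,
    fun u hu => ?_⟩
  · have e : max s (min u t) = u := by rw [min_eq_left hu.2, max_eq_right hu.1]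
    simp only [e, min_eq_right (sub_nonneg.2 hu.1), add_zero, and_self]
  · have e : max s (min u t) = s := max_eq_left ((min_le_left _ _).trans hu)
    simp only [e, min_eq_left (sub_nonpos.2 hu), and_self]

theorem half {x θ x' θ' : ℝ → ℝ} {s t s' t' α β : ℝ} (hst : s ≤ t) (hst' : s' ≤ t')
    (hx : ContinuousOn x (Icc s t)) (hθ : ContinuousOn θ (Icc s t))
    (hx' : ContinuousOn x' (Icc s' t')) (hθ' : ContinuousOn θ' (Icc s' t')) (e0 : θ s = α)
    (e1 : θ t = β) (e0' : θ' s' = α) (hm : ∀ u ∈ Icc s t, θ u ∈ Icc α β)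
    (hm' : ∀ u ∈ Icc s' t', θ' u ∈ Icc α β)
    (hd : ∀ u ∈ Icc s t, ∀ u' ∈ Icc s' t', ¬ (x u = x' u' ∧ θ u = θ' u')) (hlt : x s < x' s') :
    ∀ u' ∈ Icc s' t', ∃ u ∈ Icc s t, θ u = θ' u' ∧ x u < x' u' := by
  intro v hv
  obtain ⟨X, Θ, cX, cΘ, a1, a2⟩ := ext hst hx hθ
  obtain ⟨X', Θ', cX', cΘ', b1, b2⟩ := ext hst' hx' hθ'
  have hαβ : α ≤ β := (hm s ⟨le_rfl, hst⟩).2.trans' e0.ge
  have hsub : ∀ y, s' ≤ y → y ≤ v → y ∈ Icc s' t' := fun y h1 h2 => ⟨h1, h2.trans hv.2⟩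
  obtain ⟨u, hu, h1, h2⟩ := key (f := fun z : ℝ × ℝ => X z.1 - X' z.2)
    (g := fun z : ℝ × ℝ => Θ' z.2 - Θ z.1) (by fun_prop) (by fun_prop) (x0 := s - 1) (x1 := t)
    (y0 := s' - 1) (y1 := v) (by linarith) (by linarith [hv.1])
    (fun y hy => by
      have k := (a2 (s - 1) (by linarith)).2
      rcases le_total y s' with h | h
      · have k' := (b2 y h).2
        have := hy.1
        simp only
        linarith
      · have k' := (b1 y (hsub y h hy.2)).2
        have := (hm' y (hsub y h hy.2)).1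
        simp only
        linarith)
    (fun y hy => by
      have k := (a1 t ⟨hst, le_rfl⟩).2
      rcases le_total y s' with h | h
      · have k' := (b2 y h).2
        simp only
        linarith
      · have k' := (b1 y (hsub y h hy.2)).2
        have := (hm' y (hsub y h hy.2)).2
        simp only
        linarith)
    (fun u hu y hy hg hf => by
      simp only at hg hf
      rcases lt_or_ge u s with h | h <;> rcases lt_or_ge y s' with h' | h'
      · have k := (a2 u h.le).1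
        have k' := (b2 y h'.le).1
        linarith
      · have k := (a2 u h.le).2
        have k' := (b1 y (hsub y h' hy.2)).2
        have := (hm' y (hsub y h' hy.2)).1
        linarith
      · have k := (a1 u ⟨h, hu.2⟩).2
        have k' := (b2 y h'.le).2
        have := (hm u ⟨h, hu.2⟩).1
        linarith
      · have k := a1 u ⟨h, hu.2⟩
        have k' := b1 y (hsub y h' hy.2)
        exact hd u ⟨h, hu.2⟩ y (hsub y h' hy.2) ⟨by linarith [k.1, k'.1], by linarith [k.2, k'.2]⟩)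
    (fun u hu hg => by
      simp only at hg ⊢
      have k' := b2 (s' - 1) (by linarith)
      rcases le_total u s with h | h
      · have k := (a2 u h).1
        linarith [k'.1]
      · have k := (a1 u ⟨h, hu.2⟩).2
        have := (hm u ⟨h, hu.2⟩).1
        linarith [k'.2])
  simp only at h1 h2
  have k' := b1 v hv
  have hsu : s ≤ u := by
    by_contra hn
    have k := (a2 u (not_le.1 hn).le).2
    have := (hm' v hv).1
    linarith [k'.2, not_le.1 hn]
  have k := a1 u ⟨hsu, hu.2⟩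
  exact ⟨u, ⟨hsu, hu.2⟩, by linarith [k.2, k'.2], by linarith [k.1, k'.1]⟩

end Ord0A

open Ord0A in
theorem sOrd0 : SOrd0 := by
  intro x θ x' θ' s t s' t' α β hst hst' hx hθ hx' hθ' e0 e1 e0' e1' hm hm' hd
  have hd1 : ∀ u ∈ Icc s t, ∀ u' ∈ Icc s' t', ¬ (-x u = -x' u' ∧ θ u = θ' u') :=
    fun u hu u' hu' h => hd u hu u' hu' ⟨neg_injective h.1, h.2⟩
  have hd2 : ∀ u' ∈ Icc s' t', ∀ u ∈ Icc s t, ¬ (x' u' = x u ∧ θ' u' = θ u) :=
    fun u' hu' u hu h => hd u hu u' hu' ⟨h.1.symm, h.2.symm⟩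
  have hd3 : ∀ u' ∈ Icc s' t', ∀ u ∈ Icc s t, ¬ (-x' u' = -x u ∧ θ' u' = θ u) :=
    fun u' hu' u hu h => hd u hu u' hu' ⟨(neg_injective h.1).symm, h.2.symm⟩
  have hne : x s ≠ x' s' := fun h =>
    hd s ⟨le_rfl, hst⟩ s' ⟨le_rfl, hst'⟩ ⟨h, e0.trans e0'.symm⟩
  rcases lt_or_gt_of_ne hne with h | h
  · refine Or.inl ⟨half hst hst' hx hθ hx' hθ' e0 e1 e0' hm hm' hd h, fun u hu => ?_⟩
    obtain ⟨u', hu', k1, k2⟩ := half (x := fun r => -x' r) (x' := fun r => -x r) hst' hst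
      hx'.neg hθ' hx.neg hθ e0' e1' e0 hm' hm hd3 (neg_lt_neg h) u hu
    exact ⟨u', hu', k1.symm, neg_lt_neg_iff.1 k2⟩
  · refine Or.inr ⟨fun u' hu' => ?_, fun u hu => ?_⟩
    · obtain ⟨u, hu, k1, k2⟩ := half (x := fun r => -x r) (x' := fun r => -x' r) hst hst'
        hx.neg hθ hx'.neg hθ' e0 e1 e0' hm hm' hd1 (neg_lt_neg h) u' hu'
      exact ⟨u, hu, k1, neg_lt_neg_iff.1 k2⟩
    · obtain ⟨u', hu', k1, k2⟩ := half hst' hst hx' hθ' hx hθ e0' e1' e0 hm' hm hd2 h u hu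
      exact ⟨u', hu', k1.symm, k2⟩

end Pool.Agent.MP_0c1703_gt.H59
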