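import Pool.Agent.MP_0c1703_gt.H59.Kit

/-! Row Pair: the fibres of a second suspension structure with the same poles. -/

namespace Pool.Agent.MP_0c1703_gt.H59

open Set Filter Topology Pool.Agent.MP_0c1703_gt.H58
open scoped Real

namespace PairA

theorem tube {V : Type} [TopologicalSpace V] [CompactSpace V] {Θ : V × ℝ → ℝ} (h : Continuous Θ)
    {t₀ c : ℝ} (h0 : ∀ v, Θ (v, t₀) < c) :
    ∃ ε > 0, ∀ t, |t - t₀| ≤ ε → ∀ v, Θ (v, t) < c := by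
  have h1 : ∀ᶠ t in 𝓝 t₀, ∀ v ∈ (univ : Set V), Θ (v, t) < c := by
    refine isCompact_univ.eventually_forall_of_forall_eventually
      (P := fun (t : ℝ) (v : V) => Θ (v, t) < c) fun v _ => ?_
    have h2 : Continuous fun z : ℝ × V => Θ (z.2, z.1) := h.comp continuous_swap
    exact h2.continuousAt.eventually_lt continuousAt_const (h0 v)
  obtain ⟨ε, hε, H⟩ := Metric.eventually_nhds_iff.1 h1
  refine ⟨ε / 2, by positivity, fun t ht v => H ?_ v trivial⟩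
  rw [Real.dist_eq]
  linarith

theorem tube' {V : Type} [TopologicalSpace V] [CompactSpace V] {Θ : V × ℝ → ℝ} (h : Continuous Θ)
    {t₀ c : ℝ} (h0 : ∀ v, c < Θ (v, t₀)) :
    ∃ ε > 0, ∀ t, |t - t₀| ≤ ε → ∀ v, c < Θ (v, t) := by
  obtain ⟨ε, hε, H⟩ := tube (Θ := fun w => -Θ w) h.neg (t₀ := t₀) (c := -c)
    fun v => neg_lt_neg (h0 v)
  exact ⟨ε, hε, fun t ht v => neg_lt_neg_iff.1 (H t ht v)⟩

/-- the choice of the six constants -/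
theorem consts {V : Type} [TopologicalSpace V] [CompactSpace V] [Nonempty V] {Θ : V × ℝ → ℝ}
    (h : Continuous Θ) (h0 : ∀ v, Θ (v, 0) = 0) (hp : ∀ v, Θ (v, π) = π)
    (hm : ∀ v, ∀ t ∈ Ioo 0 π, Θ (v, t) ∈ Ioo 0 π) :
    ∃ a₀ a₁ b₁ b₀ α β : ℝ, 0 < a₀ ∧ b₀ < π ∧ (∀ v, Ht (fun t => Θ (v, t)) a₀ a₁ b₁ b₀ α β) ∧
      ∀ v, ∀ t ∈ Icc 0 π, Θ (v, t) = π / 2 → t ∈ Icc a₀ b₀ := by
  have hπ := Real.pi_pos
  obtain ⟨ε₁, e1, H1⟩ := tube h (t₀ := 0) (c := π / 4) fun v => by rw [h0]; positivity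
  obtain ⟨ε₂, e2, H2⟩ := tube' h (t₀ := π) (c := 3 * π / 4) fun v => by rw [hp]; linarith
  obtain ⟨a₁, a1, a2, a3⟩ : ∃ a₁ : ℝ, 0 < a₁ ∧ a₁ ≤ ε₁ ∧ a₁ ≤ π / 2 :=
    ⟨min ε₁ (π / 2), lt_min e1 (by positivity), min_le_left _ _, min_le_right _ _⟩
  obtain ⟨b₁, b1, b2, b3⟩ : ∃ b₁ : ℝ, b₁ < π ∧ π - ε₂ ≤ b₁ ∧ π / 2 ≤ b₁ :=
    ⟨max (π - ε₂) (π / 2), max_lt (by linarith) (by linarith), le_max_left _ _, le_max_right _ _⟩
  have L : ∀ v, ∀ t ∈ Icc 0 a₁, Θ (v, t) < π / 4 := fun v t ht =>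
    H1 t (abs_le.2 ⟨by linarith [ht.1], by linarith [ht.2]⟩) v
  have R : ∀ v, ∀ t ∈ Icc b₁ π, 3 * π / 4 < Θ (v, t) := fun v t ht =>
    H2 t (abs_le.2 ⟨by linarith [ht.1], by linarith [ht.2]⟩) v
  have hK : IsCompact ((univ : Set V) ×ˢ Icc a₁ b₁) := isCompact_univ.prod isCompact_Icc
  have hne : ((univ : Set V) ×ˢ Icc a₁ b₁).Nonempty :=
    univ_nonempty.prod (nonempty_Icc.2 (a3.trans b3))
  obtain ⟨w, hw, hmin⟩ := hK.exists_isMinOn hne h.continuousOn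
  obtain ⟨w', hw', hmax⟩ := hK.exists_isMaxOn hne h.continuousOn
  have m1 : 0 < Θ w := (hm w.1 w.2 ⟨a1.trans_le hw.2.1, hw.2.2.trans_lt b1⟩).1
  have m2 : Θ w' < π := (hm w'.1 w'.2 ⟨a1.trans_le hw'.2.1, hw'.2.2.trans_lt b1⟩).2
  obtain ⟨α, α1, α2, α3⟩ : ∃ α : ℝ, 0 < α ∧ α < Θ w ∧ α < π / 4 :=
    ⟨min (Θ w / 2) (π / 8), lt_min (by positivity) (by positivity),
      (min_le_left _ _).trans_lt (by linarith), (min_le_right _ _).trans_lt (by linarith)⟩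
  obtain ⟨β, β1, β2, β3⟩ : ∃ β : ℝ, β < π ∧ Θ w' < β ∧ 3 * π / 4 < β :=
    ⟨max ((π + Θ w') / 2) (7 * π / 8), max_lt (by linarith) (by linarith),
      lt_of_lt_of_le (by linarith) (le_max_left _ _), lt_of_lt_of_le (by linarith) (le_max_right _ _)⟩
  obtain ⟨ε₃, e3, H3⟩ := tube h (t₀ := 0) (c := α) fun v => by rw [h0]; exact α1
  obtain ⟨ε₄, e4, H4⟩ := tube' h (t₀ := π) (c := β) fun v => by rw [hp]; exact β1
  obtain ⟨a₀, c1, c2, c3⟩ : ∃ a₀ : ℝ, 0 < a₀ ∧ a₀ ≤ ε₃ ∧ a₀ ≤ a₁ :=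
    ⟨min ε₃ a₁, lt_min e3 a1, min_le_left _ _, min_le_right _ _⟩
  obtain ⟨b₀, d1, d2, d3⟩ : ∃ b₀ : ℝ, b₀ < π ∧ π - ε₄ ≤ b₀ ∧ b₁ ≤ b₀ :=
    ⟨max (π - ε₄) b₁, max_lt (by linarith) b1, le_max_left _ _, le_max_right _ _⟩
  refine ⟨a₀, a₁, b₁, b₀, α, β, c1, d1, fun v => ⟨?_, c3, a3.trans b3, d3, α3, β3, ?_, ?_, ?_, ?_,
    ?_⟩, fun v t ht e => ⟨?_, ?_⟩⟩
  · exact (h.comp (Continuous.prodMk_right v)).continuousOn
  · exact (H3 a₀ (abs_le.2 ⟨by linarith, by linarith⟩) v).le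
  · exact (H4 b₀ (abs_le.2 ⟨by linarith, by linarith⟩) v).le
  · exact fun t ht => L v t ⟨c1.le.trans ht.1, ht.2⟩
  · exact fun t ht => R v t ⟨ht.1, ht.2.trans d1.le⟩
  · intro t ht
    have hv : (v, t) ∈ (univ : Set V) ×ˢ Icc a₁ b₁ := ⟨trivial, ht⟩
    exact ⟨α2.trans_le (hmin hv), lt_of_le_of_lt (hmax hv) β2⟩
  · by_contra hc
    have := L v t ⟨ht.1, (not_le.1 hc).le.trans c3⟩
    linarith
  · by_contra hc
    have := R v t ⟨d3.trans (not_le.1 hc).le, ht.2⟩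
    linarith

end PairA

open PairA in
theorem sPair : SCoord → SFlow → SPair := by
  intro hC hF Z Y V _ _ _ _ _ _ _ n p q q' h h' hB
  have hπ := Real.pi_pos
  have hh : π / 2 ∈ Ioo 0 π := ⟨by positivity, by linarith⟩
  obtain ⟨-, -, pr, th, c1, c2, c3, c4, c5, c6⟩ := hC Z Y n p q h
  obtain ⟨y₀⟩ : Nonempty Y := inferInstance
  have hq : ∀ y, q (y, π / 2) ∈ ({n, p}ᶜ : Set Z) := fun y =>
    (c6 _).2 (by rw [c3 y _ (Ioo_subset_Icc_self hh)]; exact hh)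
  have : Nonempty V := by
    rcases h'.surj (q (y₀, π / 2)) with e | e | ⟨v, -⟩
    · exact absurd (Or.inl e) (hq y₀)
    · exact absurd (Or.inr e) (hq y₀)
    · exact ⟨v⟩
  obtain ⟨-, -, pr', th', d1, d2, d3, -, d5, d6⟩ := hC Z V n p q' h'
  have hq' : ∀ v, ∀ t ∈ Ioo 0 π, q' (v, t) ∈ ({n, p}ᶜ : Set Z) := fun v t ht =>
    (d6 _).2 (by rw [d3 v _ (Ioo_subset_Icc_self ht)]; exact ht)
  obtain ⟨a₀, a₁, b₁, b₀, α, β, ha, hb, hH, hM⟩ := consts (Θ := fun w => th (q' w))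
    (c1.comp h'.cont)
    (fun v => by
      show th (q' (v, 0)) = 0
      rw [h'.zero, ← h.zero y₀]
      exact c3 _ _ ⟨le_rfl, hπ.le⟩)
    (fun v => by
      show th (q' (v, π)) = π
      rw [h'.pi, ← h.pi y₀]
      exact c3 _ _ ⟨hπ.le, le_rfl⟩)
    fun v t ht => (c6 _).1 (hq' v t ht)
  have hsub : Icc a₀ b₀ ⊆ Ioo 0 π := fun t ht => ⟨ha.trans_le ht.1, ht.2.trans_lt hb⟩
  have cq : Continuous fun y : Y => q (y, π / 2) := h.cont.comp (Continuous.prodMk_left _)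
  refine ⟨fun w => pr (q' w), fun w => th (q' w), fun y => pr' (q (y, π / 2)),
    fun y => th' (q (y, π / 2)), a₀, a₁, b₁, b₀, α, β, ?_, (c1.comp h'.cont).continuousOn, hH, ?_,
    d2.comp_continuous cq hq, d1.comp cq, fun y => ?_, fun v => ?_⟩
  · exact c2.comp h'.cont.continuousOn fun w hw => hq' w.1 w.2 (hsub hw.2)
  · intro v v' t ht t' ht' e1 e2
    refine h'.inj v t v' t' (hsub ht) (Ioo_subset_Icc_self (hsub ht')) ?_
    have e1' : pr (q' (v, t)) = pr (q' (v', t')) := e1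
    have e2' : th (q' (v, t)) = th (q' (v', t')) := e2
    rw [← (c5 (q' (v, t))).2, ← (c5 (q' (v', t'))).2, e1', e2']
  · have e : q' (pr' (q (y, π / 2)), th' (q (y, π / 2))) = q (y, π / 2) := (d5 _).2
    have e2 : th (q' (pr' (q (y, π / 2)), th' (q (y, π / 2)))) = π / 2 := by
      rw [e]
      exact c3 y _ (Ioo_subset_Icc_self hh)
    refine ⟨hM _ _ (d5 _).1 e2, ?_, e2⟩
    show pr (q' (pr' (q (y, π / 2)), th' (q (y, π / 2)))) = y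
    rw [e]
    exact c4 y _ hh
  · by_cases hc : ∀ t ∈ Icc a₀ b₀, pr (q' (v, t)) = pr (q' (v, a₀))
    · exact Or.inr hc
    refine Or.inl fun t ht => hB _ ?_
    push Not at hc
    obtain ⟨t₂, ht₂, hne⟩ := hc
    obtain ⟨t', ht', hne'⟩ : ∃ t' ∈ Icc a₀ b₀, pr (q' (v, t')) ≠ pr (q' (v, t)) := by
      by_cases e : pr (q' (v, t₂)) = pr (q' (v, t))
      · exact ⟨a₀, ⟨le_rfl, ht.1.trans ht.2⟩, fun e' => hne (e.trans e'.symm)⟩
      · exact ⟨t₂, ht₂, e⟩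
    refine hF Z Y V n p n p q q' h h' v t t' _ _ (th (q' (v, t))) (th (q' (v, t')))
      (fun u hu => ?_) ((c6 _).1 (hq' v t (hsub ht))) ((c6 _).1 (hq' v t' (hsub ht')))
      (c5 _).2.symm (c5 _).2.symm hne'
    have hu' := hsub (uIcc_subset_Icc ht ht' hu)
    exact ⟨hu', fun e => hq' v u hu' (Or.inl e), fun e => hq' v u hu' (Or.inr e)⟩

end Pool.Agent.MP_0c1703_gt.H59
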