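import Pool.Agent.MP_0c1703_gt.H59.Kit

/-! Row Plaq: two families of rays give oriented plaques. -/

namespace Pool.Agent.MP_0c1703_gt.H59

open Set Filter Topology Pool.Agent.MP_0c1703_gt.H58

namespace PlaqA

variable {Y : Type} [MetricSpace Y] {B N : Set Y} {μ : Set Y → ℝ} {gp gm : Y → ℝ → Y} {m : ℝ}
  {ep em : Y}

theorem glue {A Z : Type} [TopologicalSpace A] [TopologicalSpace Z] {f : A → Z} {s C C' : Set A}
    (hC : IsClosed C) (hC' : IsClosed C') (h : ContinuousOn f (s ∩ C))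
    (h' : ContinuousOn f (s ∩ C')) (hs : s ⊆ C ∪ C') : ContinuousOn f s := by
  have key : ∀ {T : Set A}, IsClosed T → ContinuousOn f (s ∩ T) → ∀ x ∈ s,
      ContinuousWithinAt f (s ∩ T) x := by
    intro T hT hf x hx
    by_cases hxT : x ∈ T
    · exact hf x ⟨hx, hxT⟩
    · exact continuousWithinAt_of_notMem_closure fun hc =>
        hxT (closure_minimal inter_subset_right hT hc)
  intro x hx
  refine ((key hC h x hx).union (key hC' h' x hx)).mono fun z hz => ?_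
  rcases hs hz with h1 | h1
  · exact Or.inl ⟨hz, h1⟩
  · exact Or.inr ⟨hz, h1⟩

theorem size_le (hW : Whit μ) {A : Set Y} {x : Y} {η : ℝ} (hA : A.Nonempty)
    (h : ∀ a ∈ A, dist a x ≤ η) : μ A ≤ η := by
  have h1 := hW.lip A {x} η hA (fun a ha => ⟨x, rfl, h a ha⟩) (fun a' ha' => by
    obtain ⟨a, ha⟩ := hA
    exact ⟨a, ha, by rw [show a' = x from ha']; exact h a ha⟩)
  rw [hW.zero, sub_zero] at h1
  exact (le_abs_self _).trans h1

theorem two_of (hL : Lin B) {y a b c : Y} (hy : y ∈ B) (ja : JoinedIn B y a) (jb : JoinedIn B y b)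
    (jc : JoinedIn B y c) (na : a ≠ y) (nb : b ≠ y) (nc : c ≠ y)
    (hbc : ¬ JoinedIn (B \ {y}) b c) : JoinedIn (B \ {y}) a b ∨ JoinedIn (B \ {y}) a c := by
  by_contra hn
  rw [not_or] at hn
  refine hL.three y hy ⟨![a, b, c], fun i => ?_, fun i j hij => ?_⟩
  · fin_cases i
    · exact ⟨ja, na⟩
    · exact ⟨jb, nb⟩
    · exact ⟨jc, nc⟩
  · fin_cases i <;> fin_cases j
    · exact absurd rfl hij
    · exact hn.1
    · exact hn.2
    · exact fun h => hn.1 h.symm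
    · exact absurd rfl hij
    · exact hbc
    · exact fun h => hn.2 h.symm
    · exact fun h => hbc h.symm
    · exact absurd rfl hij

/-- an arc that leaves in the direction of a ray follows the ray -/
theorem follow (hA : SWA) (hW : Whit μ) (hL : Lin B) {c g : ℝ → Y} {a b : ℝ} (hc : ArcIn B c a b)
    (hg : WArc B μ g m) (e : g 0 = c a) (hj : JoinedIn (B \ {c a}) (c b) (g m)) :
    (∀ ζ ∈ Icc a b, μ (c '' Icc a ζ) ≤ m → g (μ (c '' Icc a ζ)) = c ζ) ∧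
    (∀ t, 0 ≤ t → t ≤ m → t ≤ μ (c '' Icc a b) → ∃ ζ ∈ Icc a b, μ (c '' Icc a ζ) = t ∧ g t = c ζ) ∧
    StrictMonoOn (fun ξ => μ (c '' Icc a ξ)) (Icc a b) ∧
    ∃ g', WArc B μ g' (μ (c '' Icc a b)) ∧ g' (μ (c '' Icc a b)) = c b ∧
      ∀ t, 0 ≤ t → t ≤ m → t ≤ μ (c '' Icc a b) → g' t = g t := by
  obtain ⟨h1, h2, _⟩ := hA Y B μ hW
  obtain ⟨g', hg', hs, hp⟩ := h1 c a b hc
  have hab := hc.path.le
  have e0 : g' 0 = c a := by
    have := (hp a ⟨le_rfl, hab⟩).2.1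
    rwa [Icc_self, image_singleton, hW.zero] at this
  have e1 : g' (μ (c '' Icc a b)) = c b := (hp b ⟨hab, le_rfl⟩).2.1
  have key : ∀ t, 0 ≤ t → t ≤ m → t ≤ μ (c '' Icc a b) → g' t = g t := fun t t0 t1 t2 =>
    h2 hL g' g _ m hg' hg (by rw [e0, e]) (by rw [e0, e1]; exact hj) t t0 t2 t1
  refine ⟨fun ζ hζ hm => ?_, fun t t0 t1 t2 => ?_, hs, g', hg', e1, key⟩
  · rw [← key _ (hp ζ hζ).1.1 hm (hp ζ hζ).1.2, (hp ζ hζ).2.1]
  · have h3 : g' t ∈ c '' Icc a b := by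
      rw [← (hp b ⟨hab, le_rfl⟩).2.2]
      exact mem_image_of_mem _ ⟨t0, t2⟩
    obtain ⟨ζ, hζ, eζ⟩ := h3
    refine ⟨ζ, hζ, hg'.arc.inj (hp ζ hζ).1 ⟨t0, t2⟩ (by rw [(hp ζ hζ).2.1, eζ]), ?_⟩
    rw [← key t t0 t1 t2, eζ]

/-- the plaque through y -/
noncomputable def hh (gp gm : Y → ℝ → Y) (y : Y) : ℝ → Y := cat (gm y) 0 (gp y) 0

theorem hh_pos (hR : Rays B μ N gp gm m ep em) {y : Y} (hy : y ∈ N) {ξ : ℝ} (h : 0 ≤ ξ) :
    hh gp gm y ξ = gp y ξ := by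
  unfold hh
  rw [cat_of_nonneg (by rw [(hR.arcm y hy).2.1, (hR.arcp y hy).2.1]) h, zero_add]

omit [MetricSpace Y] in
theorem hh_neg {y : Y} {ξ : ℝ} (h : 0 ≤ ξ) : hh gp gm y (-ξ) = gm y ξ := by
  unfold hh
  rw [cat_of_nonpos (by linarith), zero_sub, neg_neg]

omit [MetricSpace Y] in
theorem hh_neg' (gp gm : Y → ℝ → Y) (y : Y) {ξ : ℝ} (h : ξ ≤ 0) :
    hh gp gm y ξ = gm y (-ξ) := by
  unfold hh
  rw [cat_of_nonpos h, zero_sub]

theorem hh_zero (hR : Rays B μ N gp gm m ep em) {y : Y} (hy : y ∈ N) : hh gp gm y 0 = y := by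
  rw [hh_pos hR hy le_rfl, (hR.arcp y hy).2.1]

theorem hh_arc (hR : Rays B μ N gp gm m ep em) {y : Y} (hy : y ∈ N) :
    ArcIn B (hh gp gm y) (-m) m := by
  obtain ⟨ap, p0, -⟩ := hR.arcp y hy
  obtain ⟨am, m0, -⟩ := hR.arcm y hy
  have hm := hR.pos
  have h := am.arc.cat ap.arc (by rw [m0, p0]) (fun u hu v hv e => by
    by_contra hu0
    have u0 : 0 < u := lt_of_le_of_ne hu.1 (Ne.symm hu0)
    have v0 : 0 < v := by
      refine lt_of_le_of_ne hv.1 fun h0 => hu0 ?_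
      rw [← h0, p0, ← m0] at e
      refine am.arc.inj hu ⟨le_rfl, hm.le⟩ ?_
      rw [m0] at e ⊢
      exact e
    have j1 := ap.arc.joined_diff (ξ := 0) ⟨le_rfl, hm.le⟩ ⟨hm.le, le_rfl⟩ hv (Or.inr ⟨hm, v0⟩)
    have j2 := am.arc.joined_diff (ξ := 0) ⟨le_rfl, hm.le⟩ hu ⟨hm.le, le_rfl⟩ (Or.inr ⟨u0, hm⟩)
    rw [p0] at j1
    rw [m0, e] at j2
    exact hR.opp y hy (j1.trans j2))
  rw [zero_sub, sub_zero] at h
  exact h

theorem img_pos (hR : Rays B μ N gp gm m ep em) {y : Y} (hy : y ∈ N) (ξ : ℝ) :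
    hh gp gm y '' Icc 0 ξ = gp y '' Icc 0 ξ :=
  image_congr fun _ hr => hh_pos hR hy hr.1

omit [MetricSpace Y] in
theorem img_neg {y : Y} (ξ : ℝ) : hh gp gm y '' Icc (-ξ) 0 = gm y '' Icc 0 ξ := by
  ext z
  constructor
  · rintro ⟨r, hr, rfl⟩
    refine ⟨-r, ⟨by linarith [hr.2], by linarith [hr.1]⟩, ?_⟩
    exact (hh_neg' gp gm y hr.2).symm
  · rintro ⟨r, hr, rfl⟩
    exact ⟨-r, ⟨by linarith [hr.2], by linarith [hr.1]⟩, hh_neg hr.1⟩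

theorem hh_cont (hR : Rays B μ N gp gm m ep em) :
    ContinuousOn (fun w : Y × ℝ => hh gp gm w.1 w.2) (N ×ˢ Icc (-m) m) := by
  refine glue (C := {w | 0 ≤ w.2}) (C' := {w | w.2 ≤ 0})
    (isClosed_le continuous_const continuous_snd) (isClosed_le continuous_snd continuous_const)
    ?_ ?_ fun w _ => le_total 0 w.2
  · exact (hR.contp.mono fun w hw => ⟨hw.1.1, hw.2, hw.1.2.2⟩).congr fun w hw =>
      hh_pos hR hw.1.1 hw.2
  · have h1 : ContinuousOn (fun w : Y × ℝ => gm w.1 (-w.2))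
        (N ×ˢ Icc (-m) m ∩ {w : Y × ℝ | w.2 ≤ 0}) :=
      hR.contm.comp (f := fun w : Y × ℝ => (w.1, -w.2)) (by fun_prop) fun w hw =>
        ⟨hw.1.1, by have : w.2 ≤ 0 := hw.2; show 0 ≤ -w.2; linarith,
          by show -w.2 ≤ m; linarith [hw.1.2.1]⟩
    refine h1.congr fun w hw => ?_
    exact hh_neg' gp gm w.1 hw.2

theorem ray_uf (hW : Whit μ) (hU : UF B) {ε : ℝ} (hε : 0 < ε) : ∃ δ > 0, ∀ (g : ℝ → Y),
    WArc B μ g m → ∀ ξ ∈ Icc 0 m, dist (g 0) (g ξ) < δ → ξ < ε := by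
  obtain ⟨δ, hδ, H⟩ := hU (ε / 2) (by linarith)
  refine ⟨δ, hδ, fun g hg ξ hξ hd => ?_⟩
  have h1 := H g 0 ξ (hg.arc.sub le_rfl hξ.1 hξ.2) hd
  have h2 : μ (g '' Icc 0 ξ) ≤ ε / 2 :=
    size_le hW (x := g 0) ⟨g 0, mem_image_of_mem _ ⟨le_rfl, hξ.1⟩⟩ (by
      rintro _ ⟨r, hr, rfl⟩
      rw [dist_comm]
      exact (h1 r hr).le)
  rw [hg.size ξ hξ] at h2
  linarith

theorem hh_uf (hW : Whit μ) (hU : UF B) (hR : Rays B μ N gp gm m ep em) {ε : ℝ} (hε : 0 < ε) :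
    ∃ δ > 0, ∀ y ∈ N, ∀ ξ ∈ Icc (-m) m, dist y (hh gp gm y ξ) < δ → |ξ| < ε := by
  obtain ⟨δ, hδ, H⟩ := ray_uf (m := m) hW hU hε
  refine ⟨δ, hδ, fun y hy ξ hξ hd => ?_⟩
  rcases le_total 0 ξ with h0 | h0
  · rw [abs_of_nonneg h0]
    refine H _ (hR.arcp y hy).1 ξ ⟨h0, hξ.2⟩ ?_
    rwa [(hR.arcp y hy).2.1, ← hh_pos hR hy h0]
  · rw [abs_of_nonpos h0]
    refine H _ (hR.arcm y hy).1 (-ξ) ⟨by linarith, by linarith [hξ.1]⟩ ?_
    rwa [(hR.arcm y hy).2.1, ← hh_neg' gp gm y h0]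

theorem ray_end {g : ℝ → Y} (hg : WArc B μ g m) (hm : 0 < m) :
    JoinedIn B (g 0) (g m) ∧ g m ≠ g 0 :=
  ⟨hg.arc.path.joined ⟨le_rfl, hm.le⟩ ⟨hm.le, le_rfl⟩,
    fun e => hm.ne' (hg.arc.inj ⟨hm.le, le_rfl⟩ ⟨le_rfl, hm.le⟩ e)⟩

theorem dir (hL : Lin B) (hR : Rays B μ N gp gm m ep em) {y a : Y} (hy : y ∈ N)
    (ja : JoinedIn B y a) (na : a ≠ y) :
    JoinedIn (B \ {y}) a (gp y m) ∨ JoinedIn (B \ {y}) a (gm y m) := by
  have h1 := ray_end (hR.arcp y hy).1 hR.pos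
  have h2 := ray_end (hR.arcm y hy).1 hR.pos
  rw [(hR.arcp y hy).2.1] at h1
  rw [(hR.arcm y hy).2.1] at h2
  exact two_of hL (hR.sub hy) ja h1.1 h2.1 na h1.2 h2.2 (hR.opp y hy)

/-- the orientation lemma -/
theorem orient (hA : SWA) (hW : Whit μ) (hL : Lin B) (hU : UF B)
    (hR : Rays B μ N gp gm m ep em) : ∃ κ > 0, ∀ y ∈ N, ∀ ξ, |ξ| < κ → |ξ| < m →
      hh gp gm y ξ ∈ N →
      JoinedIn (B \ {hh gp gm y ξ}) (hh gp gm y m) (gp (hh gp gm y ξ) m) ∧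
      JoinedIn (B \ {hh gp gm y ξ}) (hh gp gm y (-m)) (gm (hh gp gm y ξ) m) := by
  obtain ⟨_, _, h3⟩ := hA Y B μ hW
  have hm := hR.pos
  have hD : 0 < dist ep em := dist_pos.2 hR.ne
  obtain ⟨κ₁, k1, H1⟩ := h3 hU (dist ep em / 4) (by linarith)
  obtain ⟨κ₂, k2, H2⟩ := h3 hU (κ₁ / 4) (by linarith)
  refine ⟨κ₂, k2, fun y hy ξ hξ hξm hy1 => ?_⟩
  obtain ⟨x1, x2⟩ := abs_lt.1 hξm
  have arc := hh_arc hR hy
  have xi : ξ ∈ Icc (-m) m := ⟨x1.le, x2.le⟩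
  have near : ∀ ζ, |ζ| ≤ |ξ| → dist (hh gp gm y ζ) y < κ₁ / 4 := by
    intro ζ hζ
    rcases le_total 0 ζ with h0 | h0
    · rw [abs_of_nonneg h0] at hζ
      have := H2 _ m (hR.arcp y hy).1 ζ ⟨h0, by linarith⟩ 0 ⟨le_rfl, hm.le⟩
        (by rw [sub_zero, abs_of_nonneg h0]; linarith)
      rwa [(hR.arcp y hy).2.1, ← hh_pos hR hy h0] at this
    · rw [abs_of_nonpos h0] at hζ
      have := H2 _ m (hR.arcm y hy).1 (-ζ) ⟨by linarith, by linarith⟩ 0 ⟨le_rfl, hm.le⟩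
        (by rw [sub_zero, abs_neg, abs_of_nonpos h0]; linarith)
      rwa [(hR.arcm y hy).2.1, ← hh_neg' gp gm y h0] at this
  have first : JoinedIn (B \ {hh gp gm y ξ}) (hh gp gm y m) (gp (hh gp gm y ξ) m) := by
    rcases dir hL hR hy1 (arc.path.joined xi ⟨by linarith, le_rfl⟩)
      (fun e => x2.ne' (arc.inj ⟨by linarith, le_rfl⟩ xi e)) with h | h
    · exact h
    exfalso
    obtain ⟨am, m0, md⟩ := hR.arcm _ hy1
    obtain ⟨-, -, -, g', hg', e1, key⟩ := follow hA hW hL (arc.sub x1.le x2.le le_rfl) am m0 h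
    set M := μ (hh gp gm y '' Icc ξ m) with hM
    have M0 : 0 ≤ M := hg'.arc.path.le
    have hMm : |M - m| ≤ κ₁ / 2 := by
      have e2 : μ (hh gp gm y '' Icc 0 m) = m := by
        rw [img_pos hR hy, (hR.arcp y hy).1.size m ⟨hm.le, le_rfl⟩]
      have := hW.lip (hh gp gm y '' Icc ξ m) (hh gp gm y '' Icc 0 m) (κ₁ / 2)
        ⟨_, mem_image_of_mem _ ⟨le_rfl, x2.le⟩⟩ ?_ ?_
      · rwa [e2] at this
      · rintro _ ⟨r, hr, rfl⟩
        rcases le_total 0 r with h0 | h0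
        · exact ⟨_, mem_image_of_mem _ ⟨h0, hr.2⟩, by rw [dist_self]; linarith⟩
        · refine ⟨_, mem_image_of_mem _ ⟨le_rfl, hm.le⟩, ?_⟩
          rw [hh_zero hR hy]
          have := near r (by
            rw [abs_of_nonpos h0, abs_of_nonpos (hr.1.trans h0)]; linarith [hr.1])
          linarith
      · rintro _ ⟨r, hr, rfl⟩
        rcases le_total ξ r with h0 | h0
        · exact ⟨_, mem_image_of_mem _ ⟨h0, hr.2⟩, by rw [dist_self]; linarith⟩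
        · refine ⟨_, mem_image_of_mem _ ⟨le_rfl, x2.le⟩, ?_⟩
          have n1 := near r (by
            rw [abs_of_nonneg hr.1, abs_of_nonneg (hr.1.trans h0)]; exact h0)
          have n2 := near ξ le_rfl
          have := dist_triangle_right (hh gp gm y ξ) (hh gp gm y r) y
          linarith
    obtain ⟨b1, b2⟩ := abs_le.1 hMm
    have t0 : 0 ≤ min m M := le_min hm.le M0
    have e3 := key (min m M) t0 (min_le_left _ _) (min_le_right _ _)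
    have d1 := H1 g' M hg' M ⟨M0, le_rfl⟩ (min m M) ⟨t0, min_le_right _ _⟩ (by
      rcases min_cases m M with ⟨h5, _⟩ | ⟨h5, _⟩ <;> rw [h5, abs_lt] <;> constructor <;> linarith)
    have d2 := H1 _ m am (min m M) ⟨t0, min_le_left _ _⟩ m ⟨hm.le, le_rfl⟩ (by
      rcases min_cases m M with ⟨h5, _⟩ | ⟨h5, _⟩ <;> rw [h5, abs_lt] <;> constructor <;> linarith)
    rw [e1, e3, hh_pos hR hy hm.le] at d1
    have d3 := (hR.arcp y hy).2.2
    have t1 := dist_triangle4 (gp y m) (gm (hh gp gm y ξ) (min m M)) (gm (hh gp gm y ξ) m) em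
    have t2 := dist_triangle_left ep em (gp y m)
    linarith
  refine ⟨first, ?_⟩
  rcases dir hL hR hy1 (arc.path.joined xi ⟨le_rfl, by linarith⟩)
    (fun e => x1.ne (arc.inj ⟨le_rfl, by linarith⟩ xi e)) with h | h
  · exact absurd (h.trans first.symm) (hL.tree.not_joined arc xi)
  · exact h

end PlaqA

open PlaqA in
theorem sPlaq : SArc → SWA → SPlaq := by
  intro hArc hA Y _ B μ N gp gm m ep em y₀ hW hL hU hR hy₀
  have hm := hR.pos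
  obtain ⟨κ, k0, hor⟩ := orient hA hW hL hU hR
  obtain ⟨δ₁, d1, H1⟩ := hh_uf hW hU hR (lt_min k0 hm)
  obtain ⟨δ₂, d2, H2⟩ := hU m hm
  set e := min δ₁ (min δ₂ m) / 2 with he
  have e0 : 0 < e := by
    have := lt_min d1 (lt_min d2 hm)
    linarith
  have e1 : 2 * e ≤ δ₁ := by have := min_le_left δ₁ (min δ₂ m); linarith
  have e2 : 2 * e ≤ δ₂ := by
    have := (min_le_right δ₁ (min δ₂ m)).trans (min_le_left _ _); linarith
  have e3 : 2 * e ≤ m := by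
    have := (min_le_right δ₁ (min δ₂ m)).trans (min_le_right _ _); linarith
  have close : ∀ y ∈ N ∩ Metric.ball y₀ e, ∀ y' ∈ N ∩ Metric.ball y₀ e, dist y y' < 2 * e := by
    intro y hy y' hy'
    have a1 : dist y y₀ < e := hy.2
    have a2 : dist y' y₀ < e := hy'.2
    have := dist_triangle_right y y' y₀
    linarith
  have ori : ∀ y ∈ N ∩ Metric.ball y₀ e, ∀ ξ ∈ Icc (-m) m, hh gp gm y ξ ∈ N ∩ Metric.ball y₀ e →
      JoinedIn (B \ {hh gp gm y ξ}) (hh gp gm y m) (gp (hh gp gm y ξ) m) ∧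
      JoinedIn (B \ {hh gp gm y ξ}) (hh gp gm y (-m)) (gm (hh gp gm y ξ) m) := by
    intro y hy ξ hξ hy1
    have := H1 y hy.1 ξ hξ ((close y hy _ hy1).trans_le e1)
    exact hor y hy.1 ξ (this.trans_le (min_le_left _ _)) (this.trans_le (min_le_right _ _)) hy1.1
  have fw : ∀ y ∈ N ∩ Metric.ball y₀ e, ∀ ξ ∈ Icc (-m) m, hh gp gm y ξ ∈ N ∩ Metric.ball y₀ e →
      ∀ ζ ∈ Icc ξ m, μ (hh gp gm y '' Icc ξ ζ) ≤ m →
        gp (hh gp gm y ξ) (μ (hh gp gm y '' Icc ξ ζ)) = hh gp gm y ζ := by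
    intro y hy ξ hξ hy1
    exact (follow hA hW hL ((hh_arc hR hy.1).sub hξ.1 hξ.2 le_rfl) (hR.arcp _ hy1.1).1
      (hR.arcp _ hy1.1).2.1 (ori y hy ξ hξ hy1).1).1
  have img : ∀ (y : Y) (ξ ζ : ℝ),
      (fun r => hh gp gm y (-r)) '' Icc (-ξ) ζ = hh gp gm y '' Icc (-ζ) ξ := by
    intro y ξ ζ
    have := image_neg_Icc (hh gp gm y) (-ζ) ξ
    rwa [neg_neg] at this
  have bw : ∀ y ∈ N ∩ Metric.ball y₀ e, ∀ ξ ∈ Icc (-m) m, hh gp gm y ξ ∈ N ∩ Metric.ball y₀ e →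
      (∀ ζ ∈ Icc (-ξ) m, μ (hh gp gm y '' Icc (-ζ) ξ) ≤ m →
        gm (hh gp gm y ξ) (μ (hh gp gm y '' Icc (-ζ) ξ)) = hh gp gm y (-ζ)) ∧
      (∀ t, 0 ≤ t → t ≤ m → t ≤ μ (hh gp gm y '' Icc (-m) ξ) → ∃ ζ ∈ Icc (-ξ) m,
        μ (hh gp gm y '' Icc (-ζ) ξ) = t ∧ gm (hh gp gm y ξ) t = hh gp gm y (-ζ)) ∧
      StrictMonoOn (fun ζ => μ (hh gp gm y '' Icc (-ζ) ξ)) (Icc (-ξ) m) := by
    intro y hy ξ hξ hy1
    have arc := ((hh_arc hR hy.1).sub le_rfl hξ.1 hξ.2).rev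
    rw [neg_neg] at arc
    have h := follow hA hW hL arc (hR.arcm _ hy1.1).1
      (by rw [neg_neg]; exact (hR.arcm _ hy1.1).2.1)
      (by rw [neg_neg]; exact (ori y hy ξ hξ hy1).2)
    simp only [img] at h
    exact ⟨h.1, h.2.1, h.2.2.1⟩
  refine ⟨N ∩ Metric.ball y₀ e, hh gp gm, ⟨hy₀, Metric.mem_ball_self e0⟩,
    { pos := hm
      op := hR.op.inter Metric.isOpen_ball
      cont := (hh_cont hR).mono (prod_mono inter_subset_left subset_rfl)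
      zero := fun y hy => hh_zero hR hy.1
      uf := fun ε hε => ?_
      back := fun y hy ξ hξ hy1 => ?_
      behind := fun y hy ξ ξ' x0 x1 x2 hy1 => ?_
      ahead := fun y hy ξ₁ ξ₂ x0 x1 x2 hy1 hy2 => ?_
      loc := fun y hy y' hj => ?_ }⟩
  · obtain ⟨δ, hδ, H⟩ := hh_uf hW hU hR hε
    exact ⟨δ, hδ, fun y hy => H y hy.1⟩
  · rcases le_total 0 ξ with h0 | h0
    · have h := (bw y hy ξ hξ hy1).1 0 ⟨by linarith, hm.le⟩
      rw [neg_zero, img_pos hR hy.1, (hR.arcp y hy.1).1.size ξ ⟨h0, hξ.2⟩] at h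
      rw [hh_neg h0, h hξ.2, hh_zero hR hy.1]
    · have h := fw y hy ξ hξ hy1 0 ⟨h0, hm.le⟩
      have s : μ (hh gp gm y '' Icc ξ 0) = -ξ := by
        have := img_neg (gp := gp) (gm := gm) (y := y) (-ξ)
        rw [neg_neg] at this
        rw [this, (hR.arcm y hy.1).1.size (-ξ) ⟨by linarith, by linarith [hξ.1]⟩]
      rw [s] at h
      rw [hh_pos hR hy1.1 (by linarith), h (by linarith [hξ.1]), hh_zero hR hy.1]
  · have hξ : ξ ∈ Icc (-m) m := ⟨by linarith, by linarith⟩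
    obtain ⟨-, h2, h3⟩ := bw y hy ξ hξ hy1
    have big : ∀ ζ ∈ Icc 0 m, ζ < μ (hh gp gm y '' Icc (-ζ) ξ) := by
      intro ζ hζ
      obtain ⟨h4, -, -⟩ := hA Y B μ hW
      obtain ⟨_, -, hs, -⟩ := h4 _ _ _ ((hh_arc hR hy.1).sub (u := -ζ) (v := ξ)
        (by linarith [hζ.2]) (by linarith [hζ.1]) hξ.2)
      have := hs (a := 0) (b := ξ) ⟨by linarith [hζ.1], x0.le⟩ ⟨by linarith [hζ.1], le_rfl⟩ x0
      simp only at this
      rwa [img_neg, (hR.arcm y hy.1).1.size ζ hζ] at this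
    obtain ⟨ζ, hζ, s, eζ⟩ := h2 ξ' (by linarith) x2
      (x2.trans (big m ⟨hm.le, le_rfl⟩).le)
    have z0 : 0 ≤ ζ := by
      by_contra hn
      have := h3 hζ (b := 0) ⟨by linarith, hm.le⟩ (not_le.1 hn)
      simp only at this
      rw [s, neg_zero, img_pos hR hy.1, (hR.arcp y hy.1).1.size ξ ⟨x0.le, hξ.2⟩] at this
      linarith
    refine ⟨ζ, ⟨z0, ?_⟩, ?_⟩
    · rw [← s]; exact big ζ ⟨z0, hζ.2⟩
    · rw [hh_neg (y := hh gp gm y ξ) (by linarith), eζ]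
  · have hξ : ξ₁ ∈ Icc (-m) m := ⟨x0, by linarith⟩
    have arc := (hh_arc hR hy.1).sub x0 x1.le x2
    have sm : μ (hh gp gm y '' Icc ξ₁ ξ₂) ≤ m :=
      size_le hW (x := hh gp gm y ξ₁) ⟨_, mem_image_of_mem _ ⟨le_rfl, x1.le⟩⟩ (by
        rintro _ ⟨r, hr, rfl⟩
        rw [dist_comm]
        exact (H2 _ _ _ arc ((close _ hy1 _ hy2).trans_le e2) r hr).le)
    have s0 : 0 < μ (hh gp gm y '' Icc ξ₁ ξ₂) := by
      obtain ⟨h4, -, -⟩ := hA Y B μ hW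
      obtain ⟨_, -, hs, -⟩ := h4 _ _ _ arc
      have := hs (a := ξ₁) (b := ξ₂) ⟨le_rfl, x1.le⟩ ⟨x1.le, le_rfl⟩ x1
      simp only at this
      rwa [Icc_self, image_singleton, hW.zero] at this
    exact ⟨_, ⟨s0, sm⟩, by rw [hh_pos hR hy1.1 s0.le, fw y hy ξ₁ hξ hy1 ξ₂ ⟨x1.le, x2⟩ sm]⟩
  · by_cases hyy : y' = y
    · exact ⟨0, ⟨by linarith, hm.le⟩, by rw [hh_zero hR hy.1, hyy]⟩
    obtain ⟨γ, hγ, g0, g1⟩ := exists_pathIn hj
    obtain ⟨c, hc, c0, c1⟩ := hArc Y γ 0 1 zero_le_one hγ.cont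
      (by rw [g0, g1]; exact Ne.symm hyy)
    rw [g0] at c0
    rw [g1] at c1
    have hcN : ArcIn (N ∩ Metric.ball y₀ e) c 0 1 := hc.mono hγ.image_subset
    have hcB : ArcIn B c 0 1 := hcN.mono fun z hz => hR.sub hz.1
    have sm : μ (c '' Icc 0 1) ≤ m :=
      size_le hW (x := y) ⟨_, mem_image_of_mem _ ⟨le_rfl, zero_le_one⟩⟩ (by
        rintro _ ⟨r, hr, rfl⟩
        exact ((close _ (hcN.path.mem hr) _ hy).trans_le e3).le)
    have s0 : 0 ≤ μ (c '' Icc 0 1) := by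
      have := hW.mono {y} (c '' Icc 0 1) (singleton_nonempty y)
        (singleton_subset_iff.2 ⟨0, ⟨le_rfl, zero_le_one⟩, c0⟩)
      rwa [hW.zero] at this
    rcases dir hL hR hy.1 (hj.mono fun z hz => hR.sub hz.1) hyy with h | h
    · have := (follow hA hW hL hcB (hR.arcp y hy.1).1 (by rw [c0]; exact (hR.arcp y hy.1).2.1)
        (by rw [c0, c1]; exact h)).1 1 ⟨zero_le_one, le_rfl⟩ sm
      exact ⟨_, ⟨by linarith, sm⟩, by rw [hh_pos hR hy.1 s0, this, c1]⟩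
    · have := (follow hA hW hL hcB (hR.arcm y hy.1).1 (by rw [c0]; exact (hR.arcm y hy.1).2.1)
        (by rw [c0, c1]; exact h)).1 1 ⟨zero_le_one, le_rfl⟩ sm
      exact ⟨-μ (c '' Icc 0 1), ⟨by linarith, by linarith⟩, by rw [hh_neg s0, this, c1]⟩

end Pool.Agent.MP_0c1703_gt.H59
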