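import Pool.Agent.MP_0c1703_gt.H59.Kit

/-! A pole of the second suspension structure on an open fibre of the first one. -/

namespace Pool.Agent.MP_0c1703_gt.H59

open Set Filter Topology Pool.Agent.MP_0c1703_gt.H58
open scoped Real

theorem sPole : SCoord → SFlow → SPole := by
  intro hC hF Z Y V _ _ _ _ _ _ n p n' p' q q' y₀ θ₀ S S' hθ₀ hn'
  have : Nonempty Y := ⟨y₀⟩
  obtain ⟨-, -, pr, th, -, cpr, e1, e2, e3, e4⟩ := hC Z Y n p q S
  have off : ∀ y, ∀ θ ∈ Ioo 0 π, q (y, θ) ∈ ({n, p}ᶜ : Set Z) := fun y θ h =>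
    (e4 _).2 (by rwa [e1 y θ (Ioo_subset_Icc_self h)])
  have hn0 : n' ∈ ({n, p}ᶜ : Set Z) := hn' ▸ off _ _ hθ₀
  have : Nonempty V := by
    rcases S'.surj n with h | h | ⟨v, -⟩
    · exact absurd (Or.inl h.symm) hn0
    · rcases S'.surj p with h' | h' | ⟨v, -⟩
      · exact absurd (Or.inr h'.symm) hn0
      · exact absurd (h.trans h'.symm) S.ne
      · exact ⟨v⟩
    · exact ⟨v⟩
  obtain ⟨-, -, pr', th', cth', -, f1, -, f3, -⟩ := hC Z V n' p' q' S'
  have hy₀ : pr n' = y₀ := hn' ▸ e2 _ _ hθ₀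
  have cq : ∀ y, Continuous fun θ : ℝ => q (y, θ) := fun y => S.cont.comp (by fun_prop)
  have cq' : ∀ v, Continuous fun t : ℝ => q' (v, t) := fun v => S'.cont.comp (by fun_prop)
  have ends : ∀ z, th' z ∉ Ioo 0 π → (z = n' ∨ z = p') ∧ ∀ v, q' (v, th' z) = z := fun z h => by
    have h1 := (f3 z).2
    rcases eq_endpoints_or_mem_Ioo_of_mem_Icc (f3 z).1 with h0 | h0 | h0
    · rw [h0, S'.zero] at h1
      exact ⟨Or.inl h1.symm, fun v => by rw [h0, S'.zero, h1]⟩
    · rw [h0, S'.pi] at h1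
      exact ⟨Or.inr h1.symm, fun v => by rw [h0, S'.pi, h1]⟩
    · exact absurd h0 h
  have path : ∀ (B : Set Y) (z : Z), (∀ u ∈ Icc 0 (th' z), q' (pr' z, u) ∈ ({n, p}ᶜ : Set Z) ∧
      pr (q' (pr' z, u)) ∈ B) → JoinedIn B y₀ (pr z) := fun B z h => by
    have h1 : PathIn B (fun u => pr (q' (pr' z, u))) 0 (th' z) :=
      ⟨(f3 z).1.1, cpr.comp (cq' _).continuousOn fun u hu => (h u hu).1, fun u hu => (h u hu).2⟩
    have := h1.joined (left_mem_Icc.2 h1.le) (right_mem_Icc.2 h1.le)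
    rwa [S'.zero, hy₀, (f3 z).2] at this
  refine ⟨⟨{pr n', pr p', pr (q' (pr' n, (th' n + th' p) / 2)),
    pr (q' (pr' p, (th' n + th' p) / 2))}, toFinite _, fun y hy => ?_⟩, fun U hU => ?_⟩
  · simp only [mem_insert_iff, mem_singleton_iff, not_or] at hy
    obtain ⟨y1, y2, y3, y4⟩ := hy
    have key : ∃ θ ∈ Ioo 0 π, q' (pr' n, th' (q (y, θ))) ≠ q (y, θ) ∧
        q' (pr' p, th' (q (y, θ))) ≠ q (y, θ) := by
      by_contra hk
      push Not at hk
      have hI : ∀ θ ∈ Icc 0 π, q (y, θ) ≠ n → q (y, θ) ≠ p → θ ∈ Ioo 0 π := fun θ h h1 h2 => by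
        rcases eq_endpoints_or_mem_Ioo_of_mem_Icc h with rfl | rfl | h0
        exacts [absurd (S.zero y) h1, absurd (S.pi y) h2, h0]
      by_cases ht : th' n = th' p
      · have cl : ∀ v, IsClosed {θ : ℝ | q' (v, th' (q (y, θ))) = q (y, θ)} := fun v =>
          isClosed_eq ((cq' v).comp (cth'.comp (cq y))) (cq y)
        obtain ⟨θ, h0, h1, h2⟩ := isPreconnected_closed_iff.1 (isPreconnected_Icc (a := 0) (b := π))
          _ _ (cl (pr' n)) (cl (pr' p)) (fun θ h => by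
            rcases eq_endpoints_or_mem_Ioo_of_mem_Icc h with rfl | rfl | h0
            · exact Or.inl (by rw [mem_ofPred_eq, S.zero]; exact (f3 n).2)
            · exact Or.inr (by rw [mem_ofPred_eq, S.pi]; exact (f3 p).2)
            · exact or_iff_not_imp_left.2 (hk θ h0))
          ⟨0, left_mem_Icc.2 Real.pi_pos.le, by rw [mem_ofPred_eq, S.zero]; exact (f3 n).2⟩
          ⟨π, right_mem_Icc.2 Real.pi_pos.le, by rw [mem_ofPred_eq, S.pi]; exact (f3 p).2⟩
        rw [mem_ofPred_eq] at h1 h2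
        have h3 := hI θ h0 (fun e => S.ne (by rw [e, ht, (f3 p).2] at h2; exact h2.symm))
          fun e => S.ne (by rw [e, ← ht, (f3 n).2] at h1; exact h1)
        have h4 : th' (q (y, θ)) ∉ Ioo 0 π := fun h => S.ne (by
          rw [← (f3 n).2, (S'.inj _ _ _ _ h (Ioo_subset_Icc_self h) (h1.trans h2.symm)).1, ht,
            (f3 p).2])
        rcases (ends _ h4).1 with h | h
        · exact y1 (by rw [← h, e2 _ _ h3])
        · exact y2 (by rw [← h, e2 _ _ h3])
      · have hm : (th' n + th' p) / 2 ∈ uIcc (th' (q (y, 0))) (th' (q (y, π))) := by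
          rw [S.zero, S.pi, mem_uIcc]
          rcases le_total (th' n) (th' p) with h | h
          · exact Or.inl ⟨by linarith, by linarith⟩
          · exact Or.inr ⟨by linarith, by linarith⟩
        obtain ⟨θ, h0, h1⟩ := intermediate_value_uIcc (cth'.comp (cq y)).continuousOn hm
        rw [uIcc_of_le Real.pi_pos.le] at h0
        have h1 : th' (q (y, θ)) = (th' n + th' p) / 2 := h1
        have h3 := hI θ h0 (fun e => ht (by rw [e] at h1; linarith))
          fun e => ht (by rw [e] at h1; linarith)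
        rcases or_iff_not_imp_left.2 (hk θ h3) with h | h
        · exact y3 (by rw [← h1, h, e2 _ _ h3])
        · exact y4 (by rw [← h1, h, e2 _ _ h3])
    obtain ⟨θ, hθ, k1, k2⟩ := key
    obtain ⟨z, hz⟩ : ∃ z, z = q (y, θ) := ⟨_, rfl⟩
    rw [← hz] at k1 k2
    have hy : pr z = y := hz ▸ e2 _ _ hθ
    have ht : th' z ∈ Ioo 0 π := by
      by_contra h
      exact k1 ((ends z h).2 _)
    have miss : ∀ u ∈ Icc 0 (th' z), q' (pr' z, u) ∈ ({n, p}ᶜ : Set Z) := fun u hu => by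
      rcases hu.1.eq_or_lt with rfl | h0
      · rwa [S'.zero]
      have h1 : u ∈ Ioo 0 π := ⟨h0, hu.2.trans_lt ht.2⟩
      rintro (h | h)
      · exact k1 (by rw [← (S'.inj _ _ _ _ h1 (f3 n).1 (h.trans (f3 n).2.symm)).1, (f3 z).2])
      · exact k2 (by rw [← (S'.inj _ _ _ _ h1 (f3 p).1 (h.trans (f3 p).2.symm)).1, (f3 z).2])
    refine ⟨?_, joinedIn_univ.1 (hy ▸ path univ z fun u hu => ⟨miss u hu, trivial⟩)⟩
    have hc : ContinuousWithinAt (fun u => pr (q' (pr' z, u))) (Ioc 0 (th' z)) 0 :=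
      ((cpr.comp (cq' _).continuousOn miss) 0 (left_mem_Icc.2 ht.1.le)).mono Ioc_subset_Icc_self
    have hne : ∀ᶠ u in 𝓝[Ioc 0 (th' z)] 0, pr (q' (pr' z, u)) ≠ y :=
      hc.eventually_ne (by simp only [S'.zero]; exact Ne.symm y1)
    have := left_nhdsWithin_Ioc_neBot ht.1
    obtain ⟨t', h1, h2⟩ := (hne.and self_mem_nhdsWithin).exists
    refine hF Z Y V n p n' p' q q' S S' (pr' z) (th' z) t' y _ θ _ (fun u hu => ?_) hθ
      ((e4 _).1 (miss t' (Ioc_subset_Icc_self h2))) ((f3 z).2.trans hz) (e3 _).2.symm h1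
    rw [uIcc_of_ge h2.2] at hu
    have := miss u ⟨h2.1.le.trans hu.1, hu.2⟩
    exact ⟨⟨h2.1.trans_le hu.1, hu.2.trans_lt ht.2⟩, fun e => this (Or.inl e),
      fun e => this (Or.inr e)⟩
  · have hO : IsOpen (({n, p}ᶜ : Set Z) ∩ pr ⁻¹' interior U) :=
      cpr.isOpen_inter_preimage (toFinite _).isClosed.isOpen_compl isOpen_interior
    have h1 : ∀ᶠ u in 𝓝 (0 : ℝ), ∀ v ∈ univ, q' (v, u) ∈ ({n, p}ᶜ : Set Z) ∩ pr ⁻¹' interior U :=
      isCompact_univ.eventually_forall_of_forall_eventually fun v _ =>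
        (S'.cont.comp continuous_swap).continuousAt.preimage_mem_nhds (hO.mem_nhds (by
          rw [Function.comp_apply, Prod.swap_prod_mk, S'.zero]
          exact ⟨hn0, by rw [mem_preimage, hy₀]; exact mem_interior_iff_mem_nhds.2 hU⟩))
    obtain ⟨ε, hε, h2⟩ := Metric.eventually_nhds_iff.1 h1
    have h3 : th' (q (y₀, θ₀)) < ε := by
      rwa [← hn', ← S'.zero (pr' n), f1 _ _ (left_mem_Icc.2 Real.pi_pos.le)]
    refine ⟨{y | th' (q (y, θ₀)) < ε}, (isOpen_lt (cth'.comp (S.cont.comp (by fun_prop)))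
      continuous_const).mem_nhds h3, fun y hy => ?_⟩
    rw [← e2 y θ₀ hθ₀]
    refine path U _ fun u hu => ?_
    have := h2 (y := u) (by rw [Real.dist_eq, sub_zero, abs_of_nonneg hu.1]; exact hu.2.trans_lt hy)
      (pr' (q (y, θ₀))) trivial
    exact ⟨this.1, interior_subset this.2⟩

end Pool.Agent.MP_0c1703_gt.H59
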