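import Pool.Agent.MP_0c1703_gt.H59.Kit

/-! The balance point of a fibre depends continuously on the fibre. -/

namespace Pool.Agent.MP_0c1703_gt.H59

open Set Filter Topology

theorem sPsi1 : SLeaf → SLB → SBal1 → SBal2 → SPsi1 := by
  intro hLeaf hLB hB1 hB2 Y V _ _ δ Γ Θ A τ a₀ a₁ b₁ b₀ α β hμ hP
  have hab : ∀ _ : V, a₀ ≤ b₀ := fun v =>
    (hP.ht v).le₁.trans ((hP.ht v).le₂.trans (hP.ht v).le₃)
  have loc : ∀ v, HasBox (Γ (v, a₀)) → ∃ (N : Set V) (g : V → Y), IsOpen N ∧ v ∈ N ∧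
      ContinuousOn g N ∧ ∀ v' ∈ N, Rel δ Γ Θ a₀ b₀ v' (g v') := by
    intro v hb
    have hall : ∀ t ∈ Icc a₀ b₀, HasBox (Γ (v, t)) := by
      rcases hP.dich v with h | h
      · exact h
      · exact fun t ht => (h t ht).symm ▸ hb
    obtain ⟨C, _, h, N, κ, x, hbox, hN, hv, hκ, hx, he⟩ := hLB Y V Γ v a₀ b₀ (hab v) hP.cΓ hall
    have hleaf := (hLeaf Y).1 C h hbox
    obtain ⟨N', ξ, hN', hv', hsub, hξ, hbal⟩ := hB2 Y C V δ h N v κ x Θ a₀ b₀ hμ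
      hbox.loc.continuous hleaf (hab v) hN hv hκ hx
      (hP.cΘ.mono (prod_mono (subset_univ _) Subset.rfl))
    refine ⟨N', fun v' => h (κ v', ξ v'), hN', hv',
      hbox.loc.continuous.comp_continuousOn ((hκ.mono hsub).prodMk hξ), fun v' h' => ?_⟩
    have hx' : ContinuousOn (fun t => x (v', t)) (Icc a₀ b₀) :=
      hx.comp (Continuous.prodMk_right v').continuousOn fun t ht => ⟨hsub h', ht⟩
    obtain ⟨t₁, ht₁, e⟩ := (hB1 Y δ _ _ _ a₀ b₀ hμ (hleaf (κ v')) (hab v) hx'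
      (hP.ht v').cont).2.1 _ (hbal v' h')
    refine Or.inl ⟨⟨C, inferInstance, h, hbox, _,
      (he v' (hsub h') a₀ ⟨le_rfl, hab v⟩).symm⟩, fun u => h (κ v', u), fun t => x (v', t), t₁,
      hleaf (κ v'), hx', he v' (hsub h'), ht₁, ?_, ?_⟩
    · have := hbal v' h'
      rwa [e] at this
    · rw [he v' (hsub h') t₁ ht₁, ← e]
  have uniq : ∀ v y y', Rel δ Γ Θ a₀ b₀ v y → Rel δ Γ Θ a₀ b₀ v y' → y = y' := by
    rintro v y y' (⟨hb, c, x, t, hc, hx, he, ht, hbal, rfl⟩ | ⟨hb, rfl⟩)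
      (⟨hb', c', x', t', hc', hx', he', ht', hbal', rfl⟩ | ⟨hb', rfl⟩)
    · have h1 := (hB1 Y δ c x _ a₀ b₀ hμ hc (hab v) hx (hP.ht v).cont).2.2 c' x' hc' hx'
        (fun s hs => (he s hs).symm.trans (he' s hs)) t ht hbal
      have h2 := (hB1 Y δ c' x' _ a₀ b₀ hμ hc' (hab v) hx' (hP.ht v).cont).1 _ _ h1 hbal'
      rw [he' t ht, he' t' ht', h2]
    · exact absurd hb hb'
    · exact absurd hb' hb
    · rfl
  have ex : ∀ v, ∃ y, Rel δ Γ Θ a₀ b₀ v y := by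
    intro v
    by_cases hb : HasBox (Γ (v, a₀))
    · obtain ⟨N, g, -, hv, -, hr⟩ := loc v hb
      exact ⟨_, hr v hv⟩
    · exact ⟨_, Or.inr ⟨hb, rfl⟩⟩
  choose Ψ hΨ using ex
  refine ⟨Ψ, continuous_iff_continuousAt.2 fun v => ?_,
    fun v y => ⟨fun h => uniq v _ _ h (hΨ v), fun h => h ▸ hΨ v⟩⟩
  by_cases hb : HasBox (Γ (v, a₀))
  · obtain ⟨N, g, hN, hv, hg, hr⟩ := loc v hb
    refine (hg.continuousAt (hN.mem_nhds hv)).congr ?_
    filter_upwards [hN.mem_nhds hv] with v' h' using uniq v' _ _ (hr v' h') (hΨ v')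
  · have hc : ∀ t ∈ Icc a₀ b₀, Γ (v, t) = Ψ v := by
      rcases hP.dich v with h | h
      · exact absurd (h a₀ ⟨le_rfl, hab v⟩) hb
      · exact fun t ht => (h t ht).trans (uniq v _ _ (Or.inr ⟨hb, rfl⟩) (hΨ v))
    intro U hU
    have h1 : ∀ᶠ v' in 𝓝 v, ∀ t ∈ Icc a₀ b₀, (t ∈ Icc a₀ b₀ → Γ (v', t) ∈ U) := by
      refine isCompact_Icc.eventually_forall_of_forall_eventually fun t ht => ?_
      have h2 := hP.cΓ (v, t) ⟨mem_univ _, ht⟩ (show U ∈ 𝓝 (Γ (v, t)) by rwa [hc t ht])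
      filter_upwards [eventually_nhdsWithin_iff.1 h2] with z hz hz' using hz ⟨mem_univ _, hz'⟩
    refine Filter.mem_map.2 ?_
    filter_upwards [h1] with v' h'
    show Ψ v' ∈ U
    rcases hΨ v' with ⟨-, c, x, t, -, -, -, ht, -, e⟩ | ⟨-, e⟩
    · exact e ▸ h' t ht ht
    · exact e ▸ h' a₀ ⟨le_rfl, hab v⟩ ⟨le_rfl, hab v⟩

end Pool.Agent.MP_0c1703_gt.H59
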