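import Pool.Agent.MP_0c1703_gt.H59.Kit

/-! Different fibres have different balance points. -/

namespace Pool.Agent.MP_0c1703_gt.H59

open Set Filter Topology
open scoped Real

namespace Psi2A

theorem zig {a b t u : ℝ} (ht : t ∈ Icc a b) (hu : u ∈ Icc 0 (t - a + (b - a))) :
    a + |u - (t - a)| ∈ Icc a b :=
  ⟨le_add_of_nonneg_right (abs_nonneg _), by
    have : |u - (t - a)| ≤ b - a := abs_le.2 ⟨by linarith [hu.1, ht.2], by linarith [hu.2]⟩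
    linarith⟩

variable {Y : Type} [MetricSpace Y]

theorem path {γ : ℝ → Y} {a b t : ℝ} (ht : t ∈ Icc a b) (hγ : ContinuousOn γ (Icc a b))
    (hb : ∀ u ∈ Icc a b, HasBox (γ u)) :
    PathIn {y | HasBox y} (fun u => γ (a + |u - (t - a)|)) 0 (t - a + (b - a)) :=
  ⟨by linarith [ht.1, ht.2], hγ.comp (by fun_prop) fun _ hu => zig ht hu,
    fun _ hu => hb _ (zig ht hu)⟩

theorem leg (hL : SLeaf) {c γ : ℝ → Y} {X : ℝ → ℝ} {a b t : ℝ} (hc : Leaf c) (ht : t ∈ Icc a b)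
    (hX : ContinuousOn X (Icc 0 (t - a + (b - a))))
    (e : ∀ u ∈ Icc 0 (t - a + (b - a)), γ (a + |u - (t - a)|) = c (X u)) :
    ∃ x : ℝ → ℝ, ContinuousOn x (Icc a b) ∧ (∀ s ∈ Icc a b, γ s = c (x s)) ∧ x t = X 0 := by
  have m : MapsTo (fun s => t - a + (s - a)) (Icc a b) (Icc 0 (t - a + (b - a))) := fun s hs =>
    ⟨by linarith [ht.1, hs.1], by linarith [hs.2]⟩
  have h1 : ContinuousOn (fun s => X (t - a + (s - a))) (Icc a b) := hX.comp (by fun_prop) m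
  have h2 : ∀ s ∈ Icc a b, γ s = c (X (t - a + (s - a))) := fun s hs => by
    rw [← e _ (m hs), add_sub_cancel_left, abs_of_nonneg (sub_nonneg.2 hs.1), add_sub_cancel]
  refine ⟨_, h1, h2, ?_⟩
  have := (hL Y).2.1 c (fun u => X (t - a + (a + |u - (t - a)| - a))) X 0 _ hc
    (h1.comp (f := fun u => a + |u - (t - a)|) (by fun_prop) fun _ hu => zig ht hu) hX
    (fun u hu => by rw [← h2 _ (zig ht hu), e u hu]) (t - a)
    ⟨by linarith [ht.1], by linarith [ht.1, ht.2]⟩ (by simp) 0 ⟨le_rfl, by linarith [ht.1, ht.2]⟩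
  rwa [zero_sub, abs_neg, abs_of_nonneg (sub_nonneg.2 ht.1), add_sub_cancel] at this

theorem both (hL : SLeaf) (hB : SLB) {γ γ' : ℝ → Y} {a b t t' : ℝ} (ht : t ∈ Icc a b)
    (ht' : t' ∈ Icc a b) (hγ : ContinuousOn γ (Icc a b)) (hγ' : ContinuousOn γ' (Icc a b))
    (hb : ∀ u ∈ Icc a b, HasBox (γ u)) (hb' : ∀ u ∈ Icc a b, HasBox (γ' u)) (e : γ t = γ' t') :
    ∃ (c : ℝ → Y) (x x' : ℝ → ℝ), Leaf c ∧ ContinuousOn x (Icc a b) ∧ ContinuousOn x' (Icc a b) ∧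
      (∀ s ∈ Icc a b, γ s = c (x s)) ∧ (∀ s ∈ Icc a b, γ' s = c (x' s)) ∧ x t = x' t' := by
  have e0 : γ (a + |0 - (t - a)|) = γ' (a + |0 - (t' - a)|) := by
    rwa [zero_sub, zero_sub, abs_neg, abs_neg, abs_of_nonneg (sub_nonneg.2 ht.1),
      abs_of_nonneg (sub_nonneg.2 ht'.1), add_sub_cancel, add_sub_cancel]
  have p := path ht hγ hb
  have p' := path ht' hγ' hb'
  have q := p.cat p' e0
  obtain ⟨C, _, h, N, κ, X, hh, -, hN, -, hX, hl⟩ := hB Y Unit (fun w => cat _ 0 _ 0 w.2) () _ _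
    q.le (q.cont.comp continuous_snd.continuousOn fun _ hw => hw.2) q.mem
  have hc := (hL Y).1 C h hh (κ ())
  have m : ∀ u ∈ Icc 0 (t - a + (b - a)),
      -u ∈ Icc (0 - (t - a + (b - a))) (t' - a + (b - a) - 0) := fun u hu =>
    ⟨by linarith [hu.2], by linarith [hu.1, p'.le]⟩
  have m' : ∀ u ∈ Icc 0 (t' - a + (b - a)),
      u ∈ Icc (0 - (t - a + (b - a))) (t' - a + (b - a) - 0) := fun u hu =>
    ⟨by linarith [hu.1, p.le], by linarith [hu.2]⟩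
  obtain ⟨x, h1, h2, h3⟩ := leg hL (γ := γ) (X := fun u => X ((), -u)) hc ht
    (hX.comp (by fun_prop) fun u hu => ⟨hN, m u hu⟩) fun u hu => by
      rw [← hl () hN _ (m u hu), cat_of_nonpos (neg_nonpos.2 hu.1), zero_sub (-u), neg_neg]
  obtain ⟨x', h1', h2', h3'⟩ := leg hL (γ := γ') (X := fun u => X ((), u)) hc ht'
    (hX.comp (by fun_prop) fun u hu => ⟨hN, m' u hu⟩) fun u hu => by
      rw [← hl () hN _ (m' u hu), cat_of_nonneg (by exact e0) hu.1, zero_add]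
  exact ⟨_, x, x', hc, h1, h1', h2, h2', by rw [h3, h3', neg_zero]⟩

end Psi2A

open Psi2A in
theorem sPsi2 : SLeaf → SLB → SBal1 → SCmp → SPsi2 := by
  intro hL hB hBal hC Y V _ _ δ Γ Θ A τ a₀ a₁ b₁ b₀ α β hδ P v v' y R R'
  have ab : a₀ ≤ b₀ := (P.ht v).le₁.trans ((P.ht v).le₂.trans (P.ht v).le₃)
  have box : ∀ w, HasBox (Γ (w, a₀)) → ∀ t ∈ Icc a₀ b₀, HasBox (Γ (w, t)) := fun w hw t ht =>
    (P.dich w).elim (fun h => h t ht) fun h => h t ht ▸ hw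
  have cΓ : ∀ w, ContinuousOn (fun t => Γ (w, t)) (Icc a₀ b₀) := fun w =>
    P.cΓ.comp (by fun_prop) fun t ht => ⟨trivial, ht⟩
  have un : ∀ w, ¬ HasBox (Γ (w, a₀)) →
      ∃ t ∈ Icc a₀ b₀, Γ (w, t) = Γ (w, a₀) ∧ Θ (w, t) = π / 2 := fun w hw => by
    have H := P.ht w
    obtain ⟨t, ht, e⟩ := intermediate_value_Icc ab H.cont (show π / 2 ∈ _ from
      ⟨by linarith [H.start, H.lo, Real.pi_pos], by linarith [H.stop, H.hi, Real.pi_pos]⟩)
    exact ⟨t, ht, (P.dich w).resolve_left (fun h => hw (h _ ⟨le_rfl, ab⟩)) t ht, e⟩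
  rcases R with ⟨h, c, x, t, hc, hx, e, ht, b, rfl⟩ | ⟨h, rfl⟩ <;>
    rcases R' with ⟨h', c', x', t', hc', hx', e', ht', b', q⟩ | ⟨h', q⟩
  · by_contra hne
    obtain ⟨d, z, z', hd, hz, hz', f, f', g⟩ :=
      both hL hB ht ht' (cΓ v) (cΓ v') (box v h) (box v' h') q
    have B := (hBal Y δ c x _ a₀ b₀ hδ hc ab hx (P.ht v).cont).2.2 d z hd hz
      (fun s hs => (e s hs).symm.trans (f s hs)) t ht b
    have B' := (hBal Y δ c' x' _ a₀ b₀ hδ hc' ab hx' (P.ht v').cont).2.2 d z' hd hz'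
      (fun s hs => (e' s hs).symm.trans (f' s hs)) t' ht' b'
    rcases hC Y δ d z _ z' _ a₀ a₁ b₁ b₀ α β _ _ hδ hd (P.ht v) (P.ht v') hz hz'
      (fun s hs s' hs' k => hne (P.inj v v' s hs s' hs'
        ((f s hs).trans (k.1 ▸ (f' s' hs').symm)) k.2).1) B B' with k | k
    · exact k.1.ne g
    · exact k.1.ne' g
  · exact absurd (q ▸ box v h t ht) h'
  · exact absurd (q ▸ box v' h' t' ht') h
  · obtain ⟨t, ht, e, f⟩ := un v h
    obtain ⟨t', ht', e', f'⟩ := un v' h'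
    exact (P.inj v v' t ht t' ht' (e.trans (q.trans e'.symm)) (f.trans f'.symm)).1

end Pool.Agent.MP_0c1703_gt.H59
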