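import Pool.Agent.MP_0c1703_gt.H59.Kit

/-! Rays of a fixed size in every direction. -/

namespace Pool.Agent.MP_0c1703_gt.H59

open Set Filter Topology Pool.Agent.MP_0c1703_gt.H58

namespace RayA

variable {Y : Type} [MetricSpace Y] {B : Set Y} {μ : Set Y → ℝ}

theorem restr {g : ℝ → Y} {m m' : ℝ} (h : WArc B μ g m) (h0 : 0 ≤ m') (h1 : m' ≤ m) :
    WArc B μ g m' :=
  ⟨h.arc.sub le_rfl h0 h1, fun ξ hξ => h.size ξ ⟨hξ.1, hξ.2.trans h1⟩⟩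

theorem dir {c : ℝ → Y} {a b u v : ℝ} (h : ArcIn B c a b) (hu : a < u) (hu' : u ≤ b) (hv : a < v)
    (hv' : v ≤ b) : JoinedIn (B \ {c a}) (c u) (c v) :=
  h.joined_diff ⟨le_rfl, h.path.le⟩ ⟨hu.le, hu'⟩ ⟨hv.le, hv'⟩ (Or.inr ⟨hu, hv⟩)

/-- an arc in the direction of `p` gives rays of every size up to its own size -/
theorem ofArc (hWA : SWA) (hμ : Whit μ) {c : ℝ → Y} {a b x m : ℝ} {p : Y} (h : ArcIn B c a b)
    (hx : a ≤ x) (hx' : x < b) (hp : JoinedIn (B \ {c a}) (c b) p)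
    (hm : μ (c '' Icc a x) < m) :
    ∃ m', μ (c '' Icc a x) < m' ∧ 0 < m' ∧ m' ≤ m ∧
      ∃ g : ℝ → Y, WArc B μ g m' ∧ g 0 = c a ∧ JoinedIn (B \ {c a}) (g m') p := by
  obtain ⟨g, hg, hs, hv⟩ := (hWA Y B μ hμ).1 c a b h
  have hab := h.path.le
  have e0 : μ (c '' Icc a a) = 0 := by rw [Icc_self, image_singleton, hμ.zero]
  have g0 : g 0 = c a := e0 ▸ (hv a ⟨le_rfl, hab⟩).2.1
  have g1 := (hv b ⟨hab, le_rfl⟩).2.1
  have l1 : μ (c '' Icc a x) < μ (c '' Icc a b) := hs ⟨hx, hx'.le⟩ ⟨hab, le_rfl⟩ hx'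
  have l0 : 0 ≤ μ (c '' Icc a x) := (hv x ⟨hx, hx'.le⟩).1.1
  have l2 : μ (c '' Icc a x) < min (μ (c '' Icc a b)) m := lt_min l1 hm
  refine ⟨_, l2, l0.trans_lt l2, min_le_right _ _, g,
    restr hg (l0.trans l2.le) (min_le_left _ _), g0, ?_⟩
  have := dir hg.arc (l0.trans_lt l2) (min_le_left _ _) (l0.trans_lt l1) le_rfl
  rw [g0, g1] at this
  exact this.trans hp

theorem arc (hA : SArc) {x y : Y} (h : JoinedIn B x y) (hne : y ≠ x) :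
    ∃ c : ℝ → Y, ArcIn B c 0 1 ∧ c 0 = x ∧ c 1 = y := by
  obtain ⟨γ, hγ, e0, e1⟩ := exists_pathIn h
  obtain ⟨c, hc, c0, c1⟩ := hA Y γ 0 1 zero_le_one hγ.cont (by rw [e0, e1]; exact hne.symm)
  exact ⟨c, hc.mono hγ.image_subset, c0.trans e0, c1.trans e1⟩

/-- a ray can be extended -/
theorem grow (hA : SArc) (hWA : SWA) (hμ : Whit μ) (hB : Lin B) {g : ℝ → Y} {m m₁ : ℝ} {p : Y}
    (hg : WArc B μ g m₁) (h0 : 0 < m₁) (h1 : m₁ < m) (hp : JoinedIn (B \ {g 0}) (g m₁) p) :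
    ∃ m', m₁ < m' ∧ 0 < m' ∧ m' ≤ m ∧
      ∃ g' : ℝ → Y, WArc B μ g' m' ∧ g' 0 = g 0 ∧ JoinedIn (B \ {g 0}) (g' m') p := by
  obtain ⟨y', j', n', hy'⟩ : ∃ y', JoinedIn B (g m₁) y' ∧ y' ≠ g m₁ ∧
      ¬ JoinedIn (B \ {g m₁}) (g 0) y' := by
    obtain ⟨y₁, y₂, j₁, j₂, n₁, n₂, hn⟩ := hB.two _ (hg.arc.path.mem ⟨h0.le, le_rfl⟩)
    by_cases h : JoinedIn (B \ {g m₁}) (g 0) y₁
    · exact ⟨y₂, j₂, n₂, fun h' => hn (h.symm.trans h')⟩
    · exact ⟨y₁, j₁, n₁, h⟩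
  obtain ⟨c', hc', c0, c1⟩ := arc hA j' n'
  have e : (fun r => g (-r)) (-m₁) = c' 0 := by simp [c0]
  have hC := hg.arc.rev.cat hc' e fun u hu v hv euv => by
    by_contra hne
    have hu1 : -u < m₁ := lt_of_le_of_ne (by linarith [hu.1]) fun h => hne (by linarith)
    have hu0 : 0 ≤ -u := by linarith [hu.2]
    have hv0 : 0 < v := lt_of_le_of_ne hv.1 fun h => by
      rw [← h, c0] at euv
      exact hu1.ne (hg.arc.inj ⟨hu0, hu1.le⟩ ⟨h0.le, le_rfl⟩ euv)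
    have a1 := hg.arc.joined_diff ⟨h0.le, le_rfl⟩ ⟨le_rfl, h0.le⟩ ⟨hu0, hu1.le⟩
      (Or.inl ⟨h0, hu1⟩)
    have a2 := dir hc' hv0 hv.2 one_pos le_rfl
    rw [c0, c1, ← euv] at a2
    exact hy' (a1.trans a2)
  set C := cat (fun r => g (-r)) (-m₁) c' 0 with hCdef
  have v0 : ∀ ξ ≤ 0, C ξ = g (m₁ + ξ) := fun ξ hξ => by
    rw [hCdef, cat_of_nonpos hξ]
    congr 1
    ring
  have s0 : C (-m₁ - -0) = g 0 := by rw [v0 _ (by linarith)]; simp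
  have s1 : C 0 = g m₁ := by rw [v0 _ le_rfl, add_zero]
  have im : C '' Icc (-m₁ - -0) 0 = g '' Icc 0 m₁ := by
    ext z
    constructor
    · rintro ⟨r, hr, rfl⟩
      exact ⟨m₁ + r, ⟨by linarith [hr.1], by linarith [hr.2]⟩, (v0 r hr.2).symm⟩
    · rintro ⟨r, hr, rfl⟩
      refine ⟨r - m₁, ⟨by linarith [hr.1], by linarith [hr.2]⟩, ?_⟩
      rw [v0 _ (by linarith [hr.2])]
      simp
  have sz : μ (C '' Icc (-m₁ - -0) 0) = m₁ := by rw [im, hg.size _ ⟨h0.le, le_rfl⟩]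
  have hj := dir hC (u := 1 - 0) (v := 0) (by linarith) le_rfl (by linarith) (by linarith)
  have := ofArc hWA hμ hC (x := 0) (m := m) (p := p) (by linarith) (by linarith)
    (hj.trans (by rw [s0, s1]; exact hp)) (by rw [sz]; exact h1)
  rwa [sz, s0] at this

end RayA

open RayA in
theorem sRay : SArc → SWA → SLim → SRay := by
  intro hA hWA hL Y _ _ B μ y₀ hμ hB hU hy₀
  obtain ⟨r, hr, hrB⟩ := Metric.isOpen_iff.1 hB.op y₀ hy₀
  have hK : Metric.closedBall y₀ (2 * (r / 3)) ⊆ B :=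
    (Metric.closedBall_subset_ball (by linarith)).trans hrB
  obtain ⟨κ, hκ, hκ'⟩ := (hWA Y B μ hμ).2.2 hU (r / 3) (by linarith)
  have small : ∀ (g : ℝ → Y) (m' : ℝ), WArc B μ g m' → m' ≤ κ / 2 → ∀ ξ ∈ Icc 0 m',
      dist (g 0) (g ξ) < r / 3 := fun g m' hg hm ξ hξ =>
    hκ' g m' hg 0 ⟨le_rfl, hξ.1.trans hξ.2⟩ ξ hξ (by
      rw [zero_sub, abs_neg, abs_of_nonneg hξ.1]; linarith [hξ.2])
  refine ⟨r / 3, by linarith, κ / 2, by linarith, hK, fun g hg => small g _ hg le_rfl,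
    fun y hy p hp hne => ?_⟩
  set S : Set ℝ := {m' | 0 < m' ∧ m' ≤ κ / 2 ∧
    ∃ g : ℝ → Y, WArc B μ g m' ∧ g 0 = y ∧ JoinedIn (B \ {y}) (g m') p} with hS
  have hSne : S.Nonempty := by
    obtain ⟨c, hc, c0, c1⟩ := arc hA hp hne
    obtain ⟨m', -, h⟩ := ofArc hWA hμ hc (x := 0) (m := κ / 2) (p := p) le_rfl one_pos
      (by rw [c0, c1]; exact JoinedIn.refl ⟨hp.target_mem, hne⟩)
      (by rw [Icc_self, image_singleton, hμ.zero]; linarith)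
    rw [c0] at h
    exact ⟨m', h⟩
  have hSb : BddAbove S := ⟨κ / 2, fun m' h => h.2.1⟩
  have hmem : sSup S ∈ S := by
    obtain ⟨u, hu, hlim, huS⟩ := exists_seq_tendsto_sSup hSne hSb
    choose g hg g0 gp using fun n => (huS n).2.2
    have hle : (Ultrafilter.of (atTop : Filter ℕ) : Filter ℕ) ≤ atTop := Ultrafilter.of_le _
    obtain ⟨g₀, hg₀, hc⟩ := hL Y B (Metric.closedBall y₀ (2 * (r / 3))) μ ℕ (Ultrafilter.of atTop)
      g u (sSup S) hμ hU Metric.isClosed_closedBall.isCompact hK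
      (Eventually.of_forall fun n => ⟨hg n, fun ξ hξ => by
        have h1 := small _ _ (hg n) (huS n).2.1 ξ hξ
        have h2 := dist_triangle (g n ξ) y y₀
        rw [g0, dist_comm] at h1
        rw [Metric.mem_ball] at hy
        rw [Metric.mem_closedBall]
        linarith⟩) (hlim.mono_left hle)
    have fix : ∀ ξ, 0 ≤ ξ → ξ ≤ u 0 → g₀ ξ = g 0 ξ := fun ξ h0 h1 => by
      have h2 : ∀ n, ξ ≤ u n := fun n => h1.trans (hu (Nat.zero_le n))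
      have h3 := hc (fun _ => ξ) ξ (Eventually.of_forall fun n => ⟨h0, h2 n⟩) tendsto_const_nhds
      have h4 : ∀ n, g n ξ = g 0 ξ := fun n =>
        (hWA Y B μ hμ).2.1 hB (g n) (g 0) (u n) (u 0) (hg n) (hg 0) ((g0 n).trans (g0 0).symm)
          (by rw [g0]; exact (gp n).trans (gp 0).symm) ξ h0 (h2 n) h1
      simp only [h4] at h3
      exact tendsto_nhds_unique h3 tendsto_const_nhds
    have p0 := (huS 0).1
    have p1 : u 0 ≤ sSup S := le_csSup hSb (huS 0)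
    have e0 : g₀ 0 = y := (fix 0 le_rfl p0.le).trans (g0 0)
    refine ⟨p0.trans_le p1, csSup_le hSne fun m' h => h.2.1, g₀, hg₀, e0, ?_⟩
    have := dir hg₀.arc (p0.trans_le p1) le_rfl p0 p1
    rw [e0, fix _ p0.le le_rfl] at this
    exact this.trans (gp 0)
  obtain ⟨h0, h1, g, hg, g0, gp⟩ := hmem
  rcases h1.eq_or_lt with e | h1
  · exact ⟨g, e ▸ hg, g0, e ▸ gp⟩
  · obtain ⟨m', a, h⟩ := grow hA hWA hμ hB hg h0 h1 (p := p) (by rw [g0]; exact gp)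
    rw [g0] at h
    exact absurd (le_csSup hSb h) (not_le.2 a)

end Pool.Agent.MP_0c1703_gt.H59
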