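import Pool.Agent.MP_0c1703_gt.H59.Kit

/-! Two continuous families of rays in opposite directions. -/

namespace Pool.Agent.MP_0c1703_gt.H59

open Set Filter Topology

namespace RaysA

variable {Y : Type} [MetricSpace Y] {B : Set Y} {μ : Set Y → ℝ} {m : ℝ} {y : Y}
  {g g₁ g₂ h₁ h₂ : ℝ → Y}

/-- two rays from y in different directions -/
structure Pr (B : Set Y) (μ : Set Y → ℝ) (m : ℝ) (y : Y) (g₁ g₂ : ℝ → Y) : Prop where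
  a₁ : WArc B μ g₁ m
  a₂ : WArc B μ g₂ m
  z₁ : g₁ 0 = y
  z₂ : g₂ 0 = y
  nj : ¬ JoinedIn (B \ {y}) (g₁ m) (g₂ m)

/-- rays in the same direction agree -/
def Uq (B : Set Y) (μ : Set Y → ℝ) : Prop :=
  ∀ (g g' : ℝ → Y) (m m' : ℝ), WArc B μ g m → WArc B μ g' m' → g 0 = g' 0 →
    JoinedIn (B \ {g 0}) (g m) (g' m') → ∀ ξ, 0 ≤ ξ → ξ ≤ m → ξ ≤ m' → g ξ = g' ξ

theorem Pr.symm (h : Pr B μ m y g₁ g₂) : Pr B μ m y g₂ g₁ :=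
  ⟨h.a₂, h.a₁, h.z₂, h.z₁, fun e => h.nj e.symm⟩

theorem end_ne (hm : 0 < m) (h : WArc B μ g m) : g m ≠ g 0 := fun e =>
  hm.ne' (h.arc.inj ⟨hm.le, le_rfl⟩ ⟨le_rfl, hm.le⟩ e)

theorem Pr.ne (hm : 0 < m) (h : Pr B μ m y g₁ g₂) : g₁ m ≠ g₂ m := fun e =>
  h.nj (e ▸ JoinedIn.refl ⟨h.a₁.arc.path.mem ⟨hm.le, le_rfl⟩, h.z₁ ▸ end_ne hm h.a₁⟩)

theorem Pr.one (hm : 0 < m) (hq : Uq B μ) (h3 : ¬ Three B y) (h : Pr B μ m y g₁ g₂)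
    (hg : WArc B μ g m) (z : g 0 = y) : EqOn g g₁ (Icc 0 m) ∨ EqOn g g₂ (Icc 0 m) := by
  have key : ∀ g' : ℝ → Y, WArc B μ g' m → g' 0 = y → JoinedIn (B \ {y}) (g m) (g' m) →
      EqOn g g' (Icc 0 m) := fun g' a e j ξ hξ =>
    hq g g' m m hg a (z.trans e.symm) (z ▸ j) ξ hξ.1 hξ.2 hξ.2
  have jn : ∀ g' : ℝ → Y, WArc B μ g' m → g' 0 = y → JoinedIn B y (g' m) ∧ g' m ≠ y :=
    fun g' a e => e ▸ ⟨a.arc.path.joined ⟨le_rfl, hm.le⟩ ⟨hm.le, le_rfl⟩, end_ne hm a⟩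
  by_contra hh
  rw [not_or] at hh
  have n1 := fun j => hh.1 (key g₁ h.a₁ h.z₁ j)
  have n2 := fun j => hh.2 (key g₂ h.a₂ h.z₂ j)
  refine h3 ⟨![g m, g₁ m, g₂ m], fun i => ?_, fun i j hij => ?_⟩
  · fin_cases i
    exacts [jn g hg z, jn g₁ h.a₁ h.z₁, jn g₂ h.a₂ h.z₂]
  · fin_cases i <;> fin_cases j
    exacts [absurd rfl hij, n1, n2, fun e => n1 e.symm, absurd rfl hij, h.nj, fun e => n2 e.symm,
      h.symm.nj, absurd rfl hij]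

theorem Pr.two (hm : 0 < m) (hq : Uq B μ) (h3 : ¬ Three B y) (h : Pr B μ m y g₁ g₂)
    (h' : Pr B μ m y h₁ h₂) : (EqOn h₁ g₁ (Icc 0 m) ∧ EqOn h₂ g₂ (Icc 0 m)) ∨
      (EqOn h₁ g₂ (Icc 0 m) ∧ EqOn h₂ g₁ (Icc 0 m)) := by
  have hm' : m ∈ Icc 0 m := ⟨hm.le, le_rfl⟩
  rcases h.one hm hq h3 h'.a₁ h'.z₁ with a | a <;> rcases h.one hm hq h3 h'.a₂ h'.z₂ with b | b
  · exact absurd ((a hm').trans (b hm').symm) (h'.ne hm)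
  · exact Or.inl ⟨a, b⟩
  · exact Or.inr ⟨a, b⟩
  · exact absurd ((a hm').trans (b hm').symm) (h'.ne hm)

theorem Pr.arc (hm : 0 < m) (h : Pr B μ m y g₁ g₂) :
    ArcIn B (cat g₁ 0 g₂ 0) (0 - m) (m - 0) := by
  have h0 : (0 : ℝ) ∈ Icc 0 m := ⟨le_rfl, hm.le⟩
  have hm' : m ∈ Icc 0 m := ⟨hm.le, le_rfl⟩
  refine h.a₁.arc.cat h.a₂.arc (h.z₁.trans h.z₂.symm) fun u hu v hv e => ?_
  by_contra hne
  have u0 : 0 < u := lt_of_le_of_ne hu.1 (Ne.symm hne)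
  have v0 : 0 < v := lt_of_le_of_ne hv.1 fun e' => hne (h.a₁.arc.inj hu h0 (by
    rw [e, ← e', h.z₁, h.z₂]))
  have j1 := h.a₁.arc.joined_diff h0 hm' hu (Or.inr ⟨hm, u0⟩)
  have j2 := h.a₂.arc.joined_diff h0 hv hm' (Or.inr ⟨v0, hm⟩)
  rw [h.z₁, e] at j1
  rw [h.z₂] at j2
  exact h.nj (j1.trans j2)

theorem lim (hL : SLim) (hμ : Whit μ) (hU : UF B) (hm : 0 < m) (hq : Uq B μ) {K : Set Y}
    (hK : IsCompact K) (hKB : K ⊆ B) {ι : Type} (U : Ultrafilter ι) (x : ι → Y) (p q : ι → ℝ → Y)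
    (hx : Tendsto x U (𝓝 y)) (h : ∀ᶠ i in (U : Filter ι), Pr B μ m (x i) (p i) (q i) ∧
      MapsTo (p i) (Icc 0 m) K ∧ MapsTo (q i) (Icc 0 m) K) :
    ∃ g₁ g₂, Pr B μ m y g₁ g₂ ∧ ∀ (ξ : ι → ℝ) (ξ₀ : ℝ), (∀ᶠ i in (U : Filter ι), ξ i ∈ Icc 0 m) →
      Tendsto ξ U (𝓝 ξ₀) → Tendsto (fun i => p i (ξ i)) U (𝓝 (g₁ ξ₀)) ∧
        Tendsto (fun i => q i (ξ i)) U (𝓝 (g₂ ξ₀)) := by
  obtain ⟨g₁, a₁, t₁⟩ := hL Y B K μ ι U p (fun _ => m) m hμ hU hK hKB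
    (h.mono fun i hi => ⟨hi.1.a₁, hi.2.1⟩) tendsto_const_nhds
  obtain ⟨g₂, a₂, t₂⟩ := hL Y B K μ ι U q (fun _ => m) m hμ hU hK hKB
    (h.mono fun i hi => ⟨hi.1.a₂, hi.2.2⟩) tendsto_const_nhds
  have h0 : ∀ᶠ _i in (U : Filter ι), (0 : ℝ) ∈ Icc 0 m := .of_forall fun _ => ⟨le_rfl, hm.le⟩
  have hm' : ∀ᶠ _i in (U : Filter ι), m ∈ Icc 0 m := .of_forall fun _ => ⟨hm.le, le_rfl⟩
  have z₁ : g₁ 0 = y := tendsto_nhds_unique (t₁ _ 0 h0 tendsto_const_nhds)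
    (hx.congr' (h.mono fun i hi => hi.1.z₁.symm))
  have z₂ : g₂ 0 = y := tendsto_nhds_unique (t₂ _ 0 h0 tendsto_const_nhds)
    (hx.congr' (h.mono fun i hi => hi.1.z₂.symm))
  refine ⟨g₁, g₂, ⟨a₁, a₂, z₁, z₂, fun j => ?_⟩, fun ξ ξ₀ a b => ⟨t₁ ξ ξ₀ a b, t₂ ξ ξ₀ a b⟩⟩
  have e := hq g₁ g₂ m m a₁ a₂ (z₁.trans z₂.symm) (z₁ ▸ j) m hm.le le_rfl le_rfl
  have hd : 0 < dist (g₁ m) y := dist_pos.2 (z₁ ▸ end_ne hm a₁)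
  obtain ⟨δ, hδ, H⟩ := hU _ (half_pos hd)
  have s1 := t₁ _ m hm' tendsto_const_nhds
  have s2 := s1.dist (t₂ _ m hm' tendsto_const_nhds)
  rw [e, dist_self] at s2
  have := le_of_tendsto (s1.dist hx) (b := dist (g₁ m) y / 2) (by
    filter_upwards [h, s2.eventually (gt_mem_nhds hδ)] with i hi hd'
    have := H _ _ _ (hi.1.arc hm) (by
      rw [cat_of_nonpos (by linarith), cat_of_nonneg (hi.1.z₁.trans hi.1.z₂.symm) (by linarith)]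
      simpa using hd') 0 ⟨by linarith, by linarith⟩
    rw [cat_of_nonpos (by linarith), cat_of_nonpos le_rfl] at this
    simpa [hi.1.z₁] using this.le)
  linarith

end RaysA

open RaysA

theorem sRays : SWA → SLim → SRay → SRays := by
  intro hW hL hR Y _ _ B μ y₀ hμ hB hU hy₀
  obtain ⟨ε, hε, m, hm, hK, hs, hray⟩ := hR Y B μ y₀ hμ hB hU hy₀
  have hq : Uq B μ := (hW Y B μ hμ).2.1 hB
  have hb : ∀ y ∈ Metric.ball y₀ ε, y ∈ B := fun y hy =>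
    hK (Metric.mem_closedBall.2 (by linarith [Metric.mem_ball.1 hy]))
  have hmap : ∀ g : ℝ → Y, WArc B μ g m → g 0 ∈ Metric.ball y₀ ε →
      MapsTo g (Icc 0 m) (Metric.closedBall y₀ (2 * ε)) := fun g a b ξ hξ => by
    have := dist_triangle_left (g ξ) y₀ (g 0)
    exact Metric.mem_closedBall.2 (by linarith [hs g a ξ hξ, Metric.mem_ball.1 b])
  have ex : ∀ y, ∃ g₁ g₂, y ∈ Metric.ball y₀ ε → Pr B μ m y g₁ g₂ := fun y => by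
    by_cases hy : y ∈ Metric.ball y₀ ε
    · obtain ⟨y₁, y₂, j₁, j₂, n₁, n₂, nj⟩ := hB.two y (hb y hy)
      obtain ⟨g₁, a₁, z₁, e₁⟩ := hray y hy y₁ j₁ n₁
      obtain ⟨g₂, a₂, z₂, e₂⟩ := hray y hy y₂ j₂ n₂
      exact ⟨g₁, g₂, fun _ => ⟨a₁, a₂, z₁, z₂, fun j => nj ((e₁.symm.trans j).trans e₂)⟩⟩
    · exact ⟨fun _ => y, fun _ => y, fun h => absurd h hy⟩
  choose p q hp using ex
  have L := fun (y : Y) (ι : Type) (U : Ultrafilter ι) (x : ι → Y) (p q : ι → ℝ → Y)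
      (hx : Tendsto x U (𝓝 y))
      (h : ∀ᶠ i in (U : Filter ι), x i ∈ Metric.ball y₀ ε ∧ Pr B μ m (x i) (p i) (q i)) =>
    lim hL hμ hU hm hq Metric.isClosed_closedBall.isCompact hK U x p q hx (h.mono fun i hi =>
      ⟨hi.2, hmap _ hi.2.a₁ (hi.2.z₁ ▸ hi.1), hmap _ hi.2.a₂ (hi.2.z₂ ▸ hi.1)⟩)
  have P₀ := hp y₀ (Metric.mem_ball_self hε)
  have hm' : m ∈ Icc 0 m := ⟨hm.le, le_rfl⟩
  have hD : 0 < dist (p y₀ m) (q y₀ m) / 4 := by linarith [dist_pos.2 (P₀.ne hm)]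
  have near : ∀ᶠ y in 𝓝 y₀, y ∈ Metric.ball y₀ ε ∧ ∃ g₁ g₂, Pr B μ m y g₁ g₂ ∧
      dist (g₁ m) (p y₀ m) < dist (p y₀ m) (q y₀ m) / 4 ∧
      dist (g₂ m) (q y₀ m) < dist (p y₀ m) (q y₀ m) / 4 := by
    refine (Filter.le_iff_ultrafilter (f₂ := 𝓟 _)).2 (fun U hU => ?_) |> le_principal_iff.1
    have h1 : ∀ᶠ y in (U : Filter Y), y ∈ Metric.ball y₀ ε := hU (Metric.ball_mem_nhds _ hε)
    obtain ⟨g₁, g₂, G, t⟩ := L y₀ Y U id p q hU (h1.mono fun y hy => ⟨hy, hp y hy⟩)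
    obtain ⟨t₁, t₂⟩ := t (fun _ => m) m (.of_forall fun _ => hm') tendsto_const_nhds
    rw [le_principal_iff]
    filter_upwards [h1, Metric.tendsto_nhds.1 t₁ _ hD, Metric.tendsto_nhds.1 t₂ _ hD] with y a b c
    rcases P₀.two hm hq (hB.three y₀ hy₀) G with ⟨e₁, e₂⟩ | ⟨e₁, e₂⟩
    · exact ⟨a, _, _, hp y a, e₁ hm' ▸ b, e₂ hm' ▸ c⟩
    · exact ⟨a, _, _, (hp y a).symm, e₂ hm' ▸ c, e₁ hm' ▸ b⟩
  obtain ⟨N, hN, oN, y₀N⟩ := eventually_nhds_iff.1 near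
  have ex2 : ∀ y, ∃ g₁ g₂, y ∈ N → Pr B μ m y g₁ g₂ ∧
      dist (g₁ m) (p y₀ m) < dist (p y₀ m) (q y₀ m) / 4 ∧
      dist (g₂ m) (q y₀ m) < dist (p y₀ m) (q y₀ m) / 4 := fun y => by
    by_cases hy : y ∈ N
    · obtain ⟨g₁, g₂, h⟩ := (hN y hy).2
      exact ⟨g₁, g₂, fun _ => h⟩
    · exact ⟨fun _ => y, fun _ => y, fun h => absurd h hy⟩
  choose gp gm hg using ex2
  have cont : ∀ w ∈ N ×ˢ Icc 0 m, ∀ U : Ultrafilter (Y × ℝ), ↑U ≤ 𝓝[N ×ˢ Icc 0 m] w →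
      Tendsto (fun w : Y × ℝ => gp w.1 w.2) U (𝓝 (gp w.1 w.2)) ∧
      Tendsto (fun w : Y × ℝ => gm w.1 w.2) U (𝓝 (gm w.1 w.2)) := fun w hw U hU => by
    have h1 : ∀ᶠ v in (U : Filter (Y × ℝ)), v ∈ N ×ˢ Icc 0 m := hU self_mem_nhdsWithin
    have h2 : (U : Filter (Y × ℝ)) ≤ 𝓝 w := hU.trans nhdsWithin_le_nhds
    obtain ⟨g₁, g₂, G, t⟩ := L w.1 _ U Prod.fst (fun v => gp v.1) (fun v => gm v.1)
      ((continuous_fst.tendsto w).mono_left h2) (h1.mono fun v hv => ⟨(hN _ hv.1).1, (hg _ hv.1).1⟩)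
    have t₁ := (t (fun _ => m) m (.of_forall fun _ => hm') tendsto_const_nhds).1
    have t₂ := t Prod.snd w.2 (h1.mono fun v hv => hv.2) ((continuous_snd.tendsto w).mono_left h2)
    have d := le_of_tendsto (t₁.dist tendsto_const_nhds) (h1.mono fun v hv => (hg _ hv.1).2.1.le)
    rcases (hg _ hw.1).1.two hm hq (hB.three _ (hb _ (hN _ hw.1).1)) G with ⟨e₁, e₂⟩ | ⟨e₁, -⟩
    · rwa [e₁ hw.2, e₂ hw.2] at t₂
    · rw [e₁ hm'] at d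
      linarith [dist_triangle_left (p y₀ m) (q y₀ m) (gm w.1 m), (hg _ hw.1).2.2]
  exact ⟨N, gp, gm, m, _, _, y₀N, hm, oN, fun y hy => hb y (hN y hy).1, P₀.ne hm,
    fun y hy => ⟨(hg y hy).1.a₁, (hg y hy).1.z₁, (hg y hy).2.1⟩,
    fun y hy => ⟨(hg y hy).1.a₂, (hg y hy).1.z₂, (hg y hy).2.2⟩, fun y hy => (hg y hy).1.nj,
    fun w hw => (tendsto_iff_ultrafilter _ _ _).2 fun U hU => (cont w hw U hU).1,
    fun w hw => (tendsto_iff_ultrafilter _ _ _).2 fun U hU => (cont w hw U hU).2⟩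

end Pool.Agent.MP_0c1703_gt.H59
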