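import Pool.Agent.MP_0c1703_gt.H59.Kit

/-! Row Rect: a map of a rectangle into a linear open set factors through an arc. -/

namespace Pool.Agent.MP_0c1703_gt.H59

open Set Filter Topology Pool.Agent.MP_0c1703_gt.H58

namespace RectA

variable {Y : Type} [MetricSpace Y] {B S : Set Y} {c : ℝ → Y} {a b : ℝ}

theorem cover (hT : Tree B) (h : ArcIn B c a b) (hS : S ⊆ B) (hj : JoinedIn S (c a) (c b)) :
    c '' Icc a b ⊆ S := by
  obtain ⟨γ, hγ, e0, e1⟩ := exists_pathIn hj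
  exact (hT c a b γ 0 1 h (hγ.mono hS) e0 e1).trans hγ.image_subset

theorem exArc (hA : SArc) {y y' : Y} (hj : JoinedIn B y y') :
    ∃ (c : ℝ → Y) (α : ℝ), ArcIn B c 0 α ∧ c 0 = y ∧ c α = y' := by
  by_cases e : y = y'
  · refine ⟨fun _ => y, 0, ⟨⟨le_rfl, continuousOn_const, fun _ _ => hj.source_mem⟩,
      fun u hu v hv _ => ?_⟩, rfl, e⟩
    exact (le_antisymm hu.2 hu.1).trans (le_antisymm hv.2 hv.1).symm
  · obtain ⟨γ, hγ, e0, e1⟩ := exists_pathIn hj
    obtain ⟨c, hc, k0, k1⟩ := hA Y γ 0 1 hγ.le hγ.cont (by rw [e0, e1]; exact e)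
    exact ⟨c, 1, hc.mono hγ.image_subset, k0.trans e0, k1.trans e1⟩

theorem seg {R : Set (ℝ × ℝ)} (hR : Convex ℝ R) {G : ℝ × ℝ → Y} (hG : ContinuousOn G R)
    {w v : ℝ × ℝ} (hw : w ∈ R) (hv : v ∈ R) : JoinedIn (G '' segment ℝ w v) (G w) (G v) :=
  (((convex_segment w v).isPathConnected ⟨w, left_mem_segment ℝ w v⟩).image'
    (hG.mono (hR.segment_subset hw hv))).joinedIn _
    (mem_image_of_mem _ (left_mem_segment ℝ w v)) _ (mem_image_of_mem _ (right_mem_segment ℝ w v))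

end RectA

open RectA in
theorem sRect : SArc → SCol → SWhit → SRect := by
  intro hA hC hW Y _ _ B G a b a' b' hB hab hab' hG hm
  set R := Icc a b ×ˢ Icc a' b' with hRdef
  have hRc : Convex ℝ R := (convex_Icc a b).prod (convex_Icc a' b')
  have hRk : IsCompact R := isCompact_Icc.prod isCompact_Icc
  have hne : (a, a') ∈ R := ⟨⟨le_rfl, hab⟩, le_rfl, hab'⟩
  have hsB : ∀ {w v}, w ∈ R → v ∈ R → G '' segment ℝ w v ⊆ B := fun hw hv =>
    (hm.mono_left (hRc.segment_subset hw hv)).image_subset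
  obtain ⟨μ, hμ⟩ := hW Y
  have : Nonempty Y := ⟨G (a, a')⟩
  have hex : ∀ p ∈ R ×ˢ R, ∃ (c : ℝ → Y) (α : ℝ),
      ArcIn B c 0 α ∧ c 0 = G p.1 ∧ c α = G p.2 := fun p hp =>
    exArc hA ((seg hRc hG hp.1 hp.2).mono (hsB hp.1 hp.2))
  choose! c α hc e0 e1 using hex
  set I : (ℝ × ℝ) × (ℝ × ℝ) → Set Y := fun p => c p '' Icc 0 (α p) with hI
  have m0 : ∀ p ∈ R ×ˢ R, G p.1 ∈ I p := fun p hp =>
    ⟨0, ⟨le_rfl, (hc p hp).path.le⟩, e0 p hp⟩
  have m1 : ∀ p ∈ R ×ˢ R, G p.2 ∈ I p := fun p hp =>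
    ⟨α p, ⟨(hc p hp).path.le, le_rfl⟩, e1 p hp⟩
  have hj : ∀ p ∈ R ×ˢ R, ∀ x ∈ I p, ∀ y ∈ I p, JoinedIn (I p) x y := by
    rintro p hp _ ⟨u, hu, rfl⟩ _ ⟨v, hv, rfl⟩
    exact (hc p hp).path.image.joined hu hv
  have hIB : ∀ p ∈ R ×ˢ R, I p ⊆ B := fun p hp => (hc p hp).path.image_subset
  have hcov : ∀ p ∈ R ×ˢ R, ∀ S ⊆ B, JoinedIn S (G p.1) (G p.2) → I p ⊆ S := fun p hp S hS h =>
    cover hB.tree (hc p hp) hS (by rw [e0 p hp, e1 p hp]; exact h)
  have hcont : ContinuousOn (fun p => μ (I p)) (R ×ˢ R) := by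
    rw [Metric.continuousOn_iff]
    intro p hp ε hε
    obtain ⟨δ, hδ, H⟩ := Metric.uniformContinuousOn_iff.1 (hRk.uniformContinuousOn_of_continuous hG)
      (ε / 2) (by linarith)
    have near : ∀ p ∈ R ×ˢ R, ∀ q ∈ R ×ˢ R, dist p q < δ →
        ∀ x ∈ I p, ∃ y ∈ I q, dist x y ≤ ε / 2 := by
      intro p hp q hq hd x hx
      rw [Prod.dist_eq, max_lt_iff] at hd
      obtain ⟨d1, d2⟩ := hd
      have hs := hcov p hp (G '' segment ℝ p.1 q.1 ∪ I q ∪ G '' segment ℝ q.2 p.2)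
        (union_subset (union_subset (hsB hp.1 hq.1) (hIB q hq)) (hsB hq.2 hp.2))
        ((((seg hRc hG hp.1 hq.1).mono (subset_union_left.trans subset_union_left)).trans
          ((hj q hq _ (m0 q hq) _ (m1 q hq)).mono (subset_union_right.trans subset_union_left))).trans
          ((seg hRc hG hq.2 hp.2).mono subset_union_right))
      rcases hs hx with (⟨z, hz, rfl⟩ | h) | ⟨z, hz, rfl⟩
      · refine ⟨_, m0 q hq, (H z (hRc.segment_subset hp.1 hq.1 hz) _ hq.1 ?_).le⟩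
        exact (convex_ball q.1 δ).segment_subset d1 (Metric.mem_ball_self hδ) hz
      · exact ⟨x, h, by rw [dist_self]; linarith⟩
      · refine ⟨_, m1 q hq, (H z (hRc.segment_subset hq.2 hp.2 hz) _ hq.2 ?_).le⟩
        exact (convex_ball q.2 δ).segment_subset (Metric.mem_ball_self hδ) d2 hz
    refine ⟨δ, hδ, fun q hq hd => ?_⟩
    have := hμ.lip (I q) (I p) (ε / 2) ⟨_, m0 q hq⟩ (near q hq p hp hd) fun x hx => by
      obtain ⟨y, hy, h⟩ := near p hp q hq (by rwa [dist_comm]) x hx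
      exact ⟨y, hy, by rwa [dist_comm]⟩
    rw [Real.dist_eq]
    linarith
  obtain ⟨p, hp, hmax⟩ := (hRk.prod hRk).exists_isMaxOn ⟨((a, a'), (a, a')), hne, hne⟩ hcont
  have hall : ∀ w ∈ R, G w ∈ I p := by
    intro w hw
    by_contra hz
    have hcl : IsClosed (I p) := (hc p hp).path.isCompact.isClosed
    have hpos : 0 < Metric.infDist (G w) (I p) :=
      (hcl.notMem_iff_infDist_pos ⟨_, m0 p hp⟩).1 hz
    obtain ⟨κ, hκ, hs⟩ := hμ.strict _ hpos
    have big : ∀ q ∈ R ×ˢ R, I p ⊆ I q → G w ∈ I q → False := fun q hq h1 h2 => by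
      have k1 := hs (I p) (I q) (G w) ⟨_, m0 p hp⟩ h1 h2 fun x hx => Metric.infDist_le_dist_of_mem hx
      have k2 : μ (I q) ≤ μ (I p) := hmax hq
      linarith
    have hq : (p.1, w) ∈ R ×ˢ R := ⟨hp.1, hw⟩
    have e01 : c p 0 = c (p.1, w) 0 := (e0 p hp).trans (e0 _ hq).symm
    by_cases hjn : JoinedIn (B \ {c p 0}) (c p (α p)) (c (p.1, w) (α (p.1, w)))
    · rcases hC Y B (c p) (c (p.1, w)) 0 (α p) 0 (α (p.1, w)) hB (hc p hp) (hc _ hq) e01 hjn with
        h | h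
      · rw [e1 _ hq] at h
        exact hz h
      · rw [e1 p hp] at h
        exact big _ hq (hcov p hp _ (hIB _ hq) (hj _ hq _ (m0 _ hq) _ h)) (m1 _ hq)
    · have hq' : (p.2, w) ∈ R ×ˢ R := ⟨hp.2, hw⟩
      have harc := (hc p hp).cat (hc _ hq) e01 fun u hu v hv euv => by
        by_contra hu0
        have u0 : 0 < u := lt_of_le_of_ne hu.1 (Ne.symm hu0)
        have v0 : 0 < v := lt_of_le_of_ne hv.1 fun e => hu0 ((hc p hp).inj hu
          ⟨le_rfl, (hc p hp).path.le⟩ (by rw [euv, ← e, e01]))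
        have j1 := (hc p hp).joined_diff ⟨le_rfl, (hc p hp).path.le⟩
          ⟨(hc p hp).path.le, le_rfl⟩ hu (Or.inr ⟨u0.trans_le hu.2, u0⟩)
        have j2 := (hc _ hq).joined_diff ⟨le_rfl, (hc _ hq).path.le⟩ hv
          ⟨(hc _ hq).path.le, le_rfl⟩ (Or.inr ⟨v0, v0.trans_le hv.2⟩)
        rw [← e01, ← euv] at j2
        exact hjn (j1.trans j2)
      have hs := cover hB.tree harc (hIB _ hq') (by
        rw [cat_of_nonpos (by linarith [(hc p hp).path.le]),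
          cat_of_nonneg e01 (by linarith [(hc _ hq).path.le]), sub_sub_cancel, sub_zero, zero_add,
          e1 p hp, e1 _ hq]
        exact hj _ hq' _ (m0 _ hq') _ (m1 _ hq'))
      rw [image_cat (hc p hp).path.le (hc _ hq).path.le e01] at hs
      exact big _ hq' (subset_union_left.trans hs) (m1 _ hq')
  have hinv : ContinuousOn (Function.invFunOn (c p) (Icc 0 (α p))) (I p) :=
    quot isCompact_Icc (hc p hp).path.cont
      (continuousOn_id.congr fun u hu => (hc p hp).inj.leftInvOn_invFunOn hu)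
  exact ⟨c p, 0, α p, fun w => Function.invFunOn (c p) (Icc 0 (α p)) (G w), hc p hp,
    hinv.comp hG hall, fun w hw => Function.invFunOn_pos (hall w hw)⟩

end Pool.Agent.MP_0c1703_gt.H59
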