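import Pool.Agent.MP_0c1703_gt.H59.Kit

/-! The signed distance is continuous along paths and along images of rectangles. -/

namespace Pool.Agent.MP_0c1703_gt.H59

open Set Filter Topology

namespace SideA

open Classical in
theorem conv {Y E : Type} [MetricSpace Y] [NormedAddCommGroup E] [NormedSpace ℝ E] {B : Set Y}
    {x p : Y} {σ : Y → ℝ}
    (hσ : ∀ y, σ y = if JoinedIn (B \ {x}) y p then -dist y x else dist y x) {A : Set E}
    (hA : Convex ℝ A) {M : E → Y} (hM : ContinuousOn M A) (hB : MapsTo M A B) :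
    ContinuousOn (fun a => σ (M a)) A := by
  intro a ha
  have hd : ContinuousWithinAt (fun b => dist (M b) x) A a :=
    (hM a ha).dist continuousWithinAt_const
  by_cases h : M a = x
  · have e : ∀ y, ‖σ y‖ = dist y x := fun y => by
      rw [hσ]; split_ifs <;> simp
    have h0 : σ (M a) = 0 := by rw [← norm_eq_zero, e, h, dist_self]
    rw [ContinuousWithinAt, h0, tendsto_zero_iff_norm_tendsto_zero]
    simp only [e]
    have := hd.tendsto
    rwa [h, dist_self] at this
  obtain ⟨ε, hε, hs⟩ := Metric.mem_nhdsWithin_iff.1 ((hM a ha).eventually_ne h)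
  have hc : Convex ℝ (Metric.ball a ε ∩ A) := (convex_ball a ε).inter hA
  have hm : a ∈ Metric.ball a ε ∩ A := ⟨Metric.mem_ball_self hε, ha⟩
  have hj : ∀ b ∈ Metric.ball a ε ∩ A, JoinedIn (B \ {x}) (M b) (M a) := fun b hb =>
    (((hc.isPathConnected ⟨a, hm⟩).image' (hM.mono inter_subset_right)).joinedIn _
      (mem_image_of_mem _ hb) _ (mem_image_of_mem _ hm)).mono
      (image_subset_iff.2 fun c hc => ⟨hB hc.2, hs hc⟩)
  have hn : Metric.ball a ε ∩ A ∈ 𝓝[A] a :=
    inter_mem (mem_nhdsWithin_of_mem_nhds (Metric.ball_mem_nhds a hε)) self_mem_nhdsWithin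
  by_cases k : JoinedIn (B \ {x}) (M a) p
  · refine hd.neg.congr_of_eventuallyEq ?_ (by rw [hσ, if_pos k]; rfl)
    filter_upwards [hn] with b hb
    rw [hσ, if_pos ((hj b hb).trans k)]; rfl
  · refine hd.congr_of_eventuallyEq ?_ (by rw [hσ, if_neg k])
    filter_upwards [hn] with b hb
    rw [hσ, if_neg fun e => k ((hj b hb).symm.trans e)]

end SideA

theorem sSide : SSide := by
  intro Y _ B x p σ hσ
  refine ⟨fun γ s t h => SideA.conv hσ (convex_Icc s t) h.cont h.mem,
    fun G a b a' b' c d S hG hS hB => ?_⟩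
  have hg : ContinuousOn (Prod.map G (id : ℝ → ℝ)) ((Icc a b ×ˢ Icc a' b') ×ˢ Icc c d) :=
    hG.prodMap continuousOn_id
  have e : Prod.map G (id : ℝ → ℝ) '' ((Icc a b ×ˢ Icc a' b') ×ˢ Icc c d) =
      (G '' (Icc a b ×ˢ Icc a' b')) ×ˢ Icc c d := by
    rw [prodMap_image_prod, image_id]
  rw [← e] at hS hB ⊢
  refine quot ((isCompact_Icc.prod isCompact_Icc).prod isCompact_Icc) hg ?_
  exact SideA.conv hσ (((convex_Icc a b).prod (convex_Icc a' b')).prod (convex_Icc c d))
    (M := fun w => (S (Prod.map G id w)).1) (hS.comp hg (mapsTo_image _ _)).fst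
    fun w hw => hB _ (mem_image_of_mem _ hw)

end Pool.Agent.MP_0c1703_gt.H59
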