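import Pool.Agent.MP_0c1703_gt.H59.Kit

namespace Pool.Agent.MP_0c1703_gt.H59

open Set Filter Topology Pool.Agent.MP_0c1703_gt.H58
open scoped Real

namespace SusA

variable {Y W : Type}

/-- the angle attached to a point of the join -/
noncomputable def ang' (x : Bool × W × Icc (0 : ℝ) (π / 2)) : ℝ :=
  if x.1 then (x.2.2 : ℝ) else π - x.2.2

theorem ang_mem (x : Bool × W × Icc (0 : ℝ) (π / 2)) : ang' x ∈ Icc 0 π := by
  have h := x.2.2.2
  have := Real.pi_pos
  unfold ang'
  split_ifs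
  · exact ⟨h.1, by linarith [h.2]⟩
  · exact ⟨by linarith [h.2], by linarith [h.1]⟩

theorem ang_cont [TopologicalSpace W] :
    Continuous (ang' : Bool × W × Icc (0 : ℝ) (π / 2) → ℝ) := by
  have hs : Continuous fun x : Bool × W × Icc (0 : ℝ) (π / 2) => (x.2.2 : ℝ) := by fun_prop
  refine Continuous.if (fun x hx => ?_) hs (continuous_const.sub hs)
  have hc : IsClopen {x : Bool × W × Icc (0 : ℝ) (π / 2) | x.1 = true} :=
    (isClopen_discrete {true}).preimage continuous_fst
  rw [hc.frontier_eq] at hx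
  exact hx.elim

variable [TopologicalSpace Y] [TopologicalSpace W] {n p : Y} {q : W × ℝ → Y}

theorem ne_n (h : Susp Y W n p q) {v : W} {θ : ℝ} (hθ : θ ∈ Icc 0 π) (e : q (v, θ) = n) :
    θ = 0 := by
  by_contra h0
  by_cases h1 : θ = π
  · subst h1
    exact h.ne (e.symm.trans (h.pi v))
  · have := h.inj v θ v 0 ⟨lt_of_le_of_ne hθ.1 (Ne.symm h0), lt_of_le_of_ne hθ.2 h1⟩
      ⟨le_rfl, Real.pi_pos.le⟩ (e.trans (h.zero v).symm)
    exact h0 this.2

theorem ne_p (h : Susp Y W n p q) {v : W} {θ : ℝ} (hθ : θ ∈ Icc 0 π) (e : q (v, θ) = p) :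
    θ = π := by
  by_contra h1
  by_cases h0 : θ = 0
  · subst h0
    exact h.ne ((h.zero v).symm.trans e)
  · have := h.inj v θ v π ⟨lt_of_le_of_ne hθ.1 (Ne.symm h0), lt_of_le_of_ne hθ.2 h1⟩
      ⟨Real.pi_pos.le, le_rfl⟩ (e.trans (h.pi v).symm)
    exact h1 this.2

/-- the map from the join -/
noncomputable def mp (h : Susp Y W n p q) : Join Bool W → Y :=
  Quot.lift (fun x => q (x.2.1, ang' x)) (by
    rintro ⟨b, w, s⟩ ⟨b', w', s'⟩ ⟨e, ⟨e0, e1⟩ | ⟨e0, e1⟩⟩
    · simp only at e e0 e1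
      subst e e1
      cases b
      · simp [ang', e0, h.pi]
      · simp [ang', e0, h.zero]
    · simp only at e e0 e1
      subst e e1
      have : π - π / 2 = π / 2 := by ring
      cases b <;> cases b' <;> simp [ang', e0, this])

theorem mp_cont (h : Susp Y W n p q) : Continuous (mp h) :=
  continuous_quot_lift _ (h.cont.comp ((continuous_fst.comp continuous_snd).prodMk ang_cont))

theorem mp_inj (h : Susp Y W n p q) : Function.Injective (mp h) := by
  rintro ⟨b, w, s⟩ ⟨b', w', s'⟩ e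
  change q (w, ang' (b, w, s)) = q (w', ang' (b', w', s')) at e
  have m := ang_mem (b, w, s)
  have m' := ang_mem (b', w', s')
  have hs := s.2
  have hs' := s'.2
  have hp := Real.pi_pos
  by_cases h0 : ang' (b, w, s) = 0
  · have h0' := ne_n h m' (by rw [← e, h0, h.zero])
    cases b <;> cases b' <;> simp [ang'] at h0 h0'
    · linarith [hs.2]
    · linarith [hs.2]
    · linarith [hs'.2]
    · exact Quot.sound ⟨Subtype.ext (h0.trans h0'.symm), Or.inl ⟨h0, rfl⟩⟩
  by_cases h1 : ang' (b, w, s) = π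
  · have h1' := ne_p h m' (by rw [← e, h1, h.pi])
    cases b <;> cases b' <;> simp [ang'] at h1 h1'
    · exact Quot.sound ⟨Subtype.ext (h1.trans h1'.symm), Or.inl ⟨h1, rfl⟩⟩
    · linarith [hs'.2]
    · linarith [hs.2]
    · linarith [hs.2]
  obtain ⟨rfl, e2⟩ := h.inj _ _ _ _ ⟨lt_of_le_of_ne m.1 (Ne.symm h0), lt_of_le_of_ne m.2 h1⟩ m' e
  cases b <;> cases b' <;> simp [ang'] at e2
  · rw [Subtype.ext e2]
  · have e3 : (s : ℝ) = π / 2 := by linarith [hs.2, hs'.2]
    exact Quot.sound ⟨Subtype.ext (by simp only; linarith), Or.inr ⟨e3, rfl⟩⟩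
  · have e3 : (s : ℝ) = π / 2 := by linarith [hs.2, hs'.2]
    exact Quot.sound ⟨Subtype.ext (by simp only; linarith), Or.inr ⟨e3, rfl⟩⟩
  · rw [Subtype.ext e2]

theorem mp_surj (h : Susp Y W n p q) (w0 : W) : Function.Surjective (mp h) := by
  intro z
  have hp := Real.pi_pos
  rcases h.surj z with rfl | rfl | ⟨v, θ, hθ, rfl⟩
  · exact ⟨Quot.mk _ (true, w0, ⟨0, le_rfl, by linarith⟩), by simp [mp, ang', h.zero]⟩
  · exact ⟨Quot.mk _ (false, w0, ⟨0, le_rfl, by linarith⟩), by simp [mp, ang', h.pi]⟩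
  · by_cases h2 : θ ≤ π / 2
    · exact ⟨Quot.mk _ (true, v, ⟨θ, hθ.1.le, h2⟩), by simp [mp, ang']⟩
    · exact ⟨Quot.mk _ (false, v, ⟨π - θ, by linarith [hθ.2], by linarith⟩), by simp [mp, ang']⟩

end SusA

open SusA in
theorem sSus : SSus := by
  intro Y W _ _ _ _ n p q h
  rcases isEmpty_or_nonempty W with hW | ⟨⟨w0⟩⟩
  · left
    have hb : Function.Bijective (fun b : Bool => if b then n else p) := by
      constructor
      · intro b b' e
        cases b <;> cases b' <;> simp at e ⊢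
        · exact h.ne e.symm
        · exact h.ne e
      · intro z
        rcases h.surj z with rfl | rfl | ⟨v, -⟩
        · exact ⟨true, rfl⟩
        · exact ⟨false, rfl⟩
        · exact (hW.false v).elim
    exact ⟨(Continuous.homeoOfEquivCompactToT2 (f := Equiv.ofBijective _ hb)
      continuous_of_discreteTopology).symm⟩
  · right
    exact ⟨W, inferInstance, ⟨w0⟩, ⟨(Continuous.homeoOfEquivCompactToT2
      (f := Equiv.ofBijective _ ⟨mp_inj h, mp_surj h w0⟩) (mp_cont h)).symm⟩⟩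

end Pool.Agent.MP_0c1703_gt.H59
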