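import Pool.Agent.MP_0c1703_gt.H59.Kit

/-! Two parametrisations of the same path along leaves differ by a monotone map. -/

namespace Pool.Agent.MP_0c1703_gt.H59

open Set Filter Topology

namespace UniA

theorem factor {x x' : ℝ → ℝ} {a b : ℝ} (hx : ContinuousOn x (Icc a b))
    (hx' : ContinuousOn x' (Icc a b))
    (h : ∀ t ∈ Icc a b, ∀ t' ∈ Icc a b, x t = x t' → x' t = x' t') :
    ∃ φ : ℝ → ℝ, ContinuousOn φ (x '' Icc a b) ∧ ∀ t ∈ Icc a b, φ (x t) = x' t := by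
  have e : ∀ t ∈ Icc a b, x' (Function.invFunOn x (Icc a b) (x t)) = x' t := fun t ht =>
    h _ (Function.invFunOn_mem ⟨t, ht, rfl⟩) t ht (Function.invFunOn_eq ⟨t, ht, rfl⟩)
  exact ⟨fun u => x' (Function.invFunOn x (Icc a b) u),
    quot isCompact_Icc hx (hx'.congr e), e⟩

variable {Y : Type} [MetricSpace Y] {c c' : ℝ → Y}

theorem loc (hc : Continuous c) (hc' : Leaf c') {z ξ : ℝ} (h : c z = c' ξ) :
    ∃ e > 0, ∃ ψ : ℝ → ℝ, ContinuousOn ψ (Icc (z - e) (z + e)) ∧ ψ z = ξ ∧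
      ∀ u ∈ Icc (z - e) (z + e), c' (ψ u) = c u := by
  obtain ⟨U, hU, H⟩ := hc'.lift ξ 1 one_pos
  rw [← h] at hU
  obtain ⟨e, he, hb⟩ := Metric.nhds_basis_closedBall.mem_iff.1 (hc.continuousAt.preimage_mem_nhds hU)
  rw [Real.closedBall_eq_Icc] at hb
  have hp : PathIn U c (z - e) (z + e) := ⟨by linarith, hc.continuousOn, hb⟩
  obtain ⟨p, p1, p2, p3⟩ := H c z (z + e) (hp.sub (by linarith) (by linarith) le_rfl) h
  obtain ⟨q, q1, q2, q3⟩ := H _ (-z) (-(z - e)) (hp.sub le_rfl (by linarith) (by linarith)).rev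
    (by rw [neg_neg]; exact h)
  have m : MapsTo (fun u : ℝ => -u) (Icc (z - e) z) (Icc (-z) (-(z - e))) := fun u hu =>
    ⟨by linarith [hu.2], by linarith [hu.1]⟩
  have e1 : ∀ u ∈ Icc (z - e) z, (if u ≤ z then q (-u) else p u) = q (-u) := fun u hu => if_pos hu.2
  have e2 : ∀ u ∈ Icc z (z + e), (if u ≤ z then q (-u) else p u) = p u := fun u hu => by
    rcases hu.1.eq_or_lt with rfl | h1
    · rw [if_pos le_rfl, q2, p2]
    · exact if_neg (not_le.2 h1)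
  refine ⟨e, he, fun u => if u ≤ z then q (-u) else p u, ?_, by simp [q2], fun u hu => ?_⟩
  · rw [← Icc_union_Icc_eq_Icc (show z - e ≤ z by linarith) (show z ≤ z + e by linarith)]
    exact ((q1.comp continuous_neg.continuousOn m).congr e1).union_of_isClosed (p1.congr e2)
      isClosed_Icc isClosed_Icc
  · rcases le_total u z with h1 | h1
    · have := (q3 _ (m ⟨hu.1, h1⟩)).2
      rw [neg_neg] at this
      exact (congrArg c' (e1 u ⟨hu.1, h1⟩)).trans this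
    · exact (congrArg c' (e2 u ⟨h1, hu.2⟩)).trans (p3 u ⟨h1, hu.2⟩).2

theorem claim (hL : SLeaf) (hc : Continuous c) (hc' : Leaf c') {x x' : ℝ → ℝ} {a b : ℝ}
    (hx : ContinuousOn x (Icc a b)) (hx' : ContinuousOn x' (Icc a b))
    (h : ∀ t ∈ Icc a b, c (x t) = c' (x' t)) :
    ∀ t ∈ Icc a b, ∀ t' ∈ Icc a b, x t = x t' → x' t = x' t' := by
  have U := fun x x' a b => (hL Y).2.1 c' x x' a b hc'
  by_cases hab : a ≤ b
  swap
  · exact fun t ht => absurd (ht.1.trans ht.2) hab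
  let Cl : ℝ → Prop := fun τ => ∀ t ∈ Icc a τ, ∀ t' ∈ Icc a τ, x t = x t' → x' t = x' t'
  have step : ∀ s ∈ Icc a b, ∃ e > 0, ∀ τ ∈ Icc (max a (s - e)) (min b (s + e)),
      ∀ τ' ∈ Icc (max a (s - e)) (min b (s + e)), Cl τ → Cl τ' := by
    intro s hs
    obtain ⟨e₁, he₁, ψ, ψ1, ψ2, ψ3⟩ := loc hc hc' (h s hs)
    obtain ⟨e, he, hb⟩ : ∃ e > 0, ∀ t ∈ Icc (max a (s - e)) (min b (s + e)),
        x t ∈ Icc (x s - e₁) (x s + e₁) := by
      obtain ⟨d, hd, H⟩ := Metric.continuousWithinAt_iff.1 (hx s hs) e₁ he₁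
      refine ⟨d / 2, by linarith, fun t ht => ?_⟩
      have h1 := max_le_iff.1 ht.1
      have h2 := le_min_iff.1 ht.2
      have := H ⟨h1.1, h2.1⟩ (by rw [Real.dist_eq, abs_lt]; constructor <;> linarith [h1.2, h2.2])
      rw [Real.dist_eq, abs_lt] at this
      constructor <;> linarith [this.1, this.2]
    have hJ : Icc (max a (s - e)) (min b (s + e)) ⊆ Icc a b :=
      Icc_subset_Icc (le_max_left _ _) (min_le_left _ _)
    have hψ : ∀ t ∈ Icc (max a (s - e)) (min b (s + e)), ψ (x t) = x' t :=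
      U (fun t => ψ (x t)) x' _ _ (ψ1.comp (hx.mono hJ) hb) (hx'.mono hJ)
        (fun t ht => (ψ3 _ (hb t ht)).trans (h t (hJ ht))) s
        ⟨max_le hs.1 (by linarith), le_min hs.2 (by linarith)⟩ ψ2
    refine ⟨e, he, fun τ hτ τ' hτ' hC => ?_⟩
    have hs' : Icc a τ ⊆ Icc a b := Icc_subset_Icc le_rfl (hJ hτ).2
    obtain ⟨φ, φ1, φ2⟩ := factor (hx.mono hs') (hx'.mono hs') hC
    have mix : ∀ t ∈ Icc a τ, ∀ t' ∈ Icc (max a (s - e)) (min b (s + e)), x t = x t' →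
        x' t = x' t' := by
      intro t ht t' ht' e'
      have hτ0 : τ ∈ Icc a τ := ⟨(hJ hτ).1, le_rfl⟩
      have s1 : uIcc (x τ) (x t) ⊆ x '' Icc a τ :=
        (isPreconnected_Icc.image x (hx.mono hs')).ordConnected.uIcc_subset
          (mem_image_of_mem _ hτ0) (mem_image_of_mem _ ht)
      have s2 : uIcc (x τ) (x t) ⊆ Icc (x s - e₁) (x s + e₁) :=
        ordConnected_Icc.uIcc_subset (hb τ hτ) (e' ▸ hb t' ht')
      have := U φ ψ _ _ (φ1.mono s1) (ψ1.mono s2) (fun u hu => by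
        obtain ⟨r, hr, rfl⟩ := s1 hu
        rw [φ2 r hr, ψ3 _ (s2 hu), h r (hs' hr)]) (x τ) left_mem_uIcc
        ((φ2 τ hτ0).trans (hψ τ hτ).symm) (x t) right_mem_uIcc
      rw [← φ2 t ht, this, e', hψ t' ht']
    intro t ht t' ht' e'
    rcases le_total t τ with h1 | h1 <;> rcases le_total t' τ with h2 | h2
    · exact hC t ⟨ht.1, h1⟩ t' ⟨ht'.1, h2⟩ e'
    · exact mix t ⟨ht.1, h1⟩ t' ⟨hτ.1.trans h2, ht'.2.trans hτ'.2⟩ e'
    · exact (mix t' ⟨ht'.1, h2⟩ t ⟨hτ.1.trans h1, ht.2.trans hτ'.2⟩ e'.symm).symm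
    · rw [← hψ t ⟨hτ.1.trans h1, ht.2.trans hτ'.2⟩, ← hψ t' ⟨hτ.1.trans h2, ht'.2.trans hτ'.2⟩, e']
  refine isPreconnected_Icc.induction₂' (fun τ τ' => Cl τ → Cl τ') (fun s hs => ?_)
    (fun _ _ _ _ _ _ h1 h2 h3 => h2 (h1 h3)) (left_mem_Icc.2 hab) (right_mem_Icc.2 hab) ?_
  · obtain ⟨e, he, H⟩ := step s hs
    have h0 : s ∈ Icc (max a (s - e)) (min b (s + e)) :=
      ⟨max_le hs.1 (by linarith), le_min hs.2 (by linarith)⟩
    filter_upwards [self_mem_nhdsWithin, mem_nhdsWithin_of_mem_nhds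
      (Icc_mem_nhds (show s - e < s by linarith) (show s < s + e by linarith))] with τ h1 h2
    have h3 : τ ∈ Icc (max a (s - e)) (min b (s + e)) := ⟨max_le h1.1 h2.1, le_min h1.2 h2.2⟩
    exact ⟨H s h0 τ h3, H τ h3 s h0⟩
  · intro t ht t' ht' _
    rw [le_antisymm ht.2 ht.1, le_antisymm ht'.2 ht'.1]

end UniA

theorem sUni : SLeaf → SUni := by
  intro hL Y _ c c' x x' a b hc hc' hx hx' h
  obtain ⟨φ, φ1, φ2⟩ := UniA.factor hx hx' (UniA.claim hL hc.cont hc' hx hx' h)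
  refine ⟨φ, φ1, ?_, φ2⟩
  have hi : InjOn φ (x '' Icc a b) := by
    rintro _ ⟨t, ht, rfl⟩ _ ⟨t', ht', rfl⟩ e
    rw [φ2 t ht, φ2 t' ht'] at e
    exact UniA.claim hL hc'.cont hc hx' hx (fun t ht => (h t ht).symm) t ht t' ht' e
  by_cases hab : a ≤ b
  · have hne : (x '' Icc a b).Nonempty := ⟨_, mem_image_of_mem _ (left_mem_Icc.2 hab)⟩
    rw [hx.image_Icc hab] at φ1 hi hne ⊢
    exact φ1.strictMonoOn_of_injOn_Icc' (nonempty_Icc.1 hne) hi
  · left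
    rintro _ ⟨t, ht, -⟩
    exact absurd (ht.1.trans ht.2) hab

end Pool.Agent.MP_0c1703_gt.H59
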