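import Pool.Agent.MP_0c1703_gt.H59.Kit

/-! Arcs parametrised by their Whitney size. -/

namespace Pool.Agent.MP_0c1703_gt.H59

open Set Filter Topology

namespace WAA

variable {Y : Type} [MetricSpace Y] {B : Set Y} {μ : Set Y → ℝ} {c : ℝ → Y} {a b : ℝ}

theorem strict (hμ : Whit μ) (h : ArcIn B c a b) :
    StrictMonoOn (fun ξ => μ (c '' Icc a ξ)) (Icc a b) := by
  intro u hu v hv huv
  have hK : IsClosed (c '' Icc a u) := (h.path.sub le_rfl hu.1 hu.2).isCompact.isClosed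
  have hn : c v ∈ (c '' Icc a u)ᶜ := by
    rintro ⟨w, hw, e⟩
    have := h.inj ⟨hw.1, hw.2.trans hu.2⟩ hv e
    linarith [hw.2]
  obtain ⟨η, hη, hb⟩ := Metric.isOpen_iff.1 hK.isOpen_compl _ hn
  obtain ⟨κ, hκ, H⟩ := hμ.strict η hη
  have := H (c '' Icc a u) (c '' Icc a v) (c v) ⟨_, a, ⟨le_rfl, hu.1⟩, rfl⟩
    (image_mono (Icc_subset_Icc_right huv.le)) ⟨v, ⟨hv.1, le_rfl⟩, rfl⟩ fun y hy => by
      by_contra hlt
      exact hb (by rw [Metric.mem_ball, dist_comm]; exact not_le.1 hlt) hy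
  show μ _ < μ _
  linarith

theorem cont (hμ : Whit μ) (h : ArcIn B c a b) :
    ContinuousOn (fun ξ => μ (c '' Icc a ξ)) (Icc a b) := by
  have hu := Metric.uniformContinuousOn_iff.1
    (isCompact_Icc.uniformContinuousOn_of_continuous h.path.cont)
  rw [Metric.continuousOn_iff]
  intro v hv ε hε
  obtain ⟨δ, hδ, H⟩ := hu (ε / 2) (by linarith)
  have key : ∀ x ∈ Icc a b, ∀ y ∈ Icc a b, dist x y < δ → ∀ p ∈ c '' Icc a x,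
      ∃ q ∈ c '' Icc a y, dist p q ≤ ε / 2 := by
    rintro x hx y hy hd _ ⟨w, hw, rfl⟩
    rcases le_total w y with h1 | h1
    · exact ⟨c w, ⟨w, ⟨hw.1, h1⟩, rfl⟩, by rw [dist_self]; linarith⟩
    · refine ⟨c y, ⟨y, ⟨hy.1, le_rfl⟩, rfl⟩, (H w ⟨hw.1, hw.2.trans hx.2⟩ y hy ?_).le⟩
      rw [Real.dist_eq, abs_lt] at hd ⊢
      constructor <;> linarith [hw.2, hd.1, hd.2]
  refine ⟨δ, hδ, fun u hu' hd => ?_⟩
  have := hμ.lip (c '' Icc a u) (c '' Icc a v) (ε / 2) ⟨_, a, ⟨le_rfl, hu'.1⟩, rfl⟩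
    (key u hu' v hv hd) fun q hq => by
      obtain ⟨p, hp, e⟩ := key v hv u hu' (by rwa [dist_comm]) q hq
      exact ⟨p, hp, by rwa [dist_comm]⟩
  rw [Real.dist_eq]
  linarith

theorem param (hμ : Whit μ) (h : ArcIn B c a b) : ∃ g : ℝ → Y, WArc B μ g (μ (c '' Icc a b)) ∧
    StrictMonoOn (fun ξ => μ (c '' Icc a ξ)) (Icc a b) ∧
    ∀ ξ ∈ Icc a b, μ (c '' Icc a ξ) ∈ Icc 0 (μ (c '' Icc a b)) ∧ g (μ (c '' Icc a ξ)) = c ξ ∧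
      g '' Icc 0 (μ (c '' Icc a ξ)) = c '' Icc a ξ := by
  have hs := strict hμ h
  have hc := cont hμ h
  have hab := h.path.le
  obtain ⟨M, hM⟩ : ∃ M : ℝ → ℝ, M = fun ξ => μ (c '' Icc a ξ) := ⟨_, rfl⟩
  have hM' : ∀ ξ, μ (c '' Icc a ξ) = M ξ := fun ξ => by rw [hM]
  simp only [hM']
  rw [← hM] at hs hc
  have h0 : M a = 0 := by rw [← hM', Icc_self, image_singleton, hμ.zero]
  have him : ∀ ξ ∈ Icc a b, M '' Icc a ξ = Icc 0 (M ξ) := by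
    intro ξ hξ
    have hsub : Icc a ξ ⊆ Icc a b := Icc_subset_Icc_right hξ.2
    refine Subset.antisymm ?_ ?_
    · rintro _ ⟨w, hw, rfl⟩
      exact ⟨h0 ▸ hs.monotoneOn ⟨le_rfl, hab⟩ (hsub hw) hw.1, hs.monotoneOn (hsub hw) hξ hw.2⟩
    · rw [← h0]
      exact intermediate_value_Icc hξ.1 (hc.mono hsub)
  have hb : b ∈ Icc a b := ⟨hab, le_rfl⟩
  obtain ⟨g, hg⟩ : ∃ g : ℝ → Y, ∀ ξ ∈ Icc a b, g (M ξ) = c ξ :=
    ⟨fun r => c (Function.invFunOn M (Icc a b) r), fun ξ hξ =>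
      congrArg c (hs.injOn.leftInvOn_invFunOn hξ)⟩
  have hgi : ∀ ξ ∈ Icc a b, g '' Icc 0 (M ξ) = c '' Icc a ξ := by
    intro ξ hξ
    rw [← him ξ hξ, image_image]
    exact image_congr fun w hw => hg w ⟨hw.1, hw.2.trans hξ.2⟩
  have hmem : ∀ ξ ∈ Icc a b, M ξ ∈ Icc 0 (M b) := fun ξ hξ => him b hb ▸ mem_image_of_mem M hξ
  refine ⟨g, ⟨⟨⟨(hmem b hb).1, ?_, ?_⟩, ?_⟩, ?_⟩, hs, fun ξ hξ => ⟨hmem ξ hξ, hg ξ hξ, hgi ξ hξ⟩⟩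
  · rw [← him b hb]
    exact quot isCompact_Icc hc (h.path.cont.congr hg)
  · rw [← him b hb]
    rintro _ ⟨w, hw, rfl⟩
    rw [hg w hw]
    exact h.path.mem hw
  · rw [← him b hb]
    rintro _ ⟨w, hw, rfl⟩ _ ⟨w', hw', rfl⟩ e
    rw [hg w hw, hg w' hw'] at e
    rw [h.inj hw hw' e]
  · rw [← him b hb]
    rintro _ ⟨w, hw, rfl⟩
    rw [hgi w hw, hM']

theorem eq_of_mem (hT : Tree B) {g g' : ℝ → Y} {m m' ξ : ℝ} (h : WArc B μ g m)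
    (h' : WArc B μ g' m') (e : g 0 = g' 0) (h0 : 0 ≤ ξ) (h1 : ξ ≤ m) (h2 : ξ ≤ m')
    (hm : g' ξ ∈ g '' Icc 0 ξ) : g ξ = g' ξ := by
  obtain ⟨u, hu, eu⟩ := hm
  have := hT.image_eq (h.arc.sub le_rfl hu.1 (hu.2.trans h1)) (h'.arc.sub le_rfl h0 h2) e eu
  have h3 := h.size u ⟨hu.1, hu.2.trans h1⟩
  rw [this, h'.size ξ ⟨h0, h2⟩] at h3
  rw [← eu, ← h3]

theorem equi (hμ : Whit μ) (hU : UF B) {η : ℝ} (hη : 0 < η) : ∃ κ > 0, ∀ (g : ℝ → Y) (m : ℝ),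
    WArc B μ g m → ∀ ξ ∈ Icc 0 m, ∀ ξ' ∈ Icc 0 m, |ξ - ξ'| < κ → dist (g ξ) (g ξ') < η := by
  obtain ⟨δ, hδ, H⟩ := hU (η / 2) (by linarith)
  obtain ⟨κ, hκ, K⟩ := hμ.strict δ hδ
  have key : ∀ (g : ℝ → Y) (m : ℝ), WArc B μ g m → ∀ ξ ∈ Icc 0 m, ∀ ξ' ∈ Icc 0 m, ξ ≤ ξ' →
      ξ' < ξ + κ → dist (g ξ) (g ξ') < η := by
    intro g m hg ξ hξ ξ' hξ' hle hlt
    by_cases hz : ∃ z ∈ Icc 0 ξ, dist (g z) (g ξ') < δ
    · obtain ⟨z, hz, hd⟩ := hz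
      have h1 := H g z ξ' (hg.arc.sub hz.1 (hz.2.trans hle) hξ'.2) hd
      have h2 := h1 ξ ⟨hz.2, hle⟩
      have h3 := h1 ξ' ⟨hz.2.trans hle, le_rfl⟩
      linarith [dist_triangle_left (g ξ) (g ξ') (g z)]
    · push Not at hz
      have := K (g '' Icc 0 ξ) (g '' Icc 0 ξ') (g ξ') ⟨_, 0, ⟨le_rfl, hξ.1⟩, rfl⟩
        (image_mono (Icc_subset_Icc_right hle)) ⟨ξ', ⟨hξ'.1, le_rfl⟩, rfl⟩ (by
          rintro _ ⟨z, hz', rfl⟩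
          rw [dist_comm]
          exact hz z hz')
      rw [hg.size ξ hξ, hg.size ξ' hξ'] at this
      linarith
  refine ⟨κ, hκ, fun g m hg ξ hξ ξ' hξ' hd => ?_⟩
  rw [abs_lt] at hd
  rcases le_total ξ ξ' with h | h
  · exact key g m hg ξ hξ ξ' hξ' h (by linarith [hd.1])
  · rw [dist_comm]
    exact key g m hg ξ' hξ' ξ hξ h (by linarith [hd.2])

end WAA

open WAA in
theorem sWA : SCol → SWA := by
  intro hC Y _ B μ hμ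
  refine ⟨fun c a b h => param hμ h, fun hL g g' m m' h h' e hj ξ h0 h1 h2 => ?_,
    fun hU η hη => equi hμ hU hη⟩
  rcases h0.eq_or_lt with rfl | hp
  · exact e
  have j1 : JoinedIn (B \ {g 0}) (g ξ) (g m) :=
    h.arc.joined_diff ⟨le_rfl, h0.trans h1⟩ ⟨h0, h1⟩ ⟨h0.trans h1, le_rfl⟩
      (Or.inr ⟨hp, hp.trans_le h1⟩)
  have j2 : JoinedIn (B \ {g 0}) (g' m') (g' ξ) := by
    rw [e]
    exact h'.arc.joined_diff ⟨le_rfl, h0.trans h2⟩ ⟨h0.trans h2, le_rfl⟩ ⟨h0, h2⟩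
      (Or.inr ⟨hp.trans_le h2, hp⟩)
  rcases hC Y B g g' 0 ξ 0 ξ hL (h.arc.sub le_rfl h0 h1) (h'.arc.sub le_rfl h0 h2) e
    ((j1.trans hj).trans j2) with k | k
  · exact eq_of_mem hL.tree h h' e h0 h1 h2 k
  · exact (eq_of_mem hL.tree h' h e.symm h0 h2 h1 k).symm

end Pool.Agent.MP_0c1703_gt.H59
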