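import Pool.Agent.MP_0c1703_gt.H59.Kit

/-! A Whitney size function on a compact metric space. -/

namespace Pool.Agent.MP_0c1703_gt.H59

open Set Metric

namespace WhitA

variable {Y : Type} [MetricSpace Y] [CompactSpace Y]

/-- the oscillation of the distance from `w` on `A` -/
noncomputable def osc (w : Y) (A : Set Y) : ℝ := diam (dist w '' A)

theorem le_osc (w : Y) {A : Set Y} {a b : Y} (ha : a ∈ A) (hb : b ∈ A) :
    |dist w a - dist w b| ≤ osc w A := by
  have h : Bornology.IsBounded (dist w '' A) :=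
    (isCompact_range (continuous_const.dist continuous_id)).isBounded.subset
      (image_subset_range _ _)
  exact dist_le_diam_of_mem h (mem_image_of_mem _ ha) (mem_image_of_mem _ hb)

omit [CompactSpace Y] in
theorem osc_le (w : Y) {A : Set Y} {c : ℝ} (hc : 0 ≤ c)
    (h : ∀ a ∈ A, ∀ b ∈ A, dist w a - dist w b ≤ c) : osc w A ≤ c := by
  refine diam_le_of_forall_dist_le hc ?_
  rintro _ ⟨a, ha, rfl⟩ _ ⟨b, hb, rfl⟩
  exact abs_sub_le_iff.2 ⟨h a ha b hb, h b hb a ha⟩

omit [CompactSpace Y] in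
theorem osc_nonneg (w : Y) (A : Set Y) : 0 ≤ osc w A := diam_nonneg

theorem osc_bdd (w : Y) (A : Set Y) : osc w A ≤ diam (univ : Set Y) :=
  osc_le w diam_nonneg fun a _ b _ => by
    have h1 := dist_le_diam_of_mem (isCompact_univ (X := Y)).isBounded (mem_univ b) (mem_univ a)
    linarith [dist_triangle w b a]

theorem osc_near (w : Y) {A A' : Set Y} {η : ℝ} (hη : 0 ≤ η)
    (h : ∀ a ∈ A, ∃ a' ∈ A', dist a a' ≤ η) : osc w A ≤ osc w A' + 2 * η := by
  refine osc_le w (by linarith [osc_nonneg w A']) fun a ha b hb => ?_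
  obtain ⟨a', ha', h1⟩ := h a ha
  obtain ⟨b', hb', h2⟩ := h b hb
  have h3 := (abs_le.1 (le_osc w ha' hb')).2
  linarith [dist_triangle w a' a, dist_triangle w b b', dist_comm a a']

theorem osc_mono (w : Y) {A A' : Set Y} (h : A ⊆ A') : osc w A ≤ osc w A' := by
  simpa using osc_near w le_rfl fun a ha => ⟨a, h ha, (dist_self a).le⟩

theorem osc_strict (w : Y) {A A' : Set Y} {x : Y} {η : ℝ} (hA : A.Nonempty) (h : A ⊆ A')
    (hx : x ∈ A') (hd : ∀ a ∈ A, η ≤ dist x a) (hw : dist w x ≤ η / 4) :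
    osc w A + η / 2 ≤ osc w A' := by
  have h1 : ∀ a ∈ A, η / 2 ≤ dist w a - dist w x := fun a ha => by
    linarith [hd a ha, dist_triangle x w a, dist_comm x w]
  have h2 : ∀ a ∈ A, dist w a - dist w x ≤ osc w A' := fun a ha =>
    (abs_le.1 (le_osc w (h ha) hx)).2
  obtain ⟨a₀, ha₀⟩ := hA
  have h3 : osc w A ≤ osc w A' - η / 2 :=
    osc_le w (by linarith [h1 a₀ ha₀, h2 a₀ ha₀]) fun a ha b hb => by linarith [h1 b hb, h2 a ha]
  linarith

/-- the size function -/
noncomputable def size (w : ℕ → Y) (A : Set Y) : ℝ := ∑' k, (1 / 2 : ℝ) ^ k * osc (w k) A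

theorem summable (w : ℕ → Y) (A : Set Y) : Summable fun k => (1 / 2 : ℝ) ^ k * osc (w k) A :=
  Summable.of_nonneg_of_le (fun k => mul_nonneg (by positivity) (osc_nonneg _ _))
    (fun k => mul_le_mul_of_nonneg_left (osc_bdd _ _) (by positivity))
    (summable_geometric_two.mul_right _)

theorem size_le (w : ℕ → Y) {A A' : Set Y} {c : ℝ} (h : ∀ v, osc v A ≤ osc v A' + c) :
    size w A ≤ size w A' + 2 * c := by
  have h1 : HasSum (fun k => (1 / 2 : ℝ) ^ k * osc (w k) A' + (1 / 2 : ℝ) ^ k * c)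
      (size w A' + 2 * c) := (summable w A').hasSum.add (hasSum_geometric_two.mul_right c)
  refine hasSum_le (fun k => ?_) (summable w A).hasSum h1
  rw [← mul_add]
  exact mul_le_mul_of_nonneg_left (h _) (by positivity)

theorem size_strict (w : ℕ → Y) {A A' : Set Y} (h : A ⊆ A') (j : ℕ) :
    size w A + (1 / 2 : ℝ) ^ j * (osc (w j) A' - osc (w j) A) ≤ size w A' := by
  have h1 := le_hasSum ((summable w A').hasSum.sub (summable w A).hasSum) j fun k _ =>
    sub_nonneg.2 (mul_le_mul_of_nonneg_left (osc_mono (w k) h) (by positivity))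
  unfold size
  linarith

end WhitA

open WhitA in
theorem sWhit : SWhit := by
  intro Y _ _
  rcases isEmpty_or_nonempty Y with hY | hY
  · exact ⟨fun _ => 0, fun _ => rfl, fun _ _ _ _ => le_rfl,
      fun _ _ => ⟨1, one_pos, fun _ _ x => hY.elim x⟩, fun _ _ _ ⟨x, _⟩ => hY.elim x⟩
  let w := TopologicalSpace.denseSeq Y
  refine ⟨fun A => size w A / 4, fun x => by simp [size, osc], fun A A' _ h => ?_, fun η hη => ?_,
    fun A A' η ⟨a₀, ha₀⟩ h h' => ?_⟩
  · have := size_le w (A := A) (A' := A') (c := 0) fun v => by simpa using osc_mono v h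
    linarith
  · obtain ⟨t, ht⟩ := isCompact_univ.elim_finite_subcover (fun k => ball (w k) (η / 4))
      (fun _ => isOpen_ball) fun x _ => by
        obtain ⟨k, hk⟩ := (TopologicalSpace.denseRange_denseSeq Y).exists_dist_lt x
          (show 0 < η / 4 by positivity)
        exact mem_iUnion.2 ⟨k, hk⟩
    refine ⟨(1 / 2 : ℝ) ^ t.sup id * (η / 2) / 4, by positivity, fun A A' x hA h hx hd => ?_⟩
    obtain ⟨j, hj, hxj⟩ := mem_iUnion₂.1 (ht (mem_univ x))
    have h1 := osc_strict (w j) hA h hx hd (mem_ball'.1 hxj).le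
    have h2 := size_strict w h j
    have h3 : (1 / 2 : ℝ) ^ t.sup id * (η / 2) ≤
        (1 / 2 : ℝ) ^ j * (osc (w j) A' - osc (w j) A) :=
      mul_le_mul (pow_le_pow_of_le_one (by norm_num) (by norm_num) (Finset.le_sup (f := id) hj))
        (by linarith) (by positivity) (by positivity)
    linarith
  · obtain ⟨a', -, h0⟩ := h a₀ ha₀
    have hη : 0 ≤ η := dist_nonneg.trans h0
    have h1 := size_le w fun v => osc_near v hη h
    have h2 := size_le w fun v => osc_near v (A := A') (A' := A) hη fun b hb =>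
      let ⟨a, ha, e⟩ := h' b hb
      ⟨a, ha, (dist_comm b a).trans_le e⟩
    exact abs_sub_le_iff.2 ⟨by linarith, by linarith⟩

end Pool.Agent.MP_0c1703_gt.H59
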