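import Pool.Agent.MP_0c1703_gt.H58R.All

/-! The suspension of the empty set: the two point space is Tits rigid. -/

namespace Pool.Agent.MP_0c1703_gt.H59

open Set Filter Topology Pool.Agent.MP_0c1703_gt.H58
open scoped Real

theorem tits_bool {X : Type} [MetricSpace X] (hX : GroupSpace X) (e : Bd X ≃ₜ Bool) (u v : Bd X) :
    tits u v = if e u = e v then 0 else ⊤ := by
  have := hX.1
  have c := core X hX.2.1
  split_ifs with h
  · obtain rfl := e.injective h
    rw [c.c6.eq u u (by rw [c.c5.self]; exact Real.pi_pos), c.c5.self, ENNReal.ofReal_zero]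
  · simp only [tits, iInf_eq_top]
    intro γ h0 h1 hc
    exfalso
    have pos : 0 < ang (e.symm true) (e.symm false) :=
      (c.c4.nn _ _).lt_of_ne fun h => by simpa using c.c5.eq _ _ h.symm
    have key : ∀ a b : Bd X, ang a b < ang (e.symm true) (e.symm false) → e a = e b := by
      intro a b hab
      obtain ⟨a, rfl⟩ := e.symm.surjective a
      obtain ⟨b, rfl⟩ := e.symm.surjective b
      cases a <;> cases b
      · rfl
      · rw [c.c5.symm] at hab; exact absurd hab (lt_irrefl _)
      · exact absurd hab (lt_irrefl _)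
      · rfl
    have hcont : ContinuousOn (fun s => e (γ s)) (Icc 0 1) := by
      intro s hs
      obtain ⟨δ, hδ, H⟩ := hc s hs _ pos
      refine (continuousWithinAt_const (b := e (γ s))).congr_of_eventuallyEq ?_ rfl
      filter_upwards [self_mem_nhdsWithin, mem_nhdsWithin_of_mem_nhds (Metric.ball_mem_nhds s hδ)]
        with t ht hb
      exact (key _ _ (H t ht (by simpa [Real.dist_eq] using hb))).symm
    have := isPreconnected_Icc.constant hcont (left_mem_Icc.2 zero_le_one) (right_mem_Icc.2 zero_le_one)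
    exact h (by simpa [h0, h1] using this)

theorem titsRigid_bool : TitsRigid Bool := by
  intro X₁ X₂ _ _ h₁ h₂ ⟨e₁⟩ ⟨e₂⟩
  refine ⟨e₁.trans e₂.symm, fun u v => ?_⟩
  rw [tits_bool h₁ e₁, tits_bool h₂ e₂]
  have k : ∀ w, e₂ ((e₁.trans e₂.symm) w) = e₁ w := fun w => e₂.apply_symm_apply _
  rw [k, k]

end Pool.Agent.MP_0c1703_gt.H59
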