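import Pool.Agent.MP_0c1703_gt.H58R.All2
import Pool.Agent.MP_0c1703_gt.H59.Asm
import Pool.Agent.MP_0c1703_gt.H59R.Ext
import Pool.Agent.MP_0c1703_gt.H59R.Glue
import Pool.Agent.MP_0c1703_gt.H59R.Plaq
import Pool.Agent.MP_0c1703_gt.H59R.NF
import Pool.Agent.MP_0c1703_gt.H59R.H
import Pool.Agent.MP_0c1703_gt.H59R.Mu
import Pool.Agent.MP_0c1703_gt.H59R.Rays
import Pool.Agent.MP_0c1703_gt.H59R.Arc
import Pool.Agent.MP_0c1703_gt.H59R.Inv3
import Pool.Agent.MP_0c1703_gt.H59R.Psi3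
import Pool.Agent.MP_0c1703_gt.H59R.Box
import Pool.Agent.MP_0c1703_gt.H59R.NoTri
import Pool.Agent.MP_0c1703_gt.H59R.Rect
import Pool.Agent.MP_0c1703_gt.H59R.Pole
import Pool.Agent.MP_0c1703_gt.H59R.Dim
import Pool.Agent.MP_0c1703_gt.H59R.Inv2
import Pool.Agent.MP_0c1703_gt.H59R.Ray
import Pool.Agent.MP_0c1703_gt.H59R.Lim
import Pool.Agent.MP_0c1703_gt.H59R.WA
import Pool.Agent.MP_0c1703_gt.H59R.Uni
import Pool.Agent.MP_0c1703_gt.H59R.Psi2
import Pool.Agent.MP_0c1703_gt.H59R.Cmp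
import Pool.Agent.MP_0c1703_gt.H59R.Circ1
import Pool.Agent.MP_0c1703_gt.H59R.Circ2
import Pool.Agent.MP_0c1703_gt.H59R.Flow
import Pool.Agent.MP_0c1703_gt.H59R.LF
import Pool.Agent.MP_0c1703_gt.H59R.H1
import Pool.Agent.MP_0c1703_gt.H59R.Ord0
import Pool.Agent.MP_0c1703_gt.H59R.LB
import Pool.Agent.MP_0c1703_gt.H59R.Leaf
import Pool.Agent.MP_0c1703_gt.H59R.Psi1
import Pool.Agent.MP_0c1703_gt.H59R.Pair
import Pool.Agent.MP_0c1703_gt.H59R.Tree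
import Pool.Agent.MP_0c1703_gt.H59R.Imm
import Pool.Agent.MP_0c1703_gt.H59R.Whit
import Pool.Agent.MP_0c1703_gt.H59R.Bal1
import Pool.Agent.MP_0c1703_gt.H59R.Bal2
import Pool.Agent.MP_0c1703_gt.H59R.Side
import Pool.Agent.MP_0c1703_gt.H59R.Nolog
import Pool.Agent.MP_0c1703_gt.H59R.Chain
import Pool.Agent.MP_0c1703_gt.H59R.Col
import Pool.Agent.MP_0c1703_gt.H59R.Fin
import Pool.Agent.MP_0c1703_gt.H59R.Sus
import Pool.Agent.MP_0c1703_gt.H59R.Two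
import Pool.Agent.MP_0c1703_gt.H59R.Imp
import Pool.Agent.MP_0c1703_gt.H59R.Zero

/-! All rows of the one-dimensional theorem together. -/

namespace Pool.Agent.MP_0c1703_gt.H59

open Pool.Agent.MP_0c1703_gt.H58

theorem hH : SH := sH sArc sTree sH1

theorem wa : SWA := sWA sCol

theorem boxAll : SBoxAll :=
  sBoxAll sDim sLF sTree sImm (sTwo sImm sArc (sInv2 sTree hH sNolog sSide))
    (sNoTri sImm sArc (sInv3 hH sNolog sSide)) (sNF sImm (sRect sArc sCol sWhit) sChain) sWhit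
    (sRays wa (sLim wa) (sRay sArc wa (sLim wa))) (sPlaq sArc wa) (sBox sImp)

theorem lb : SLB := sLB sLeaf (sGlue sExt sImp)

theorem flow : SFlow := sFlow sCoord sImm

theorem bal1 : SBal1 := sBal1 (sUni sLeaf)

theorem hom : SHom :=
  sHom (sPair sCoord flow) sMu (sPsi1 sLeaf lb bal1 (sBal2 sImp)) (sPsi2 sLeaf lb bal1 (sCmp sOrd0))
    (sPsi3 sLeaf lb bal1 (sBal2 sImp) (sCmp sOrd0))

theorem canc1 : SCanc1 :=
  sCanc1 boxAll hom (sPole sCoord flow) (sCirc1 sLeaf lb) sCirc2 (sFin core fix) sSus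

theorem final1 (Y : Type) [TopologicalSpace Y] [CompactSpace Y] [TopologicalSpace.MetrizableSpace Y]
    [Nonempty Y] (hd : DimLE1 Y)
    (hX : ∃ (X : Type) (_ : MetricSpace X), GroupSpace X ∧ Nonempty (Bd X ≃ₜ Y)) (hs : ¬ IsSusp Y)
    (hr : TitsRigid Y) : TitsRigid (Join Bool Y) := by
  letI := TopologicalSpace.metrizableSpaceMetric Y
  obtain ⟨h1, h2⟩ := canc1 Y hd hX hs
  exact main Y h2 hr

end Pool.Agent.MP_0c1703_gt.H59
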