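import Pool.Agent.MP_0c1703_gt.H59.Kit

/-! Comparison of the balance points of two disjoint curves on one leaf. -/

namespace Pool.Agent.MP_0c1703_gt.H59

open Set Filter Topology Pool.Agent.MP_0c1703_gt.H58
open scoped Real

namespace CmpA

/-- a point in the middle band has its parameter in the middle interval -/
theorem mem_mid {θ : ℝ → ℝ} {a₀ a₁ b₁ b₀ α β t : ℝ} (h : Ht θ a₀ a₁ b₁ b₀ α β)
    (ht : t ∈ Icc a₀ b₀) (h₁ : π / 4 ≤ θ t) (h₂ : θ t ≤ 3 * π / 4) : t ∈ Icc a₁ b₁ := by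
  constructor
  · by_contra hlt
    have := h.left t ⟨ht.1, (not_le.mp hlt).le⟩
    linarith
  · by_contra hlt
    have := h.right t ⟨(not_le.mp hlt).le, ht.2⟩
    linarith

/-- the last crossing of α and the first crossing of β -/
theorem cut {θ : ℝ → ℝ} {a₀ a₁ b₁ b₀ α β : ℝ} (h : Ht θ a₀ a₁ b₁ b₀ α β) :
    ∃ s t, a₀ ≤ s ∧ s ≤ a₁ ∧ b₁ ≤ t ∧ t ≤ b₀ ∧ θ s = α ∧ θ t = β ∧
      ∀ u ∈ Icc s t, θ u ∈ Icc α β := by
  have hpi := Real.pi_pos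
  have hlo := h.lo
  have hhi := h.hi
  have hL : ContinuousOn θ (Icc a₀ a₁) :=
    h.cont.mono (Icc_subset_Icc le_rfl (h.le₂.trans h.le₃))
  have hR : ContinuousOn θ (Icc b₁ b₀) :=
    h.cont.mono (Icc_subset_Icc (h.le₁.trans h.le₂) le_rfl)
  have ha₁ := (h.mid a₁ ⟨le_rfl, h.le₂⟩).1
  have hb₁ := (h.mid b₁ ⟨h.le₂, le_rfl⟩).2
  have hS : IsCompact (Icc a₀ a₁ ∩ θ ⁻¹' {α}) :=
    isCompact_Icc.of_isClosed_subset
      (hL.preimage_isClosed_of_isClosed isClosed_Icc isClosed_singleton) inter_subset_left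
  have hT : IsCompact (Icc b₁ b₀ ∩ θ ⁻¹' {β}) :=
    isCompact_Icc.of_isClosed_subset
      (hR.preimage_isClosed_of_isClosed isClosed_Icc isClosed_singleton) inter_subset_left
  have hSne : (Icc a₀ a₁ ∩ θ ⁻¹' {α}).Nonempty := by
    obtain ⟨u, hu, hu'⟩ := intermediate_value_Icc h.le₁ hL ⟨h.start, ha₁.le⟩
    exact ⟨u, hu, hu'⟩
  have hTne : (Icc b₁ b₀ ∩ θ ⁻¹' {β}).Nonempty := by
    obtain ⟨u, hu, hu'⟩ := intermediate_value_Icc h.le₃ hR ⟨hb₁.le, h.stop⟩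
    exact ⟨u, hu, hu'⟩
  obtain ⟨s, ⟨hs, hsα⟩, hsmax⟩ := hS.exists_isGreatest hSne
  obtain ⟨t, ⟨ht, htβ⟩, htmin⟩ := hT.exists_isLeast hTne
  have hsα' : θ s = α := hsα
  have htβ' : θ t = β := htβ
  refine ⟨s, t, hs.1, hs.2, ht.1, ht.2, hsα', htβ', fun u hu => ?_⟩
  rcases le_total u a₁ with h₁ | h₁
  · have hu' : u ∈ Icc a₀ a₁ := ⟨hs.1.trans hu.1, h₁⟩
    have hlt := h.left u hu'
    refine ⟨?_, by linarith⟩
    by_contra hc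
    have hc' := not_le.mp hc
    obtain ⟨v, hv, hv'⟩ := intermediate_value_Icc h₁
      (hL.mono (Icc_subset_Icc hu'.1 le_rfl)) ⟨hc'.le, ha₁.le⟩
    have hvs : v ≤ s := hsmax ⟨⟨hu'.1.trans hv.1, hv.2⟩, hv'⟩
    have hus : u = s := le_antisymm (hv.1.trans hvs) hu.1
    rw [hus, hsα'] at hc'
    exact lt_irrefl _ hc'
  rcases le_total u b₁ with h₂ | h₂
  · have := h.mid u ⟨h₁, h₂⟩
    exact ⟨this.1.le, this.2.le⟩
  · have hu' : u ∈ Icc b₁ b₀ := ⟨h₂, hu.2.trans ht.2⟩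
    have hlt := h.right u hu'
    refine ⟨by linarith, ?_⟩
    by_contra hc
    have hc' := not_le.mp hc
    obtain ⟨v, hv, hv'⟩ := intermediate_value_Icc h₂
      (hR.mono (Icc_subset_Icc le_rfl hu'.2)) ⟨hb₁.le, hc'.le⟩
    have hvt : t ≤ v := htmin ⟨⟨hv.1, hv.2.trans hu'.2⟩, hv'⟩
    have hut : u = t := le_antisymm hu.2 (hvt.trans hv.2)
    rw [hut, htβ'] at hc'
    exact lt_irrefl _ hc'

theorem pen_nonneg (y : ℝ) : 0 ≤ 12 / π * |y - π / 2| :=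
  mul_nonneg (div_nonneg (by norm_num) Real.pi_pos.le) (abs_nonneg _)

theorem le_top {f θ : ℝ → ℝ} {a b t : ℝ} (hf : ∀ t, f t ≤ 1) (ht : t ∈ Icc a b) :
    f t - 12 / π * |θ t - π / 2| ≤ Top f θ a b := by
  refine le_csSup ⟨1, ?_⟩ ⟨t, ht, rfl⟩
  rintro _ ⟨u, -, rfl⟩
  have h₁ := hf u
  have h₂ := pen_nonneg (θ u)
  show f u - 12 / π * |θ u - π / 2| ≤ 1
  linarith

theorem top_mono {f f' θ : ℝ → ℝ} {a b : ℝ} (hab : a ≤ b) (hf' : ∀ t, f' t ≤ 1)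
    (h : ∀ t, f t ≤ f' t) : Top f θ a b ≤ Top f' θ a b := by
  refine csSup_le ((nonempty_Icc.mpr hab).image _) ?_
  rintro _ ⟨u, hu, rfl⟩
  have h₁ := le_top (θ := θ) hf' hu
  have h₂ := h u
  show f u - 12 / π * |θ u - π / 2| ≤ Top f' θ a b
  linarith

/-- the penalised maximum is attained in the middle interval -/
theorem top_eq {f θ : ℝ → ℝ} {a₀ a₁ b₁ b₀ α β : ℝ} (h : Ht θ a₀ a₁ b₁ b₀ α β)
    (hc : ContinuousOn f (Icc a₀ b₀)) (hf : ∀ t, |f t| ≤ 1) :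
    ∃ t ∈ Icc a₁ b₁, Top f θ a₀ b₀ = f t - 12 / π * |θ t - π / 2| := by
  have hpi := Real.pi_pos
  have hab : a₀ ≤ b₀ := h.le₁.trans (h.le₂.trans h.le₃)
  have hg : ContinuousOn (fun t => f t - 12 / π * |θ t - π / 2|) (Icc a₀ b₀) :=
    hc.sub (continuousOn_const.mul (h.cont.sub continuousOn_const).abs)
  obtain ⟨t, ht, hte⟩ := (isCompact_Icc.image_of_continuousOn hg).sSup_mem
    ((nonempty_Icc.mpr hab).image _)
  have hte' : f t - 12 / π * |θ t - π / 2| = Top f θ a₀ b₀ := hte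
  have hlo := h.lo
  have hhi := h.hi
  have hst := h.start
  have hsp := h.stop
  obtain ⟨u, hu, hu'⟩ := intermediate_value_Icc hab h.cont
    (show π / 2 ∈ Icc (θ a₀) (θ b₀) from ⟨by linarith, by linarith⟩)
  have h₁ := le_top (θ := θ) (fun t => (abs_le.mp (hf t)).2) hu
  rw [hu', sub_self, abs_zero, mul_zero, sub_zero] at h₁
  have h₂ := (abs_le.mp (hf u)).1
  have h₃ := (abs_le.mp (hf t)).2
  have h₄ : 12 / π * |θ t - π / 2| ≤ 2 := by linarith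
  have h₅ : |θ t - π / 2| ≤ π / 6 := by
    rw [div_mul_eq_mul_div, div_le_iff₀ hpi] at h₄
    linarith
  have h₆ := abs_le.mp h₅
  exact ⟨t, mem_mid h ht (by linarith [h₆.1]) (by linarith [h₆.2]), hte'.symm⟩

theorem top_lt {f f' θ θ' : ℝ → ℝ} {a₀ a₁ b₁ b₀ α β : ℝ} (h : Ht θ a₀ a₁ b₁ b₀ α β)
    (hc : ContinuousOn f (Icc a₀ b₀)) (hf : ∀ t, |f t| ≤ 1) (hf' : ∀ t, |f' t| ≤ 1)
    (hlt : ∀ u ∈ Icc a₁ b₁, ∃ u' ∈ Icc a₀ b₀, θ u = θ' u' ∧ f u < f' u') :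
    Top f θ a₀ b₀ < Top f' θ' a₀ b₀ := by
  obtain ⟨t, ht, hte⟩ := top_eq h hc hf
  obtain ⟨u, hu, hθ, hfu⟩ := hlt t ht
  have h₁ := le_top (θ := θ') (fun t => (abs_le.mp (hf' t)).2) hu
  rw [hte, hθ]
  linarith

variable {Y : Type} [MetricSpace Y]

theorem cont_len {δ : (ℝ → Y) → ℝ → ℝ → ℝ} {c : ℝ → Y} (hδ : Mu δ) (hc : Leaf c) (z : ℝ) :
    Continuous (δ c z) := by
  have h₁ := hδ.cont Unit (fun w => c w.2) (hc.cont.comp continuous_snd)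
  have h₂ : Continuous fun t : ℝ => (((), z, t) : Unit × ℝ × ℝ) :=
    continuous_const.prodMk (continuous_const.prodMk continuous_id)
  exact h₁.comp h₂

/-- a curve on the left has its balance point on the left -/
theorem bal_lt {δ : (ℝ → Y) → ℝ → ℝ → ℝ} {c : ℝ → Y} {x θ x' θ' : ℝ → ℝ}
    {a₀ a₁ b₁ b₀ α β ξ ξ' : ℝ} (hδ : Mu δ) (hc : Leaf c) (h : Ht θ a₀ a₁ b₁ b₀ α β)
    (h' : Ht θ' a₀ a₁ b₁ b₀ α β) (hx : ContinuousOn x (Icc a₀ b₀))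
    (hx' : ContinuousOn x' (Icc a₀ b₀))
    (h₁ : ∀ u' ∈ Icc a₁ b₁, ∃ u ∈ Icc a₀ b₀, θ u = θ' u' ∧ x u < x' u')
    (h₂ : ∀ u ∈ Icc a₁ b₁, ∃ u' ∈ Icc a₀ b₀, θ u = θ' u' ∧ x u < x' u')
    (hb : Bal δ c x θ a₀ b₀ ξ) (hb' : Bal δ c x' θ' a₀ b₀ ξ') : ξ < ξ' := by
  have hab : a₀ ≤ b₀ := h.le₁.trans (h.le₂.trans h.le₃)
  have hcz := cont_len hδ hc ξ
  have k₁ : Top (fun t => δ c ξ (x t)) θ a₀ b₀ < Top (fun t => δ c ξ (x' t)) θ' a₀ b₀ := by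
    refine top_lt h (hcz.comp_continuousOn hx) (fun t => hδ.bd _ _ _) (fun t => hδ.bd _ _ _) ?_
    intro u hu
    obtain ⟨u', hu', he, hl⟩ := h₂ u hu
    exact ⟨u', hu', he, hδ.mono c hc ξ hl⟩
  have k₂ : Top (fun t => -δ c ξ (x' t)) θ' a₀ b₀ < Top (fun t => -δ c ξ (x t)) θ a₀ b₀ := by
    refine top_lt h' (hcz.comp_continuousOn hx').neg (fun t => ?_) (fun t => ?_) ?_
    · rw [abs_neg]; exact hδ.bd _ _ _
    · rw [abs_neg]; exact hδ.bd _ _ _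
    intro u' hu'
    obtain ⟨u, hu, he, hl⟩ := h₁ u' hu'
    exact ⟨u, hu, he.symm, neg_lt_neg (hδ.mono c hc ξ hl)⟩
  by_contra hle
  have hle' := not_lt.mp hle
  have hw : ∀ w, δ c ξ w ≤ δ c ξ' w := fun w => by
    rw [hδ.anti c ξ w, hδ.anti c ξ' w]
    exact neg_le_neg ((hδ.mono c hc w).monotone hle')
  have k₃ : Top (fun t => δ c ξ (x' t)) θ' a₀ b₀ ≤ Top (fun t => δ c ξ' (x' t)) θ' a₀ b₀ :=
    top_mono hab (fun t => (abs_le.mp (hδ.bd _ _ _)).2) fun t => hw _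
  have k₄ : Top (fun t => -δ c ξ' (x' t)) θ' a₀ b₀ ≤ Top (fun t => -δ c ξ (x' t)) θ' a₀ b₀ :=
    top_mono hab (fun t => by have := (abs_le.mp (hδ.bd c ξ (x' t))).1; linarith)
      fun t => neg_le_neg (hw _)
  unfold Bal at hb hb'
  linarith

end CmpA

theorem sCmp : SOrd0 → SCmp := by
  intro hO Y _ δ c x θ x' θ' a₀ a₁ b₁ b₀ α β ξ ξ' hδ hc h h' hx hx' hd hb hb'
  have hpi := Real.pi_pos
  obtain ⟨s, t, hs₀, hs₁, ht₁, ht₀, hsα, htβ, hm⟩ := CmpA.cut h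
  obtain ⟨s', t', hs₀', hs₁', ht₁', ht₀', hsα', htβ', hm'⟩ := CmpA.cut h'
  have hsub : Icc s t ⊆ Icc a₀ b₀ := Icc_subset_Icc hs₀ ht₀
  have hsub' : Icc s' t' ⊆ Icc a₀ b₀ := Icc_subset_Icc hs₀' ht₀'
  have hin : Icc a₁ b₁ ⊆ Icc s t := Icc_subset_Icc hs₁ ht₁
  have hin' : Icc a₁ b₁ ⊆ Icc s' t' := Icc_subset_Icc hs₁' ht₁'
  have hmid : ∀ u' ∈ Icc a₀ b₀, θ' u' = π / 2 → u' ∈ Icc s' t' := fun u' hu' he =>
    hin' (CmpA.mem_mid h' hu' (by linarith) (by linarith))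
  rcases hO x θ x' θ' s t s' t' α β (hs₁.trans (h.le₂.trans ht₁))
    (hs₁'.trans (h.le₂.trans ht₁')) (hx.mono hsub) (h.cont.mono hsub) (hx'.mono hsub')
    (h'.cont.mono hsub') hsα htβ hsα' htβ' hm hm'
    (fun u hu u' hu' => hd u (hsub hu) u' (hsub' hu')) with ⟨h₁, h₂⟩ | ⟨h₁, h₂⟩
  · refine Or.inl ⟨CmpA.bal_lt hδ hc h h' hx hx' (fun u' hu' => ?_) (fun u hu => ?_) hb hb',
      fun u' hu' he => ?_⟩
    · obtain ⟨u, hu, k⟩ := h₁ u' (hin' hu')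
      exact ⟨u, hsub hu, k⟩
    · obtain ⟨u', hu', k⟩ := h₂ u (hin hu)
      exact ⟨u', hsub' hu', k⟩
    · obtain ⟨u, hu, k₁, k₂⟩ := h₁ u' (hmid u' hu' he)
      exact ⟨u, hsub hu, k₁.trans he, k₂⟩
  · refine Or.inr ⟨CmpA.bal_lt hδ hc h' h hx' hx (fun u hu => ?_) (fun u' hu' => ?_) hb' hb,
      fun u' hu' he => ?_⟩
    · obtain ⟨u', hu', k₁, k₂⟩ := h₂ u (hin hu)
      exact ⟨u', hsub' hu', k₁.symm, k₂⟩
    · obtain ⟨u, hu, k₁, k₂⟩ := h₁ u' (hin' hu')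
      exact ⟨u, hsub hu, k₁.symm, k₂⟩
    · obtain ⟨u, hu, k₁, k₂⟩ := h₁ u' (hmid u' hu' he)
      exact ⟨u, hsub hu, k₁.trans he, k₂⟩

end Pool.Agent.MP_0c1703_gt.H59
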