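import Pool.Agent.MP_0c1703_gt.H59.Kit

/-! Row Psi3: every point is assigned to some fibre. -/

namespace Pool.Agent.MP_0c1703_gt.H59

open Set Filter Topology Pool.Agent.MP_0c1703_gt.H58
open scoped Real

namespace Psi3A

variable {Y V C : Type} [MetricSpace Y] [TopologicalSpace V] [TopologicalSpace C]
  {δ : (ℝ → Y) → ℝ → ℝ → ℝ} {Γ : V × ℝ → Y} {Θ : V × ℝ → ℝ} {A : Y → V} {τ : Y → ℝ}
  {a₀ a₁ b₁ b₀ α β : ℝ} {h : C × ℝ → Y} {N : Set V} {κ : V → C} {x : V × ℝ → ℝ} {ξ : V → ℝ}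

/-- a long box around the fibres in N with the balance points -/
structure Ch (δ : (ℝ → Y) → ℝ → ℝ → ℝ) (Γ : V × ℝ → Y) (Θ : V × ℝ → ℝ) (a₀ b₀ : ℝ)
    (h : C × ℝ → Y) (N : Set V) (κ : V → C) (x : V × ℝ → ℝ) (ξ : V → ℝ) : Prop where
  box : Box h
  op : IsOpen N
  cκ : ContinuousOn κ N
  cx : ContinuousOn x (N ×ˢ Icc a₀ b₀)
  cξ : ContinuousOn ξ N
  eq : ∀ p ∈ N, ∀ t ∈ Icc a₀ b₀, Γ (p, t) = h (κ p, x (p, t))
  bal : ∀ p ∈ N, Bal δ (fun u => h (κ p, u)) (fun t => x (p, t)) (fun t => Θ (p, t)) a₀ b₀ (ξ p)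

theorem le0 (P : Pair Γ Θ A τ a₀ a₁ b₁ b₀ α β) (v : V) : a₀ ≤ b₀ :=
  (P.ht v).le₁.trans ((P.ht v).le₂.trans (P.ht v).le₃)

theorem Ch.cx1 (H : Ch δ Γ Θ a₀ b₀ h N κ x ξ) {p : V} (hp : p ∈ N) :
    ContinuousOn (fun t => x (p, t)) (Icc a₀ b₀) :=
  H.cx.comp (by fun_prop) fun _ ht => ⟨hp, ht⟩

theorem chart (hL : SLeaf) (hB : SLB) (h2 : SBal2) (M : Mu δ)
    (P : Pair Γ Θ A τ a₀ a₁ b₁ b₀ α β) (v : V) (t : ℝ) (ht : t ∈ Icc a₀ b₀)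
    (hv : HasBox (Γ (v, t))) :
    ∃ (C : Type) (_ : TopologicalSpace C) (h : C × ℝ → Y) (N : Set V) (κ : V → C)
      (x : V × ℝ → ℝ) (ξ : V → ℝ), v ∈ N ∧ Ch δ Γ Θ a₀ b₀ h N κ x ξ := by
  have all : ∀ s ∈ Icc a₀ b₀, HasBox (Γ (v, s)) := by
    rcases P.dich v with e | e
    · exact e
    · intro s hs
      rw [e s hs, ← e t ht]
      exact hv
  obtain ⟨C, _, h, N, κ, x, b, o, m, cκ, cx, e⟩ := hB Y V Γ v a₀ b₀ (le0 P v) P.cΓ all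
  obtain ⟨N', ξ, o', m', s', cξ, bal⟩ := h2 Y C V δ h N v κ x Θ a₀ b₀ M b.loc.continuous
    ((hL Y).1 C h b) (le0 P v) o m cκ cx (P.cΘ.mono (prod_mono (subset_univ _) le_rfl))
  exact ⟨C, _, h, N', κ, x, ξ, m', b, o', cκ.mono s', cx.mono (prod_mono s' le_rfl), cξ,
    fun p hp => e p (s' hp), bal⟩

theorem rel (hL : SLeaf) (h1 : SBal1) (M : Mu δ) (P : Pair Γ Θ A τ a₀ a₁ b₁ b₀ α β)
    (H : Ch δ Γ Θ a₀ b₀ h N κ x ξ) {p : V} (hp : p ∈ N) : Rel δ Γ Θ a₀ b₀ p (h (κ p, ξ p)) := by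
  have lf := (hL Y).1 C h H.box (κ p)
  obtain ⟨t, ht, e⟩ := (h1 Y δ _ _ _ a₀ b₀ M lf (le0 P p) (H.cx1 hp) (P.ht p).cont).2.1 _
    (H.bal p hp)
  refine Or.inl ⟨⟨C, _, h, H.box, _, (H.eq p hp a₀ ⟨le_rfl, le0 P p⟩).symm⟩, _, _, t, lf,
    H.cx1 hp, H.eq p hp, ht, ?_, ?_⟩
  · rw [← e]
    exact H.bal p hp
  · rw [H.eq p hp t ht, e]

theorem near (hL : SLeaf) (P : Pair Γ Θ A τ a₀ a₁ b₁ b₀ α β) (H : Ch δ Γ Θ a₀ b₀ h N κ x ξ)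
    {v : V} (hv : v ∈ N) {t : ℝ} (ht : t ∈ Icc a₀ b₀) (hθ : Θ (v, t) = π / 2) :
    A (h (κ v, x (v, t))) = v ∧ ∃ e > 0, ∀ z ∈ Icc (x (v, t) - e) (x (v, t) + e),
      A (h (κ v, z)) ∈ N ∧ κ (A (h (κ v, z))) = κ v ∧
        x (A (h (κ v, z)), τ (h (κ v, z))) = z := by
  have lf := (hL Y).1 C h H.box (κ v)
  have s := P.sec (h (κ v, x (v, t)))
  obtain ⟨e1, e2⟩ := P.inj _ v _ s.1 t ht (s.2.1.trans (H.eq v hv t ht).symm)
    (s.2.2.trans hθ.symm)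
  have cA : Continuous fun z => A (h (κ v, z)) := P.cA.comp lf.cont
  have cτ : Continuous fun z => τ (h (κ v, z)) := P.cτ.comp lf.cont
  have hn : (fun z => A (h (κ v, z))) ⁻¹' N ∈ 𝓝 (x (v, t)) :=
    (H.op.preimage cA).mem_nhds (by simpa [e1] using hv)
  obtain ⟨r, r0, hr⟩ := Metric.nhds_basis_closedBall.mem_iff.1 hn
  rw [Real.closedBall_eq_Icc] at hr
  have m0 : x (v, t) ∈ Icc (x (v, t) - r) (x (v, t) + r) := ⟨by linarith, by linarith⟩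
  have cf : ContinuousOn (fun z => κ (A (h (κ v, z)))) (Icc (x (v, t) - r) (x (v, t) + r)) :=
    H.cκ.comp cA.continuousOn fun z hz => hr hz
  have k0 : ∀ z ∈ Icc (x (v, t) - r) (x (v, t) + r),
      κ (A (h (κ v, x (v, t) - r))) = κ (A (h (κ v, z))) := fun z hz =>
    H.box.tpd _ _ _ hz.1 (cf.mono (Icc_subset_Icc le_rfl hz.2))
  have k1 : ∀ z ∈ Icc (x (v, t) - r) (x (v, t) + r), κ (A (h (κ v, z))) = κ v := fun z hz => by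
    rw [← k0 z hz, k0 _ m0, e1]
  refine ⟨e1, r, r0, fun z hz => ⟨hr hz, k1 z hz, ?_⟩⟩
  refine (hL Y).2.1 _ (fun z => x (A (h (κ v, z)), τ (h (κ v, z)))) (fun z => z) _ _ lf
    (H.cx.comp (cA.prodMk cτ).continuousOn fun w hw => ⟨hr hw, (P.sec _).1⟩) continuousOn_id
    (fun w hw => ?_) _ m0 (by simp only [e1, e2]) z hz
  have := H.eq _ (hr hw) _ (P.sec (h (κ v, w))).1
  rw [(P.sec _).2.1, k1 w hw] at this
  exact this.symm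

theorem cmp (hL : SLeaf) (hC : SCmp) (M : Mu δ) (P : Pair Γ Θ A τ a₀ a₁ b₁ b₀ α β)
    (H : Ch δ Γ Θ a₀ b₀ h N κ x ξ) {v v' : V} (hv : v ∈ N) (hv' : v' ∈ N) (e : κ v' = κ v)
    (ne : v ≠ v') :
    (ξ v < ξ v' ∧ ∀ t' ∈ Icc a₀ b₀, Θ (v', t') = π / 2 →
      ∃ t ∈ Icc a₀ b₀, Θ (v, t) = π / 2 ∧ x (v, t) < x (v', t')) ∨
    (ξ v' < ξ v ∧ ∀ t' ∈ Icc a₀ b₀, Θ (v', t') = π / 2 →
      ∃ t ∈ Icc a₀ b₀, Θ (v, t) = π / 2 ∧ x (v', t') < x (v, t)) := by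
  have b' := H.bal v' hv'
  rw [e] at b'
  refine hC Y δ _ _ _ _ _ a₀ a₁ b₁ b₀ α β _ _ M ((hL Y).1 C h H.box (κ v)) (P.ht v) (P.ht v')
    (H.cx1 hv) (H.cx1 hv') (fun t ht t' ht' k => ne (P.inj v v' t ht t' ht' ?_ k.2).1)
    (H.bal v hv) b'
  have k1 : x (v, t) = x (v', t') := k.1
  rw [H.eq v hv t ht, H.eq v' hv' t' ht', e, k1]

theorem loc (hL : SLeaf) (h1 : SBal1) (hC : SCmp) (M : Mu δ)
    (P : Pair Γ Θ A τ a₀ a₁ b₁ b₀ α β) (H : Ch δ Γ Θ a₀ b₀ h N κ x ξ) {v : V} (hv : v ∈ N) :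
    ∃ e > 0, ∀ w, |w - ξ v| < e → ∃ p, Rel δ Γ Θ a₀ b₀ p (h (κ v, w)) := by
  have lf := (hL Y).1 C h H.box (κ v)
  have ht := P.ht v
  have pi0 := Real.pi_pos
  set T : Set ℝ := Icc a₀ b₀ ∩ (fun t => Θ (v, t)) ⁻¹' {π / 2} with hT
  have Tc : IsCompact T := isCompact_Icc.of_isClosed_subset
    (ht.cont.preimage_isClosed_of_isClosed isClosed_Icc isClosed_singleton) inter_subset_left
  have Tn : T.Nonempty := by
    obtain ⟨t, m, e⟩ := intermediate_value_Icc (le0 P v) ht.cont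
      (show π / 2 ∈ Icc _ _ from ⟨by linarith [ht.start, ht.lo], by linarith [ht.stop, ht.hi]⟩)
    exact ⟨t, m, e⟩
  have ivt : ∀ t ∈ T, ∃ r > 0, ∀ z ∈ Icc (x (v, t) - r) (x (v, t) + r), ∃ v' ∈ N, ∃ t' ∈ Icc a₀ b₀,
      κ v' = κ v ∧ Θ (v', t') = π / 2 ∧ x (v', t') = z ∧
        ∀ w ∈ uIcc (ξ v) (ξ v'), ∃ p, Rel δ Γ Θ a₀ b₀ p (h (κ v, w)) := by
    intro t m
    obtain ⟨e1, r, r0, hr⟩ := near hL P H hv m.1 m.2
    refine ⟨r, r0, fun z hz => ⟨_, (hr z hz).1, _, (P.sec _).1, (hr z hz).2.1, (P.sec _).2.2,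
      (hr z hz).2.2, fun w hw => ?_⟩⟩
    have su : uIcc (x (v, t)) z ⊆ Icc (x (v, t) - r) (x (v, t) + r) :=
      uIcc_subset_Icc ⟨by linarith, by linarith⟩ hz
    have cg : ContinuousOn (fun z => ξ (A (h (κ v, z)))) (uIcc (x (v, t)) z) :=
      H.cξ.comp (P.cA.comp lf.cont).continuousOn fun u hu => (hr u (su hu)).1
    obtain ⟨u, hu, e⟩ := intermediate_value_uIcc cg (show w ∈ _ by simpa only [e1] using hw)
    have := rel hL h1 M P H (hr u (su hu)).1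
    rw [(hr u (su hu)).2.1, show ξ (A (h (κ v, u))) = w from e] at this
    exact ⟨_, this⟩
  obtain ⟨tp, mp, hp⟩ := Tc.exists_isMaxOn Tn ((H.cx1 hv).mono inter_subset_left)
  obtain ⟨tm, mm, hm⟩ := Tc.exists_isMinOn Tn ((H.cx1 hv).mono inter_subset_left)
  obtain ⟨rp, rp0, hrp⟩ := ivt tp mp
  obtain ⟨rm, rm0, hrm⟩ := ivt tm mm
  obtain ⟨vp, np, sp, msp, kp, θp, xp, wp⟩ := hrp (x (v, tp) + rp) ⟨by linarith, le_rfl⟩
  obtain ⟨vm, nm, sm, msm, km, θm, xm, wm⟩ := hrm (x (v, tm) - rm) ⟨le_rfl, by linarith⟩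
  have lp : ξ v < ξ vp := by
    have ne : v ≠ vp := by
      rintro rfl
      have : x (v, sp) ≤ x (v, tp) := hp (a := sp) ⟨msp, θp⟩
      linarith
    rcases cmp hL hC M P H hv np kp ne with k | k
    · exact k.1
    · obtain ⟨t, mt, θt, lt⟩ := k.2 sp msp θp
      have : x (v, t) ≤ x (v, tp) := hp (a := t) ⟨mt, θt⟩
      linarith
  have lm : ξ vm < ξ v := by
    have ne : v ≠ vm := by
      rintro rfl
      have : x (v, tm) ≤ x (v, sm) := hm (a := sm) ⟨msm, θm⟩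
      linarith
    rcases cmp hL hC M P H hv nm km ne with k | k
    · obtain ⟨t, mt, θt, lt⟩ := k.2 sm msm θm
      have : x (v, tm) ≤ x (v, t) := hm (a := t) ⟨mt, θt⟩
      linarith
    · exact k.1
  refine ⟨min (ξ vp - ξ v) (ξ v - ξ vm), lt_min (by linarith) (by linarith), fun w hw => ?_⟩
  rw [lt_min_iff, abs_lt, abs_lt] at hw
  rcases le_total (ξ v) w with k | k
  · exact wp w (mem_uIcc_of_le k (by linarith [hw.1.2]))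
  · exact wm w (mem_uIcc_of_ge (by linarith [hw.2.1]) k)

theorem nbhd (hL : SLeaf) (hB : SLB) (h1 : SBal1) (h2 : SBal2) (hC : SCmp) (M : Mu δ)
    (P : Pair Γ Θ A τ a₀ a₁ b₁ b₀ α β) {y : Y} (hy : HasBox y) {p : V}
    (hp : Rel δ Γ Θ a₀ b₀ p y) :
    ∃ U ∈ 𝓝 y, ∀ (γ : ℝ → Y) (s t : ℝ), PathIn U γ s t → γ s = y →
      ∃ p, Rel δ Γ Θ a₀ b₀ p (γ t) := by
  rcases hp with ⟨b, c, x₁, t₁, lc, cx, e, m, bal, rfl⟩ | ⟨b, rfl⟩
  · obtain ⟨C, _, h, N, κ, x, ξ, hp, H⟩ := chart hL hB h2 M P p t₁ m hy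
    have lf := (hL Y).1 C h H.box (κ p)
    have b1 := (h1 Y δ c x₁ _ a₀ b₀ M lc (le0 P p) cx (P.ht p).cont).2.2 _ _ lf (H.cx1 hp)
      (fun t ht => (e t ht).symm.trans (H.eq p hp t ht)) t₁ m bal
    have e1 : x (p, t₁) = ξ p :=
      (h1 Y δ _ _ _ a₀ b₀ M lf (le0 P p) (H.cx1 hp) (P.ht p).cont).1 _ _ b1 (H.bal p hp)
    have e2 : Γ (p, t₁) = h (κ p, ξ p) := by rw [H.eq p hp t₁ m, e1]
    obtain ⟨r, r0, hr⟩ := loc hL h1 hC M P H hp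
    obtain ⟨U, hU, lift⟩ := lf.lift (ξ p) r r0
    rw [e2]
    refine ⟨U, hU, fun γ s t hγ e0 => ?_⟩
    obtain ⟨ψ, -, -, hψ⟩ := lift γ s t hγ e0
    obtain ⟨k1, k2⟩ := hψ t ⟨hγ.le, le_rfl⟩
    rw [← k2]
    exact hr _ k1
  · exact absurd hy b

end Psi3A

open Psi3A in
theorem sPsi3 : SLeaf → SLB → SBal1 → SBal2 → SCmp → SPsi3 := by
  intro hL hB h1 h2 hC Y V _ _ δ Γ Θ A τ a₀ a₁ b₁ b₀ α β M P hS y
  obtain ⟨m, e, -⟩ := P.sec y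
  by_cases hy : HasBox y
  · obtain ⟨C, _, h, N, κ, x, ξ, hp, H⟩ := chart hL hB h2 M P (A y) (τ y) m (e.symm ▸ hy)
    have lf := (hL Y).1 C h H.box (κ (A y))
    have cl : IsClopen ((fun z => h (κ (A y), z)) ⁻¹' {y | ∃ v, Rel δ Γ Θ a₀ b₀ v y}) := by
      refine ⟨hS.preimage lf.cont, isOpen_iff_mem_nhds.2 fun z hz => ?_⟩
      obtain ⟨p, hp⟩ := hz
      obtain ⟨U, hU, k⟩ := nbhd hL hB h1 h2 hC M P ⟨C, _, h, H.box, _, rfl⟩ hp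
      obtain ⟨r, r0, hr⟩ := Metric.nhds_basis_closedBall.mem_iff.1 (lf.cont.continuousAt hU)
      rw [Real.closedBall_eq_Icc] at hr
      have pa : PathIn U (fun z => h (κ (A y), z)) (z - r) (z + r) :=
        ⟨by linarith, lf.cont.continuousOn, fun u hu => hr hu⟩
      refine mem_of_superset (Icc_mem_nhds (show z - r < z by linarith)
        (show z < z + r by linarith)) fun u hu => ?_
      rcases le_total z u with o | o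
      · exact k _ z u (pa.sub (by linarith) o hu.2) rfl
      · have := k _ (-z) (-u) (pa.sub hu.1 o (by linarith)).rev (by simp)
        simpa using this
    have := cl.eq_univ ⟨ξ (A y), _, rel hL h1 M P H hp⟩
    have k : x (A y, τ y) ∈ (fun z => h (κ (A y), z)) ⁻¹' {y | ∃ v, Rel δ Γ Θ a₀ b₀ v y} := by
      rw [this]
      trivial
    rw [← e, H.eq _ hp _ m]
    exact k
  · rcases P.dich (A y) with d | d
    · exact absurd (e ▸ d _ m) hy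
    · have e' : y = Γ (A y, a₀) := e.symm.trans (d _ m)
      exact ⟨A y, Or.inr ⟨e' ▸ hy, e'⟩⟩

end Pool.Agent.MP_0c1703_gt.H59
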