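import Pool.Agent.MP_0c1703_gt.H59.Kit

/-! If loops do not wind then every path between the ends of an arc covers the arc. -/

namespace Pool.Agent.MP_0c1703_gt.H59

open Set Filter Topology Pool.Agent.MP_0c1703_gt.H58
open scoped Real

namespace TreeA

/-- a continuous function that jumps from zero to one across a point outside a closed set -/
theorem exists_step {A : Set ℝ} (hA : IsClosed A) {x : ℝ} (hx : x ∉ A) :
    ∃ φ : ℝ → ℝ, Continuous φ ∧ (∀ r ∈ A, r ≤ x → φ r = 0) ∧ ∀ r ∈ A, x ≤ r → φ r = 1 := by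
  obtain ⟨φ, h0, h1, -⟩ := exists_continuous_zero_one_of_isClosed (hA.inter (isClosed_Iic (a := x)))
    (hA.inter (isClosed_Ici (a := x))) (disjoint_left.2 fun r h h' =>
      hx (le_antisymm (mem_Iic.1 h.2) (mem_Ici.1 h'.2) ▸ h.1))
  exact ⟨φ, φ.continuous, fun r hr h => h0 ⟨hr, h⟩, fun r hr h => h1 ⟨hr, h⟩⟩

end TreeA

theorem sTree : STree := by
  classical
  intro Y _ B hB c a b γ s t hc hγ ea eb
  rintro _ ⟨x, hx, rfl⟩
  by_contra hn
  have hab := hc.path.le
  have hst := hγ.le
  have hΓ : IsClosed (γ '' Icc s t) := hγ.isCompact.isClosed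
  have hC : IsClosed (c '' Icc a b) := hc.path.isCompact.isClosed
  obtain ⟨φ, hφ, h0, h1⟩ := TreeA.exists_step
    (hc.path.cont.preimage_isClosed_of_isClosed isClosed_Icc hΓ) (x := x) fun h => hn h.2
  have φa : φ a = 0 := h0 a ⟨left_mem_Icc.2 hab, s, left_mem_Icc.2 hst, ea⟩ hx.1
  have φb : φ b = 1 := h1 b ⟨right_mem_Icc.2 hab, t, right_mem_Icc.2 hst, eb⟩ hx.2
  have hi : ∀ r ∈ Icc a b, Function.invFunOn c (Icc a b) (c r) = r := fun r hr =>
    hc.inj.leftInvOn_invFunOn hr
  have hic : ContinuousOn (Function.invFunOn c (Icc a b)) (c '' Icc a b) :=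
    quot isCompact_Icc hc.path.cont (continuousOn_id.congr hi)
  let u : Y → ℂ := fun y => if y ∈ c '' Icc a b then
    Complex.exp (φ (Function.invFunOn c (Icc a b) y) * (2 * π * Complex.I)) else 1
  have u1 : ∀ r ∈ Icc a b, u (c r) = Complex.exp (φ r * (2 * π * Complex.I)) := fun r hr => by
    simp only [u, if_pos (mem_image_of_mem c hr), hi r hr]
  have u2 : ∀ y ∈ γ '' Icc s t, u y = 1 := by
    intro y hy
    by_cases h : y ∈ c '' Icc a b
    · obtain ⟨r, hr, rfl⟩ := h
      rw [u1 r hr]
      rcases le_total r x with h | h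
      · rw [h0 r ⟨hr, hy⟩ h]
        simp
      · rw [h1 r ⟨hr, hy⟩ h]
        simp
    · exact if_neg h
  have hu : ContinuousOn u (c '' Icc a b ∪ γ '' Icc s t) := by
    refine ContinuousOn.union_of_isClosed ?_ (continuousOn_const.congr u2) hC hΓ
    have h3 : Continuous fun r : ℝ => Complex.exp (φ r * (2 * π * Complex.I)) := by fun_prop
    exact (h3.comp_continuousOn hic).congr fun y hy => if_pos hy
  have key := hB (cat c a γ s) (a - b) (t - s) u
    (fun r => φ (a - min r 0) * (2 * π * Complex.I)) (hc.path.cat hγ ea.symm)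
    (by
      rw [cat_of_nonpos (by linarith), cat_of_nonneg ea.symm (by linarith), sub_sub_cancel,
        add_sub_cancel, eb])
    (by rwa [image_cat hab hst ea.symm]) (Continuous.continuousOn (by fun_prop))
    (fun r hr => by
      rcases le_total r 0 with h | h
      · rw [cat_of_nonpos h, u1 _ ⟨by linarith, by linarith [hr.1]⟩, min_eq_left h]
      · rw [cat_of_nonneg ea.symm h, u2 _ (mem_image_of_mem γ ⟨by linarith, by linarith [hr.2]⟩),
          min_eq_right h, sub_zero, φa]
        simp)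
  simp only [min_eq_left (show a - b ≤ 0 by linarith), min_eq_right (show 0 ≤ t - s by linarith),
    sub_sub_cancel, sub_zero, φa, φb] at key
  simp at key

end Pool.Agent.MP_0c1703_gt.H59
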