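import Pool.Agent.MP_0c1703_gt.H59.Kit

/-! A moving point is not an end point. -/

namespace Pool.Agent.MP_0c1703_gt.H59

open Set Filter Topology

theorem sTwo : SImm → SArc → SInv2 → STwo := by
  intro hImm hArc hInv Y _ B hB y hy
  obtain ⟨D, F, θ, s, hS⟩ := (hImm Y).2.2.1 y B (hB.mov y hy) hB.op hy
  have hs := hS.pos.le
  have hD : ∀ r ∈ Icc 0 s, ((y, θ), r) ∈ D := fun r hr =>
    hS.flow.sub _ _ hS.dom r (by rwa [uIcc_of_le hs])
  have h0 : F (y, θ) 0 = (y, θ) := hS.flow.zero _ _ hS.dom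
  have hγ : PathIn B (fun r => (F (y, θ) r).1) 0 s :=
    ⟨hs, continuous_fst.comp_continuousOn
      (hS.flow.cont.comp (f := fun r => ((y, θ), r)) (by fun_prop) hD), hS.mem⟩
  obtain ⟨c, hc, -, -⟩ := hArc Y _ 0 s hs hγ.cont (by simpa [h0] using hS.ne.symm)
  obtain ⟨r, hr, er⟩ := hc.path.mem (show (1 / 2 : ℝ) ∈ Icc 0 1 by norm_num)
  have hsh := hS.flow.shift (y, θ) 0 r (hD 0 (left_mem_Icc.2 hs)) (hD r hr)
  rw [zero_sub, h0] at hsh
  have ew : (c (1 / 2), (F (y, θ) r).2) = F (y, θ) r := Prod.ext er.symm rfl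
  have := hInv Y B _ _ _ _ c 0 1 (1 / 2) (F (y, θ) r).2 hB.lf
    ((hImm Y).2.2.2 D F B (-r) hS.flow hB.op) (hc.mono hγ.image_subset) (by norm_num) (by norm_num)
    (by rw [ew]; exact ⟨hsh.1, hS.mem r hr, by rw [hsh.2]; exact hy⟩)
  rwa [ew, hsh.2] at this

end Pool.Agent.MP_0c1703_gt.H59
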